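import Pool.Agent.Work.SUB.Defs
import Pool.Agent.Work.SUnit.NumberFieldData

/-!
# NfSD0: splitting products over the places (block M). The places of `S` and the others.
-/

set_option autoImplicit false

noncomputable section

namespace Pool.Agent.Work.SUB

open NumberField IsDedekindDomain

/-- The ring of `T`-integers. -/
abbrev RT (K : Type) [Field K] [NumberField K] (T : Finset (HeightOneSpectrum (𝓞 K))) :
    Subring K :=
  ((T : Set (HeightOneSpectrum (𝓞 K))).integer K).toSubring

end Pool.Agent.Work.SUB
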