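import Pool.Agent.Work.SUB.Pigeon
import Pool.Agent.Work.SUB.NfSD0

/-!
# NfCount: counting `T`-integers in boxes (block M, module M1)

`D = [K : ℚ] = ∑ w infinite, mult w` (`InfinitePlace.sum_mult_eq`). Let `ω_1, ..., ω_D` be the integral basis
(`NumberField.integralBasis` / `RingOfIntegers.basis`), `C = ∑_j max_w w (ω_j)` (`≥ 1` w.l.o.g.).
BASIC COUNT: for `P ≥ 1` the elements `y = ∑ a_j ω_j`, `a_j ∈ {0, ..., ⌊P / C⌋}`, are distinct elements of
`𝓞 K` with `w y ≤ P` for all infinite `w`; their number is `(⌊P/C⌋ + 1)^D ≥ (P/C)^D`.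

`nf_count2`: `B w = P` for `w` infinite, `B p = 1` for `p ∈ T` (`placeMult = 1` there; elements of `𝓞 K`
have `|y|_p ≤ 1` and are in `RT K T`), `d = D`, `c = C^(-D)`.

`nf_count`: for each `p ∈ T` the ideal `p^h`, `h = classNumber`, is principal, so there is `α ∈ 𝓞 K`
generating `∏_{p ∈ T} p^h`; `|α|_p = N(p)^(-h) ≤ 1/2` for `p ∈ T`, `|α|_q = 1` for `q ∉ T`, so `α⁻¹ ∈ RT K T`.
Given `B₀` (w.l.o.g. `≥ 1`) choose `s` with `|α|_p^(-s) ≥ B₀` for all `p ∈ T` and then `P` so large that
`|α|_w^(-s) P ≥ B₀` for all infinite `w`. The elements `α^(-s) y`, `y` from the basic count, are in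
`RT K T`, satisfy `|.|_w ≤ |α|_w^(-s) P =: B w` (`w` infinite), `|.|_p ≤ |α|_p^(-s) =: B p`, and
`∏ B^m = P^D (∏_{w ∈ S} |α|_w^(m w))^(-s) = P^D` by the product formula (`prod_abs_eq_one`; only the
finite places in `T` contribute). So `c ∏ B^m = C^(-D) P^D ≤` number.
-/

set_option autoImplicit false

noncomputable section

namespace Pool.Agent.Work.SUB

open NumberField IsDedekindDomain

variable (K : Type) [Field K] [NumberField K] (T : Finset (HeightOneSpectrum (𝓞 K)))

private lemma mk_eq_toNNReal' {K : Type} [Field K] [NumberField K] (p : HeightOneSpectrum (𝓞 K))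
    (x : K) : FinitePlace.mk p x = (WithZeroMulInt.toNNReal (HeightOneSpectrum.absNorm_ne_zero p)
      (p.valuation K x) : ℝ) := by
  rw [FinitePlace.mk_apply, FinitePlace.norm_embedding, NumberField.HeightOneSpectrum.adicAbv_def]

private lemma mk_le_iff' {K : Type} [Field K] [NumberField K] (p : HeightOneSpectrum (𝓞 K))
    (x y : K) : FinitePlace.mk p x ≤ FinitePlace.mk p y ↔ p.valuation K x ≤ p.valuation K y := by
  rw [mk_eq_toNNReal', mk_eq_toNNReal']
  have h2 := (WithZeroMulInt.toNNReal_strictMono (by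
    exact_mod_cast NumberField.HeightOneSpectrum.one_lt_absNorm_nnreal p :
      1 < (Ideal.absNorm p.asIdeal : NNReal))).le_iff_le (a := p.valuation K x)
        (b := p.valuation K y)
  rw [← h2]
  exact_mod_cast Iff.rfl

private lemma mk_le_half {K : Type} [Field K] [NumberField K] (p : HeightOneSpectrum (𝓞 K))
    (α : 𝓞 K) (h : α ∈ p.asIdeal) : FinitePlace.mk p (α : K) ≤ 1 / 2 := by
  obtain ⟨π, hπ⟩ := p.valuation_exists_uniformizer K
  have h1 : FinitePlace.mk p π = ((Ideal.absNorm p.asIdeal : ℕ) : ℝ)⁻¹ := by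
    rw [mk_eq_toNNReal', hπ]
    have h0 : (WithZero.exp (-1 : ℤ)) ≠ 0 := WithZero.exp_ne_zero
    rw [WithZeroMulInt.toNNReal_neg_apply _ h0]
    have h1 : WithZero.unzero h0 = Multiplicative.ofAdd (-1 : ℤ) := rfl
    rw [h1]
    simp
  have h2 : FinitePlace.mk p (α : K) ≤ FinitePlace.mk p π := by
    rw [mk_le_iff', hπ, HeightOneSpectrum.valuation_of_algebraMap]
    have := (HeightOneSpectrum.intValuation_le_pow_iff_mem p α 1).2 (by simpa using h)
    simpa using this
  refine h2.trans ?_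
  rw [h1, one_div]
  have h3 : (2:ℝ) ≤ ((Ideal.absNorm p.asIdeal : ℕ) : ℝ) := by
    have := HeightOneSpectrum.one_lt_absNorm p
    exact_mod_cast this
  exact inv_anti₀ (by norm_num) h3

/-- Basic count: integers of `K` all of whose conjugates are bounded by `P`. -/
private lemma basic_count : ∃ c : ℝ, 0 < c ∧ ∀ P : ℝ, 1 ≤ P → ∃ s : Finset (𝓞 K),
    (∀ y ∈ s, ∀ w : InfinitePlace K, w (y : K) ≤ P) ∧
      c * P ^ Module.finrank ℚ K ≤ s.card := by
  classical
  set J := Module.Free.ChooseBasisIndex ℤ (𝓞 K) with hJ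
  let ω : Module.Basis J ℤ (𝓞 K) := RingOfIntegers.basis K
  have hcardJ : Fintype.card J = Module.finrank ℚ K := by
    rw [← RingOfIntegers.rank]
    exact (Module.finrank_eq_card_basis ω).symm
  set C : ℝ := 1 + ∑ w : InfinitePlace K, ∑ j : J, w (ω j : K) with hC
  have hC1 : 1 ≤ C := by
    have : 0 ≤ ∑ w : InfinitePlace K, ∑ j : J, w (ω j : K) :=
      Finset.sum_nonneg fun _ _ => Finset.sum_nonneg fun _ _ => apply_nonneg _ _
    linarith
  have hCw : ∀ w : InfinitePlace K, ∑ j : J, w (ω j : K) ≤ C := by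
    intro w
    have h1 : ∑ j : J, w (ω j : K) ≤ ∑ w : InfinitePlace K, ∑ j : J, w (ω j : K) :=
      Finset.single_le_sum (f := fun w : InfinitePlace K => ∑ j : J, w (ω j : K))
        (fun _ _ => Finset.sum_nonneg fun _ _ => apply_nonneg _ _) (Finset.mem_univ w)
    linarith
  refine ⟨(C⁻¹) ^ Module.finrank ℚ K, by positivity, fun P hP => ?_⟩
  set M := ⌊P / C⌋₊ with hM
  let F : (J → Fin (M + 1)) → 𝓞 K := fun a => ∑ j, ((a j : ℕ) : ℤ) • ω j
  have hF : Function.Injective F := by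
    intro a b hab
    have h1 := ω.equivFun.symm.injective (a₁ := fun j => ((a j : ℕ) : ℤ))
      (a₂ := fun j => ((b j : ℕ) : ℤ)) (by
        rw [Module.Basis.equivFun_symm_apply, Module.Basis.equivFun_symm_apply]
        exact hab)
    funext j
    have h2 := congrFun h1 j
    have h3 : ((a j : ℕ)) = (b j : ℕ) := by exact_mod_cast h2
    exact Fin.ext h3
  refine ⟨Finset.univ.image F, ?_, ?_⟩
  · intro y hy w
    obtain ⟨a, -, rfl⟩ := Finset.mem_image.1 hy
    have h1 : ((F a : 𝓞 K) : K) = ∑ j, ((a j : ℕ) : K) * (ω j : K) := by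
      simp only [F, map_sum]
      refine Finset.sum_congr rfl fun j _ => ?_
      simp
    rw [h1]
    have h2 : w (∑ j, ((a j : ℕ) : K) * (ω j : K)) ≤ ∑ j, w (((a j : ℕ) : K) * (ω j : K)) :=
      w.1.sum_le _ _
    refine h2.trans ?_
    have h3 : ∀ j, w (((a j : ℕ) : K) * (ω j : K)) ≤ (P / C) * w (ω j : K) := by
      intro j
      rw [map_mul]
      refine mul_le_mul_of_nonneg_right ?_ (apply_nonneg _ _)
      have h4 : w ((a j : ℕ) : K) = ((a j : ℕ) : ℝ) := by
        rw [← InfinitePlace.norm_embedding_eq]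
        simp
      rw [h4]
      have h5 : (a j : ℕ) ≤ M := by have := (a j).2; omega
      have h6 : ((a j : ℕ) : ℝ) ≤ (M : ℝ) := by exact_mod_cast h5
      exact h6.trans (Nat.floor_le (by positivity))
    calc ∑ j, w (((a j : ℕ) : K) * (ω j : K)) ≤ ∑ j, (P / C) * w (ω j : K) :=
          Finset.sum_le_sum fun j _ => h3 j
      _ = (P / C) * ∑ j, w (ω j : K) := by rw [Finset.mul_sum]
      _ ≤ (P / C) * C := mul_le_mul_of_nonneg_left (hCw w) (by positivity)
      _ = P := by field_simp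
  · rw [Finset.card_image_of_injective _ hF, Finset.card_univ, Fintype.card_fun, hcardJ,
      Fintype.card_fin]
    push_cast
    rw [← mul_pow]
    refine pow_le_pow_left₀ (by positivity) ?_ _
    rw [inv_mul_eq_div]
    exact (Nat.lt_floor_add_one _).le

private lemma int_mem'' (a : 𝓞 K) : (a : K) ∈ RT K T := by
  intro p _
  exact p.valuation_le_one a

private lemma coe_inj' : Function.Injective (fun a : 𝓞 K => (a : K)) :=
  fun _ _ h => RingOfIntegers.ext h

theorem nf_count2 : HasCount2 (SUnit.placeAbs K T) (SUnit.placeMult K T) (RT K T) := by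
  classical
  obtain ⟨c, hc, hcount⟩ := basic_count K
  refine ⟨c, hc, Module.finrank ℚ K, Module.finrank_pos, fun P hP => ?_⟩
  obtain ⟨s, hs1, hs2⟩ := hcount P hP
  refine ⟨fun w => match w with
    | Sum.inl _ => P
    | Sum.inr _ => 1, ?_, ?_, s.image (fun a : 𝓞 K => (a : K)), ?_, ?_⟩
  · rintro (w | p)
    · exact ⟨hP, le_rfl⟩
    · exact ⟨le_rfl, hP⟩
  · rw [Fintype.prod_sum_type]
    simp only [one_pow, Finset.prod_const_one, mul_one]
    rw [Finset.prod_pow_eq_pow_sum]
    congr 1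
    exact InfinitePlace.sum_mult_eq
  · intro x hx
    obtain ⟨y, hy, rfl⟩ := Finset.mem_image.1 hx
    refine ⟨int_mem'' K T y, ?_⟩
    rintro (w | p)
    · exact hs1 y hy w
    · exact FinitePlace.norm_le_one K p.1 y
  · rw [Finset.card_image_of_injective _ (coe_inj' K)]
    exact hs2

/-- An element generating a power of the product of the primes of `T`. -/
theorem exists_alpha : ∃ α : 𝓞 K, α ≠ 0 ∧ (∀ p ∈ T, FinitePlace.mk p (α : K) ≤ 1 / 2) ∧
    (∀ p ∉ T, FinitePlace.mk p (α : K) = 1) := by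
  classical
  set I : Ideal (𝓞 K) := ∏ p ∈ T, p.asIdeal with hI
  have hI0 : I ≠ 0 := Finset.prod_ne_zero_iff.2 fun p _ => p.ne_bot
  set h := Fintype.card (ClassGroup (𝓞 K)) with hh
  have hpos : 0 < h := Fintype.card_pos
  have hmem : I ^ h ∈ nonZeroDivisors (Ideal (𝓞 K)) :=
    mem_nonZeroDivisors_of_ne_zero (pow_ne_zero _ hI0)
  have hprin : (I ^ h).IsPrincipal := by
    rw [← ClassGroup.mk0_eq_one_iff hmem]
    have h1 : (⟨I ^ h, hmem⟩ : nonZeroDivisors (Ideal (𝓞 K))) =
        (⟨I, mem_nonZeroDivisors_of_ne_zero hI0⟩ : nonZeroDivisors (Ideal (𝓞 K))) ^ h := rfl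
    rw [h1, map_pow, hh, pow_card_eq_one]
  obtain ⟨α, hα⟩ := hprin
  have hα' : I ^ h = Ideal.span {α} := hα
  have hmemI : α ∈ I ^ h := by rw [hα']; exact Ideal.mem_span_singleton_self α
  refine ⟨α, ?_, ?_, ?_⟩
  · rintro rfl
    have : I ^ h = 0 := by rw [hα']; simp
    exact pow_ne_zero _ hI0 this
  · intro p hp
    apply mk_le_half
    have h1 : I ≤ p.asIdeal := by
      rw [← Ideal.dvd_iff_le]
      exact Finset.dvd_prod_of_mem _ hp
    exact h1 (Ideal.pow_le_self hpos.ne' hmemI)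
  · intro p hp
    rw [FinitePlace.mk_apply]
    rw [FinitePlace.norm_eq_one_iff_notMem]
    intro hαp
    have h1 : I ^ h ≤ p.asIdeal := by
      rw [hα', Ideal.span_singleton_le_iff_mem]
      exact hαp
    have h2 : I ≤ p.asIdeal := Ideal.IsPrime.le_of_pow_le h1
    rw [hI, Ideal.IsPrime.prod_le p.isPrime] at h2
    obtain ⟨q, hq, hqp⟩ := h2
    have h3 : q.asIdeal = p.asIdeal :=
      (q.isMaximal.eq_of_le p.isPrime.ne_top hqp)
    have h4 : q = p := HeightOneSpectrum.ext h3
    exact hp (h4 ▸ hq)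

theorem nf_count : HasCount (SUnit.placeAbs K T) (SUnit.placeMult K T) (RT K T) := by
  classical
  obtain ⟨c, hc, hcount⟩ := basic_count K
  obtain ⟨α, hα0, hαT, hαT'⟩ := exists_alpha K T
  have hαK : (α : K) ≠ 0 := by simpa using hα0
  refine ⟨c, hc, fun B₀ => ?_⟩
  obtain ⟨k, hk⟩ := pow_unbounded_of_one_lt (max B₀ 1) (one_lt_two : (1:ℝ) < 2)
  set β : K := ((α : K) ^ k)⁻¹ with hβ
  have hβ0 : β ≠ 0 := inv_ne_zero (pow_ne_zero _ hαK)
  have hβT : ∀ p ∈ T, max B₀ 1 ≤ FinitePlace.mk p β := by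
    intro p hp
    rw [hβ, map_inv₀, map_pow]
    refine hk.le.trans ?_
    have h1 : 0 < FinitePlace.mk p (α : K) := FinitePlace.pos_iff.2 hαK
    rw [← inv_pow]
    refine pow_le_pow_left₀ (by norm_num) ?_ _
    rw [le_inv_comm₀ (by norm_num) h1]
    have := hαT p hp
    rwa [one_div] at this
  have hβT' : ∀ p ∉ T, FinitePlace.mk p β = 1 := by
    intro p hp
    rw [hβ, map_inv₀, map_pow, hαT' p hp]
    simp
  have hβR : β ∈ RT K T := by
    intro p hp
    have h1 := hβT' p (by simpa using hp)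
    have h2 : FinitePlace.mk p β ≤ FinitePlace.mk p (1:K) := by rw [h1, map_one]
    rw [mk_le_iff', map_one] at h2
    exact h2
  set P : ℝ := 1 + ∑ w : InfinitePlace K, max B₀ 1 / w β with hP
  have hwβ : ∀ w : InfinitePlace K, 0 < w β := fun w => (InfinitePlace.pos_iff).2 hβ0
  have hP1 : 1 ≤ P := by
    have : 0 ≤ ∑ w : InfinitePlace K, max B₀ 1 / w β :=
      Finset.sum_nonneg fun w _ => div_nonneg (by positivity) (hwβ w).le
    linarith
  have hPw : ∀ w : InfinitePlace K, max B₀ 1 ≤ w β * P := by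
    intro w
    have h1 : max B₀ 1 / w β ≤ ∑ w : InfinitePlace K, max B₀ 1 / w β :=
      Finset.single_le_sum (f := fun w : InfinitePlace K => max B₀ 1 / w β)
        (fun w _ => div_nonneg (by positivity) (hwβ w).le) (Finset.mem_univ w)
    have h2 : max B₀ 1 / w β ≤ P := by linarith
    rw [div_le_iff₀ (hwβ w)] at h2
    linarith
  obtain ⟨s, hs1, hs2⟩ := hcount P hP1
  refine ⟨fun w => match w with
    | Sum.inl w => w β * P
    | Sum.inr p => FinitePlace.mk p.1 β, ?_, s.image (fun a : 𝓞 K => β * (a : K)), ?_, ?_⟩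
  · rintro (w | p)
    · exact ⟨(le_max_left _ _).trans (hPw w), (le_max_right _ _).trans (hPw w)⟩
    · exact ⟨(le_max_left _ _).trans (hβT p.1 p.2), (le_max_right _ _).trans (hβT p.1 p.2)⟩
  · intro x hx
    obtain ⟨y, hy, rfl⟩ := Finset.mem_image.1 hx
    refine ⟨mul_mem hβR (int_mem'' K T y), ?_⟩
    rintro (w | p)
    · show w (β * (y : K)) ≤ w β * P
      rw [map_mul]
      exact mul_le_mul_of_nonneg_left (hs1 y hy w) (hwβ w).le
    · show FinitePlace.mk p.1 (β * (y : K)) ≤ FinitePlace.mk p.1 β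
      rw [map_mul]
      exact mul_le_of_le_one_right (apply_nonneg _ _) (FinitePlace.norm_le_one K p.1 y)
  · have hinj : Function.Injective (fun a : 𝓞 K => β * (a : K)) := by
      intro a b hab
      exact coe_inj' K (mul_left_cancel₀ hβ0 hab)
    rw [Finset.card_image_of_injective _ hinj]
    rw [Fintype.prod_sum_type]
    have h1 : ∏ w : InfinitePlace K, (w β * P) ^ w.mult =
        P ^ Module.finrank ℚ K * ∏ w : InfinitePlace K, w β ^ w.mult := by
      simp_rw [mul_pow]
      rw [Finset.prod_mul_distrib, Finset.prod_pow_eq_pow_sum, InfinitePlace.sum_mult_eq, mul_comm]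
    have h2 : ∏ p : {p : HeightOneSpectrum (𝓞 K) // p ∈ T}, FinitePlace.mk p.1 β =
        ∏ᶠ w : FinitePlace K, w β := by
      have h3 : ∏ᶠ w : FinitePlace K, w β = ∏ᶠ p : HeightOneSpectrum (𝓞 K), FinitePlace.mk p β := by
        rw [← finprod_comp_equiv (FinitePlace.equivHeightOneSpectrum (K := K)).symm]
        rfl
      rw [h3, finprod_eq_prod_of_mulSupport_subset (s := T) _ (by
        intro p hp
        by_contra hpS
        exact hp (hβT' p hpS))]
      rw [← Finset.prod_coe_sort T]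
    have h3 := prod_abs_eq_one (K := K) hβ0
    have h4 : (∏ w : InfinitePlace K, (w β * P) ^ SUnit.placeMult K T (Sum.inl w)) *
        ∏ p : {p : HeightOneSpectrum (𝓞 K) // p ∈ T},
          (FinitePlace.mk p.1 β) ^ SUnit.placeMult K T (Sum.inr p) =
        P ^ Module.finrank ℚ K := by
      have e1 : ∏ p : {p : HeightOneSpectrum (𝓞 K) // p ∈ T},
          (FinitePlace.mk p.1 β) ^ SUnit.placeMult K T (Sum.inr p) =
          ∏ p : {p : HeightOneSpectrum (𝓞 K) // p ∈ T}, FinitePlace.mk p.1 β := by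
        refine Finset.prod_congr rfl fun p _ => ?_
        show _ ^ 1 = _
        rw [pow_one]
      have e2 : ∏ w : InfinitePlace K, (w β * P) ^ SUnit.placeMult K T (Sum.inl w) =
          ∏ w : InfinitePlace K, (w β * P) ^ w.mult := rfl
      rw [e1, e2, h1, h2, mul_assoc, h3, mul_one]
    rw [h4]
    exact hs2

end Pool.Agent.Work.SUB
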