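import Pool.Agent.Work.SUB.Pigeon
import Pool.Agent.Work.SUnit.NumberFieldData

/-!
# NfCover: covering property for number fields (block M, module M1)

PROOF. Infinite place `w` (`placeAbs K T (inl w) x = w x = ‖w.embedding x‖`, `placeMult = w.mult`, 1 for
real and 2 for complex). Let `s = σ / 2`. `f x` is the pair `(⌊Re z / s⌋, ⌊Im z / s⌋)`, `z = w.embedding
x`, truncated to the finite range `|.| ≤ ρ/s + 1` (both floors lie in an interval of `≤ 2ρ/s + 3 ≤ 7 ρ/σ`
integers, as `ρ/σ ≥ 1`); for a real place `Im z = 0` (`InfinitePlace.IsReal`, the embedding is real), so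
only the first coordinate is used. Same cell: `|z - z'| ≤ √2 s ≤ σ`. `N ≤ (7 ρ/σ)^mult`.
Finite place `p`, `q = N p` (`Ideal.absNorm`), `|x| = FinitePlace.mk p x` takes the values `q^k`, `k ∈ ℤ`,
and `0`. Enough: every finite set `{x_i}` of elements with `|x_i| ≤ ρ` and `|x_i - x_j| > σ` for `i ≠ j` has
at most `q ρ/σ` elements (then take a maximal such set, of cardinality `N`, and let `f x` be an `i` with
`|x - x_i| ≤ σ`; the ultrametric inequality gives `|x - y| ≤ σ` if `f x = f y`). Let `d ∈ 𝓞 K`, `d ≠ 0`,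
with all `d x_i ∈ 𝓞 K` (finitely many; `IsLocalization` / `exist_integer_multiples`), `|d| = q^(-e)`. Let
`a, b ∈ ℤ` be maximal with `q^a ≤ ρ`, `q^b ≤ σ` (`b ≤ a`). Then `|d x_i| ≤ q^(a-e)`, so
`d x_i ∈ p^(max (e-a) 0)`, and `|d x_i - d x_j| > q^(b-e)`, so `d x_i - d x_j ∉ p^(e-b)` if `e - b ≥ 0` (if
`e - b < 0` there is at most one `x_i`, as all elements of `𝓞 K` have absolute value `≤ 1`). Hence the
`d x_i` are distinct in `p^k / p^l`, `k = max (e-a) 0 ≤ l = e - b`, of cardinality `q^(l-k) ≤ q^(a-b) ≤ q ρ/σ`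
(`Ideal.absNorm` is multiplicative, `Ideal.absNorm_apply`, card of the quotient; simplest: if `k > 0`
enlarge `d`? or bound the number of classes modulo `p^l` inside `p^k` by the index
`(absNorm (p^l)) / (absNorm (p^k))`). ALTERNATIVE: choose `ϖ ∈ K` with `|ϖ| = q^(-1)` and multiply all
`x_i` by `ϖ^a'` so that `ρ = 1` (up to the factor `q`); then `x_i` is in the localization at `p`, and
`x_i = y_i / s_i` with `s_i ∉ p`; multiply by the product of the `s_i` (absolute value 1): `y_i ∈ 𝓞 K`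
distinct modulo `p^l`, so at most `q^l` of them.
-/

set_option autoImplicit false

noncomputable section

namespace Pool.Agent.Work.SUB

open NumberField IsDedekindDomain

/-! ### The finite places -/

private lemma mk_eq_toNNReal {K : Type} [Field K] [NumberField K] (p : HeightOneSpectrum (𝓞 K))
    (x : K) : FinitePlace.mk p x = (WithZeroMulInt.toNNReal (HeightOneSpectrum.absNorm_ne_zero p)
      (p.valuation K x) : ℝ) := by
  rw [FinitePlace.mk_apply, FinitePlace.norm_embedding, NumberField.HeightOneSpectrum.adicAbv_def]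

private lemma mk_le_iff {K : Type} [Field K] [NumberField K] (p : HeightOneSpectrum (𝓞 K))
    (x y : K) : FinitePlace.mk p x ≤ FinitePlace.mk p y ↔ p.valuation K x ≤ p.valuation K y := by
  rw [mk_eq_toNNReal, mk_eq_toNNReal]
  have h2 := (WithZeroMulInt.toNNReal_strictMono (by
    exact_mod_cast NumberField.HeightOneSpectrum.one_lt_absNorm_nnreal p :
      1 < (Ideal.absNorm p.asIdeal : NNReal))).le_iff_le (a := p.valuation K x)
        (b := p.valuation K y)
  rw [← h2]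
  exact_mod_cast Iff.rfl

private lemma exists_unif {K : Type} [Field K] [NumberField K] (p : HeightOneSpectrum (𝓞 K)) :
    ∃ π : K, p.valuation K π = WithZero.exp (-1 : ℤ) ∧
      FinitePlace.mk p π = ((Ideal.absNorm p.asIdeal : ℕ) : ℝ)⁻¹ := by
  obtain ⟨π, hπ⟩ := p.valuation_exists_uniformizer K
  refine ⟨π, hπ, ?_⟩
  rw [mk_eq_toNNReal, hπ]
  have h0 : (WithZero.exp (-1 : ℤ)) ≠ 0 := WithZero.exp_ne_zero
  rw [WithZeroMulInt.toNNReal_neg_apply _ h0]
  have h1 : WithZero.unzero h0 = Multiplicative.ofAdd (-1 : ℤ) := rfl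
  rw [h1]
  simp

private lemma cover_fin (K : Type) [Field K] [NumberField K] (p : HeightOneSpectrum (𝓞 K)) :
    ∃ C : ℝ, 1 ≤ C ∧ ∀ ρ σ : ℝ, 0 < σ → σ ≤ ρ → ∃ (N : ℕ) (f : K → Fin N),
    (N : ℝ) ≤ C * (ρ / σ) ^ 1 ∧
      ∀ x y : K, FinitePlace.mk p x ≤ ρ → FinitePlace.mk p y ≤ ρ → f x = f y →
        FinitePlace.mk p (x - y) ≤ σ := by
  classical
  obtain ⟨π, hπ, hπ'⟩ := exists_unif p
  set q : ℕ := Ideal.absNorm p.asIdeal with hq
  have hq1 : (1:ℝ) < q := by
    have := HeightOneSpectrum.one_lt_absNorm p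
    exact_mod_cast this
  have hq0 : (0:ℝ) < q := by linarith
  have hπ0 : π ≠ 0 := by
    rintro rfl
    rw [map_zero] at hπ
    exact WithZero.exp_ne_zero hπ.symm
  have hmkz : ∀ k : ℤ, FinitePlace.mk p (π ^ k) = (q:ℝ) ^ (-k) := by
    intro k
    rw [map_zpow₀, hπ', inv_zpow, zpow_neg]
  refine ⟨(q:ℝ) ^ 2, by nlinarith, ?_⟩
  intro ρ σ hσ hσρ
  have hρ : 0 < ρ := lt_of_lt_of_le hσ hσρ
  obtain ⟨a, ha1, ha2⟩ := exists_mem_Ioc_zpow hρ hq1
  obtain ⟨b, hb1, hb2⟩ := exists_mem_Ico_zpow hσ hq1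
  -- `q ^ a < ρ ≤ q ^ (a + 1)`, `q ^ b ≤ σ < q ^ (b + 1)`
  have hba : b ≤ a + 1 := by
    have : (q:ℝ) ^ b ≤ (q:ℝ) ^ (a + 1) := hb1.trans (hσρ.trans ha2)
    exact (zpow_le_zpow_iff_right₀ hq1).1 this
  obtain ⟨l, hl⟩ := Int.eq_ofNat_of_zero_le (sub_nonneg.2 hba)
  have hfin : Finite (𝓞 K ⧸ p.asIdeal ^ l) := by
    rw [← Ideal.absNorm_ne_zero_iff]
    rw [map_pow]
    exact pow_ne_zero _ (by
      have := HeightOneSpectrum.one_lt_absNorm p
      omega)
  have hcard : Nat.card (𝓞 K ⧸ p.asIdeal ^ l) = q ^ l := by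
    have : Ideal.absNorm (p.asIdeal ^ l) = Nat.card (𝓞 K ⧸ p.asIdeal ^ l) := rfl
    rw [← this, map_pow]
  let e : (𝓞 K ⧸ p.asIdeal ^ l) ≃ Fin (Nat.card (𝓞 K ⧸ p.asIdeal ^ l)) := Finite.equivFin _
  have hex : ∀ x : K, FinitePlace.mk p x ≤ ρ → ∃ y : 𝓞 K,
      p.valuation K (algebraMap (𝓞 K) K y - x * π ^ (a + 1)) ≤ WithZero.exp (-(l:ℤ)) := by
    intro x hx
    have h1 : p.valuation K (x * π ^ (a + 1)) ≤ 1 := by
      rw [← map_one (p.valuation K), ← mk_le_iff, map_mul, hmkz, map_one]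
      rw [zpow_neg, ← div_eq_mul_inv, div_le_one (by positivity)]
      exact hx.trans ha2
    obtain ⟨y, hy⟩ := HeightOneSpectrum.exists_valuation_sub_lt_of_integer p h1
      (Units.mk0 (WithZero.exp (-(l:ℤ))) WithZero.exp_ne_zero)
    exact ⟨y, hy.le⟩
  let g : K → 𝓞 K := fun x => if h : FinitePlace.mk p x ≤ ρ then (hex x h).choose else 0
  have hg : ∀ x : K, FinitePlace.mk p x ≤ ρ →
      p.valuation K (algebraMap (𝓞 K) K (g x) - x * π ^ (a + 1)) ≤ WithZero.exp (-(l:ℤ)) := by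
    intro x hx
    simp only [g, dif_pos hx]
    exact (hex x hx).choose_spec
  refine ⟨Nat.card (𝓞 K ⧸ p.asIdeal ^ l), fun x => e (Ideal.Quotient.mk _ (g x)), ?_, ?_⟩
  · rw [hcard]
    push_cast
    rw [pow_one]
    have h1 : (q:ℝ) ^ l = (q:ℝ) ^ (a + 1 - b) := by rw [hl]; simp
    rw [h1, mul_div_assoc', le_div_iff₀ hσ]
    have h2 : (q:ℝ) ^ (a + 1 - b) * σ ≤ (q:ℝ) ^ (a + 1 - b) * (q:ℝ) ^ (b + 1) :=
      mul_le_mul_of_nonneg_left hb2.le (by positivity)
    have h3 : (q:ℝ) ^ (a + 1 - b) * (q:ℝ) ^ (b + 1) = (q:ℝ) ^ 2 * (q:ℝ) ^ a := by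
      rw [← zpow_add₀ hq0.ne', show (q:ℝ) ^ 2 = (q:ℝ) ^ (2:ℤ) by norm_cast,
        ← zpow_add₀ hq0.ne']
      congr 1
      ring
    calc (q:ℝ) ^ (a + 1 - b) * σ ≤ (q:ℝ) ^ 2 * (q:ℝ) ^ a := by rw [← h3]; exact h2
      _ ≤ (q:ℝ) ^ 2 * ρ := mul_le_mul_of_nonneg_left ha1.le (by positivity)
  · intro x y hx hy hxy
    have h1 := e.injective hxy
    rw [Ideal.Quotient.eq, ← HeightOneSpectrum.intValuation_le_pow_iff_mem,
      ← HeightOneSpectrum.valuation_of_algebraMap (K := K)] at h1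
    have h2 : p.valuation K ((x - y) * π ^ (a + 1)) ≤ WithZero.exp (-(l:ℤ)) := by
      have e1 : (x - y) * π ^ (a + 1) = algebraMap (𝓞 K) K (g x - g y)
          - (algebraMap (𝓞 K) K (g x) - x * π ^ (a + 1))
          + (algebraMap (𝓞 K) K (g y) - y * π ^ (a + 1)) := by
        rw [map_sub]; ring
      rw [e1]
      refine Valuation.map_add_le _ (Valuation.map_sub_le _ h1 (hg x hx)) (hg y hy)
    have h3 : p.valuation K (π ^ l) = WithZero.exp (-(l:ℤ)) := by
      rw [map_pow, hπ, ← WithZero.exp_nsmul]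
      simp
    rw [← h3, ← mk_le_iff, map_mul, hmkz] at h2
    have h4 : FinitePlace.mk p (π ^ l) = (q:ℝ) ^ (-(l:ℤ)) := by
      have := hmkz l
      rwa [zpow_natCast] at this
    rw [h4] at h2
    have h5 : FinitePlace.mk p (x - y) ≤ (q:ℝ) ^ b := by
      have h6 : FinitePlace.mk p (x - y) = FinitePlace.mk p (x - y) * (q:ℝ) ^ (-(a + 1)) *
          (q:ℝ) ^ (a + 1) := by
        rw [mul_assoc, ← zpow_add₀ hq0.ne']
        simp
      rw [h6]
      calc _ ≤ (q:ℝ) ^ (-(l:ℤ)) * (q:ℝ) ^ (a + 1) := mul_le_mul_of_nonneg_right h2 (by positivity)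
        _ = (q:ℝ) ^ b := by
          rw [← zpow_add₀ hq0.ne']
          congr 1
          have : (l:ℤ) = a + 1 - b := by rw [hl]
          omega
    exact h5.trans hb1

/-! ### The infinite places -/

private lemma floor_cell (ρ s : ℝ) (hs : 0 < s) :
    ∃ g : ℝ → Fin (2 * ⌈ρ / s⌉₊ + 1), ∀ t t' : ℝ, |t| ≤ ρ → |t'| ≤ ρ → g t = g t' →
      |t - t'| ≤ s := by
  set M := ⌈ρ / s⌉₊ with hM
  refine ⟨fun t => ⟨min (⌊t / s⌋ + M).toNat (2 * M), by omega⟩, ?_⟩
  have key : ∀ t : ℝ, |t| ≤ ρ → 0 ≤ ⌊t / s⌋ + M ∧ ⌊t / s⌋ + M ≤ 2 * M := by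
    intro t ht
    have h1 : |t / s| ≤ M := by
      rw [abs_div, abs_of_pos hs]
      exact (div_le_div_of_nonneg_right ht hs.le).trans (Nat.le_ceil _)
    rw [abs_le] at h1
    constructor
    · have : -(M:ℤ) ≤ ⌊t / s⌋ := by
        rw [Int.le_floor]
        push_cast
        exact h1.1
      omega
    · have : ⌊t / s⌋ ≤ (M:ℤ) := by
        have h2 : (⌊t / s⌋ : ℝ) ≤ (M:ℝ) := (Int.floor_le _).trans h1.2
        exact_mod_cast h2
      omega
  intro t t' ht ht' h
  have h1 := key t ht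
  have h2 := key t' ht'
  have h3 : min (⌊t / s⌋ + M).toNat (2 * M) = min (⌊t' / s⌋ + M).toNat (2 * M) := by
    simpa using congrArg Fin.val h
  have h4 : ⌊t / s⌋ = ⌊t' / s⌋ := by omega
  have h5 := Int.abs_sub_lt_one_of_floor_eq_floor h4
  rw [← sub_div, abs_div, abs_of_pos hs, div_lt_one hs] at h5
  exact h5.le

private lemma ceil_le {ρ σ : ℝ} (hσ : 0 < σ) (hσρ : σ ≤ ρ) :
    (((2 * ⌈ρ / (σ / 2)⌉₊ + 1 : ℕ)) : ℝ) ≤ 7 * (ρ / σ) := by
  have h1 : (⌈ρ / (σ / 2)⌉₊ : ℝ) ≤ ρ / (σ / 2) + 1 :=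
    (Nat.ceil_lt_add_one (by
      have : 0 < ρ := lt_of_lt_of_le hσ hσρ
      positivity)).le
  have h2 : ρ / (σ / 2) = 2 * (ρ / σ) := by field_simp
  have h3 : 1 ≤ ρ / σ := by rwa [le_div_iff₀ hσ, one_mul]
  push_cast
  rw [h2] at h1 ⊢
  linarith

private lemma cover_inf (K : Type) [Field K] [NumberField K] (w : InfinitePlace K) :
    ∃ C : ℝ, 1 ≤ C ∧ ∀ ρ σ : ℝ, 0 < σ → σ ≤ ρ → ∃ (N : ℕ) (f : K → Fin N),
    (N : ℝ) ≤ C * (ρ / σ) ^ w.mult ∧
      ∀ x y : K, w x ≤ ρ → w y ≤ ρ → f x = f y → w (x - y) ≤ σ := by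
  refine ⟨49, by norm_num, ?_⟩
  intro ρ σ hσ hσρ
  have hρ : 0 < ρ := lt_of_lt_of_le hσ hσρ
  have hρσ : 1 ≤ ρ / σ := by rwa [le_div_iff₀ hσ, one_mul]
  obtain ⟨g, hg⟩ := floor_cell ρ (σ / 2) (by positivity)
  have hcl := ceil_le hσ hσρ
  have hre : ∀ x : K, w x ≤ ρ → |(w.embedding x).re| ≤ ρ := by
    intro x hx
    rw [← InfinitePlace.norm_embedding_eq] at hx
    exact (Complex.abs_re_le_norm _).trans hx
  have him : ∀ x : K, w x ≤ ρ → |(w.embedding x).im| ≤ ρ := by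
    intro x hx
    rw [← InfinitePlace.norm_embedding_eq] at hx
    exact (Complex.abs_im_le_norm _).trans hx
  rcases w.isReal_or_isComplex with hw | hw
  · refine ⟨_, fun x => g (w.embedding x).re, ?_, ?_⟩
    · rw [InfinitePlace.mult_isReal ⟨w, hw⟩, pow_one]
      refine hcl.trans ?_
      linarith
    · intro x y hx hy hxy
      have h1 := hg _ _ (hre x hx) (hre y hy) hxy
      have hz : ∀ z : K, (w.embedding z).im = 0 := by
        intro z
        have := InfinitePlace.isReal_iff.1 hw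
        have h2 : ComplexEmbedding.conjugate w.embedding = w.embedding :=
          ComplexEmbedding.isReal_iff.1 this
        exact Complex.conj_eq_iff_im.1 (by
          have := RingHom.congr_fun h2 z
          simpa using this)
      rw [← InfinitePlace.norm_embedding_eq]
      have h3 : ‖w.embedding (x - y)‖ ≤ |(w.embedding (x - y)).re| + |(w.embedding (x - y)).im| :=
        Complex.norm_le_abs_re_add_abs_im _
      rw [hz, abs_zero, add_zero, map_sub, Complex.sub_re] at h3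
      rw [map_sub]
      linarith
  · refine ⟨_, fun x => finProdFinEquiv (g (w.embedding x).re, g (w.embedding x).im), ?_, ?_⟩
    · rw [InfinitePlace.mult_isComplex ⟨w, hw⟩]
      rw [Nat.cast_mul]
      calc _ ≤ (7 * (ρ / σ)) * (7 * (ρ / σ)) := mul_le_mul hcl hcl (by positivity) (by positivity)
        _ = 49 * (ρ / σ) ^ 2 := by ring
    · intro x y hx hy hxy
      have h0 := finProdFinEquiv.injective hxy
      have h1 := hg _ _ (hre x hx) (hre y hy) (congrArg Prod.fst h0)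
      have h2 := hg _ _ (him x hx) (him y hy) (congrArg Prod.snd h0)
      rw [← InfinitePlace.norm_embedding_eq]
      have h3 : ‖w.embedding (x - y)‖ ≤ |(w.embedding (x - y)).re| + |(w.embedding (x - y)).im| :=
        Complex.norm_le_abs_re_add_abs_im _
      rw [map_sub, Complex.sub_re, Complex.sub_im] at h3
      rw [map_sub]
      linarith

theorem nf_cover (K : Type) [Field K] [NumberField K] (T : Finset (HeightOneSpectrum (𝓞 K))) :
    HasCover (SUnit.placeAbs K T) (SUnit.placeMult K T) := by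
  rintro (w | p)
  · exact cover_inf K w
  · exact cover_fin K p.1

end Pool.Agent.Work.SUB
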