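import Pool.Agent.Work.SUB.Defs

/-!
# Tw: basic properties of the twisted norms (block M, module M5)
-/

set_option autoImplicit false

noncomputable section

namespace Pool.Agent.Work.SUB

open Finset

section one

variable {K : Type} [Field K] (v : AbsoluteValue K ℝ) {n : ℕ}

theorem le_nrm (x : Fin n → K) (i : Fin n) : v (x i) ≤ nrm v x :=
  le_ciSup (f := fun i => v (x i)) (Set.finite_range _).bddAbove i

theorem nrm_nonneg (x : Fin n → K) : 0 ≤ nrm v x :=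
  Real.iSup_nonneg fun _ => v.nonneg _

theorem nrm_le {x : Fin n → K} {B : ℝ} (hB : 0 ≤ B) (h : ∀ i, v (x i) ≤ B) : nrm v x ≤ B :=
  Real.iSup_le h hB

theorem exists_nrm (hn : 0 < n) (x : Fin n → K) : ∃ i, nrm v x = v (x i) := by
  have : Nonempty (Fin n) := ⟨⟨0, hn⟩⟩
  obtain ⟨i, hi⟩ := exists_eq_ciSup_of_finite (f := fun i => v (x i))
  exact ⟨i, hi.symm⟩

theorem nrm_pos {x : Fin n → K} (hx : x ≠ 0) : 0 < nrm v x := by
  obtain ⟨i, hi⟩ := Function.ne_iff.1 hx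
  exact (v.pos hi).trans_le (le_nrm v x i)

theorem nrm_smul (a : K) (x : Fin n → K) : nrm v (a • x) = v a * nrm v x := by
  unfold nrm
  rw [Real.mul_iSup_of_nonneg (v.nonneg a)]
  simp

variable (A : Matrix (Fin n) (Fin n) K) (t : Fin n → ℝ)

theorem nrm_eq_tw (x : Fin n → K) : nrm v x = tw v 1 (fun _ => 1) x := by
  simp [nrm, tw]

theorem le_tw (x : Fin n → K) (i : Fin n) : t i * v (A.mulVec x i) ≤ tw v A t x :=
  le_ciSup (f := fun i => t i * v (A.mulVec x i)) (Set.finite_range _).bddAbove i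

variable {t} in
theorem tw_nonneg (ht : ∀ i, 0 ≤ t i) (x : Fin n → K) : 0 ≤ tw v A t x :=
  Real.iSup_nonneg fun i => mul_nonneg (ht i) (v.nonneg _)

variable {A t} in
theorem tw_le {x : Fin n → K} {B : ℝ} (hB : 0 ≤ B) (h : ∀ i, t i * v (A.mulVec x i) ≤ B) :
    tw v A t x ≤ B :=
  Real.iSup_le h hB

theorem exists_tw (hn : 0 < n) (x : Fin n → K) : ∃ i, tw v A t x = t i * v (A.mulVec x i) := by
  have : Nonempty (Fin n) := ⟨⟨0, hn⟩⟩
  obtain ⟨i, hi⟩ := exists_eq_ciSup_of_finite (f := fun i => t i * v (A.mulVec x i))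
  exact ⟨i, hi.symm⟩

theorem mulVec_ne_zero' {A : Matrix (Fin n) (Fin n) K} (hA : A.det ≠ 0) {x : Fin n → K}
    (hx : x ≠ 0) : A.mulVec x ≠ 0 := by
  intro h
  exact hA (Matrix.exists_mulVec_eq_zero_iff.1 ⟨x, hx, h⟩)

variable {A t} in
theorem tw_pos (hA : A.det ≠ 0) (ht : ∀ i, 0 < t i) {x : Fin n → K} (hx : x ≠ 0) :
    0 < tw v A t x := by
  obtain ⟨i, hi⟩ := Function.ne_iff.1 (mulVec_ne_zero' hA hx)
  exact (mul_pos (ht i) (v.pos hi)).trans_le (le_tw v A t x i)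

theorem tw_smul (a : K) (x : Fin n → K) : tw v A t (a • x) = v a * tw v A t x := by
  unfold tw
  rw [Real.mul_iSup_of_nonneg (v.nonneg a)]
  congr 1
  funext i
  rw [Matrix.mulVec_smul, Pi.smul_apply, smul_eq_mul, map_mul]
  ring

variable {t} in
theorem tw_add_le (ht : ∀ i, 0 ≤ t i) (x y : Fin n → K) :
    tw v A t (x + y) ≤ tw v A t x + tw v A t y := by
  refine tw_le v (add_nonneg (tw_nonneg v A ht x) (tw_nonneg v A ht y)) fun i => ?_
  rw [Matrix.mulVec_add, Pi.add_apply]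
  calc t i * v (A.mulVec x i + A.mulVec y i)
      ≤ t i * (v (A.mulVec x i) + v (A.mulVec y i)) :=
        mul_le_mul_of_nonneg_left (v.add_le _ _) (ht i)
    _ = t i * v (A.mulVec x i) + t i * v (A.mulVec y i) := by ring
    _ ≤ _ := add_le_add (le_tw v A t x i) (le_tw v A t y i)

variable {t} in
theorem tw_mono {t' : Fin n → ℝ} (h : ∀ i, t i ≤ t' i) (x : Fin n → K)
    (ht' : ∀ i, 0 ≤ t' i) : tw v A t x ≤ tw v A t' x :=
  tw_le v (tw_nonneg v A ht' x) fun i =>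
    (mul_le_mul_of_nonneg_right (h i) (v.nonneg _)).trans (le_tw v A t' x i)

theorem tw_scale {s : ℝ} (hs : 0 ≤ s) (x : Fin n → K) :
    tw v A (fun i => s * t i) x = s * tw v A t x := by
  unfold tw
  rw [Real.mul_iSup_of_nonneg hs]
  congr 1
  funext i
  ring

theorem mulVec_le (x : Fin n → K) (i : Fin n) :
    v (A.mulVec x i) ≤ (∑ j, v (A i j)) * nrm v x := by
  rw [Matrix.mulVec, dotProduct, Finset.sum_mul]
  refine (v.sum_le _ _).trans (Finset.sum_le_sum fun j _ => ?_)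
  rw [map_mul]
  exact mul_le_mul_of_nonneg_left (le_nrm v x j) (v.nonneg _)

/-- upper comparison of the twisted norm with the norm -/
theorem tw_le_nrm : ∃ C : ℝ, 1 ≤ C ∧ ∀ (t : Fin n → ℝ) (s : ℝ), (∀ i, 0 ≤ t i) → (∀ i, t i ≤ s) →
    ∀ x : Fin n → K, tw v A t x ≤ C * s * nrm v x := by
  refine ⟨1 + ∑ i, ∑ j, v (A i j), ?_, ?_⟩
  · have : 0 ≤ ∑ i, ∑ j, v (A i j) :=
      Finset.sum_nonneg fun i _ => Finset.sum_nonneg fun j _ => v.nonneg _
    linarith
  intro t s ht hs x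
  have h0 : 0 ≤ ∑ i, ∑ j, v (A i j) :=
    Finset.sum_nonneg fun i _ => Finset.sum_nonneg fun j _ => v.nonneg _
  rcases Nat.eq_zero_or_pos n with rfl | hn
  · simp [tw, nrm]
  have hs0 : 0 ≤ s := (ht ⟨0, hn⟩).trans (hs ⟨0, hn⟩)
  refine tw_le v (by have := nrm_nonneg v x; positivity) fun i => ?_
  have h1 : v (A.mulVec x i) ≤ (∑ i, ∑ j, v (A i j)) * nrm v x := by
    refine (mulVec_le v A x i).trans (mul_le_mul_of_nonneg_right ?_ (nrm_nonneg v x))
    exact Finset.single_le_sum (f := fun i => ∑ j, v (A i j))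
      (fun i _ => Finset.sum_nonneg fun j _ => v.nonneg _) (Finset.mem_univ i)
  calc t i * v (A.mulVec x i) ≤ s * ((∑ i, ∑ j, v (A i j)) * nrm v x) :=
        mul_le_mul (hs i) h1 (v.nonneg _) hs0
    _ ≤ (1 + ∑ i, ∑ j, v (A i j)) * s * nrm v x := by
        have h3 : 0 ≤ s * nrm v x := mul_nonneg hs0 (nrm_nonneg v x)
        nlinarith

/-- lower comparison of the twisted norm with the norm -/
theorem nrm_le_tw (hA : A.det ≠ 0) : ∃ C : ℝ, 1 ≤ C ∧ ∀ (t : Fin n → ℝ) (s : ℝ), 0 < s →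
    (∀ i, s ≤ t i) → ∀ x : Fin n → K, s * nrm v x ≤ C * tw v A t x := by
  obtain ⟨C, hC1, hC⟩ := tw_le_nrm v (A⁻¹)
  refine ⟨C, hC1, fun t s hs hst x => ?_⟩
  have h1 := hC (fun _ => 1) 1 (fun _ => zero_le_one) (fun _ => le_rfl) (A.mulVec x)
  have h2 : A⁻¹.mulVec (A.mulVec x) = x := by
    rw [Matrix.mulVec_mulVec, Matrix.nonsing_inv_mul _ (isUnit_iff_ne_zero.2 hA),
      Matrix.one_mulVec]
  have h3 : tw v (A⁻¹) (fun _ => 1) (A.mulVec x) = nrm v x := by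
    unfold tw nrm
    rw [h2]
    simp
  rw [h3, mul_one] at h1
  have h4 : s * nrm v (A.mulVec x) ≤ tw v A t x := by
    rcases Nat.eq_zero_or_pos n with rfl | hn
    · simp [tw, nrm]
    obtain ⟨i, hi⟩ := exists_nrm v hn (A.mulVec x)
    rw [hi]
    exact (mul_le_mul_of_nonneg_right (hst i) (v.nonneg _)).trans (le_tw v A t x i)
  calc s * nrm v x ≤ s * (C * nrm v (A.mulVec x)) := mul_le_mul_of_nonneg_left h1 hs.le
    _ = C * (s * nrm v (A.mulVec x)) := by ring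
    _ ≤ C * tw v A t x := mul_le_mul_of_nonneg_left h4 (by linarith)

end one

theorem Rv_smul {K : Type} [Field K] {R : Subring K} {n : ℕ} {a : K} (ha : a ∈ R) (ha0 : a ≠ 0)
    {x : Fin n → K} (hx : Rv R x) : Rv R (a • x) :=
  ⟨smul_ne_zero ha0 hx.1, fun i => R.mul_mem ha (hx.2 i)⟩

section many

variable {K : Type} [Field K] {ι : Type} [Fintype ι] {v : ι → AbsoluteValue K ℝ} {m : ι → ℕ}
  {n : ℕ} {A : ι → Matrix (Fin n) (Fin n) K} {t : ι → Fin n → ℝ}

theorem NN_nonneg (ht : ∀ w i, 0 ≤ t w i) (x : Fin n → K) : 0 ≤ NN v m A t x :=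
  Finset.prod_nonneg fun w _ => pow_nonneg (tw_nonneg _ _ (ht w) x) _

theorem NN_pos (hA : ∀ w, (A w).det ≠ 0) (ht : ∀ w i, 0 < t w i) {x : Fin n → K} (hx : x ≠ 0) :
    0 < NN v m A t x :=
  Finset.prod_pos fun w _ => pow_pos (tw_pos _ (hA w) (ht w) hx) _

theorem NN_smul (a : K) (x : Fin n → K) :
    NN v m A t (a • x) = (∏ w, v w a ^ m w) * NN v m A t x := by
  unfold NN
  rw [← Finset.prod_mul_distrib]
  refine Finset.prod_congr rfl fun w _ => ?_
  rw [tw_smul, mul_pow]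

theorem NN_le_pow (ht : ∀ w i, 0 ≤ t w i) {x : Fin n → K} {B : ℝ}
    (h : ∀ w, tw (v w) (A w) (t w) x ≤ B) : NN v m A t x ≤ B ^ (∑ w, m w) := by
  unfold NN
  rw [← Finset.prod_pow_eq_pow_sum]
  exact Finset.prod_le_prod (fun w _ => pow_nonneg (tw_nonneg _ _ (ht w) x) _)
    fun w _ => pow_le_pow_left₀ (tw_nonneg _ _ (ht w) x) (h w) _

theorem NN_mono (ht : ∀ w i, 0 ≤ t w i) {t' : ι → Fin n → ℝ} (h : ∀ w i, t w i ≤ t' w i)
    (x : Fin n → K) : NN v m A t x ≤ NN v m A t' x :=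
  Finset.prod_le_prod (fun w _ => pow_nonneg (tw_nonneg _ _ (ht w) x) _)
    fun w _ => pow_le_pow_left₀ (tw_nonneg _ _ (ht w) x)
      (tw_mono _ _ (h w) x fun i => (ht w i).trans (h w i)) _

theorem NN_scale {s : ℝ} (hs : 0 ≤ s) (x : Fin n → K) :
    NN v m A (fun w i => s * t w i) x = s ^ (∑ w, m w) * NN v m A t x := by
  unfold NN
  rw [← Finset.prod_pow_eq_pow_sum, ← Finset.prod_mul_distrib]
  refine Finset.prod_congr rfl fun w _ => ?_
  rw [tw_scale _ _ _ hs, mul_pow]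

theorem HR_eq_NN (x : Fin n → K) : HR v m x = NN v m (fun _ => 1) (fun _ _ => 1) x := by
  unfold HR NN
  exact Finset.prod_congr rfl fun w _ => by rw [nrm_eq_tw]

theorem HR_nonneg (x : Fin n → K) : 0 ≤ HR v m x :=
  Finset.prod_nonneg fun w _ => pow_nonneg (nrm_nonneg _ x) _

theorem HR_pos {x : Fin n → K} (hx : x ≠ 0) : 0 < HR v m x :=
  Finset.prod_pos fun w _ => pow_pos (nrm_pos _ hx) _

theorem HR_smul (a : K) (x : Fin n → K) :
    HR v m (a • x) = (∏ w, v w a ^ m w) * HR v m x := by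
  rw [HR_eq_NN, HR_eq_NN, NN_smul]

theorem wt_pos (ht : ∀ w i, 0 < t w i) : 0 < wt m t :=
  Finset.prod_pos fun w _ => Finset.prod_pos fun i _ => pow_pos (ht w i) _

variable [Height.AdmissibleAbsValues K] {R : Subring K} (hS : IsSD v m R)

include hS

theorem one_le_HR {x : Fin n → K} (hx : Rv R x) : 1 ≤ HR v m x := by
  obtain ⟨i, hi⟩ := Function.ne_iff.1 hx.1
  refine (hS.prod_ge (x i) (hx.2 i) hi).trans ?_
  exact Finset.prod_le_prod (fun w _ => pow_nonneg ((v w).nonneg _) _)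
    fun w _ => pow_le_pow_left₀ ((v w).nonneg _) (le_nrm _ x i) _

theorem NN_le_smul (ht : ∀ w i, 0 ≤ t w i) {a : K} (ha : a ∈ R) (ha0 : a ≠ 0) (x : Fin n → K) :
    NN v m A t x ≤ NN v m A t (a • x) := by
  rw [NN_smul]
  exact le_mul_of_one_le_left (NN_nonneg ht x) (hS.prod_ge a ha ha0)

theorem NN_lower (hA : ∀ w, (A w).det ≠ 0) : ∃ c : ℝ, 0 < c ∧ ∀ (t : ι → Fin n → ℝ) (s : ℝ),
    0 < s → (∀ w i, s ≤ t w i) → ∀ x : Fin n → K, Rv R x →
      c * s ^ (∑ w, m w) ≤ NN v m A t x := by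
  choose C hC1 hC using fun w => nrm_le_tw (v w) (A w) (hA w)
  have hP : 0 < ∏ w, C w ^ m w :=
    Finset.prod_pos fun w _ => pow_pos (zero_lt_one.trans_le (hC1 w)) _
  refine ⟨(∏ w, C w ^ m w)⁻¹, inv_pos.2 hP, fun t s hs hst x hx => ?_⟩
  rw [inv_mul_le_iff₀ hP]
  have h1 := one_le_HR hS hx
  calc s ^ (∑ w, m w) ≤ s ^ (∑ w, m w) * HR v m x := le_mul_of_one_le_right (by positivity) h1
    _ = ∏ w, (s * nrm (v w) x) ^ m w := by
        unfold HR
        rw [← Finset.prod_pow_eq_pow_sum, ← Finset.prod_mul_distrib]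
        exact Finset.prod_congr rfl fun w _ => by rw [mul_pow]
    _ ≤ ∏ w, (C w * tw (v w) (A w) (t w) x) ^ m w :=
        Finset.prod_le_prod (fun w _ => pow_nonneg (mul_nonneg hs.le (nrm_nonneg _ x)) _)
          fun w _ => pow_le_pow_left₀ (mul_nonneg hs.le (nrm_nonneg _ x)) (hC w _ s hs (hst w) x) _
    _ = (∏ w, C w ^ m w) * NN v m A t x := by
        unfold NN
        rw [← Finset.prod_mul_distrib]
        exact Finset.prod_congr rfl fun w _ => by rw [mul_pow]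

theorem sum_m_pos : 0 < ∑ w, m w := by
  obtain ⟨w⟩ := hS.ne
  exact Finset.sum_pos' (fun _ _ => Nat.zero_le _) ⟨w, Finset.mem_univ w, hS.m_pos w⟩

end many

end Pool.Agent.Work.SUB
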