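import Pool.Agent.Work.SUB.NfSD0
import Pool.Agent.Work.SUB.Tw

/-!
# NfHt: comparison with the heights of Mathlib for number fields (block M, modules M2, M3)

PROOF of `nf_prod_ge`, `nf_northcott`: these are the fields of `SUnit.exists_placeData` (copy the proof
from SUnit/NumberFieldData.lean; note `placeAbs`, `placeMult` are the same).
PROOF of `nf_frac`: `x = a / b` with `a, b ∈ 𝓞 K` (`IsFractionRing.div_surjective`), `b x = a`.
PROOF of `nf_height_le`: `NumberField.mulHeight_eq`: `mulHeight x = (∏ w, (⨆ i, w (x i))^mult) *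
∏ᶠ v : FinitePlace, ⨆ i, v (x i)`; for `v ∉ T` the factor is `≤ 1` (`SUnit.mk_le_one`, ultrametric not
needed, only `⨆`), so the finprod is `≤` the product over `T` (as in `exists_placeData`).
PROOF of `nf_norm`: let `x ≠ 0` in `K^n`; multiply by a denominator so that `x ∈ (𝓞 K)^n`; the ideal
`I = span (range x)` has a class; by `ClassGroup` finiteness (or the Minkowski bound
`NumberField.exists_ideal_in_class_of_norm_le`) there is a constant `C` and for each class an integral
ideal of norm `≤ C`; so there are `b, d ∈ 𝓞 K` nonzero with `(b) I = (d) J`, `absNorm J ≤ C`. Put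
`a = b / d`: the coordinates of `a x` lie in `J ⊆ 𝓞 K` and generate `J`. By
`NumberField.absNorm_mul_finprod_finitePlace_eq_one` `∏ᶠ v, ⨆ i, v (a x_i) = 1 / absNorm J ≥ 1/C`, all
factors `≤ 1`. Hence `mulHeight x = mulHeight (a x) ≥ HR (a x) * ∏ᶠ_{v ∉ T} (..) ≥ HR (a x) / C`.
PROOF of `nf_liouville`: let `y = ∑ b_i x_i ≠ 0`, `z = (x, y) : Fin (n+1) → K`. By
`Height.mulHeight_linearMap_apply_le` `mulHeight z ≤ C mulHeight x` (`z` is a linear image of `x`). The
tuple `y⁻¹ z` has a coordinate `1`, so all local factors of `mulHeight (y⁻¹ z) = mulHeight z` are `≥ 1` and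
`mulHeight z ≥ (factor at w) = (max (nrm x / |y|) 1)^(m w) ≥ (nrm (v w) x / v w y)^(m w)`.
-/

set_option autoImplicit false

noncomputable section

namespace Pool.Agent.Work.SUB

open NumberField IsDedekindDomain

variable (K : Type) [Field K] [NumberField K] (T : Finset (HeightOneSpectrum (𝓞 K)))

private lemma finprod_le_prod {f : FinitePlace K → ℝ} (hf : f.HasFiniteMulSupport)
    (h0 : ∀ w, 0 ≤ f w) (h1 : ∀ p : HeightOneSpectrum (𝓞 K), p ∉ T → f (FinitePlace.mk p) ≤ 1) :
    ∏ᶠ w : FinitePlace K, f w ≤ ∏ p : {p : HeightOneSpectrum (𝓞 K) // p ∈ T},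
      f (FinitePlace.mk p.1) := by
  classical
  have hfs : (fun p : HeightOneSpectrum (𝓞 K) => f (FinitePlace.mk p)).mulSupport.Finite := by
    have h3 : (fun p : HeightOneSpectrum (𝓞 K) => f (FinitePlace.mk p)).mulSupport =
        (FinitePlace.equivHeightOneSpectrum (K := K)).symm ⁻¹' f.mulSupport := by
      ext p
      rfl
    rw [h3]
    exact Set.Finite.preimage ((FinitePlace.equivHeightOneSpectrum (K := K)).symm.injective.injOn)
      hf
  have h4 : ∏ᶠ w : FinitePlace K, f w =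
      ∏ᶠ p : HeightOneSpectrum (𝓞 K), f (FinitePlace.mk p) := by
    rw [← finprod_comp_equiv (FinitePlace.equivHeightOneSpectrum (K := K)).symm]
    rfl
  rw [h4, finprod_eq_prod_of_mulSupport_subset (s := hfs.toFinset ∪ T) _ (by
    intro p hp
    simp only [Finset.coe_union, Set.Finite.coe_toFinset, Set.mem_union]
    exact Or.inl hp)]
  rw [← Finset.prod_sdiff (s₁ := T) (Finset.subset_union_right)]
  rw [← Finset.prod_coe_sort T]
  refine mul_le_of_le_one_left (Finset.prod_nonneg fun _ _ => h0 _) ?_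
  refine Finset.prod_le_one (fun _ _ => h0 _) ?_
  intro p hp
  exact h1 p (Finset.mem_sdiff.1 hp).2

theorem nf_prod_ge : ∀ c ∈ RT K T, c ≠ 0 →
    1 ≤ ∏ w, SUnit.placeAbs K T w c ^ SUnit.placeMult K T w := by
  intro c hc hc0
  rw [Fintype.prod_sum_type]
  have h1 := prod_abs_eq_one (K := K) hc0
  have h5 := finprod_le_prod K T (f := fun w => w c) (FinitePlace.hasFiniteMulSupport hc0)
    (fun w => apply_nonneg _ _) (fun p hp => SUnit.mk_le_one hc hp)
  calc (1 : ℝ) = (∏ w : InfinitePlace K, w c ^ w.mult) * ∏ᶠ w : FinitePlace K, w c := h1.symm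
    _ ≤ (∏ w : InfinitePlace K, w c ^ w.mult) *
        ∏ p : {p : HeightOneSpectrum (𝓞 K) // p ∈ T}, FinitePlace.mk p.1 c :=
      mul_le_mul_of_nonneg_left h5
        (Finset.prod_nonneg fun w _ => pow_nonneg (apply_nonneg _ _) _)
    _ = _ := by
      congr 1
      refine Finset.prod_congr rfl fun p _ => ?_
      show _ = (FinitePlace.mk p.1).1 c ^ 1
      rw [pow_one]
      rfl

theorem nf_northcott (B : ℝ) : {x : K | x ∈ RT K T ∧ ∀ w, SUnit.placeAbs K T w x ≤ B}.Finite := by
  set B' : ℝ := max B 1 with hB'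
  have hB1 : 1 ≤ B' := le_max_right _ _
  refine (finite_setOfPred_mulHeight₁_le (K := K)
    ((∏ w : InfinitePlace K, B' ^ w.mult) * ∏ p : {p : HeightOneSpectrum (𝓞 K) // p ∈ T}, B')).subset ?_
  rintro x ⟨hx, hxB⟩
  simp only [Set.mem_ofPred_eq]
  rw [mulHeight₁_eq]
  have h4 : ∏ᶠ w : FinitePlace K, max (w x) 1 =
      ∏ᶠ p : HeightOneSpectrum (𝓞 K), max (FinitePlace.mk p x) 1 := by
    rw [← finprod_comp_equiv (FinitePlace.equivHeightOneSpectrum (K := K)).symm]
    rfl
  have h5 : ∏ᶠ p : HeightOneSpectrum (𝓞 K), max (FinitePlace.mk p x) 1 =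
      ∏ p : {p : HeightOneSpectrum (𝓞 K) // p ∈ T}, max (FinitePlace.mk p.1 x) 1 := by
    rw [finprod_eq_prod_of_mulSupport_subset (s := T) _ (by
      intro p hp
      by_contra hpS
      exact hp (max_eq_right (SUnit.mk_le_one hx hpS)))]
    rw [← Finset.prod_coe_sort T]
  rw [h4, h5]
  refine mul_le_mul ?_ ?_ ?_ ?_
  · refine Finset.prod_le_prod (fun w _ => by positivity) fun w _ => ?_
    refine pow_le_pow_left₀ (by positivity) ?_ _
    exact max_le_max (hxB (Sum.inl w)) le_rfl
  · refine Finset.prod_le_prod (fun w _ => by positivity) fun w _ => ?_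
    exact max_le_max (hxB (Sum.inr w)) le_rfl
  · exact Finset.prod_nonneg fun _ _ => by positivity
  · exact Finset.prod_nonneg fun _ _ => by positivity

private lemma int_mem (a : 𝓞 K) : (a : K) ∈ RT K T := by
  intro p _
  exact p.valuation_le_one a

theorem nf_frac (x : K) : ∃ b ∈ RT K T, b ≠ 0 ∧ b * x ∈ RT K T := by
  obtain ⟨a, b, hb, rfl⟩ := IsFractionRing.div_surjective (A := 𝓞 K) x
  have hb0 : algebraMap (𝓞 K) K b ≠ 0 := by
    have := nonZeroDivisors.ne_zero hb
    simpa using this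
  refine ⟨algebraMap (𝓞 K) K b, int_mem K T b, hb0, ?_⟩
  rw [mul_div_cancel₀ _ hb0]
  exact int_mem K T a

theorem nf_height_le (n : ℕ) (x : Fin n → K) (hx : Rv (RT K T) x) :
    Height.mulHeight x ≤ HR (SUnit.placeAbs K T) (SUnit.placeMult K T) x := by
  have hn : Nonempty (Fin n) := by
    obtain ⟨i, _⟩ := Function.ne_iff.1 hx.1
    exact ⟨i⟩
  obtain ⟨i₀, hi₀⟩ := Function.ne_iff.1 hx.1
  rw [NumberField.mulHeight_eq hx.1]
  unfold HR
  rw [Fintype.prod_sum_type]
  have hfin : (fun w : FinitePlace K => ⨆ i, w (x i)).HasFiniteMulSupport := by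
    have : Nonempty {j // x j ≠ 0} := ⟨⟨i₀, hi₀⟩⟩
    have h2 : (fun w : FinitePlace K => ⨆ i : {j // x j ≠ 0}, w (x i)).HasFiniteMulSupport :=
      .iSup (fun j => FinitePlace.hasFiniteMulSupport j.2)
    have h3 : (fun w : FinitePlace K => ⨆ i, w (x i)) =
        fun w : FinitePlace K => ⨆ i : {j // x j ≠ 0}, w (x i) := by
      funext w
      refine le_antisymm (ciSup_le fun j ↦ ?_) (ciSup_le fun ⟨j, hj⟩ ↦ Finite.le_ciSup_of_le j le_rfl)
      rcases eq_or_ne (x j) 0 with h | h
      · rw [h, map_zero]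
        exact Real.iSup_nonneg fun _ => apply_nonneg _ _
      · exact Finite.le_ciSup_of_le (⟨j, h⟩ : {j // x j ≠ 0}) le_rfl
    rw [h3]
    exact h2
  have h5 := finprod_le_prod K T (f := fun w => ⨆ i, w (x i)) hfin
    (fun w => Real.iSup_nonneg fun _ => apply_nonneg _ _)
    (fun p hp => ciSup_le fun i => SUnit.mk_le_one (hx.2 i) hp)
  calc _ ≤ (∏ w : InfinitePlace K, (⨆ i, w (x i)) ^ w.mult) *
        ∏ p : {p : HeightOneSpectrum (𝓞 K) // p ∈ T}, ⨆ i, FinitePlace.mk p.1 (x i) :=
      mul_le_mul_of_nonneg_left h5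
        (Finset.prod_nonneg fun w _ => pow_nonneg (Real.iSup_nonneg fun _ => apply_nonneg _ _) _)
    _ = _ := by
      congr 1
      refine Finset.prod_congr rfl fun p _ => ?_
      show _ = (⨆ i, (FinitePlace.mk p.1).1 (x i)) ^ 1
      rw [pow_one]
      rfl

end Pool.Agent.Work.SUB
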