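import Pool.Agent.Work.SUB.NfHt

/-!
# NfLiou: Liouville's inequality (block M, module M3). PROOF: header of NfHt.lean (`nf_liouville`).
-/

set_option autoImplicit false

noncomputable section

namespace Pool.Agent.Work.SUB

open NumberField IsDedekindDomain

private lemma one_le_prod_real {α : Type*} (s : Finset α) (f : α → ℝ) (h : ∀ a, 1 ≤ f a) :
    1 ≤ ∏ b ∈ s, f b := by
  calc (1:ℝ) = ∏ b ∈ s, (1:ℝ) := by simp
    _ ≤ _ := Finset.prod_le_prod (fun _ _ => zero_le_one) (fun b _ => h b)

private lemma le_prod_fin {α : Type*} [Fintype α] (f : α → ℝ) (h : ∀ a, 1 ≤ f a) (a : α) :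
    f a ≤ ∏ b, f b := by
  classical
  rw [← Finset.mul_prod_erase Finset.univ f (Finset.mem_univ a)]
  refine le_mul_of_one_le_right (by linarith [h a]) ?_
  exact one_le_prod_real _ f h

private lemma le_finprod {α : Type*} (f : α → ℝ) (hf : f.HasFiniteMulSupport)
    (h : ∀ a, 1 ≤ f a) (a : α) :
    f a ≤ ∏ᶠ b, f b := by
  classical
  have hf' : f.mulSupport.Finite := hf
  rw [finprod_eq_prod_of_mulSupport_subset (s := insert a hf'.toFinset) _ (by
    intro b hb
    simp only [Finset.coe_insert, Set.Finite.coe_toFinset]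
    exact Or.inr hb)]
  rw [← Finset.mul_prod_erase _ f (Finset.mem_insert_self a _)]
  refine le_mul_of_one_le_right (by linarith [h a]) ?_
  exact one_le_prod_real _ f h

private lemma hasFin {K : Type} [Field K] [NumberField K] {ι : Type} [Finite ι] (x : ι → K)
    (hx : x ≠ 0) :
    (fun w : FinitePlace K => ⨆ i, w (x i)).HasFiniteMulSupport := by
  obtain ⟨i₀, hi₀⟩ := Function.ne_iff.1 hx
  have hn : Nonempty ι := ⟨i₀⟩
  have : Nonempty {j // x j ≠ 0} := ⟨⟨i₀, hi₀⟩⟩
  have h2 : (fun w : FinitePlace K => ⨆ i : {j // x j ≠ 0}, w (x i)).HasFiniteMulSupport :=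
    .iSup (fun j => FinitePlace.hasFiniteMulSupport j.2)
  have h3 : (fun w : FinitePlace K => ⨆ i, w (x i)) =
      fun w : FinitePlace K => ⨆ i : {j // x j ≠ 0}, w (x i) := by
    funext w
    refine le_antisymm (ciSup_le fun j ↦ ?_) (ciSup_le fun ⟨j, hj⟩ ↦ Finite.le_ciSup_of_le j le_rfl)
    rcases eq_or_ne (x j) 0 with h | h
    · rw [h, map_zero]
      exact Real.iSup_nonneg fun _ => apply_nonneg _ _
    · exact Finite.le_ciSup_of_le (⟨j, h⟩ : {j // x j ≠ 0}) le_rfl
  rw [h3]
  exact h2

theorem nf_liouville (K : Type) [Field K] [NumberField K]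
    (T : Finset (HeightOneSpectrum (𝓞 K)))
    (w : InfinitePlace K ⊕ {p : HeightOneSpectrum (𝓞 K) // p ∈ T}) (n : ℕ) (b : Fin n → K) :
    ∃ C : ℝ, 0 < C ∧ ∀ x : Fin n → K, ∑ i, b i * x i ≠ 0 →
      nrm (SUnit.placeAbs K T w) x ^ SUnit.placeMult K T w ≤
        C * Height.mulHeight x *
          SUnit.placeAbs K T w (∑ i, b i * x i) ^ SUnit.placeMult K T w := by
  classical
  rcases Nat.eq_zero_or_pos n with hn | hn
  · subst hn
    exact ⟨1, one_pos, fun x hx => absurd (by simp) hx⟩
  have hne : Nonempty (Fin n) := ⟨⟨0, hn⟩⟩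
  let A : Option (Fin n) × Fin n → K := fun p => match p.1 with
    | none => b p.2
    | some j => if j = p.2 then 1 else 0
  refine ⟨Nat.card (Fin n) ^ Height.totalWeight K * Height.mulHeight A, ?_, ?_⟩
  · have h1 : (0:ℝ) < Nat.card (Fin n) := by
      have := Nat.card_pos (α := Fin n)
      exact_mod_cast this
    have h2 := Height.mulHeight_pos A
    positivity
  intro x hy
  set y := ∑ i, b i * x i with hydef
  let z : Option (Fin n) → K := fun j => match j with
    | none => y
    | some j => x j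
  have hz : z = fun j => ∑ i, A (j, i) * x i := by
    funext j
    rcases j with _ | j
    · rfl
    · simp [z, A]
  have h1 : Height.mulHeight z ≤
      Nat.card (Fin n) ^ Height.totalWeight K * Height.mulHeight A * Height.mulHeight x := by
    rw [hz]
    exact Height.mulHeight_linearMap_apply_le A x
  have hyi : y⁻¹ ≠ 0 := inv_ne_zero hy
  have h2 : Height.mulHeight (y⁻¹ • z) = Height.mulHeight z :=
    Height.mulHeight_smul_eq_mulHeight z hyi
  have hz0 : z ≠ 0 := fun h => hy (congrFun h none)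
  have hz' : y⁻¹ • z ≠ 0 := by
    intro h
    have := congrFun h none
    simp [z, hy] at this
  set z' := y⁻¹ • z with hz'def
  have hz'none : z' none = 1 := by
    simp [hz'def, z, hy]
  have hone_inf : ∀ v : InfinitePlace K, 1 ≤ ⨆ i, v (z' i) := fun v =>
    Finite.le_ciSup_of_le none (by rw [hz'none, map_one])
  have hone_fin : ∀ v : FinitePlace K, 1 ≤ ⨆ i, v (z' i) := fun v =>
    Finite.le_ciSup_of_le none (by rw [hz'none, map_one])
  have hP1 : 1 ≤ ∏ v : InfinitePlace K, (⨆ i, v (z' i)) ^ v.mult :=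
    one_le_prod_real _ _ (fun v => one_le_pow₀ (hone_inf v))
  have hP2 : 1 ≤ ∏ᶠ v : FinitePlace K, ⨆ i, v (z' i) := one_le_finprod hone_fin
  have h3 := NumberField.mulHeight_eq hz'
  have key : (nrm (SUnit.placeAbs K T w) x / SUnit.placeAbs K T w y) ^ SUnit.placeMult K T w ≤
      Height.mulHeight z' := by
    rw [h3]
    have hpos : 0 < SUnit.placeAbs K T w y := (SUnit.placeAbs K T w).pos hy
    have hle : ∀ i, SUnit.placeAbs K T w (x i) / SUnit.placeAbs K T w y =
        SUnit.placeAbs K T w (z' (some i)) := by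
      intro i
      have : z' (some i) = y⁻¹ * x i := rfl
      rw [this, map_mul, map_inv₀]
      field_simp
    have hnr : nrm (SUnit.placeAbs K T w) x / SUnit.placeAbs K T w y ≤
        ⨆ i, SUnit.placeAbs K T w (z' i) := by
      rw [div_le_iff₀ hpos]
      refine ciSup_le fun i => ?_
      rw [← div_le_iff₀ hpos, hle]
      exact Finite.le_ciSup_of_le (some i) le_rfl
    have hnn : 0 ≤ nrm (SUnit.placeAbs K T w) x / SUnit.placeAbs K T w y :=
      div_nonneg (Real.iSup_nonneg fun _ => apply_nonneg _ _) hpos.le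
    refine (pow_le_pow_left₀ hnn hnr _).trans ?_
    rcases w with w | p
    · have h5 := le_prod_fin (fun v : InfinitePlace K => (⨆ i, v (z' i)) ^ v.mult)
        (fun v => one_le_pow₀ (hone_inf v)) w
      have h6 : (⨆ i, SUnit.placeAbs K T (Sum.inl w) (z' i)) ^ SUnit.placeMult K T (Sum.inl w)
          = (⨆ i, w (z' i)) ^ w.mult := rfl
      rw [h6]
      exact h5.trans (le_mul_of_one_le_right (by linarith) hP2)
    · have h5 := le_finprod (fun v : FinitePlace K => ⨆ i, v (z' i)) (hasFin z' hz')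
        hone_fin (FinitePlace.mk p.1)
      have h6 : (⨆ i, SUnit.placeAbs K T (Sum.inr p) (z' i)) ^ SUnit.placeMult K T (Sum.inr p)
          = ⨆ i, (FinitePlace.mk p.1) (z' i) := by
        show (⨆ i, (FinitePlace.mk p.1).1 (z' i)) ^ 1 = _
        rw [pow_one]
        rfl
      rw [h6]
      exact h5.trans (le_mul_of_one_le_left (by linarith) hP1)
  rw [h2] at key
  have hpos : 0 < SUnit.placeAbs K T w y := (SUnit.placeAbs K T w).pos hy
  rw [div_pow, div_le_iff₀ (pow_pos hpos _)] at key
  exact key.trans (mul_le_mul_of_nonneg_right h1 (pow_nonneg hpos.le _))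

end Pool.Agent.Work.SUB
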