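import Pool.Agent.Work.SUB.NfHt

/-!
# NfNorm: almost coprime representatives (block M, module M2). PROOF: header of NfHt.lean (`nf_norm`).
-/

set_option autoImplicit false

noncomputable section

namespace Pool.Agent.Work.SUB

open NumberField IsDedekindDomain

private lemma span_range_mul {R : Type} [CommRing R] {ι : Type} (a : R) (x : ι → R) :
    Ideal.span {a} * Ideal.span (Set.range x) = Ideal.span (Set.range fun i => a * x i) := by
  rw [Ideal.span_mul_span']
  congr 1
  ext z
  simp only [Set.singleton_mul, Set.mem_range]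
  constructor
  · intro h
    simpa using h
  · intro h
    simpa using h

/-- Multiplying a nonzero vector by a scalar, one gets integral coordinates which generate an
ideal of bounded norm. -/
private lemma exists_int (K : Type) [Field K] [NumberField K] :
    ∃ C : ℝ, 0 < C ∧ ∀ (n : ℕ) (x : Fin n → K), x ≠ 0 → ∃ a : K, a ≠ 0 ∧ ∃ y : Fin n → 𝓞 K,
      (∀ i, a * x i = (y i : K)) ∧ y ≠ 0 ∧
      ((Ideal.span (Set.range y)).absNorm : ℝ) ≤ C := by
  classical
  have hsur := ClassGroup.mk0_surjective (R := 𝓞 K)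
  choose J hJ using hsur
  refine ⟨∑ c : ClassGroup (𝓞 K), ((Ideal.absNorm (J c : Ideal (𝓞 K)) : ℕ) : ℝ), ?_, ?_⟩
  · refine Finset.sum_pos (fun c _ => ?_) Finset.univ_nonempty
    exact_mod_cast Ideal.absNorm_pos_of_nonZeroDivisors (J c)
  intro n x hx
  obtain ⟨⟨d, hd⟩, hdx⟩ := IsLocalization.exist_integer_multiples_of_finite
    (nonZeroDivisors (𝓞 K)) x
  choose z hz using hdx
  have hd0 : d ≠ 0 := nonZeroDivisors.ne_zero hd
  have hz' : ∀ i, (z i : K) = (d : K) * x i := by
    intro i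
    have := hz i
    rw [Algebra.smul_def] at this
    exact this
  have hdK : (d : K) ≠ 0 := by
    simpa using hd0
  obtain ⟨i₀, hi₀⟩ := Function.ne_iff.1 hx
  have hzi : z i₀ ≠ 0 := by
    intro h
    have h2 := hz' i₀
    rw [h] at h2
    have h3 : (d : K) * x i₀ = 0 := by rw [← h2]; simp
    rcases mul_eq_zero.1 h3 with h4 | h4
    · exact hdK h4
    · exact hi₀ h4
  set I : Ideal (𝓞 K) := Ideal.span (Set.range z) with hI
  have hI0 : I ≠ 0 := by
    intro h
    have h1 : z i₀ ∈ I := Ideal.subset_span ⟨i₀, rfl⟩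
    rw [h] at h1
    exact hzi (by simpa using h1)
  let I' : nonZeroDivisors (Ideal (𝓞 K)) := ⟨I, mem_nonZeroDivisors_of_ne_zero hI0⟩
  have hcl := hJ (ClassGroup.mk0 I')
  set J0 := J (ClassGroup.mk0 I') with hJ0
  obtain ⟨b, e, hb, he, hbe⟩ := ClassGroup.mk0_eq_mk0_iff.1 hcl.symm
  have hbe' : Ideal.span {b} * I = Ideal.span {e} * (J0 : Ideal (𝓞 K)) := hbe
  have hj : ∀ i, ∃ j ∈ (J0 : Ideal (𝓞 K)), e * j = b * z i := by
    intro i
    rw [← Ideal.mem_span_singleton_mul, ← hbe']
    exact Ideal.mul_mem_mul (Ideal.mem_span_singleton_self b) (Ideal.subset_span ⟨i, rfl⟩)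
  choose y hyJ hy using hj
  have hspan : Ideal.span (Set.range y) = (J0 : Ideal (𝓞 K)) := by
    rw [← Ideal.span_singleton_mul_right_inj he, ← hbe', hI, span_range_mul, span_range_mul]
    congr 2
    funext i
    exact hy i
  have hbK : (b : K) ≠ 0 := by simpa using hb
  have heK : (e : K) ≠ 0 := by simpa using he
  refine ⟨(b : K) * (d : K) / (e : K), div_ne_zero (mul_ne_zero hbK hdK) heK, y, ?_, ?_, ?_⟩
  · intro i
    have h1 : (e : K) * (y i : K) = (b : K) * (z i : K) := by
      have := congrArg (algebraMap (𝓞 K) K) (hy i)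
      simpa using this
    rw [hz'] at h1
    field_simp
    rw [h1]
    ring
  · intro h
    have h1 := hy i₀
    rw [h] at h1
    have h2 : b * z i₀ = 0 := by rw [← h1]; simp
    rcases mul_eq_zero.1 h2 with h4 | h4
    · exact hb h4
    · exact hzi h4
  · rw [hspan]
    exact Finset.single_le_sum (f := fun c : ClassGroup (𝓞 K) =>
      ((Ideal.absNorm (J c : Ideal (𝓞 K)) : ℕ) : ℝ)) (fun c _ => Nat.cast_nonneg _)
      (Finset.mem_univ (ClassGroup.mk0 I'))

private lemma int_mem' (K : Type) [Field K] [NumberField K] (T : Finset (HeightOneSpectrum (𝓞 K)))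
    (a : 𝓞 K) : (a : K) ∈ RT K T := by
  intro p _
  exact p.valuation_le_one a

theorem nf_norm (K : Type) [Field K] [NumberField K] (T : Finset (HeightOneSpectrum (𝓞 K)))
    (n : ℕ) : ∃ C : ℝ, 0 < C ∧ ∀ x : Fin n → K, x ≠ 0 → ∃ a : K, a ≠ 0 ∧ Rv (RT K T) (a • x) ∧
      HR (SUnit.placeAbs K T) (SUnit.placeMult K T) (a • x) ≤ C * Height.mulHeight x := by
  obtain ⟨C, hC, hex⟩ := exists_int K
  refine ⟨C, hC, fun x hx => ?_⟩
  obtain ⟨a, ha, y, hy, hy0, hyC⟩ := hex n x hx
  have hax : a • x = fun i => (y i : K) := by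
    funext i
    rw [← hy i]
    rfl
  have hax0 : a • x ≠ 0 := by
    intro h
    rcases smul_eq_zero.1 h with h1 | h1
    · exact ha h1
    · exact hx h1
  refine ⟨a, ha, ⟨hax0, fun i => ?_⟩, ?_⟩
  · rw [hax]
    exact int_mem' K T (y i)
  · have h1 : Height.mulHeight x = Height.mulHeight (a • x) :=
      (Height.mulHeight_smul_eq_mulHeight x ha).symm
    have h2 := NumberField.mulHeight_eq hax0
    have h3 := NumberField.absNorm_mul_finprod_finitePlace_eq_one hy0
    rw [h1, h2]
    unfold HR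
    rw [Fintype.prod_sum_type]
    set P : ℝ := ∏ v : InfinitePlace K, (⨆ i, v ((a • x) i)) ^ v.mult with hP
    have hP0 : 0 ≤ P :=
      Finset.prod_nonneg fun w _ => pow_nonneg (Real.iSup_nonneg fun _ => apply_nonneg _ _) _
    have h4 : ∏ᶠ v : FinitePlace K, ⨆ i, v ((a • x) i) = ∏ᶠ v : FinitePlace K, ⨆ i, v (y i : K) := by
      rw [hax]
    rw [h4]
    set Q : ℝ := ∏ᶠ v : FinitePlace K, ⨆ i, v (y i : K) with hQ
    have hN0 : (0:ℝ) ≤ ((Ideal.span (Set.range y)).absNorm : ℝ) := Nat.cast_nonneg _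
    have hQ0 : 0 ≤ Q := by
      by_contra hneg
      push Not at hneg
      nlinarith
    have h5 : 1 ≤ C * Q := by
      rw [← h3]
      exact mul_le_mul_of_nonneg_right hyC hQ0
    have h6 : ∏ p : {p : HeightOneSpectrum (𝓞 K) // p ∈ T},
        nrm (SUnit.placeAbs K T (Sum.inr p)) (a • x) ^ SUnit.placeMult K T (Sum.inr p) ≤ 1 := by
      refine Finset.prod_le_one (fun p _ => pow_nonneg (Real.iSup_nonneg fun _ => apply_nonneg _ _) _)
        fun p _ => ?_
      refine pow_le_one₀ (Real.iSup_nonneg fun _ => apply_nonneg _ _) ?_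
      have hn : Nonempty (Fin n) := by
        obtain ⟨i, _⟩ := Function.ne_iff.1 hx
        exact ⟨i⟩
      refine ciSup_le fun i => ?_
      rw [hax]
      show FinitePlace.mk p.1 (y i : K) ≤ 1
      exact FinitePlace.norm_le_one K p.1 (y i)
    have h7 : ∏ v : InfinitePlace K,
        nrm (SUnit.placeAbs K T (Sum.inl v)) (a • x) ^ SUnit.placeMult K T (Sum.inl v) = P := rfl
    rw [h7]
    calc P * _ ≤ P * 1 := mul_le_mul_of_nonneg_left h6 hP0
      _ ≤ P * (C * Q) := mul_le_mul_of_nonneg_left h5 hP0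
      _ = C * (P * Q) := by ring

end Pool.Agent.Work.SUB
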