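import Pool.Agent.Work.SUB.NfSD0
import Pool.Agent.Work.SUB.NfHt
import Pool.Agent.Work.SUB.NfNorm
import Pool.Agent.Work.SUB.NfLiou
import Pool.Agent.Work.SUB.NfCover
import Pool.Agent.Work.SUB.NfCount

/-!
# NfSD: the ring of `T`-integers of a number field satisfies `IsSD` (block M, end of the block)
-/

set_option autoImplicit false

noncomputable section

namespace Pool.Agent.Work.SUB

open NumberField IsDedekindDomain

theorem isSD_nf (K : Type) [Field K] [NumberField K] (T : Finset (HeightOneSpectrum (𝓞 K))) :
    IsSD (SUnit.placeAbs K T) (SUnit.placeMult K T) (RT K T) where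
  ne := by
    have : Nonempty (InfinitePlace K) := inferInstance
    exact ⟨Sum.inl this.some⟩
  m_pos := by
    rintro (w | p)
    · exact w.mult_pos
    · exact le_rfl
  prod_ge := nf_prod_ge K T
  northcott := nf_northcott K T
  frac := nf_frac K T
  mink := fun n hn A _ => mink_of (nf_cover K T) (nf_count K T) n hn A
  siegel := siegel_of ⟨Sum.inl (inferInstance : Nonempty (InfinitePlace K)).some⟩ (by
      rintro (w | p)
      · exact w.mult_pos
      · exact le_rfl) (nf_prod_ge K T) (nf_cover K T) (nf_count2 K T)
  height_le := nf_height_le K T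
  norm := nf_norm K T
  liouville := nf_liouville K T

end Pool.Agent.Work.SUB
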