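import Pool.Agent.Work.SUB.RStep

/-!
# Roth: Roth's lemma over number fields (block R, end of the block)
-/

set_option autoImplicit false

noncomputable section

namespace Pool.Agent.Work.SUB

theorem rothLemma (K : Type) [Field K] [NumberField K] (m : ℕ) : RothLemma K m :=
  roth_all K m

end Pool.Agent.Work.SUB
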