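import Pool.Agent.Work.SUB.Tw

/-!
# Bal: balancing a vector by an element of `R`, small vectors (block M, modules M6, M7)

PROOF of `balance`. Let `M = ∑ w, m w ≥ 1` and let `C₁` be the constant of `hS.mink 1` for the
`1 × 1` identity matrices. Put `C₀ = max 1 C₁`, `P = NN x > 0`, `T_w = tw_w x > 0` (Tw.tw_pos) and
`r_w = C₀ * P ^ (1/M) / T_w`. Then `wt m r = ∏ r_w ^ m_w = C₀ ^ M * P / ∏ T_w ^ m_w = C₀ ^ M ≥ C₁`,
so there is `a ∈ R`, `a ≠ 0` with `v_w a ≤ r_w`. Hence `tw_w (a x) = v_w a * T_w ≤ C₀ P^(1/M)` and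
`NN (a x) ≤ (C₀ P^(1/M))^M = C₀^M P`. Take `C = C₀ ^ M`.

PROOF of `balance_HR`: special case `A = 1`, `t = 1` (`HR_eq_NN`, `nrm_eq_tw`).

PROOF of `small`. `C₁` the constant of `hS.mink n` for `A`. Put `ρ = (max 1 C₁ * wt t)^(1/(nM))`
and `r_{w,i} = ρ / t_{w,i}`; `wt m r = ρ^(nM) / wt t ≥ C₁`. The vector `x` has
`t_{w,i} v (L_{w,i} x) ≤ ρ`, so `NN x ≤ ρ^M = (max 1 C₁ * wt t)^(1/n)` (`NN_le_pow`).
-/

set_option autoImplicit false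

noncomputable section

namespace Pool.Agent.Work.SUB

variable {K : Type} [Field K] [Height.AdmissibleAbsValues K] {ι : Type} [Fintype ι]
  {v : ι → AbsoluteValue K ℝ} {m : ι → ℕ} {R : Subring K}

theorem balance (hS : IsSD v m R) : ∃ C : ℝ, 1 ≤ C ∧ ∀ (n : ℕ)
    (A : ι → Matrix (Fin n) (Fin n) K), (∀ w, (A w).det ≠ 0) → ∀ t : ι → Fin n → ℝ,
    (∀ w i, 0 < t w i) → ∀ x : Fin n → K, Rv R x → ∃ a ∈ R, a ≠ 0 ∧
      (∀ w, tw (v w) (A w) (t w) (a • x) ≤ C * NN v m A t x ^ (1 / ((∑ w, m w : ℕ) : ℝ))) ∧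
      NN v m A t (a • x) ≤ C * NN v m A t x := by
  obtain ⟨M, hM⟩ : ∃ M : ℕ, M = ∑ w, m w := ⟨_, rfl⟩
  have hM0 : 0 < M := hM ▸ sum_m_pos hS
  have hMR : (M : ℝ) ≠ 0 := by exact_mod_cast hM0.ne'
  obtain ⟨C₁, hC₁, hmink⟩ := hS.mink 1 one_pos (fun _ => 1) (fun _ => by
    rw [Matrix.det_one]
    exact one_ne_zero)
  obtain ⟨C₀, hC₀⟩ : ∃ C₀ : ℝ, C₀ = max 1 C₁ := ⟨_, rfl⟩
  have hC01 : 1 ≤ C₀ := hC₀ ▸ le_max_left _ _
  have hC00 : 0 < C₀ := zero_lt_one.trans_le hC01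
  have hCM : C₀ ≤ C₀ ^ M := by
    calc C₀ = C₀ ^ 1 := (pow_one _).symm
      _ ≤ C₀ ^ M := pow_le_pow_right₀ hC01 hM0
  refine ⟨C₀ ^ M, hC01.trans hCM, fun n A hA t ht x hx => ?_⟩
  rw [← hM]
  have hP : 0 < NN v m A t x := NN_pos hA ht hx.1
  have hT : ∀ w, 0 < tw (v w) (A w) (t w) x := fun w => tw_pos (v w) (hA w) (ht w) hx.1
  obtain ⟨P, hPd⟩ : ∃ P, P = NN v m A t x := ⟨_, rfl⟩
  rw [← hPd] at hP ⊢
  have hPM : 0 < P ^ (1 / (M : ℝ)) := Real.rpow_pos_of_pos hP _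
  have hPP : (P ^ (1 / (M : ℝ))) ^ M = P := by
    rw [← Real.rpow_mul_natCast hP.le, one_div, inv_mul_cancel₀ hMR, Real.rpow_one]
  have hr : C₁ ≤ wt m (fun w (_ : Fin 1) => C₀ * P ^ (1 / (M : ℝ)) / tw (v w) (A w) (t w) x) := by
    have h1 : wt m (fun w (_ : Fin 1) => C₀ * P ^ (1 / (M : ℝ)) / tw (v w) (A w) (t w) x) =
        C₀ ^ M := by
      unfold wt
      have h2 : ∀ w, ∏ _i : Fin 1, (C₀ * P ^ (1 / (M : ℝ)) / tw (v w) (A w) (t w) x) ^ m w =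
          (C₀ * P ^ (1 / (M : ℝ))) ^ m w / tw (v w) (A w) (t w) x ^ m w := fun w => by
        rw [Finset.prod_const, Finset.card_univ, Fintype.card_fin, pow_one, div_pow]
      rw [Finset.prod_congr rfl fun w _ => h2 w, Finset.prod_div_distrib,
        Finset.prod_pow_eq_pow_sum, ← hM, mul_pow, hPP]
      have h3 : ∏ w, tw (v w) (A w) (t w) x ^ m w = P := hPd.symm
      rw [h3, mul_div_assoc, div_self hP.ne', mul_one]
    rw [h1]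
    exact ((le_max_right _ _).trans hC₀.ge).trans hCM
  obtain ⟨y, hy, hyr⟩ := hmink _ (fun w _ => div_pos (mul_pos hC00 hPM) (hT w)) hr
  have ha0 : y 0 ≠ 0 := by
    intro h
    apply hy.1
    funext i
    rw [Subsingleton.elim i 0, h]
    rfl
  have hva : ∀ w, v w (y 0) ≤ C₀ * P ^ (1 / (M : ℝ)) / tw (v w) (A w) (t w) x := by
    intro w
    have h1 := hyr w 0
    rw [Matrix.one_mulVec] at h1
    exact h1
  have htw : ∀ w, tw (v w) (A w) (t w) (y 0 • x) ≤ C₀ * P ^ (1 / (M : ℝ)) := by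
    intro w
    rw [tw_smul]
    exact (le_div_iff₀ (hT w)).1 (hva w)
  refine ⟨y 0, hy.2 0, ha0, fun w => (htw w).trans (mul_le_mul_of_nonneg_right hCM hPM.le), ?_⟩
  have h2 := NN_le_pow (v := v) (m := m) (A := A) (fun w i => (ht w i).le) htw
  rw [← hM, mul_pow, hPP] at h2
  exact h2

theorem balance_HR (hS : IsSD v m R) : ∃ C : ℝ, 1 ≤ C ∧ ∀ (n : ℕ) (x : Fin n → K), Rv R x →
    ∃ a ∈ R, a ≠ 0 ∧ (∀ w, nrm (v w) (a • x) ≤ C * HR v m x ^ (1 / ((∑ w, m w : ℕ) : ℝ))) ∧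
      HR v m (a • x) ≤ C * HR v m x := by
  obtain ⟨C, hC, h⟩ := balance hS
  refine ⟨C, hC, fun n x hx => ?_⟩
  obtain ⟨a, ha, ha0, h1, h2⟩ := h n (fun _ => 1) (fun _ => by
    rw [Matrix.det_one]
    exact one_ne_zero) (fun _ _ => 1) (fun _ _ => one_pos) x hx
  refine ⟨a, ha, ha0, fun w => ?_, ?_⟩
  · rw [nrm_eq_tw, HR_eq_NN]
    exact h1 w
  · rw [HR_eq_NN, HR_eq_NN]
    exact h2

theorem small (hS : IsSD v m R) {n : ℕ} (hn : 0 < n) (A : ι → Matrix (Fin n) (Fin n) K)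
    (hA : ∀ w, (A w).det ≠ 0) : ∃ C : ℝ, 0 < C ∧ ∀ t : ι → Fin n → ℝ, (∀ w i, 0 < t w i) →
      ∃ x, Rv R x ∧ NN v m A t x ≤ C * wt m t ^ (1 / (n : ℝ)) := by
  obtain ⟨M, hM⟩ : ∃ M : ℕ, M = ∑ w, m w := ⟨_, rfl⟩
  have hM0 : 0 < M := hM ▸ sum_m_pos hS
  have hMR : (M : ℝ) ≠ 0 := by exact_mod_cast hM0.ne'
  have hnR : (n : ℝ) ≠ 0 := by exact_mod_cast hn.ne'
  obtain ⟨C₁, hC₁, hmink⟩ := hS.mink n hn A hA
  obtain ⟨C₀, hC₀⟩ : ∃ C₀ : ℝ, C₀ = max 1 C₁ := ⟨_, rfl⟩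
  have hC01 : 1 ≤ C₀ := hC₀ ▸ le_max_left _ _
  have hC00 : 0 < C₀ := zero_lt_one.trans_le hC01
  refine ⟨C₀ ^ (1 / (n : ℝ)), Real.rpow_pos_of_pos hC00 _, fun t ht => ?_⟩
  have hW : 0 < wt m t := wt_pos ht
  have hX : 0 < C₀ * wt m t := mul_pos hC00 hW
  obtain ⟨ρ, hρ⟩ : ∃ ρ : ℝ, ρ = (C₀ * wt m t) ^ (1 / ((n : ℝ) * M)) := ⟨_, rfl⟩
  have hρ0 : 0 < ρ := hρ ▸ Real.rpow_pos_of_pos hX _
  have hρM : ρ ^ M = (C₀ * wt m t) ^ (1 / (n : ℝ)) := by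
    rw [hρ, ← Real.rpow_mul_natCast hX.le]
    congr 1
    field_simp
  have hρnM : (ρ ^ M) ^ n = C₀ * wt m t := by
    rw [hρM, ← Real.rpow_mul_natCast hX.le, one_div, inv_mul_cancel₀ hnR, Real.rpow_one]
  have hr : C₁ ≤ wt m (fun w i => ρ / t w i) := by
    have h1 : wt m (fun w i => ρ / t w i) = C₀ := by
      unfold wt
      have h2 : ∀ w, ∏ i, (ρ / t w i) ^ m w = (ρ ^ n) ^ m w / ∏ i, t w i ^ m w := fun w => by
        rw [Finset.prod_congr rfl fun i _ => div_pow ρ (t w i) (m w), Finset.prod_div_distrib,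
          Finset.prod_const, Finset.card_univ, Fintype.card_fin, ← pow_mul, ← pow_mul,
          mul_comm]
      rw [Finset.prod_congr rfl fun w _ => h2 w, Finset.prod_div_distrib,
        Finset.prod_pow_eq_pow_sum, ← hM, ← pow_mul, mul_comm n M, pow_mul, hρnM]
      have h3 : ∏ w, ∏ i, t w i ^ m w = wt m t := rfl
      rw [h3, mul_div_assoc, div_self hW.ne', mul_one]
    rw [h1]
    exact (le_max_right _ _).trans hC₀.ge
  obtain ⟨x, hx, hxr⟩ := hmink _ (fun w i => div_pos hρ0 (ht w i)) hr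
  refine ⟨x, hx, ?_⟩
  have h2 := NN_le_pow (v := v) (m := m) (A := A) (t := t) (x := x) (B := ρ)
    (fun w i => (ht w i).le) (fun w => tw_le (v w) hρ0.le fun i => by
      have h3 := hxr w i
      rw [le_div_iff₀ (ht w i)] at h3
      rw [mul_comm]
      exact h3)
  rw [← hM, hρM, Real.mul_rpow hC00.le hW.le] at h2
  exact h2

end Pool.Agent.Work.SUB
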