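import Pool.Agent.Work.SUB.Param
import Pool.Agent.Work.SUB.Bal

/-!
# SubR: the Subspace Theorem for vectors with coordinates in `R`; general form (M16, M17)

PROOF of `finite_lines`. By `balance_HR` there is `a ∈ R`, `a ≠ 0` with `nrm (v w) (a x) ≤ C B^(1/M)`, so the
coordinates of `a x` are in a finite set (`hS.northcott`); `𝒰 = {span {y} | y in this finite set of
vectors}`; `x = a⁻¹ (a x) ∈ span {a x}`.

PROOF of `subspaceR'`. `M = ∑ m w`, `C` from `balance_HR`, `C'` with `v w (L_{w,i} y) ≤ C' nrm y`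
(`mulVec_le`). Let `x` be given, `Q = HR x ≥ 1`, `y = a x` balanced: `nrm (v w) y ≤ C Q^(1/M)`,
`HR y ≤ C Q`, so `∏_w v_w(a)^(m w) ≤ C` (`HR_smul`), and `∏_{w,i} v (L_{w,i} y)^(m w) =
(∏_w v_w(a)^(m w))^n ∏_{w,i} v (L_{w,i} x)^(m w) ≤ C^n Q^(-δ)`. Let `Q₁` be large. (a) `Q ≤ Q₁`:
`finite_lines` (`span {y} ≠ ⊤` as `n ≥ 2`). (b) some `L_{w,i} y = 0`: `x` is in the kernel of the nonzero
form `L_{w,i}`: finitely many proper subspaces. (c) Otherwise `Q > Q₁` and put `e_{w,i} = - log v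
(L_{w,i} y) / log Q`, i.e. `v (L_{w,i} y) = Q^(-e_{w,i})`. `v (L_{w,i} y) ≤ C' C Q^(1/M) ≤ Q^2` gives
`e ≥ -2`. `∑ m e ≥ δ - n log C / log Q ≥ δ/2`. Put `b = 2 n M + δ`, `e' = min e b`. Then `∑ m e' ≥ δ/2`
(if some `e_{w,i} > b` the sum is `≥ b - 2 n M = δ`, as the other terms `m e' ≥ -2 m`), `|e'| ≤ b`,
`E = ∑ m e'`, `c_{w,i} = E/(nM) - e'_{w,i}`: `∑ m c = 0`, `|c| ≤ 2 b` (note `|E| ≤ n M b`).
`Q^(-c_{w,i}) v (L_{w,i} y) ≤ Q^(-c - e') = Q^(-E/(nM))`, so `NN_c y ≤ Q^(-E/n) ≤ Q^(-δ/(2n))`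
(`NN_le_pow`). Apply `paramUnif` with `B = 2 b`, `δ/(2n)`; `x ∈ U` because `y = a x ∈ U`, `a ≠ 0`.

PROOF of `subspace'`. Let `C₀` be from `hS.norm n`; `x` given, `a` with `Rv R (a x)`, `HR (a x) ≤ C₀ H`,
`H = mulHeight x = mulHeight (a x)` (`Height.mulHeight_smul_eq_mulHeight`). Put `y = a x`. Both sides of
the inequality scale in the same way: `∏ v (L y)^m ≤ HR y ^ n * H^(-n-δ) ≤ C₀^n H^(-δ) ≤ C₀^(n+δ)
(HR y)^(-δ) ≤ (HR y)^(-δ/2)` if `HR y ≥ Q₂`. Use `subspaceR'` with `δ/2`, and `finite_lines` for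
`HR y ≤ Q₂`.
-/

set_option autoImplicit false

noncomputable section

namespace Pool.Agent.Work.SUB

variable {K : Type} [Field K] [Height.AdmissibleAbsValues K] {ι : Type} [Fintype ι]
  {v : ι → AbsoluteValue K ℝ} {m : ι → ℕ} {R : Subring K}

omit [Height.AdmissibleAbsValues K] in
private theorem prod_smul' {n : ℕ} (A : ι → Matrix (Fin n) (Fin n) K) (a : K) (x : Fin n → K) :
    ∏ w, ∏ i, v w ((A w).mulVec (a • x) i) ^ m w =
      (∏ w, v w a ^ m w) ^ n * ∏ w, ∏ i, v w ((A w).mulVec x i) ^ m w := by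
  rw [← Finset.prod_pow, ← Finset.prod_mul_distrib]
  refine Finset.prod_congr rfl fun w _ => ?_
  have h1 : (v w a ^ m w) ^ n = ∏ _i : Fin n, v w a ^ m w := by
    rw [Finset.prod_const, Finset.card_univ, Fintype.card_fin]
  rw [h1, ← Finset.prod_mul_distrib]
  refine Finset.prod_congr rfl fun i _ => ?_
  rw [Matrix.mulVec_smul, Pi.smul_apply, smul_eq_mul, map_mul, mul_pow]

omit [Height.AdmissibleAbsValues K] [Fintype ι] in
private theorem mem_of_smul {n : ℕ} {U : Submodule K (Fin n → K)} {a : K} (ha : a ≠ 0)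
    {x : Fin n → K} (h : a • x ∈ U) : x ∈ U :=
  (Submodule.smul_mem_iff U ha).1 h

theorem finite_lines (hS : IsSD v m R) {n : ℕ} (hn : 2 ≤ n) (B : ℝ) :
    ∃ 𝒰 : Set (Submodule K (Fin n → K)), 𝒰.Finite ∧ (∀ U ∈ 𝒰, U ≠ ⊤) ∧
      ∀ x : Fin n → K, Rv R x → HR v m x ≤ B → ∃ U ∈ 𝒰, x ∈ U := by
  obtain ⟨C, hC, hbal⟩ := balance_HR hS
  set B' : ℝ := C * B ^ (1 / ((∑ w, m w : ℕ) : ℝ)) with hB'
  have hfin : {y : Fin n → K | ∀ i, y i ∈ {x : K | x ∈ R ∧ ∀ w, v w x ≤ B'}}.Finite :=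
    Set.Finite.pi' fun _ => hS.northcott B'
  refine ⟨(fun y => Submodule.span K {y}) ''
    {y : Fin n → K | ∀ i, y i ∈ {x : K | x ∈ R ∧ ∀ w, v w x ≤ B'}}, hfin.image _, ?_, ?_⟩
  · rintro U ⟨y, -, rfl⟩ htop
    have h1 : Module.finrank K (Submodule.span K {y}) ≤ 1 := by
      have := finrank_span_le_card (R := K) ({y} : Set (Fin n → K))
      simpa using this
    simp only at htop
    rw [htop, finrank_top, Module.finrank_fin_fun] at h1
    omega
  · intro x hx hHR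
    obtain ⟨a, haR, ha0, hnrm, -⟩ := hbal n x hx
    refine ⟨Submodule.span K {a • x}, ⟨a • x, fun i => ⟨?_, fun w => ?_⟩, rfl⟩,
      mem_of_smul ha0 (Submodule.mem_span_singleton_self _)⟩
    · exact R.mul_mem haR (hx.2 i)
    · refine (le_nrm (v w) (a • x) i).trans ((hnrm w).trans ?_)
      refine mul_le_mul_of_nonneg_left ?_ (by linarith)
      exact Real.rpow_le_rpow (HR_nonneg x) hHR (by positivity)

variable [CharZero K]

omit [Height.AdmissibleAbsValues K] [Fintype ι] [CharZero K] in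
private theorem ker_ne_top {n : ℕ} {A : Matrix (Fin n) (Fin n) K} (hA : A.det ≠ 0) (i : Fin n) :
    LinearMap.ker ((LinearMap.proj i).comp A.mulVecLin) ≠ ⊤ := by
  intro h
  have h1 : A⁻¹.mulVec (Pi.single i 1) ∈ LinearMap.ker ((LinearMap.proj i).comp A.mulVecLin) := by
    rw [h]
    trivial
  rw [LinearMap.mem_ker, LinearMap.comp_apply, Matrix.mulVecLin_apply, LinearMap.proj_apply,
    Matrix.mulVec_mulVec, Matrix.mul_nonsing_inv _ (isUnit_iff_ne_zero.2 hA),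
    Matrix.one_mulVec, Pi.single_eq_same] at h1
  exact one_ne_zero h1

theorem subspaceR' (hS : IsSD v m R) (hRoth : ∀ N, RothLemma K N) {n : ℕ} (hn : 2 ≤ n)
    (A : ι → Matrix (Fin n) (Fin n) K) (hA : ∀ w, (A w).det ≠ 0) (δ : ℝ) (hδ : 0 < δ) :
    ∃ 𝒰 : Set (Submodule K (Fin n → K)), 𝒰.Finite ∧ (∀ U ∈ 𝒰, U ≠ ⊤) ∧
      ∀ x : Fin n → K, Rv R x →
        ∏ w, ∏ i, v w ((A w).mulVec x i) ^ m w ≤ HR v m x ^ (-δ) → ∃ U ∈ 𝒰, x ∈ U := by
  classical
  obtain ⟨C, hC, hbal⟩ := balance_HR hS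
  -- the constant C'
  obtain ⟨C', hC', hA'⟩ : ∃ C' : ℝ, 1 ≤ C' ∧ ∀ w i (y : Fin n → K),
      v w ((A w).mulVec y i) ≤ C' * nrm (v w) y := by
    have h0 : ∀ w i, 0 ≤ ∑ j, v w (A w i j) := fun w i =>
      Finset.sum_nonneg fun j _ => (v w).nonneg _
    have h0' : ∀ w, 0 ≤ ∑ i, ∑ j, v w (A w i j) := fun w => Finset.sum_nonneg fun i _ => h0 w i
    have h0'' : 0 ≤ ∑ w, ∑ i, ∑ j, v w (A w i j) := Finset.sum_nonneg fun w _ => h0' w
    refine ⟨1 + ∑ w, ∑ i, ∑ j, v w (A w i j), by linarith, fun w i y => ?_⟩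
    refine (mulVec_le (v w) (A w) y i).trans (mul_le_mul_of_nonneg_right ?_ (nrm_nonneg _ _))
    have h1 : ∑ j, v w (A w i j) ≤ ∑ i, ∑ j, v w (A w i j) :=
      Finset.single_le_sum (f := fun i => ∑ j, v w (A w i j)) (fun i _ => h0 w i)
        (Finset.mem_univ i)
    have h2 : ∑ i, ∑ j, v w (A w i j) ≤ ∑ w, ∑ i, ∑ j, v w (A w i j) :=
      Finset.single_le_sum (f := fun w => ∑ i, ∑ j, v w (A w i j)) (fun w _ => h0' w)
        (Finset.mem_univ w)
    linarith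
  set M : ℕ := ∑ w, m w with hM
  have hMpos : 1 ≤ M := sum_m_pos hS
  have hM1 : (1 : ℝ) ≤ M := by exact_mod_cast hMpos
  have hn2 : (2 : ℝ) ≤ n := by exact_mod_cast hn
  have hn0 : (0 : ℝ) < n := by linarith
  have hnM : 2 ≤ (n : ℝ) * M := by nlinarith
  have hnM0 : 0 < (n : ℝ) * M := by linarith
  set b : ℝ := 2 * n * M + δ with hb
  have hb4 : 4 ≤ b := by
    rw [hb]
    nlinarith
  obtain ⟨Q₀, hQ₀, 𝒰₀, hfin₀, htop₀, hpar⟩ :=
    paramUnif hS hRoth hn A hA (2 * b) (δ / (2 * n)) (by positivity)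
  set Q₁ : ℝ := Q₀ + C' * C + (C ^ n) ^ (2 / δ) + 2 with hQ₁
  have hCn : 1 ≤ C ^ n := one_le_pow₀ hC
  have hCC : 1 ≤ C' * C := by nlinarith
  have hCnδ : 0 < (C ^ n) ^ (2 / δ) := Real.rpow_pos_of_pos (by linarith) _
  obtain ⟨𝒰₁, hfin₁, htop₁, hlines⟩ := finite_lines hS hn Q₁
  refine ⟨𝒰₀ ∪ 𝒰₁ ∪ Set.range (fun k : ι × Fin n =>
    LinearMap.ker ((LinearMap.proj k.2).comp (A k.1).mulVecLin)),
    (hfin₀.union hfin₁).union (Set.finite_range _), ?_, ?_⟩
  · rintro U ((hU | hU) | ⟨k, rfl⟩)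
    · exact htop₀ U hU
    · exact htop₁ U hU
    · exact ker_ne_top (hA k.1) k.2
  intro x hx hprod
  -- (a)
  rcases le_or_gt (HR v m x) Q₁ with hsmall | hbig
  · obtain ⟨U, hU, hxU⟩ := hlines x hx hsmall
    exact ⟨U, Or.inl (Or.inr hU), hxU⟩
  -- (b)
  by_cases hker : ∃ w i, (A w).mulVec x i = 0
  · obtain ⟨w, i, h0⟩ := hker
    refine ⟨_, Or.inr ⟨(w, i), rfl⟩, ?_⟩
    rw [LinearMap.mem_ker, LinearMap.comp_apply, Matrix.mulVecLin_apply, LinearMap.proj_apply]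
    exact h0
  push Not at hker
  -- (c)
  obtain ⟨a, haR, ha0, hnrm, hHRa⟩ := hbal n x hx
  set Q : ℝ := HR v m x with hQ
  have hQ2 : 2 < Q := by linarith
  have hQ1 : 1 ≤ Q := by linarith
  have hQ0 : 0 < Q := by linarith
  have hlog : 0 < Real.log Q := Real.log_pos (by linarith)
  set y : Fin n → K := a • x with hy
  have hyR : Rv R y := Rv_smul haR ha0 hx
  have hLy : ∀ w i, 0 < v w ((A w).mulVec y i) := by
    intro w i
    rw [hy, Matrix.mulVec_smul, Pi.smul_apply, smul_eq_mul]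
    exact (v w).pos (mul_ne_zero ha0 (hker w i))
  set e : ι → Fin n → ℝ := fun w i => -(Real.log (v w ((A w).mulVec y i)) / Real.log Q) with he
  have hve : ∀ w i, v w ((A w).mulVec y i) = Q ^ (-(e w i)) := by
    intro w i
    show _ = Q ^ (-(-(Real.log (v w ((A w).mulVec y i)) / Real.log Q)))
    rw [neg_neg, Real.rpow_def_of_pos hQ0, mul_div_cancel₀ _ hlog.ne', Real.exp_log (hLy w i)]
  -- e ≥ -2
  have hem2 : ∀ w i, -2 ≤ e w i := by
    intro w i
    have h1 : v w ((A w).mulVec y i) ≤ Q ^ (2 : ℝ) := by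
      have h2 : Q ^ (1 / (M : ℝ)) ≤ Q := by
        calc Q ^ (1 / (M : ℝ)) ≤ Q ^ (1 : ℝ) := by
              apply Real.rpow_le_rpow_of_exponent_le hQ1
              rw [div_le_one (by linarith)]
              exact hM1
          _ = Q := Real.rpow_one Q
      calc v w ((A w).mulVec y i) ≤ C' * nrm (v w) y := hA' w i y
        _ ≤ C' * (C * Q ^ (1 / (M : ℝ))) := mul_le_mul_of_nonneg_left (hnrm w) (by linarith)
        _ ≤ C' * (C * Q) :=
            mul_le_mul_of_nonneg_left (mul_le_mul_of_nonneg_left h2 (by linarith)) (by linarith)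
        _ = C' * C * Q := by ring
        _ ≤ Q * Q := mul_le_mul_of_nonneg_right (by linarith) hQ0.le
        _ = Q ^ (2 : ℝ) := by rw [Real.rpow_two]; ring
    rw [hve w i] at h1
    have h3 := (Real.rpow_le_rpow_left_iff (by linarith : 1 < Q)).1 h1
    linarith
  -- the product
  have hprodA : ∏ w, v w a ^ m w ≤ C := by
    have h1 : HR v m y = (∏ w, v w a ^ m w) * Q := HR_smul a x
    rw [h1] at hHRa
    exact le_of_mul_le_mul_right hHRa hQ0
  have hpa0 : 0 ≤ ∏ w, v w a ^ m w := Finset.prod_nonneg fun w _ => pow_nonneg ((v w).nonneg _) _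
  have hprody : ∏ w, ∏ i, v w ((A w).mulVec y i) ^ m w ≤ Q ^ (-(δ / 2)) := by
    rw [hy, prod_smul']
    calc (∏ w, v w a ^ m w) ^ n * ∏ w, ∏ i, v w ((A w).mulVec x i) ^ m w
        ≤ C ^ n * Q ^ (-δ) :=
          mul_le_mul (pow_le_pow_left₀ hpa0 hprodA n) hprod
            (Finset.prod_nonneg fun w _ => Finset.prod_nonneg fun i _ =>
              pow_nonneg ((v w).nonneg _) _) (by positivity)
      _ ≤ Q ^ (δ / 2) * Q ^ (-δ) := by
          refine mul_le_mul_of_nonneg_right ?_ (Real.rpow_nonneg hQ0.le _)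
          have h1 : C ^ n = ((C ^ n) ^ (2 / δ)) ^ (δ / 2) := by
            rw [← Real.rpow_mul (by linarith)]
            have : 2 / δ * (δ / 2) = 1 := by field_simp
            rw [this, Real.rpow_one]
          rw [h1]
          exact Real.rpow_le_rpow hCnδ.le (by linarith) (by positivity)
      _ = Q ^ (-(δ / 2)) := by
          rw [← Real.rpow_add hQ0]
          congr 1
          ring
  have hsum_e : δ / 2 ≤ ∑ w, (m w : ℝ) * ∑ i, e w i := by
    have h1 : ∏ w, ∏ i, v w ((A w).mulVec y i) ^ m w = Q ^ (-(∑ w, (m w : ℝ) * ∑ i, e w i)) := by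
      have h2 : ∀ w, ∏ i, v w ((A w).mulVec y i) ^ m w = Q ^ (-((m w : ℝ) * ∑ i, e w i)) := by
        intro w
        have h3 : ∀ i : Fin n, v w ((A w).mulVec y i) ^ m w = Q ^ (-((m w : ℝ) * e w i)) := by
          intro i
          rw [hve w i, ← Real.rpow_natCast, ← Real.rpow_mul hQ0.le]
          congr 1
          ring
        rw [Finset.prod_congr rfl fun i _ => h3 i, ← Real.rpow_sum_of_pos hQ0,
          Finset.sum_neg_distrib, Finset.mul_sum]
      rw [Finset.prod_congr rfl fun w _ => h2 w, ← Real.rpow_sum_of_pos hQ0,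
        Finset.sum_neg_distrib]
    rw [h1] at hprody
    have h3 := (Real.rpow_le_rpow_left_iff (by linarith : 1 < Q)).1 hprody
    linarith
  set e' : ι → Fin n → ℝ := fun w i => min (e w i) b with he'
  have he'1 : ∀ w i, -2 ≤ e' w i := fun w i => le_min (hem2 w i) (by linarith)
  have he'2 : ∀ w i, e' w i ≤ b := fun w i => min_le_right _ _
  have he'3 : ∀ w i, e' w i ≤ e w i := fun w i => min_le_left _ _
  have hmw : ∀ w, (0 : ℝ) ≤ m w := fun w => Nat.cast_nonneg _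
  have hsumconst : ∀ r : ℝ, ∑ w, (m w : ℝ) * ∑ _i : Fin n, r = n * M * r := by
    intro r
    have h1 : ∀ w, (m w : ℝ) * ∑ _i : Fin n, r = (m w : ℝ) * (n * r) := by
      intro w
      rw [Finset.sum_const, Finset.card_univ, Fintype.card_fin, nsmul_eq_mul]
    rw [Finset.sum_congr rfl fun w _ => h1 w, ← Finset.sum_mul, hM]
    push_cast
    ring
  set E : ℝ := ∑ w, (m w : ℝ) * ∑ i, e' w i with hE
  have hEδ : δ / 2 ≤ E := by
    by_cases hall : ∀ w i, e w i ≤ b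
    · have h1 : E = ∑ w, (m w : ℝ) * ∑ i, e w i := by
        rw [hE]
        refine Finset.sum_congr rfl fun w _ => ?_
        congr 1
        exact Finset.sum_congr rfl fun i _ => min_eq_left (hall w i)
      rw [h1]
      exact hsum_e
    · push Not at hall
      obtain ⟨w₀, i₀, hbig'⟩ := hall
      have h1 : e' w₀ i₀ = b := min_eq_right hbig'.le
      have h2 : b ≤ ∑ w, (m w : ℝ) * ∑ i, (e' w i + 2) := by
        have h3 : b + 2 ≤ (m w₀ : ℝ) * ∑ i, (e' w₀ i + 2) := by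
          have h4 : b + 2 ≤ ∑ i, (e' w₀ i + 2) := by
            have h5 := Finset.single_le_sum (f := fun i => e' w₀ i + 2)
              (fun i _ => by have := he'1 w₀ i; linarith) (Finset.mem_univ i₀)
            simp only [h1] at h5
            exact h5
          have h6 : (1 : ℝ) ≤ m w₀ := by exact_mod_cast hS.m_pos w₀
          nlinarith
        have h7 := Finset.single_le_sum (f := fun w => (m w : ℝ) * ∑ i, (e' w i + 2))
          (fun w _ => mul_nonneg (hmw w) (Finset.sum_nonneg fun i _ => by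
            have := he'1 w i; linarith)) (Finset.mem_univ w₀)
        linarith
      have h8 : ∑ w, (m w : ℝ) * ∑ i, (e' w i + 2) = E + n * M * 2 := by
        rw [← hsumconst 2, hE, ← Finset.sum_add_distrib]
        refine Finset.sum_congr rfl fun w _ => ?_
        rw [← mul_add, Finset.sum_add_distrib]
      rw [h8] at h2
      linarith
  have hEb : |E| ≤ n * M * b := by
    rw [hE]
    refine (Finset.abs_sum_le_sum_abs _ _).trans ?_
    rw [← hsumconst b]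
    refine Finset.sum_le_sum fun w _ => ?_
    rw [abs_mul, abs_of_nonneg (hmw w)]
    refine mul_le_mul_of_nonneg_left ((Finset.abs_sum_le_sum_abs _ _).trans
      (Finset.sum_le_sum fun i _ => ?_)) (hmw w)
    rw [abs_le]
    exact ⟨by have := he'1 w i; linarith, he'2 w i⟩
  set c : ι → Fin n → ℝ := fun w i => E / (n * M) - e' w i with hc
  have hc0 : ∑ w, (m w : ℝ) * ∑ i, c w i = 0 := by
    have h1 : ∀ w, (m w : ℝ) * ∑ i, c w i =
        (m w : ℝ) * (∑ _i : Fin n, E / (n * M)) - (m w : ℝ) * ∑ i, e' w i := by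
      intro w
      rw [← mul_sub, ← Finset.sum_sub_distrib]
    rw [Finset.sum_congr rfl fun w _ => h1 w, Finset.sum_sub_distrib, hsumconst, ← hE]
    field_simp
    ring
  have hcb : ∀ w i, |c w i| ≤ 2 * b := by
    intro w i
    have h1 : |E / (n * M)| ≤ b := by
      rw [abs_div, abs_of_pos hnM0, div_le_iff₀ hnM0]
      linarith
    have h2 := abs_le.1 h1
    have h3 := he'1 w i
    have h4 := he'2 w i
    rw [abs_le]
    constructor
    · show -(2 * b) ≤ E / (n * M) - e' w i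
      linarith [h2.1]
    · show E / (n * M) - e' w i ≤ 2 * b
      linarith [h2.2]
  have hNN : NN v m A (fun w i => Q ^ (-(c w i))) y ≤ Q ^ (-(δ / (2 * n))) := by
    have h1 : NN v m A (fun w i => Q ^ (-(c w i))) y ≤ (Q ^ (-(E / (n * M)))) ^ (∑ w, m w) := by
      refine NN_le_pow (fun w i => (Real.rpow_pos_of_pos hQ0 _).le) fun w => ?_
      refine tw_le _ (Real.rpow_pos_of_pos hQ0 _).le fun i => ?_
      rw [hve w i, ← Real.rpow_add hQ0]
      apply Real.rpow_le_rpow_of_exponent_le hQ1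
      show -(E / (n * M) - e' w i) + -(e w i) ≤ -(E / (n * M))
      linarith [he'3 w i]
    refine h1.trans ?_
    rw [← hM, ← Real.rpow_natCast, ← Real.rpow_mul hQ0.le]
    apply Real.rpow_le_rpow_of_exponent_le hQ1
    have h2 : -(E / (n * M)) * (M : ℝ) = -(E / n) := by
      field_simp
    rw [h2]
    have h3 : δ / (2 * n) = δ / 2 / n := by field_simp
    rw [h3]
    have h4 : δ / 2 / n ≤ E / n := div_le_div_of_nonneg_right hEδ hn0.le
    linarith
  obtain ⟨U, hU, hyU⟩ := hpar Q (by linarith) c hcb hc0 y hyR hNN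
  exact ⟨U, Or.inl (Or.inl hU), mem_of_smul ha0 hyU⟩

theorem subspace' (hS : IsSD v m R) (hRoth : ∀ N, RothLemma K N) {n : ℕ} (hn : 2 ≤ n)
    (A : ι → Matrix (Fin n) (Fin n) K) (hA : ∀ w, (A w).det ≠ 0) (δ : ℝ) (hδ : 0 < δ) :
    ∃ 𝒰 : Set (Submodule K (Fin n → K)), 𝒰.Finite ∧ (∀ U ∈ 𝒰, U ≠ ⊤) ∧
      ∀ x : Fin n → K, x ≠ 0 →
        ∏ w, ∏ i, v w ((A w).mulVec x i) ^ m w ≤
          HR v m x ^ (n : ℝ) * Height.mulHeight x ^ (-(n : ℝ) - δ) → ∃ U ∈ 𝒰, x ∈ U := by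
  obtain ⟨C₀, hC₀, hnorm⟩ := hS.norm n
  obtain ⟨𝒰₁, hfin₁, htop₁, hR⟩ := subspaceR' hS hRoth hn A hA (δ / 2) (by positivity)
  set Q₂ : ℝ := (C₀ ^ ((n : ℝ) + δ)) ^ (2 / δ) with hQ₂
  have hn0 : (0 : ℝ) ≤ n := Nat.cast_nonneg _
  have hCp : 0 < C₀ ^ ((n : ℝ) + δ) := Real.rpow_pos_of_pos hC₀ _
  have hQ₂0 : 0 < Q₂ := Real.rpow_pos_of_pos hCp _
  obtain ⟨𝒰₂, hfin₂, htop₂, hlines⟩ := finite_lines hS hn Q₂
  refine ⟨𝒰₁ ∪ 𝒰₂, hfin₁.union hfin₂, fun U hU => hU.elim (htop₁ U) (htop₂ U), ?_⟩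
  intro x hx hprod
  obtain ⟨a, ha0, hyR, hHR⟩ := hnorm x hx
  set y : Fin n → K := a • x with hy
  have hHRy : 1 ≤ HR v m y := one_le_HR hS hyR
  have hHRy0 : 0 < HR v m y := by linarith
  rcases le_or_gt (HR v m y) Q₂ with hsmall | hbig
  · obtain ⟨U, hU, hyU⟩ := hlines y hyR hsmall
    exact ⟨U, Or.inr hU, mem_of_smul ha0 hyU⟩
  have hpa0 : 0 ≤ ∏ w, v w a ^ m w := Finset.prod_nonneg fun w _ => pow_nonneg ((v w).nonneg _) _
  have hHge : HR v m y / C₀ ≤ Height.mulHeight x := by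
    rw [div_le_iff₀ hC₀]
    linarith
  have hHy : HR v m y = (∏ w, v w a ^ m w) * HR v m x := HR_smul a x
  have h1 : ∏ w, ∏ i, v w ((A w).mulVec y i) ^ m w ≤
      HR v m y ^ (n : ℝ) * Height.mulHeight x ^ (-(n : ℝ) - δ) := by
    rw [hy, prod_smul', ← hy, hHy, Real.mul_rpow hpa0 (HR_nonneg x), Real.rpow_natCast
      (∏ w, v w a ^ m w), mul_assoc]
    exact mul_le_mul_of_nonneg_left hprod (pow_nonneg hpa0 _)
  have h2 : Height.mulHeight x ^ (-(n : ℝ) - δ) ≤ (HR v m y / C₀) ^ (-(n : ℝ) - δ) :=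
    Real.rpow_le_rpow_of_nonpos (div_pos hHRy0 hC₀) hHge (by linarith)
  have h3 : HR v m y ^ (n : ℝ) * (HR v m y / C₀) ^ (-(n : ℝ) - δ) =
      C₀ ^ ((n : ℝ) + δ) * HR v m y ^ (-δ) := by
    rw [Real.div_rpow hHRy0.le hC₀.le, show -(n : ℝ) - δ = -((n : ℝ) + δ) by ring,
      Real.rpow_neg hC₀.le, div_inv_eq_mul, ← mul_assoc, ← Real.rpow_add hHRy0,
      show (n : ℝ) + -((n : ℝ) + δ) = -δ by ring]
    ring
  have h4 : C₀ ^ ((n : ℝ) + δ) ≤ HR v m y ^ (δ / 2) := by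
    have h5 : C₀ ^ ((n : ℝ) + δ) = Q₂ ^ (δ / 2) := by
      rw [hQ₂, ← Real.rpow_mul hCp.le]
      have : 2 / δ * (δ / 2) = 1 := by field_simp
      rw [this, Real.rpow_one]
    rw [h5]
    exact Real.rpow_le_rpow hQ₂0.le hbig.le (by positivity)
  have h6 : ∏ w, ∏ i, v w ((A w).mulVec y i) ^ m w ≤ HR v m y ^ (-(δ / 2)) := by
    refine h1.trans ?_
    calc HR v m y ^ (n : ℝ) * Height.mulHeight x ^ (-(n : ℝ) - δ)
        ≤ HR v m y ^ (n : ℝ) * (HR v m y / C₀) ^ (-(n : ℝ) - δ) :=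
          mul_le_mul_of_nonneg_left h2 (Real.rpow_nonneg hHRy0.le _)
      _ = C₀ ^ ((n : ℝ) + δ) * HR v m y ^ (-δ) := h3
      _ ≤ HR v m y ^ (δ / 2) * HR v m y ^ (-δ) :=
          mul_le_mul_of_nonneg_right h4 (Real.rpow_nonneg hHRy0.le _)
      _ = HR v m y ^ (-(δ / 2)) := by
          rw [← Real.rpow_add hHRy0]
          congr 1
          ring
  obtain ⟨U, hU, hyU⟩ := hR y hyR h6
  exact ⟨U, Or.inl hU, mem_of_smul ha0 hyU⟩

end Pool.Agent.Work.SUB
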