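import Pool.Agent.Work.SUB.LastGap
import Pool.Agent.Work.SUB.NfSD
import Pool.Agent.Work.SUB.Roth
import Pool.Agent.Work.SUB.SubR

/-!
# Subspace: the Subspace Theorem (block G, end of the block)
-/

set_option autoImplicit false

noncomputable section

namespace Pool.Agent.Work.SUB

/-- Parametric form: the vectors in the boxes of small volume lie in finitely many proper
subspaces. -/
theorem param {K : Type} [Field K] [CharZero K] [Height.AdmissibleAbsValues K] {ι : Type}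
    [Fintype ι] {v : ι → AbsoluteValue K ℝ} {m : ι → ℕ} {R : Subring K} (hS : IsSD v m R)
    (hRoth : ∀ N, RothLemma K N) {n : ℕ} (hn : 2 ≤ n)
    (A : ι → Matrix (Fin n) (Fin n) K) (hA : ∀ w, (A w).det ≠ 0)
    (c : ι → Fin n → ℝ) (hc : ∑ w, (m w : ℝ) * ∑ i, c w i < 0) :
    ∃ Q₀ : ℝ, 1 ≤ Q₀ ∧ ∃ 𝒰 : Set (Submodule K (Fin n → K)), 𝒰.Finite ∧ (∀ U ∈ 𝒰, U ≠ ⊤) ∧
      ∀ Q : ℝ, Q₀ ≤ Q → ∀ x : Fin n → K, Rv R x →
        (∀ w i, v w ((A w).mulVec x i) ≤ Q ^ c w i) → ∃ U ∈ 𝒰, x ∈ U := by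
  obtain ⟨i₀⟩ := hS.ne
  set M : ℝ := ((∑ w, m w : ℕ) : ℝ) with hM
  have hMpos : 0 < M := by
    rw [hM]
    exact Nat.cast_pos.mpr (sum_m_pos hS)
  have hn0 : (0 : ℝ) < n := by
    have : 0 < n := by omega
    exact_mod_cast this
  set E : ℝ := ∑ w, (m w : ℝ) * ∑ i, c w i with hE
  have hc0 : ∑ w, (m w : ℝ) * ∑ i : Fin n, (c w i - E / (n * M)) = 0 := by
    have h1 : ∀ w, (m w : ℝ) * ∑ i : Fin n, (c w i - E / (n * M)) =
        (m w : ℝ) * (∑ i, c w i) - (m w : ℝ) * (E / M) := by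
      intro w
      rw [Finset.sum_sub_distrib, Finset.sum_const, Finset.card_univ, Fintype.card_fin,
        nsmul_eq_mul]
      field_simp
    rw [Finset.sum_congr rfl fun w _ => h1 w, Finset.sum_sub_distrib, ← Finset.sum_mul, ← hE,
      ← Nat.cast_sum, ← hM]
    field_simp
    ring
  have hδ : 0 < -E / n := by
    apply div_pos _ hn0
    linarith
  obtain ⟨Q₀, hQ₀, 𝒰, hfin, htop, h⟩ := param' hS hRoth hn A hA
    (fun w i => c w i - E / (n * M)) hc0 (-E / n) hδ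
  refine ⟨Q₀, hQ₀, 𝒰, hfin, htop, fun Q hQ x hx hbox => h Q hQ x hx ?_⟩
  have hQpos : 0 < Q := by linarith
  have key : NN v m A (fun w i => Q ^ (-(c w i - E / (n * M)))) x ≤
      (Q ^ (E / (n * M))) ^ (∑ w, m w) := by
    apply NN_le_pow
    · intro w i
      exact (Real.rpow_pos_of_pos hQpos _).le
    · intro w
      refine tw_le _ (Real.rpow_pos_of_pos hQpos _).le ?_
      intro i
      calc Q ^ (-(c w i - E / (n * M))) * v w ((A w).mulVec x i)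
          ≤ Q ^ (-(c w i - E / (n * M))) * Q ^ (c w i) := by
            apply mul_le_mul_of_nonneg_left (hbox w i) (Real.rpow_pos_of_pos hQpos _).le
        _ = Q ^ (E / (n * M)) := by
            rw [← Real.rpow_add hQpos]
            congr 1
            ring
  refine key.trans (le_of_eq ?_)
  rw [← Real.rpow_natCast, ← Real.rpow_mul hQpos.le, ← hM]
  congr 1
  field_simp

/-- The Subspace Theorem for vectors with coordinates in `R`. -/
theorem subspaceR {K : Type} [Field K] [CharZero K] [Height.AdmissibleAbsValues K] {ι : Type}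
    [Fintype ι] {v : ι → AbsoluteValue K ℝ} {m : ι → ℕ} {R : Subring K} (hS : IsSD v m R)
    (hRoth : ∀ N, RothLemma K N) {n : ℕ} (hn : 2 ≤ n)
    (A : ι → Matrix (Fin n) (Fin n) K) (hA : ∀ w, (A w).det ≠ 0) (δ : ℝ) (hδ : 0 < δ) :
    ∃ 𝒰 : Set (Submodule K (Fin n → K)), 𝒰.Finite ∧ (∀ U ∈ 𝒰, U ≠ ⊤) ∧
      ∀ x : Fin n → K, Rv R x →
        ∏ w, ∏ i, v w ((A w).mulVec x i) ^ m w ≤ HR v m x ^ (-δ) → ∃ U ∈ 𝒰, x ∈ U :=
  subspaceR' hS hRoth hn A hA δ hδ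

/-- The Subspace Theorem (general form). -/
theorem subspace {K : Type} [Field K] [CharZero K] [Height.AdmissibleAbsValues K] {ι : Type}
    [Fintype ι] {v : ι → AbsoluteValue K ℝ} {m : ι → ℕ} {R : Subring K} (hS : IsSD v m R)
    (hRoth : ∀ N, RothLemma K N) {n : ℕ} (hn : 2 ≤ n)
    (A : ι → Matrix (Fin n) (Fin n) K) (hA : ∀ w, (A w).det ≠ 0) (δ : ℝ) (hδ : 0 < δ) :
    ∃ 𝒰 : Set (Submodule K (Fin n → K)), 𝒰.Finite ∧ (∀ U ∈ 𝒰, U ≠ ⊤) ∧
      ∀ x : Fin n → K, x ≠ 0 →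
        ∏ w, ∏ i, v w ((A w).mulVec x i) ^ m w ≤
          HR v m x ^ (n : ℝ) * Height.mulHeight x ^ (-(n : ℝ) - δ) → ∃ U ∈ 𝒰, x ∈ U :=
  subspace' hS hRoth hn A hA δ hδ

open NumberField IsDedekindDomain in
/-- The Subspace Theorem over number fields (Schmidt, Schlickewei). -/
theorem subspace_nf (K : Type) [Field K] [NumberField K] (T : Finset (HeightOneSpectrum (𝓞 K)))
    {n : ℕ} (hn : 2 ≤ n)
    (A : (InfinitePlace K ⊕ {p : HeightOneSpectrum (𝓞 K) // p ∈ T}) →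
      Matrix (Fin n) (Fin n) K) (hA : ∀ w, (A w).det ≠ 0) (δ : ℝ) (hδ : 0 < δ) :
    ∃ 𝒰 : Set (Submodule K (Fin n → K)), 𝒰.Finite ∧ (∀ U ∈ 𝒰, U ≠ ⊤) ∧
      ∀ x : Fin n → K, x ≠ 0 →
        ∏ w, ∏ i, SUnit.placeAbs K T w ((A w).mulVec x i) ^ SUnit.placeMult K T w ≤
          HR (SUnit.placeAbs K T) (SUnit.placeMult K T) x ^ (n : ℝ) *
            Height.mulHeight x ^ (-(n : ℝ) - δ) → ∃ U ∈ 𝒰, x ∈ U :=
  subspace (isSD_nf K T) (rothLemma K) hn A hA δ hδ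

end Pool.Agent.Work.SUB
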