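import Mathlib

/-!
# The Subspace Theorem (library): definitions

Blueprint: `/team-store/blueprint_SUB.md`.

`IsSD v m R` collects everything about the ring `R` of `S`-integers of a number field `K` and the
absolute values `v w` (with multiplicities `m w`) of the places `w ∈ S` which is used in the proof
of the Subspace Theorem; heights are the heights of Mathlib.
-/

set_option autoImplicit false

noncomputable section

namespace Pool.Agent.Work.SUB

/-- The supremum norm of a vector for an absolute value. -/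
def nrm {K : Type} [Field K] (v : AbsoluteValue K ℝ) {n : ℕ} (x : Fin n → K) : ℝ :=
  ⨆ i, v (x i)

/-- `max_i t_i |L_i x|`, where `L_i` is the `i`-th row of `A`. -/
def tw {K : Type} [Field K] (v : AbsoluteValue K ℝ) {n : ℕ} (A : Matrix (Fin n) (Fin n) K)
    (t : Fin n → ℝ) (x : Fin n → K) : ℝ :=
  ⨆ i, t i * v (A.mulVec x i)

/-- The twisted norm: the product over the places of `max_i t_i |L_i x|`. -/
def NN {K : Type} [Field K] {ι : Type} [Fintype ι] (v : ι → AbsoluteValue K ℝ) (m : ι → ℕ)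
    {n : ℕ} (A : ι → Matrix (Fin n) (Fin n) K) (t : ι → Fin n → ℝ) (x : Fin n → K) : ℝ :=
  ∏ w, tw (v w) (A w) (t w) x ^ m w

/-- The product of the norms at the places in `S`. -/
def HR {K : Type} [Field K] {ι : Type} [Fintype ι] (v : ι → AbsoluteValue K ℝ) (m : ι → ℕ)
    {n : ℕ} (x : Fin n → K) : ℝ :=
  ∏ w, nrm (v w) x ^ m w

/-- The product of all the weights. -/
def wt {ι : Type} [Fintype ι] (m : ι → ℕ) {n : ℕ} (t : ι → Fin n → ℝ) : ℝ :=
  ∏ w, ∏ i, t w i ^ m w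

/-- `x` is a nonzero vector with coordinates in `R`. -/
def Rv {K : Type} [Field K] (R : Subring K) {n : ℕ} (x : Fin n → K) : Prop :=
  x ≠ 0 ∧ ∀ i, x i ∈ R

/-- The abstract properties of rings of `S`-integers. -/
structure IsSD {K : Type} [Field K] [Height.AdmissibleAbsValues K] {ι : Type} [Fintype ι]
    (v : ι → AbsoluteValue K ℝ) (m : ι → ℕ) (R : Subring K) : Prop where
  ne : Nonempty ι
  m_pos : ∀ w, 1 ≤ m w
  prod_ge : ∀ c ∈ R, c ≠ 0 → 1 ≤ ∏ w, v w c ^ m w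
  northcott : ∀ B : ℝ, {x : K | x ∈ R ∧ ∀ w, v w x ≤ B}.Finite
  frac : ∀ x : K, ∃ b ∈ R, b ≠ 0 ∧ b * x ∈ R
  /-- Minkowski's first theorem -/
  mink : ∀ n : ℕ, 0 < n → ∀ A : ι → Matrix (Fin n) (Fin n) K, (∀ w, (A w).det ≠ 0) →
    ∃ C : ℝ, 0 < C ∧ ∀ r : ι → Fin n → ℝ, (∀ w i, 0 < r w i) → C ≤ wt m r →
      ∃ x, Rv R x ∧ ∀ w i, v w ((A w).mulVec x i) ≤ r w i
  /-- Siegel's lemma -/
  siegel : ∃ C : ℝ, 1 ≤ C ∧ ∀ (I J : Type) [Fintype I] [Fintype J],
    2 * Fintype.card I ≤ Fintype.card J → 0 < Fintype.card J →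
    ∀ (a : I → J → K) (B : ℝ), 1 ≤ B → (∀ i j, a i j ∈ R) → (∀ i j w, v w (a i j) ≤ B) →
      ∃ ξ : J → K, ξ ≠ 0 ∧ (∀ j, ξ j ∈ R) ∧ (∀ i, ∑ j, a i j * ξ j = 0) ∧
        ∀ j w, v w (ξ j) ≤ (C * Fintype.card J * B) ^ C
  /-- comparison with the height: tuples of elements of `R` -/
  height_le : ∀ (n : ℕ) (x : Fin n → K), Rv R x → Height.mulHeight x ≤ HR v m x
  /-- every projective point has an almost coprime representative in `R` -/
  norm : ∀ n : ℕ, ∃ C : ℝ, 0 < C ∧ ∀ x : Fin n → K, x ≠ 0 →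
    ∃ a : K, a ≠ 0 ∧ Rv R (a • x) ∧ HR v m (a • x) ≤ C * Height.mulHeight x
  /-- Liouville's inequality -/
  liouville : ∀ (w : ι) (n : ℕ) (b : Fin n → K), ∃ C : ℝ, 0 < C ∧ ∀ x : Fin n → K,
    ∑ i, b i * x i ≠ 0 →
      nrm (v w) x ^ m w ≤ C * Height.mulHeight x * v w (∑ i, b i * x i) ^ m w

/-! ### The index and Roth's lemma -/

open MvPolynomial in
/-- `F (X + ξ)` -/
def shiftP {K : Type} [Field K] {m : ℕ} (ξ : Fin m → K) (F : MvPolynomial (Fin m) K) :
    MvPolynomial (Fin m) K :=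
  aeval (fun j => X j + C (ξ j)) F

/-- The index of `F` at `ξ` with respect to the weights `1 / d j` is at least `θ`. -/
def IdxGe {K : Type} [Field K] {m : ℕ} (d : Fin m → ℕ) (ξ : Fin m → K)
    (F : MvPolynomial (Fin m) K) (θ : ℝ) : Prop :=
  ∀ k ∈ (shiftP ξ F).support, θ ≤ ∑ j, (k j : ℝ) / d j

/-- The logarithmic height of the family of the coefficients of `F`. -/
def hP {K : Type} [Field K] [Height.AdmissibleAbsValues K] {σ : Type} (F : MvPolynomial σ K) : ℝ :=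
  Height.logHeight (fun s : F.support => F.coeff s)

/-- Roth's lemma in `m` variables (qualitative form). -/
def RothLemma (K : Type) [Field K] [Height.AdmissibleAbsValues K] (m : ℕ) : Prop :=
  ∀ κ : ℝ, 0 < κ → ∃ σ : ℝ, 0 < σ ∧ ∃ C : ℝ, 1 ≤ C ∧
    ∀ (d : Fin m → ℕ) (ξ : Fin m → K) (F : MvPolynomial (Fin m) K), F ≠ 0 →
      (∀ j, 1 ≤ d j) → (∀ j, F.degreeOf j ≤ d j) →
      (∀ i j : Fin m, i < j → (d j : ℝ) ≤ σ * d i) →
      (∀ j, C * (hP F + ∑ i, (d i : ℝ)) ≤ d j * Height.logHeight₁ (ξ j)) →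
      ¬ IdxGe d ξ F κ

end Pool.Agent.Work.SUB
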