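import Pool.Agent.Work.SUB.CmpDefs

/-!
# CmpBin: Cauchy-Binet (block M, module M12)

PROOF of `cmp_mulVec_wedge`. Let `b = Pi.basisFun K (Fin n)`, `B = b.exteriorPower p` (a basis of
`⋀[K]^p (Fin n → K)`, Mathlib LinearAlgebra/ExteriorPower/Basis). By `exteriorPower.basis_repr_apply`
and `exteriorPower.ιMultiDual_apply_ιMulti` the coordinate of `ιMulti K p y` at `pidx n p s` is
`(Matrix.of fun i j => y i (emb s j)).det = wedge y s`. Let `f = Matrix.toLin' A`,
`F = exteriorPower.map p f`; `F (ιMulti K p y) = ιMulti K p (fun i => A.mulVec (y i))`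
(`exteriorPower.map_apply_ιMulti`). The coordinate at `s` of `F (B (pidx n p s'))` is
`(Matrix.of fun i j => A (emb s j) (emb s' i)).det = cmp p A s s'` (transpose;
`exteriorPower.basis_apply`, `ιMulti_family`, `Matrix.mulVec_single_one`/`Pi.basisFun_apply`). By
linearity the coordinate at `s` of `F ξ` is `∑ s', cmp p A s s' * (coordinate of ξ at s')`
(`Module.Basis.sum_repr`, sum over `Set.powersetCard` re-indexed by `pidx`). Take `ξ = ιMulti K p y`.

PROOF of `cmp_mul`: the column `s'` of `B` compound is the wedge of the columns `emb s' i` of `B`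
(`cmp_col`), so `cmp A (cmp B) = cmp (A B)` columnwise from `cmp_mulVec_wedge`.
PROOF of `cmp_one`: `cmp p 1 s s' = 1` if `s = s'` and `0` otherwise (a zero row if some element of the
set `s` is not in the set `s'`). Then `det (cmp p A) * det (cmp p A⁻¹) = 1`.

PROOF of `wedge_indep`: let `X` be the matrix with columns `x j` (`det X ≠ 0`); the `s`-th wedge
`wedge (fun i => x (emb s i))` is the `s`-th column of `cmp p X`, which is invertible.
-/

set_option autoImplicit false

noncomputable section

namespace Pool.Agent.Work.SUB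

variable {K : Type} [Field K] {n : ℕ}

/-- the coordinates on the exterior power -/
private def Phi (K : Type) [Field K] (n p : ℕ) :
    ⋀[K]^p (Fin n → K) →ₗ[K] (Fin (n.choose p) → K) :=
  LinearMap.pi fun s => exteriorPower.ιMultiDual K p (Pi.basisFun K (Fin n)) (pidx n p s)

private theorem Phi_iota {p : ℕ} (y : Fin p → Fin n → K) :
    Phi K n p (exteriorPower.ιMulti K p y) = wedge y := by
  funext s
  simp only [Phi, LinearMap.pi_apply, exteriorPower.ιMultiDual_apply_ιMulti]
  rfl

private theorem Phi_basis {p : ℕ} (s' : Fin (n.choose p)) :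
    Phi K n p (exteriorPower.ιMulti_family K p (Pi.basisFun K (Fin n)) (pidx n p s')) =
      Pi.single s' 1 := by
  funext s
  simp only [Phi, LinearMap.pi_apply]
  by_cases h : s = s'
  · subst h
    rw [exteriorPower.ιMultiDual_apply_diag, Pi.single_eq_same]
  · rw [exteriorPower.ιMultiDual_apply_nondiag _ _ _ _ _
      (fun h' => h ((pidx n p).injective h')), Pi.single_eq_of_ne h]

theorem cmp_col (p : ℕ) (A : Matrix (Fin n) (Fin n) K) (s' : Fin (n.choose p)) :
    (fun s => cmp p A s s') = wedge (fun i k => A k (emb s' i)) := by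
  funext s
  show (A.submatrix (emb s) (emb s')).det = _
  rw [← Matrix.det_transpose]
  rfl

private theorem family_eq {p : ℕ} (s' : Fin (n.choose p)) :
    exteriorPower.ιMulti_family K p (Pi.basisFun K (Fin n)) (pidx n p s') =
      exteriorPower.ιMulti K p (fun i => Pi.basisFun K (Fin n) (emb s' i)) := rfl

theorem cmp_mulVec_wedge (p : ℕ) (A : Matrix (Fin n) (Fin n) K) (y : Fin p → Fin n → K) :
    (cmp p A).mulVec (wedge y) = wedge (fun i => A.mulVec (y i)) := by
  have key : (Matrix.mulVecLin (cmp p A)).comp (Phi K n p) =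
      (Phi K n p).comp (exteriorPower.map p (Matrix.mulVecLin A)) := by
    apply ((Pi.basisFun K (Fin n)).exteriorPower p).ext
    intro t
    obtain ⟨s', rfl⟩ := (pidx n p).surjective t
    rw [LinearMap.comp_apply, LinearMap.comp_apply, exteriorPower.basis_apply, Phi_basis,
      family_eq, exteriorPower.map_apply_ιMulti, Phi_iota, Matrix.mulVecLin_apply,
      Matrix.mulVec_single_one]
    rw [show (cmp p A).col s' = fun s => cmp p A s s' from rfl, cmp_col]
    congr 1
    funext i k
    simp [Function.comp]
  have h := LinearMap.congr_fun key (exteriorPower.ιMulti K p y)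
  rw [LinearMap.comp_apply, LinearMap.comp_apply, exteriorPower.map_apply_ιMulti, Phi_iota,
    Phi_iota, Matrix.mulVecLin_apply] at h
  rw [h]
  rfl

theorem cmp_mul (p : ℕ) (A B : Matrix (Fin n) (Fin n) K) :
    cmp p (A * B) = cmp p A * cmp p B := by
  ext s s'
  have h1 := congrFun (cmp_col p (A * B) s') s
  have h2 := congrFun (cmp_mulVec_wedge p A (fun i k => B k (emb s' i))) s
  rw [← cmp_col p B s'] at h2
  rw [show cmp p (A * B) s s' = _ from h1]
  have h3 : (fun (i : Fin p) (k : Fin n) => (A * B) k (emb s' i)) =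
      fun i => A.mulVec fun k => B k (emb s' i) := by
    funext i k
    rfl
  rw [h3, ← h2]
  rfl

theorem cmp_one (p : ℕ) : cmp p (1 : Matrix (Fin n) (Fin n) K) = 1 := by
  ext s s'
  have h1 := congrFun (cmp_col p (1 : Matrix (Fin n) (Fin n) K) s') s
  have h2 := congrFun (Phi_basis (K := K) s') s
  rw [family_eq, Phi_iota] at h2
  rw [show cmp p (1 : Matrix (Fin n) (Fin n) K) s s' = _ from h1]
  have h3 : (fun (i : Fin p) (k : Fin n) => (1 : Matrix (Fin n) (Fin n) K) k (emb s' i)) =
      fun i => Pi.basisFun K (Fin n) (emb s' i) := by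
    funext i k
    simp [Matrix.one_apply, Pi.single_apply]
  rw [h3, h2]
  simp [Matrix.one_apply, Pi.single_apply]

theorem det_cmp_ne_zero (p : ℕ) {A : Matrix (Fin n) (Fin n) K} (hA : A.det ≠ 0) :
    (cmp p A).det ≠ 0 := by
  have h := cmp_mul p A A⁻¹
  rw [Matrix.mul_nonsing_inv A (isUnit_iff_ne_zero.2 hA), cmp_one] at h
  intro h0
  have h1 := congrArg Matrix.det h
  rw [Matrix.det_one, Matrix.det_mul, h0, zero_mul] at h1
  exact one_ne_zero h1

theorem wedge_indep (p : ℕ) {x : Fin n → Fin n → K} (hx : LinearIndependent K x) :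
    LinearIndependent K (fun s : Fin (n.choose p) => wedge (fun i => x (emb s i))) := by
  have h1 : IsUnit (Matrix.of x) := Matrix.linearIndependent_rows_iff_isUnit.1 hx
  have h2 : ((Matrix.of x).transpose).det ≠ 0 := by
    rw [Matrix.det_transpose]
    exact ((Matrix.isUnit_iff_isUnit_det _).1 h1).ne_zero
  have h3 := det_cmp_ne_zero p h2
  have h4 : IsUnit (cmp p (Matrix.of x).transpose) :=
    (Matrix.isUnit_iff_isUnit_det _).2 (isUnit_iff_ne_zero.2 h3)
  have h5 := Matrix.linearIndependent_cols_iff_isUnit.2 h4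
  have h6 : (fun s : Fin (n.choose p) => wedge (fun i => x (emb s i))) =
      (cmp p (Matrix.of x).transpose).col := by
    funext s
    have := cmp_col p (Matrix.of x).transpose s
    exact this.symm
  rw [h6]
  exact h5

end Pool.Agent.Work.SUB
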