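import Pool.Agent.Work.SUB.Tw

/-!
# CmpDefs: compounds, definitions (block M, module M12). FIXED, all proved.

The `p`-subsets of `Fin n` are numbered by `Fin (n.choose p)`; `emb s : Fin p ↪o Fin n` is the
increasing enumeration of the `s`-th subset.
-/

set_option autoImplicit false

noncomputable section

namespace Pool.Agent.Work.SUB

/-- A numbering of the `p`-subsets of `Fin n`. -/
def pidx (n p : ℕ) : Fin (n.choose p) ≃ Set.powersetCard (Fin n) p :=
  (Fintype.equivFinOfCardEq (by
    rw [← Nat.card_eq_fintype_card, Set.powersetCard.card, Nat.card_eq_fintype_card,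
      Fintype.card_fin])).symm

/-- The increasing enumeration of the `s`-th `p`-subset. -/
def emb {n p : ℕ} (s : Fin (n.choose p)) : Fin p ↪o Fin n :=
  Set.powersetCard.ofFinEmbEquiv.symm (pidx n p s)

theorem emb_injective {n p : ℕ} : Function.Injective (emb (n := n) (p := p)) :=
  fun _ _ h => (pidx n p).injective (Set.powersetCard.ofFinEmbEquiv.symm.injective h)

theorem emb_surjective {n p : ℕ} (f : Fin p ↪o Fin n) : ∃ s : Fin (n.choose p), emb s = f :=
  ⟨(pidx n p).symm (Set.powersetCard.ofFinEmbEquiv f), by simp [emb]⟩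

/-- The Pluecker coordinates of `y 0 ∧ ... ∧ y (p - 1)`. -/
def wedge {K : Type} [Field K] {n p : ℕ} (y : Fin p → Fin n → K) : Fin (n.choose p) → K :=
  fun s => (Matrix.of fun i j => y i (emb s j)).det

/-- The `p`-th compound of a matrix. -/
def cmp {K : Type} [Field K] {n : ℕ} (p : ℕ) (A : Matrix (Fin n) (Fin n) K) :
    Matrix (Fin (n.choose p)) (Fin (n.choose p)) K :=
  fun s s' => (A.submatrix (emb s) (emb s')).det

/-- The weights of the compound. -/
def wtc {ι : Type} {n : ℕ} (p : ℕ) (t : ι → Fin n → ℝ) : ι → Fin (n.choose p) → ℝ :=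
  fun w s => ∏ j, t w (emb s j)

/-- The exponents of the compound. -/
def expc {ι : Type} {n : ℕ} (p : ℕ) (c : ι → Fin n → ℝ) : ι → Fin (n.choose p) → ℝ :=
  fun w s => ∑ j, c w (emb s j)

/-- `s` is the number of the last `p`-subset. -/
def IsTop {n p : ℕ} (s : Fin (n.choose p)) : Prop := ∀ i : Fin p, (emb s i : ℕ) = n - p + i

theorem exists_isTop {n p : ℕ} (hp : p ≤ n) : ∃ s : Fin (n.choose p), IsTop s := by
  obtain ⟨s, hs⟩ := emb_surjective (n := n) (p := p)
    (OrderEmbedding.ofStrictMono (fun i : Fin p => (⟨n - p + i, by omega⟩ : Fin n)) (by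
      intro a b hab
      simp only [Fin.lt_def] at hab ⊢
      omega))
  exact ⟨s, fun i => by rw [hs]; rfl⟩

theorem IsTop.unique {n p : ℕ} {s s' : Fin (n.choose p)} (h : IsTop s) (h' : IsTop s') :
    s = s' := by
  apply emb_injective
  ext i
  rw [h i, h' i]

theorem wtc_pos {ι : Type} {n : ℕ} (p : ℕ) {t : ι → Fin n → ℝ} (ht : ∀ w i, 0 < t w i) (w : ι)
    (s : Fin (n.choose p)) : 0 < wtc p t w s :=
  Finset.prod_pos fun j _ => ht w _

theorem wtc_rpow {ι : Type} {n : ℕ} (p : ℕ) (c : ι → Fin n → ℝ) {Q : ℝ} (hQ : 0 < Q) :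
    wtc p (fun w i => Q ^ (-(c w i))) = fun w s => Q ^ (-(expc p c w s)) := by
  funext w s
  unfold wtc expc
  rw [← Finset.sum_neg_distrib, Real.rpow_sum_of_pos hQ]

end Pool.Agent.Work.SUB
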