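import Pool.Agent.Work.SUB.CmpBin

/-!
# CmpNN: twisted norms of wedges (block M, module M12)

PROOF of `NN_wedge_le`. At the place `w`, index `s`: `(cmp p A).mulVec (wedge y) s =
det (of fun i j => (A.mulVec (y i)) (emb s j))` (`cmp_mulVec_wedge`), and
`(∏ j, t (emb s j)) * v (det ..) ≤ ∑_σ ∏_i (t (emb s (σ i)) v ((A y_i) (emb s (σ i)))) ≤
p! ∏_i tw (y i)` (`Matrix.det_apply`, `AbsoluteValue.sum_le`, `le_tw`). Raise to the power `m w`,
multiply over `w`.
PROOF of `Rv_wedge`: determinants of matrices with entries in `R`; `wedge ≠ 0` by `wedge_indep`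
(`LinearIndependent.ne_zero`).
-/

set_option autoImplicit false

noncomputable section

namespace Pool.Agent.Work.SUB

variable {K : Type} [Field K] {ι : Type} [Fintype ι] {v : ι → AbsoluteValue K ℝ} {m : ι → ℕ}
  {R : Subring K} {n : ℕ}

private theorem abs_det_le (v : AbsoluteValue K ℝ) {p : ℕ} (M : Matrix (Fin p) (Fin p) K) :
    v M.det ≤ ∑ σ : Equiv.Perm (Fin p), ∏ i, v (M (σ i) i) := by
  rw [Matrix.det_apply]
  refine (v.sum_le _ _).trans (Finset.sum_le_sum fun σ _ => ?_)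
  rcases Int.units_eq_one_or (Equiv.Perm.sign σ) with h | h
  · rw [h, one_smul, map_prod]
  · rw [h, Units.neg_smul, one_smul, v.map_neg, map_prod]

private theorem tw_wedge_le (v : AbsoluteValue K ℝ) (p : ℕ) (A : Matrix (Fin n) (Fin n) K)
    (t : Fin n → ℝ) (ht : ∀ i, 0 < t i) (y : Fin p → Fin n → K) :
    tw v (cmp p A) (fun s => ∏ j, t (emb s j)) (wedge y) ≤
      (p.factorial : ℝ) * ∏ i, tw v A t (y i) := by
  have h0 : 0 ≤ ∏ i, tw v A t (y i) := Finset.prod_nonneg fun i _ => tw_nonneg v A (fun i => (ht i).le) _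
  refine tw_le v (by positivity) fun s => ?_
  rw [cmp_mulVec_wedge]
  have h1 := abs_det_le v (Matrix.of fun i j => A.mulVec (y i) (emb s j))
  have h2 : 0 ≤ ∏ j, t (emb s j) := Finset.prod_nonneg fun j _ => (ht _).le
  refine (mul_le_mul_of_nonneg_left h1 h2).trans ?_
  rw [Finset.mul_sum]
  have h3 : ∀ σ : Equiv.Perm (Fin p), (∏ j, t (emb s j)) *
      ∏ i, v ((Matrix.of fun i j => A.mulVec (y i) (emb s j)) (σ i) i) ≤
      ∏ i, tw v A t (y i) := by
    intro σ
    rw [← Finset.prod_mul_distrib, ← Equiv.prod_comp σ (fun i => tw v A t (y i))]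
    refine Finset.prod_le_prod (fun i _ => mul_nonneg (ht _).le (v.nonneg _)) fun i _ => ?_
    exact le_tw v A t (y (σ i)) (emb s i)
  refine (Finset.sum_le_sum fun σ _ => h3 σ).trans ?_
  rw [Finset.sum_const, Finset.card_univ, Fintype.card_perm, Fintype.card_fin, nsmul_eq_mul]

theorem NN_wedge_le (p : ℕ) (A : ι → Matrix (Fin n) (Fin n) K) (t : ι → Fin n → ℝ)
    (ht : ∀ w i, 0 < t w i) (y : Fin p → Fin n → K) :
    NN v m (fun w => cmp p (A w)) (wtc p t) (wedge y) ≤
      (p.factorial : ℝ) ^ (∑ w, m w) * ∏ i, NN v m A t (y i) := by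
  unfold NN
  rw [Finset.prod_comm, ← Finset.prod_pow_eq_pow_sum, ← Finset.prod_mul_distrib]
  refine Finset.prod_le_prod (fun w _ => pow_nonneg (tw_nonneg _ _
    (fun s => (wtc_pos p ht w s).le) _) _) fun w _ => ?_
  rw [Finset.prod_pow, ← mul_pow]
  exact pow_le_pow_left₀ (tw_nonneg _ _ (fun s => (wtc_pos p ht w s).le) _)
    (tw_wedge_le (v w) p (A w) (t w) (ht w) y) _

theorem Rv_wedge (p : ℕ) {x : Fin n → Fin n → K} (hx : LinearIndependent K x)
    (hR : ∀ j, Rv R (x j)) (s : Fin (n.choose p)) : Rv R (wedge (fun i => x (emb s i))) := by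
  refine ⟨(wedge_indep p hx).ne_zero s, fun s' => ?_⟩
  show (Matrix.of fun i j => x (emb s i) (emb s' j)).det ∈ R
  rw [Matrix.det_apply]
  refine R.sum_mem fun σ _ => ?_
  have h1 : ∏ i, (Matrix.of fun i j => x (emb s i) (emb s' j)) (σ i) i ∈ R :=
    R.prod_mem fun i _ => (hR _).2 _
  rcases Int.units_eq_one_or (Equiv.Perm.sign σ) with h | h
  · rw [h, one_smul]
    exact h1
  · rw [h, Units.neg_smul, one_smul]
    exact R.neg_mem h1

end Pool.Agent.Work.SUB
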