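import Pool.Agent.Work.SUB.CmpDefs

/-!
# CmpSum: double counting over `p`-subsets (block M, module M12)

PROOF. Every element `a` of `Fin n` belongs to exactly `(n-1).choose (p-1)` subsets of cardinality
`p ≥ 1`. Write `∑ j, f (emb s j) = ∑ a ∈ (pidx n p s : Finset), f a` (the image of `emb s` is the set
`pidx n p s`, `Set.powersetCard.mem_range_ofFinEmbEquiv_symm_iff_mem`), interchange the sums, and
count `{s | a ∈ pidx n p s}` (= `{s ∈ powersetCard p univ | a ∈ s}`: remove `a`; the count is the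
same for all `a` by symmetry and `∑_s p = p * n.choose p = n * (n-1).choose (p-1)`; or directly by
the bijection with the `(p-1)`-subsets of `univ.erase a`). The product version is the same.
`wt_wtc`: `wt m (wtc p t) = (wt m t) ^ ((n-1).choose (p-1))`.
-/

set_option autoImplicit false

noncomputable section

namespace Pool.Agent.Work.SUB

private theorem prod_emb_gen {M : Type*} [CommMonoid M] {n p : ℕ} (hp : 1 ≤ p) (f : Fin n → M) :
    ∏ s : Fin (n.choose p), ∏ j, f (emb s j) = ∏ a, f a ^ ((n - 1).choose (p - 1)) := by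
  classical
  have h1 : ∀ s : Fin (n.choose p), ∏ j, f (emb s j) = ∏ a ∈ (pidx n p s).1, f a := by
    intro s
    have h2 : (pidx n p s).1 = Finset.univ.map (emb s).toEmbedding := by
      ext a
      have h3 := Set.powersetCard.mem_range_ofFinEmbEquiv_symm_iff_mem (pidx n p s) a
      rw [Finset.mem_map]
      constructor
      · intro h
        obtain ⟨j, hj⟩ := h3.2 h
        exact ⟨j, Finset.mem_univ _, hj⟩
      · rintro ⟨j, -, hj⟩
        exact h3.1 ⟨j, hj⟩
    rw [h2, Finset.prod_map]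
    rfl
  rw [Finset.prod_congr rfl fun s _ => h1 s,
    Equiv.prod_comp (pidx n p) (fun t : Set.powersetCard (Fin n) p => ∏ a ∈ t.1, f a)]
  have h4 : ∏ t : Set.powersetCard (Fin n) p, ∏ a ∈ t.1, f a =
      ∏ t ∈ Finset.powersetCard p (Finset.univ : Finset (Fin n)), ∏ a ∈ t, f a := by
    refine Finset.prod_bij (fun t _ => t.1) ?_ ?_ ?_ ?_
    · intro t _
      exact Finset.mem_powersetCard.2 ⟨Finset.subset_univ _, t.2⟩
    · intro t _ t' _ h
      exact Subtype.ext h
    · intro t ht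
      exact ⟨⟨t, (Finset.mem_powersetCard.1 ht).2⟩, Finset.mem_univ _, rfl⟩
    · intro t _
      rfl
  rw [h4]
  have h5 : ∀ t : Finset (Fin n), ∏ a ∈ t, f a = ∏ a, if a ∈ t then f a else 1 := by
    intro t
    rw [Finset.prod_ite_mem, Finset.univ_inter]
  rw [Finset.prod_congr rfl fun t _ => h5 t, Finset.prod_comm]
  refine Finset.prod_congr rfl fun a _ => ?_
  rw [← Finset.prod_filter, Finset.prod_const]
  congr 1
  have h6 := Finset.card_filter_powersetCard_subset (n := p) (t := (Finset.univ : Finset (Fin n)))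
    (s := {a}) (Finset.subset_univ _) (by rw [Finset.card_singleton]; exact hp)
  rw [Finset.card_univ, Fintype.card_fin, Finset.card_singleton] at h6
  rw [← h6]
  congr 1
  ext t
  simp

private theorem sum_emb_gen {M : Type*} [AddCommMonoid M] {n p : ℕ} (hp : 1 ≤ p) (f : Fin n → M) :
    ∑ s : Fin (n.choose p), ∑ j, f (emb s j) = ∑ a, ((n - 1).choose (p - 1)) • f a :=
  prod_emb_gen (M := Multiplicative M) hp fun a => Multiplicative.ofAdd (f a)

theorem sum_emb {n p : ℕ} (hp : 1 ≤ p) (hn : 1 ≤ n) (f : Fin n → ℝ) :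
    ∑ s : Fin (n.choose p), ∑ j, f (emb s j) = ((n - 1).choose (p - 1) : ℝ) * ∑ a, f a := by
  rw [sum_emb_gen hp f, Finset.mul_sum]
  exact Finset.sum_congr rfl fun a _ => nsmul_eq_mul _ _

theorem prod_emb {n p : ℕ} (hp : 1 ≤ p) (hn : 1 ≤ n) (f : Fin n → ℝ) :
    ∏ s : Fin (n.choose p), ∏ j, f (emb s j) = (∏ a, f a) ^ ((n - 1).choose (p - 1)) := by
  rw [prod_emb_gen hp f, Finset.prod_pow]

theorem wt_wtc {ι : Type} [Fintype ι] (m : ι → ℕ) {n p : ℕ} (hp : 1 ≤ p) (hn : 1 ≤ n)
    (t : ι → Fin n → ℝ) : wt m (wtc p t) = wt m t ^ ((n - 1).choose (p - 1)) := by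
  unfold wt wtc
  rw [← Finset.prod_pow]
  refine Finset.prod_congr rfl fun w _ => ?_
  rw [Finset.prod_pow, Finset.prod_pow, prod_emb hp hn, ← pow_mul, ← pow_mul, mul_comm]

theorem sum_expc {ι : Type} [Fintype ι] (m : ι → ℕ) {n p : ℕ} (hp : 1 ≤ p) (hn : 1 ≤ n)
    (c : ι → Fin n → ℝ) (hc : ∑ w, (m w : ℝ) * ∑ i, c w i = 0) :
    ∑ w, (m w : ℝ) * ∑ s, expc p c w s = 0 := by
  unfold expc
  have h : ∀ w, (m w : ℝ) * ∑ s : Fin (n.choose p), ∑ j, c w (emb s j) =
      ((n - 1).choose (p - 1) : ℝ) * ((m w : ℝ) * ∑ i, c w i) := by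
    intro w
    rw [sum_emb hp hn]
    ring
  rw [Finset.sum_congr rfl fun w _ => h w, ← Finset.mul_sum, hc, mul_zero]

end Pool.Agent.Work.SUB
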