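import Pool.Agent.Work.SUB.Tw

/-!
# Dav: Davenport's lemma at one place (block M, module M8)

PROOF. Write `f i y = t i * v (A.mulVec y i) ≥ 0`. Claim, by downward induction on `k`, `0 ≤ k ≤ n`:
there is an injective `p : {l // k ≤ l < n} → Fin n` (positions `l ≥ k`, i.e. the values of `π` at
the positions `≥ k`) such that for every `j` with `j + 1 ≥ k` (as natural numbers; `j < n`) and `y` in
the span of the `x_i`, `i ≤ j`, the number `tw y` is at most `n! / k!` (or simply a product of the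
factors `max 1 j`) times the maximum of `f i y` over the indices `i` not of the form `p l`, `l > j`.
Step from `k` to `k - 1` (`k ≥ 1`): let `I` be the set of the `k` indices `i` not among the values of
`p`. The `k` linear forms `y ↦ (A y)_i`, `i ∈ I`, are linearly dependent on `span (x_i, i < k - 1)`,
a space of dimension `k - 1`: there are `b_i`, not all `0`, with `∑ i ∈ I, b_i (A y)_i = 0` for all
`y` in this span. Choose `i₀ ∈ I` with `v (b i₀) / t i₀` maximal (so `b i₀ ≠ 0`) and put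
`p (k-1) = i₀`. For `y` in the span: `v (b i₀) v ((A y) i₀) ≤ ∑_{i ≠ i₀} v (b i) v ((A y) i)
= ∑ (v (b i) / t i) f i y ≤ (v (b i₀) / t i₀) * (k - 1) * max_{i ∈ I, i ≠ i₀} f i y`, hence
`f i₀ y ≤ (k-1) * max_{I \ i₀} f`. At the end (`k = 0`) `p` is a bijection; it is `π`.
It is easiest to prove, by induction on `k ≤ n`: for every set `I : Finset (Fin n)` with
`I.card = k` there is `p : Fin k → Fin n`, injective with image `I`, such that for all `j < k` and
`y ∈ span (x_i, i ≤ j)`: `∀ i ∈ I, ∃ l ≤ j, f i y ≤ k! * f (p l) y` (the constants multiply: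
for `j < k - 1` one has `f i₀ y ≤ (k-1) max_{I \ i₀} f` and the induction hypothesis for
`I \ {i₀}`; for `j = k - 1` take `l` with `p l = i`). For the dependence of the forms on the
span use `k` vectors in `Fin (k-1) → K` (the values at the `x_i`, `i < k - 1`): they are dependent.
-/

set_option autoImplicit false

noncomputable section

namespace Pool.Agent.Work.SUB

private theorem dav_dep {K : Type} [Field K] {n : ℕ} (A : Matrix (Fin n) (Fin n) K)
    (x : Fin n → Fin n → K) {k : ℕ} (hk : k < n) (I : Finset (Fin n)) (hI : I.card = k + 1) :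
    ∃ b : Fin n → K, (∃ i ∈ I, b i ≠ 0) ∧
      ∀ y ∈ Submodule.span K (x '' {i | (i : ℕ) < k}), ∑ i ∈ I, b i * A.mulVec y i = 0 := by
  classical
  obtain ⟨M, hM⟩ : ∃ M : Matrix (Fin k) I K,
      M = Matrix.of fun (a : Fin k) (i : I) => A.mulVec (x ⟨a, a.2.trans hk⟩) i.1 := ⟨_, rfl⟩
  have hker : LinearMap.ker M.mulVecLin ≠ ⊥ := LinearMap.ker_ne_bot_of_finrank_lt (by
    rw [Module.finrank_fintype_fun_eq_card, Module.finrank_fintype_fun_eq_card, Fintype.card_fin,
      Fintype.card_coe, hI]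
    exact Nat.lt_succ_self k)
  obtain ⟨c, hc, hc0⟩ := Submodule.exists_mem_ne_zero_of_ne_bot hker
  obtain ⟨b, hb⟩ : ∃ b : Fin n → K, b = fun i => if h : i ∈ I then c ⟨i, h⟩ else 0 := ⟨_, rfl⟩
  have hbc : ∀ i : I, b i.1 = c i := fun i => by
    rw [hb]
    simp
  refine ⟨b, ?_, fun y hy => ?_⟩
  · obtain ⟨i, hi⟩ := Function.ne_iff.1 hc0
    exact ⟨i.1, i.2, by rw [hbc]; exact hi⟩
  · induction hy using Submodule.span_induction with
    | mem y hy =>
      obtain ⟨a, ha, rfl⟩ := hy
      have h1 : M.mulVec c ⟨a, ha⟩ = 0 := by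
        have h2 : M.mulVecLin c = 0 := hc
        rw [Matrix.mulVecLin_apply] at h2
        rw [h2]
        rfl
      rw [← Finset.sum_coe_sort I (fun i => b i * A.mulVec (x a) i), ← h1, Matrix.mulVec,
        dotProduct]
      refine Finset.sum_congr rfl fun i _ => ?_
      rw [hbc, hM, mul_comm]
      rfl
    | zero => simp
    | add y z _ _ hy hz =>
      rw [Matrix.mulVec_add]
      simp only [Pi.add_apply, mul_add, Finset.sum_add_distrib, hy, hz, add_zero]
    | smul c y _ hy =>
      rw [Matrix.mulVec_smul]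
      have h1 : ∀ i, b i * (c • A.mulVec y) i = c * (b i * A.mulVec y i) := fun i => by
        rw [Pi.smul_apply, smul_eq_mul]
        ring
      simp only [h1, ← Finset.mul_sum, hy, mul_zero]

private theorem dav_max {K : Type} [Field K] (v : AbsoluteValue K ℝ) {n : ℕ}
    (A : Matrix (Fin n) (Fin n) K) (t : Fin n → ℝ) (ht : ∀ i, 0 < t i)
    (x : Fin n → Fin n → K) {k : ℕ} (hk : k < n) (I : Finset (Fin n)) (hI : I.card = k + 1) :
    ∃ i₀ ∈ I, ∀ y ∈ Submodule.span K (x '' {i | (i : ℕ) < k}),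
      t i₀ * v (A.mulVec y i₀) ≤ ∑ i ∈ I.erase i₀, t i * v (A.mulVec y i) := by
  classical
  obtain ⟨b, ⟨i₁, hi₁, hb₁⟩, hb⟩ := dav_dep A x hk I hI
  obtain ⟨i₀, hi₀, hmax⟩ := I.exists_max_image (fun i => v (b i) / t i) ⟨i₁, hi₁⟩
  refine ⟨i₀, hi₀, fun y hy => ?_⟩
  have hpos : 0 < v (b i₀) / t i₀ :=
    (div_pos (v.pos hb₁) (ht i₁)).trans_le (hmax i₁ hi₁)
  have h1 : b i₀ * A.mulVec y i₀ = -∑ i ∈ I.erase i₀, b i * A.mulVec y i := by
    rw [eq_neg_iff_add_eq_zero, Finset.add_sum_erase I (fun i => b i * A.mulVec y i) hi₀]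
    exact hb y hy
  have h2 : v (b i₀) * v (A.mulVec y i₀) ≤
      (v (b i₀) / t i₀) * ∑ i ∈ I.erase i₀, t i * v (A.mulVec y i) := by
    rw [← map_mul, h1, v.map_neg, Finset.mul_sum]
    refine (v.sum_le _ _).trans (Finset.sum_le_sum fun i hi => ?_)
    rw [map_mul]
    have h3 := hmax i (Finset.mem_of_mem_erase hi)
    have h4 : v (b i) = v (b i) / t i * t i := by
      rw [div_mul_cancel₀ _ (ht i).ne']
    rw [h4]
    have h5 : 0 ≤ t i * v (A.mulVec y i) := mul_nonneg (ht i).le (v.nonneg _)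
    calc v (b i) / t i * t i * v (A.mulVec y i) = v (b i) / t i * (t i * v (A.mulVec y i)) := by
          ring
      _ ≤ v (b i₀) / t i₀ * (t i * v (A.mulVec y i)) := mul_le_mul_of_nonneg_right h3 h5
  have h6 : (v (b i₀) / t i₀) * (t i₀ * v (A.mulVec y i₀)) = v (b i₀) * v (A.mulVec y i₀) := by
    rw [← mul_assoc, div_mul_cancel₀ _ (ht i₀).ne']
  rw [← h6] at h2
  exact le_of_mul_le_mul_left h2 hpos

private theorem dav_aux {K : Type} [Field K] (v : AbsoluteValue K ℝ) {n : ℕ}
    (A : Matrix (Fin n) (Fin n) K) (t : Fin n → ℝ) (ht : ∀ i, 0 < t i)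
    (x : Fin n → Fin n → K) (k : ℕ) (hk : k ≤ n) :
    ∀ I : Finset (Fin n), I.card = k → ∃ p : Fin k → Fin n, Function.Injective p ∧
      (∀ l, p l ∈ I) ∧ (∀ i ∈ I, ∃ l, p l = i) ∧
      ∀ (j : Fin k) (y : Fin n → K), y ∈ Submodule.span K (x '' {i | (i : ℕ) ≤ j}) →
        ∀ i ∈ I, ∃ l, l ≤ j ∧ t i * v (A.mulVec y i) ≤
          (k.factorial : ℝ) * (t (p l) * v (A.mulVec y (p l))) := by
  classical
  induction k with
  | zero =>
    intro I hI
    rw [Finset.card_eq_zero] at hI
    subst hI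
    exact ⟨Fin.elim0, fun a => a.elim0, fun a => a.elim0,
      fun i hi => absurd hi (Finset.notMem_empty i), fun j => j.elim0⟩
  | succ k ih =>
    intro I hI
    obtain ⟨i₀, hi₀, hmax⟩ := dav_max v A t ht x (by omega : k < n) I hI
    obtain ⟨p', hinj, hmem, hsurj, hp'⟩ := ih (by omega) (I.erase i₀) (by
      rw [Finset.card_erase_of_mem hi₀, hI, Nat.add_sub_cancel])
    have hf0 : ∀ i y, 0 ≤ t i * v (A.mulVec y i) := fun i y => mul_nonneg (ht i).le (v.nonneg _)
    have hfac : ((k + 1).factorial : ℝ) = (k + 1 : ℝ) * k.factorial := by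
      rw [Nat.factorial_succ]
      push_cast
      ring
    refine ⟨Fin.snoc (α := fun _ => Fin n) p' i₀, ?_, ?_, ?_, ?_⟩
    · rw [Fin.snoc_injective_iff]
      refine ⟨hinj, ?_⟩
      rintro ⟨l, hl⟩
      have h1 := hmem l
      rw [hl] at h1
      exact Finset.notMem_erase i₀ I h1
    · intro l
      induction l using Fin.lastCases with
      | last =>
        rw [Fin.snoc_last]
        exact hi₀
      | cast l =>
        rw [Fin.snoc_castSucc]
        exact Finset.mem_of_mem_erase (hmem l)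
    · intro i hi
      by_cases h : i = i₀
      · exact ⟨Fin.last k, by rw [Fin.snoc_last, h]⟩
      · obtain ⟨l, hl⟩ := hsurj i (Finset.mem_erase.2 ⟨h, hi⟩)
        exact ⟨l.castSucc, by rw [Fin.snoc_castSucc, hl]⟩
    · intro j y hy i hi
      induction j using Fin.lastCases with
      | last =>
        have h1 : (1 : ℝ) ≤ (k + 1).factorial := by
          exact_mod_cast Nat.one_le_iff_ne_zero.2 (Nat.factorial_ne_zero _)
        by_cases h : i = i₀
        · refine ⟨Fin.last k, le_rfl, ?_⟩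
          rw [Fin.snoc_last, h]
          exact le_mul_of_one_le_left (hf0 _ _) h1
        · obtain ⟨l, hl⟩ := hsurj i (Finset.mem_erase.2 ⟨h, hi⟩)
          refine ⟨l.castSucc, Fin.le_last _, ?_⟩
          rw [Fin.snoc_castSucc, hl]
          exact le_mul_of_one_le_left (hf0 _ _) h1
      | cast j =>
        obtain ⟨l₀, hl₀, hl₀m⟩ := (Finset.univ.filter fun l : Fin k => l ≤ j).exists_max_image
          (fun l => t (p' l) * v (A.mulVec y (p' l)))
          ⟨j, Finset.mem_filter.2 ⟨Finset.mem_univ _, le_rfl⟩⟩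
        have hl₀j : l₀ ≤ j := (Finset.mem_filter.1 hl₀).2
        have h2 : ∀ i ∈ I.erase i₀, t i * v (A.mulVec y i) ≤
            (k.factorial : ℝ) * (t (p' l₀) * v (A.mulVec y (p' l₀))) := by
          intro i hi
          obtain ⟨l, hl, hle⟩ := hp' j y hy i hi
          refine hle.trans (mul_le_mul_of_nonneg_left ?_ (Nat.cast_nonneg _))
          exact hl₀m l (Finset.mem_filter.2 ⟨Finset.mem_univ _, hl⟩)
        have h5 : 0 ≤ (k.factorial : ℝ) * (t (p' l₀) * v (A.mulVec y (p' l₀))) :=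
          mul_nonneg (Nat.cast_nonneg _) (hf0 _ _)
        have hk0 : (0 : ℝ) ≤ k := Nat.cast_nonneg k
        refine ⟨l₀.castSucc, Fin.castSucc_le_castSucc_iff.2 hl₀j, ?_⟩
        rw [Fin.snoc_castSucc, hfac]
        by_cases h : i = i₀
        · subst h
          have h3 : y ∈ Submodule.span K (x '' {i | (i : ℕ) < k}) := by
            refine Submodule.span_mono (Set.image_mono fun a ha => ?_) hy
            have h4 : (a : ℕ) ≤ j := ha
            have hj := j.2
            show (a : ℕ) < k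
            omega
          refine (hmax y h3).trans ((Finset.sum_le_sum h2).trans ?_)
          rw [Finset.sum_const, Finset.card_erase_of_mem hi₀, hI, Nat.add_sub_cancel,
            nsmul_eq_mul]
          nlinarith
        · have h3 := h2 i (Finset.mem_erase.2 ⟨h, hi⟩)
          nlinarith

theorem davenport {K : Type} [Field K] (v : AbsoluteValue K ℝ) {n : ℕ}
    (A : Matrix (Fin n) (Fin n) K) (t : Fin n → ℝ) (ht : ∀ i, 0 < t i)
    (x : Fin n → Fin n → K) : ∃ π : Equiv.Perm (Fin n), ∀ (j : Fin n) (y : Fin n → K),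
      y ∈ Submodule.span K (x '' {i | i ≤ j}) →
        ∃ l, l ≤ j ∧ tw v A t y ≤ (n.factorial : ℝ) * (t (π l) * v (A.mulVec y (π l))) := by
  obtain ⟨p, hinj, -, -, hp⟩ := dav_aux v A t ht x n le_rfl Finset.univ (by
    rw [Finset.card_univ, Fintype.card_fin])
  refine ⟨Equiv.ofBijective p (Finite.injective_iff_bijective.1 hinj), fun j y hy => ?_⟩
  obtain ⟨i, hi⟩ := exists_tw (A := A) (t := t) v (Nat.lt_of_le_of_lt (Nat.zero_le _) j.2) y
  rw [hi]
  exact hp j y hy i (Finset.mem_univ i)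

end Pool.Agent.Work.SUB
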