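import Pool.Agent.Work.SUB.Lower

/-!
# FirstLow: lower bounds outside a coordinate hyperplane (block M, module M14)

PROOF of `first_low`. If `Y ∉ span (X '' {s | s ≠ r})` then `Function.update X r Y` is linearly
independent (a vector outside the span of `N - 1` independent vectors), with `Rv`. By `lower`
`c ≤ NN Y * ∏_{s ≠ r} NN (X s) ≤ NN Y * ∏_{s ≠ r} (F * lam s)`, and `∏_{s ≠ r} (F * lam s) * lam r
≤ F ^ N * ∏ lam` (`F ≥ 1`).
-/

set_option autoImplicit false

noncomputable section

namespace Pool.Agent.Work.SUB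

variable {K : Type} [Field K] [Height.AdmissibleAbsValues K] {ι : Type} [Fintype ι]
  {v : ι → AbsoluteValue K ℝ} {m : ι → ℕ} {R : Subring K}

omit [Height.AdmissibleAbsValues K] in
private theorem indep_update {N : ℕ} {X : Fin N → Fin N → K} (hX : LinearIndependent K X)
    (r : Fin N) {Y : Fin N → K} (hY : Y ∉ Submodule.span K (X '' {s | s ≠ r})) :
    LinearIndependent K (Function.update X r Y) := by
  have htop : Submodule.span K (Set.range X) = ⊤ :=
    hX.span_eq_top_of_card_eq_finrank' (by simp)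
  have hmem : Y ∈ Submodule.span K (Set.range X) := by
    rw [htop]
    exact Submodule.mem_top
  obtain ⟨l, hl⟩ := (Finsupp.mem_span_range_iff_exists_finsupp).mp hmem
  apply LinearIndependent.update hX r Y
  refine ⟨1, one_mem _, l, ?_, ?_⟩
  · rw [mem_nonZeroDivisors_iff_ne_zero]
    intro h0
    apply hY
    rw [← hl, Finsupp.sum]
    apply Submodule.sum_mem
    intro s hs
    apply Submodule.smul_mem
    apply Submodule.subset_span
    refine ⟨s, ?_, rfl⟩
    rintro rfl
    exact (Finsupp.mem_support_iff.mp hs) h0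
  · rw [one_smul, ← hl]
    rfl

theorem first_low (hS : IsSD v m R) {N : ℕ} (A : ι → Matrix (Fin N) (Fin N) K)
    (hA : ∀ w, (A w).det ≠ 0) : ∃ c : ℝ, 0 < c ∧ ∀ t : ι → Fin N → ℝ, (∀ w i, 0 < t w i) →
      wt m t = 1 → ∀ X : Fin N → Fin N → K, LinearIndependent K X → (∀ s, Rv R (X s)) →
      ∀ (lam : Fin N → ℝ) (F : ℝ), 1 ≤ F → (∀ s, 0 < lam s) →
      (∀ s, NN v m A t (X s) ≤ F * lam s) →
      ∀ (r : Fin N) (Y : Fin N → K), Rv R Y → Y ∉ Submodule.span K (X '' {s | s ≠ r}) →
        c * lam r ≤ F ^ N * (∏ s, lam s) * NN v m A t Y := by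
  obtain ⟨c, hc, hlow⟩ := lower hS A hA
  refine ⟨c, hc, ?_⟩
  intro t ht hwt X hX hXR lam F hF hlam hNN r Y hY hYspan
  have hind := indep_update hX r hYspan
  have h1 := hlow t ht (Function.update X r Y) hind (by
    intro j
    by_cases hj : j = r
    · subst hj
      rw [Function.update_self]
      exact hY
    · rw [Function.update_of_ne hj]
      exact hXR j)
  rw [hwt, mul_one, ← Finset.mul_prod_erase Finset.univ _ (Finset.mem_univ r),
    Function.update_self] at h1
  have h2 : ∏ x ∈ Finset.univ.erase r, NN v m A t (Function.update X r Y x) ≤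
      ∏ x ∈ Finset.univ.erase r, (F * lam x) := by
    apply Finset.prod_le_prod
    · intro x _
      exact NN_nonneg (fun w i => (ht w i).le) _
    · intro x hx
      rw [Function.update_of_ne (Finset.ne_of_mem_erase hx)]
      exact hNN x
  have hNNY : 0 ≤ NN v m A t Y := NN_nonneg (fun w i => (ht w i).le) _
  have h3 : c ≤ NN v m A t Y * ∏ x ∈ Finset.univ.erase r, (F * lam x) :=
    h1.trans (mul_le_mul_of_nonneg_left h2 hNNY)
  have h4 : (∏ x ∈ Finset.univ.erase r, (F * lam x)) * lam r ≤ F ^ N * ∏ s, lam s := by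
    have h5 : F ^ N * ∏ s, lam s = F * lam r * ∏ x ∈ Finset.univ.erase r, (F * lam x) := by
      rw [Finset.mul_prod_erase Finset.univ (fun x => F * lam x) (Finset.mem_univ r),
        Finset.prod_mul_distrib, Finset.prod_const, Finset.card_univ, Fintype.card_fin]
    have h6 : 0 ≤ ∏ x ∈ Finset.univ.erase r, (F * lam x) :=
      Finset.prod_nonneg fun x _ => mul_nonneg (by linarith) (hlam x).le
    rw [h5]
    have h7 : 0 ≤ (∏ x ∈ Finset.univ.erase r, (F * lam x)) * lam r := mul_nonneg h6 (hlam r).le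
    calc (∏ x ∈ Finset.univ.erase r, (F * lam x)) * lam r
        ≤ F * ((∏ x ∈ Finset.univ.erase r, (F * lam x)) * lam r) :=
          le_mul_of_one_le_left h7 hF
      _ = F * lam r * ∏ x ∈ Finset.univ.erase r, (F * lam x) := by ring
  calc c * lam r ≤ (NN v m A t Y * ∏ x ∈ Finset.univ.erase r, (F * lam x)) * lam r :=
        mul_le_mul_of_nonneg_right h3 (hlam r).le
    _ = NN v m A t Y * ((∏ x ∈ Finset.univ.erase r, (F * lam x)) * lam r) := by ring
    _ ≤ NN v m A t Y * (F ^ N * ∏ s, lam s) := mul_le_mul_of_nonneg_left h4 hNNY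
    _ = F ^ N * (∏ s, lam s) * NN v m A t Y := by ring

end Pool.Agent.Work.SUB
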