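import Pool.Agent.Work.SUB.Tw

/-!
# Lower: the lower bound for the product of the twisted norms (block M, module M10)

PROOF. `D = det (fun j i => x j i)` is in `R` (determinant of a matrix with entries in the subring,
`Subring.det_mem` or expand `Matrix.det_apply`) and `D ≠ 0` (independence:
`LinearIndependent` rows `↔` det is a unit), so `1 ≤ ∏ w, v w D ^ m w` (`prod_ge`). For each `w`,
`det (A w) * D = det (fun i j => (A w).mulVec (x j) i)` (`Matrix.det_mul`, `det_transpose`), and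
`v (det (fun i j => L_i x_j)) ≤ ∑_σ ∏_i v (L_i x_{σ i}) ≤ ∑_σ ∏_i tw (x_{σ i}) / t_i
= n! ∏_j tw (x_j) / ∏_i t_i`. So `v_w D * ∏_i t_{w,i} ≤ (n! / v_w (det A_w)) ∏_j tw_w (x_j)`; raise to
the power `m w` and multiply over `w`: `wt m t ≤ ∏_w (v_w D ∏_i t_{w,i})^{m w} ≤ C ∏_j NN (x_j)`.
-/

set_option autoImplicit false

noncomputable section

namespace Pool.Agent.Work.SUB

variable {K : Type} [Field K] [Height.AdmissibleAbsValues K] {ι : Type} [Fintype ι]
  {v : ι → AbsoluteValue K ℝ} {m : ι → ℕ} {R : Subring K}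

omit [Height.AdmissibleAbsValues K] [Fintype ι] in
private theorem lo_place (v : AbsoluteValue K ℝ) {n : ℕ} (A : Matrix (Fin n) (Fin n) K)
    (t : Fin n → ℝ) (ht : ∀ i, 0 < t i) (x : Fin n → Fin n → K) :
    (∏ i, t i) * (v A.det * v (Matrix.of x).det) ≤ (n.factorial : ℝ) * ∏ j, tw v A t (x j) := by
  have h1 : v A.det * v (Matrix.of x).det = v (A * (Matrix.of x).transpose).det := by
    rw [Matrix.det_mul, Matrix.det_transpose, map_mul]
  have h2 : ∀ i j, (A * (Matrix.of x).transpose) i j = A.mulVec (x j) i := fun i j => rfl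
  have h3 : (∏ i, t i) * v (A * (Matrix.of x).transpose).det ≤
      ∑ σ : Equiv.Perm (Fin n), ∏ j, tw v A t (x j) := by
    rw [Matrix.det_apply]
    have hT : 0 ≤ ∏ i, t i := Finset.prod_nonneg fun i _ => (ht i).le
    refine (mul_le_mul_of_nonneg_left (v.sum_le _ _) hT).trans ?_
    rw [Finset.mul_sum]
    refine Finset.sum_le_sum fun σ _ => ?_
    have h4 : v (Equiv.Perm.sign σ • ∏ i, (A * (Matrix.of x).transpose) (σ i) i) =
        ∏ i, v (A.mulVec (x i) (σ i)) := by
      rcases Int.units_eq_one_or (Equiv.Perm.sign σ) with h | h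
      · rw [h, one_smul, map_prod]
        rfl
      · rw [h, Units.neg_smul, one_smul, v.map_neg, map_prod]
        rfl
    rw [h4, ← Equiv.prod_comp σ t, ← Finset.prod_mul_distrib]
    exact Finset.prod_le_prod (fun i _ => mul_nonneg (ht _).le (v.nonneg _))
      fun i _ => le_tw v A t (x i) (σ i)
  rw [Finset.sum_const, Finset.card_univ, Fintype.card_perm, Fintype.card_fin,
    nsmul_eq_mul] at h3
  rw [h1]
  exact h3

theorem lower (hS : IsSD v m R) {n : ℕ} (A : ι → Matrix (Fin n) (Fin n) K)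
    (hA : ∀ w, (A w).det ≠ 0) : ∃ c : ℝ, 0 < c ∧ ∀ t : ι → Fin n → ℝ, (∀ w i, 0 < t w i) →
      ∀ x : Fin n → Fin n → K, LinearIndependent K x → (∀ j, Rv R (x j)) →
        c * wt m t ≤ ∏ j, NN v m A t (x j) := by
  obtain ⟨C, hC⟩ : ∃ C : ℝ, C = ∏ w, ((n.factorial : ℝ) / v w (A w).det) ^ m w := ⟨_, rfl⟩
  have hn0 : (0 : ℝ) < n.factorial := by exact_mod_cast Nat.factorial_pos n
  have hC0 : 0 < C := by
    rw [hC]
    exact Finset.prod_pos fun w _ => pow_pos (div_pos hn0 ((v w).pos (hA w))) _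
  refine ⟨C⁻¹, inv_pos.2 hC0, fun t ht x hx hmem => ?_⟩
  rw [inv_mul_le_iff₀ hC0]
  have hDR : (Matrix.of x).det ∈ R := by
    have h1 : (Matrix.of x).det =
        R.subtype (Matrix.of fun j i => (⟨x j i, (hmem j).2 i⟩ : R)).det := by
      rw [RingHom.map_det]
      rfl
    rw [h1]
    exact (Matrix.of fun j i => (⟨x j i, (hmem j).2 i⟩ : R)).det.2
  have hD0 : (Matrix.of x).det ≠ 0 := by
    have h1 : LinearIndependent K (Matrix.of x).row := hx
    rw [Matrix.linearIndependent_rows_iff_isUnit, Matrix.isUnit_iff_isUnit_det] at h1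
    exact h1.ne_zero
  have hD1 := hS.prod_ge _ hDR hD0
  have hT : 0 < wt m t := wt_pos ht
  have h2 : ∀ w, (∏ i, t w i) * v w (Matrix.of x).det ≤
      ((n.factorial : ℝ) / v w (A w).det) * ∏ j, tw (v w) (A w) (t w) (x j) := by
    intro w
    have h3 := lo_place (v w) (A w) (t w) (ht w) x
    have h4 : 0 < v w (A w).det := (v w).pos (hA w)
    rw [div_mul_eq_mul_div, le_div_iff₀ h4]
    linarith
  have h5 : ∏ w, ((∏ i, t w i) * v w (Matrix.of x).det) ^ m w ≤
      ∏ w, (((n.factorial : ℝ) / v w (A w).det) * ∏ j, tw (v w) (A w) (t w) (x j)) ^ m w :=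
    Finset.prod_le_prod (fun w _ => pow_nonneg
      (mul_nonneg (Finset.prod_nonneg fun i _ => (ht w i).le) ((v w).nonneg _)) _)
      fun w _ => pow_le_pow_left₀
        (mul_nonneg (Finset.prod_nonneg fun i _ => (ht w i).le) ((v w).nonneg _)) (h2 w) _
  have h6 : ∏ w, ((∏ i, t w i) * v w (Matrix.of x).det) ^ m w =
      wt m t * ∏ w, v w (Matrix.of x).det ^ m w := by
    unfold wt
    rw [← Finset.prod_mul_distrib]
    refine Finset.prod_congr rfl fun w _ => ?_
    rw [mul_pow, Finset.prod_pow]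
  have h7 : ∏ w, (((n.factorial : ℝ) / v w (A w).det) *
      ∏ j, tw (v w) (A w) (t w) (x j)) ^ m w = C * ∏ j, NN v m A t (x j) := by
    unfold NN
    rw [hC, Finset.prod_comm, ← Finset.prod_mul_distrib]
    refine Finset.prod_congr rfl fun w _ => ?_
    rw [mul_pow, Finset.prod_pow]
  rw [h6, h7] at h5
  exact (le_mul_of_one_le_right hT.le hD1).trans h5

end Pool.Agent.Work.SUB
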