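import Pool.Agent.Work.SUB.Upper
import Pool.Agent.Work.SUB.Lower

/-!
# Flat: flattening all but the last minimum (block M, module M14)

`N = k + 1`, `last = Fin.last k`, `S_r = span (X '' {i | i ≤ r})`.

PROOF. Let `k' = ⟨k - 1, _⟩`, `g = ((∏ lam) * lam k' / lam last) ^ (1/N)`, so `g ^ N = (∏ lam) / G`,
`ρ r = g / lam r` for `r ≠ last`, `ρ last = g / lam k'`. `ρ` is positive and antitone, `∏ ρ = 1`. If
`B⁻¹ ≤ lam r ≤ B` for all `r` then `g ^ N = ∏_{r ≠ last} lam r * lam k'` gives `B⁻¹ ≤ g ≤ B`, so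
`(B^2)⁻¹ ≤ ρ r ≤ B^2`. Let `π` be from `exists_modt` (for `w₀`, `t`, `X`), `t' = modt m w₀ π ρ t`,
`F = (N!)^(m w₀)`; `wt m t' = 1` (`wt_modt`). Let `Y₀, ..., Y_k` be quasi-minimal for `t'`
(`exists_qmin`): `∏ NN' (Y s) ≤ C₁₁` (`upper`). For every `Y` with `Rv R Y`: let `r` be its first index
(`exists_first`): `ρ r NN Y ≤ F NN' Y` and `c₀ lam r ≤ NN Y`, so `NN' Y ≥ (c₀/F) ρ r lam r`, which is
`(c₀/F) g` if `r ≠ last` and `(c₀/F) g G` if `r = last` (`G ≥ 1`). So always `NN' Y ≥ (c₀/F) g`, and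
`NN' Y ≥ (c₀/F) g G` if `Y ∉ span (X '' {i | i < last})`. This span has dimension `k`, so some `Y s₀` is
not in it. For `s ≠ s₀`: `NN' (Y s) ≤ C₁₁ / ((c₀/F)^(N-1) g^(N-1) G) = C₁₁ (F/c₀)^(N-1) g / (g^N G)
≤ C₁₁ (F/c₀)^(N-1) g / c₀` because `g^N G = ∏ lam ≥ c₀`. This is `≤ C₂ g`, `g ≤ (C₀/G)^(1/N)`, and it
is `< (c₀/F) g G` if `G ≥ C` is large, so `Y s ∈ span (X '' {i | i < last})`; the `Y s`, `s ≠ s₀`, are
`k` independent vectors in this `k`-dimensional space. Reindex `{s | s ≠ s₀}` by `Fin k`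
(`Fin.succAbove s₀`).
-/

set_option autoImplicit false

noncomputable section

namespace Pool.Agent.Work.SUB

variable {K : Type} [Field K] [Height.AdmissibleAbsValues K] {ι : Type} [Fintype ι]
  {v : ι → AbsoluteValue K ℝ} {m : ι → ℕ} {R : Subring K}

private theorem flat_aux1 {k : ℕ} (hk : 1 ≤ k) (lam : Fin (k + 1) → ℝ) (hlam : ∀ r, 0 < lam r)
    (hmono : Monotone lam) : ∃ (g : ℝ) (ρ : Fin (k + 1) → ℝ), 0 < g ∧ (∀ r, 0 < ρ r) ∧
      Antitone ρ ∧ ∏ r, ρ r = 1 ∧ (∀ r, r ≠ Fin.last k → ρ r * lam r = g) ∧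
      ρ (Fin.last k) * lam ⟨k - 1, by omega⟩ = g ∧
      g ^ (k + 1) * lam (Fin.last k) = (∏ r, lam r) * lam ⟨k - 1, by omega⟩ ∧
      (∀ B : ℝ, 1 ≤ B → (∀ r, B⁻¹ ≤ lam r ∧ lam r ≤ B) →
        ∀ r, (B ^ 2)⁻¹ ≤ ρ r ∧ ρ r ≤ B ^ 2) := by
  set k' : Fin (k + 1) := ⟨k - 1, by omega⟩ with hk'
  have hP : 0 < ∏ r, lam r := Finset.prod_pos fun r _ => hlam r
  set P : ℝ := ∏ r, lam r with hPdef
  set u : ℝ := P * lam k' / lam (Fin.last k) with hu
  have hupos : 0 < u := div_pos (mul_pos hP (hlam _)) (hlam _)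
  set g : ℝ := u ^ (((k + 1 : ℕ) : ℝ)⁻¹) with hg
  have hgpos : 0 < g := Real.rpow_pos_of_pos hupos _
  have hgpow : g ^ (k + 1) = u := Real.rpow_inv_natCast_pow hupos.le (by omega)
  set lam' : Fin (k + 1) → ℝ := fun r => if r = Fin.last k then lam k' else lam r with hlam'
  have hlam'pos : ∀ r, 0 < lam' r := by
    intro r
    simp only [hlam']
    split_ifs
    · exact hlam _
    · exact hlam _
  have hlam'mono : Monotone lam' := by
    intro r s hrs
    simp only [hlam']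
    by_cases hr : r = Fin.last k
    · have hs : s = Fin.last k := le_antisymm (Fin.le_last s) (hr ▸ hrs)
      rw [if_pos hr, if_pos hs]
    · rw [if_neg hr]
      by_cases hs : s = Fin.last k
      · rw [if_pos hs]
        apply hmono
        rw [Fin.le_def, hk']
        have : (r : ℕ) ≠ k := fun h => hr (Fin.ext (by simpa using h))
        have h2 := r.isLt
        simp only
        omega
      · rw [if_neg hs]
        exact hmono hrs
  have hprod : ∏ r, lam' r = u := by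
    rw [Fin.prod_univ_castSucc]
    have h1 : ∀ i : Fin k, lam' (Fin.castSucc i) = lam (Fin.castSucc i) := by
      intro i
      simp only [hlam']
      rw [if_neg (Fin.castSucc_lt_last i).ne]
    have h2 : lam' (Fin.last k) = lam k' := if_pos rfl
    rw [Finset.prod_congr rfl fun i _ => h1 i, h2, hu, hPdef, Fin.prod_univ_castSucc]
    have := (hlam (Fin.last k)).ne'
    field_simp
  refine ⟨g, fun r => g / lam' r, hgpos, fun r => div_pos hgpos (hlam'pos r), ?_, ?_, ?_, ?_, ?_,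
    ?_⟩
  · intro r s hrs
    exact div_le_div_of_nonneg_left hgpos.le (hlam'pos r) (hlam'mono hrs)
  · rw [Finset.prod_div_distrib, Finset.prod_const, Finset.card_univ, Fintype.card_fin, hgpow,
      hprod]
    exact div_self hupos.ne'
  · intro r hr
    have h : lam' r = lam r := if_neg hr
    show g / lam' r * lam r = g
    rw [h]
    exact div_mul_cancel₀ _ (hlam r).ne'
  · have h : lam' (Fin.last k) = lam k' := if_pos rfl
    show g / lam' (Fin.last k) * lam k' = g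
    rw [h]
    exact div_mul_cancel₀ _ (hlam k').ne'
  · rw [hgpow, hu]
    exact div_mul_cancel₀ _ (hlam _).ne'
  · intro B hB h r
    have hB0 : 0 < B := by linarith
    have hl : ∀ r, B⁻¹ ≤ lam' r ∧ lam' r ≤ B := by
      intro r
      simp only [hlam']
      split_ifs
      · exact h _
      · exact h _
    have hg1 : g ≤ B := by
      apply le_of_pow_le_pow_left₀ (n := k + 1) (by omega) hB0.le
      rw [hgpow, ← hprod]
      calc ∏ r, lam' r ≤ ∏ r : Fin (k + 1), B :=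
            Finset.prod_le_prod (fun r _ => (hlam'pos r).le) fun r _ => (hl r).2
        _ = B ^ (k + 1) := by rw [Finset.prod_const, Finset.card_univ, Fintype.card_fin]
    have hg2 : B⁻¹ ≤ g := by
      apply le_of_pow_le_pow_left₀ (n := k + 1) (by omega) hgpos.le
      rw [hgpow, ← hprod]
      calc B⁻¹ ^ (k + 1) = ∏ r : Fin (k + 1), B⁻¹ := by
            rw [Finset.prod_const, Finset.card_univ, Fintype.card_fin]
        _ ≤ ∏ r, lam' r :=
            Finset.prod_le_prod (fun r _ => (inv_pos.mpr hB0).le) fun r _ => (hl r).1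
    constructor
    · rw [le_div_iff₀ (hlam'pos r)]
      calc (B ^ 2)⁻¹ * lam' r ≤ (B ^ 2)⁻¹ * B :=
            mul_le_mul_of_nonneg_left (hl r).2 (by positivity)
        _ = B⁻¹ := by
            field_simp
        _ ≤ g := hg2
    · rw [div_le_iff₀ (hlam'pos r)]
      calc g ≤ B := hg1
        _ = B ^ 2 * B⁻¹ := by
            field_simp
        _ ≤ B ^ 2 * lam' r := mul_le_mul_of_nonneg_left (hl r).1 (by positivity)

private theorem flat_aux2 {k : ℕ} (hk : 1 ≤ k) (a : Fin (k + 1) → ℝ) {α G C₁ : ℝ} (hα : 0 < α)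
    (ha : ∀ s, α ≤ a s) {s₀ : Fin (k + 1)} (hs₀ : α * G ≤ a s₀)
    (hprod : ∏ s, a s ≤ C₁) {s : Fin (k + 1)} (hs : s ≠ s₀) : a s * (α ^ k * G) ≤ C₁ := by
  have h1 : a s * ∏ x ∈ Finset.univ.erase s, a x = ∏ x, a x :=
    Finset.mul_prod_erase _ _ (Finset.mem_univ s)
  have h2 : a s₀ * ∏ x ∈ (Finset.univ.erase s).erase s₀, a x = ∏ x ∈ Finset.univ.erase s, a x :=
    Finset.mul_prod_erase _ _ (Finset.mem_erase.mpr ⟨hs.symm, Finset.mem_univ _⟩)
  have h3 : α ^ (k - 1) ≤ ∏ x ∈ (Finset.univ.erase s).erase s₀, a x := by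
    calc α ^ (k - 1) = ∏ x ∈ (Finset.univ.erase s).erase s₀, α := by
          rw [Finset.prod_const, Finset.card_erase_of_mem
            (Finset.mem_erase.mpr ⟨hs.symm, Finset.mem_univ _⟩),
            Finset.card_erase_of_mem (Finset.mem_univ _), Finset.card_univ, Fintype.card_fin]
          congr 1
      _ ≤ _ := Finset.prod_le_prod (fun x _ => hα.le) fun x _ => ha x
  have h4 : α ^ k * G = (α * G) * α ^ (k - 1) := by
    obtain ⟨j, rfl⟩ : ∃ j, k = j + 1 := ⟨k - 1, by omega⟩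
    rw [Nat.add_sub_cancel]
    ring
  rw [h4]
  refine le_trans ?_ hprod
  rw [← h1, ← h2]
  apply mul_le_mul_of_nonneg_left _ (hα.le.trans (ha s))
  exact mul_le_mul hs₀ h3 (by positivity) (hα.le.trans (ha s₀))

theorem flat (hS : IsSD v m R) (w₀ : ι) {k : ℕ} (hk : 1 ≤ k)
    (A : ι → Matrix (Fin (k + 1)) (Fin (k + 1)) K) (hA : ∀ w, (A w).det ≠ 0)
    (c₀ C₀ : ℝ) (hc₀ : 0 < c₀) : ∃ C : ℝ, 1 ≤ C ∧ ∀ t : ι → Fin (k + 1) → ℝ,
      (∀ w i, 0 < t w i) → wt m t = 1 → ∀ X : Fin (k + 1) → Fin (k + 1) → K,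
      LinearIndependent K X → ∀ lam : Fin (k + 1) → ℝ, (∀ r, 0 < lam r) → Monotone lam →
      c₀ ≤ ∏ r, lam r → ∏ r, lam r ≤ C₀ →
      (∀ r Y, Rv R Y → Y ∈ Submodule.span K (X '' {i | i ≤ r}) →
        Y ∉ Submodule.span K (X '' {i | i < r}) → c₀ * lam r ≤ NN v m A t Y) →
      ∀ G : ℝ, lam (Fin.last k) = G * lam ⟨k - 1, by omega⟩ → C ≤ G →
      ∃ (π : Equiv.Perm (Fin (k + 1))) (ρ : Fin (k + 1) → ℝ), (∀ r, 0 < ρ r) ∧ ∏ r, ρ r = 1 ∧
        (∀ B : ℝ, 1 ≤ B → (∀ r, B⁻¹ ≤ lam r ∧ lam r ≤ B) → ∀ r, (B ^ 2)⁻¹ ≤ ρ r ∧ ρ r ≤ B ^ 2) ∧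
        ∃ Y : Fin k → Fin (k + 1) → K, LinearIndependent K Y ∧ (∀ j, Rv R (Y j)) ∧
          (∀ j, NN v m A (modt m w₀ π ρ t) (Y j) ≤ C * G ^ (-(1 / ((k : ℝ) + 1)))) ∧
          Submodule.span K (Set.range Y) = Submodule.span K (X '' {i | i < Fin.last k}) := by
  obtain ⟨C₁, hC₁, hup⟩ := upper hS (n := k + 1) (by omega) A hA
  set F : ℝ := (((k + 1).factorial : ℕ) : ℝ) ^ m w₀ with hF
  have hFpos : 0 < F := by
    rw [hF]
    exact pow_pos (Nat.cast_pos.mpr (Nat.factorial_pos _)) _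
  set C₂ : ℝ := C₁ * (F / c₀) ^ k / c₀ with hC₂
  have hC₂pos : 0 < C₂ := by positivity
  set D : ℝ := (max C₀ 1) ^ (1 / ((k : ℝ) + 1)) with hD
  have hDpos : 0 < D := Real.rpow_pos_of_pos (lt_of_lt_of_le one_pos (le_max_right _ _)) _
  refine ⟨max 1 (max (C₂ * D) (F * C₂ / c₀ + 1)), le_max_left _ _, ?_⟩
  intro t ht hwt X hX lam hlam hmono hP1 hP2 hlow G hG hCG
  have hG1 : 1 ≤ G := (le_max_left _ _).trans hCG
  have hG0 : 0 < G := by linarith
  obtain ⟨g, ρ, hg, hρ, hanti, hρ1, hρr, hρlast, hgpow, hbd⟩ := flat_aux1 hk lam hlam hmono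
  obtain ⟨π, hπ⟩ := exists_modt (v := v) (hS.m_pos w₀) A t ht X
  have hπρ := hπ ρ hρ hanti
  set t' := modt m w₀ π ρ t with ht'def
  have ht' : ∀ w i, 0 < t' w i := modt_pos w₀ π hρ ht
  have hwt' : wt m t' = 1 := by
    rw [ht'def, wt_modt (hS.m_pos w₀) π hρ t, hρ1, hwt, one_mul]
  obtain ⟨Z, hZ⟩ := exists_qmin hS A hA t' ht'
  have hZprod : ∏ j, NN v m A t' (Z j) ≤ C₁ := by
    have := hup t' ht' Z hZ
    rwa [hwt', mul_one] at this
  -- the span of the first vectors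
  set W := Submodule.span K (X '' {i | i < Fin.last k}) with hW
  have hbasic : ∀ Y, Rv R Y → c₀ * g ≤ F * NN v m A t' Y ∧
      (Y ∉ W → c₀ * g * G ≤ F * NN v m A t' Y) := by
    intro Y hY
    obtain ⟨r, hr1, hr2⟩ := exists_first hX hY.1
    have h1 := hπρ r Y hr1
    have h2 := hlow r Y hY hr1 hr2
    have h3 : ρ r * (c₀ * lam r) ≤ F * NN v m A t' Y :=
      (mul_le_mul_of_nonneg_left h2 (hρ r).le).trans h1
    by_cases hr : r = Fin.last k
    · subst hr
      have h4 : ρ (Fin.last k) * (c₀ * lam (Fin.last k)) = c₀ * g * G := by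
        rw [hG, ← hρlast]
        ring
      rw [h4] at h3
      refine ⟨le_trans ?_ h3, fun _ => h3⟩
      exact le_mul_of_one_le_right (by positivity) hG1
    · have h4 : ρ r * (c₀ * lam r) = c₀ * g := by
        rw [← hρr r hr]
        ring
      rw [h4] at h3
      refine ⟨h3, fun hYW => absurd ?_ hYW⟩
      refine Submodule.span_mono (Set.image_mono ?_) hr1
      intro i hi
      simp only [Set.mem_ofPred_eq] at hi ⊢
      exact lt_of_le_of_lt hi (lt_of_le_of_ne (Fin.le_last r) hr)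
  set α : ℝ := c₀ * g / F with hα
  have hαpos : 0 < α := by positivity
  have hαle : ∀ Y, Rv R Y → α ≤ NN v m A t' Y := by
    intro Y hY
    rw [hα, div_le_iff₀ hFpos, mul_comm (NN v m A t' Y)]
    exact (hbasic Y hY).1
  have hαG : ∀ Y, Rv R Y → Y ∉ W → α * G ≤ NN v m A t' Y := by
    intro Y hY hYW
    have : α * G = c₀ * g * G / F := by
      rw [hα]
      ring
    rw [this, div_le_iff₀ hFpos, mul_comm (NN v m A t' Y)]
    exact (hbasic Y hY).2 hYW
  -- W is a proper subspace of dimension k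
  have himg : X '' {i | i < Fin.last k} = Set.range (fun i : Fin k => X (Fin.castSucc i)) := by
    ext z
    constructor
    · rintro ⟨i, hi, rfl⟩
      simp only [Set.mem_ofPred_eq] at hi
      exact ⟨i.castPred hi.ne, by simp⟩
    · rintro ⟨i, rfl⟩
      exact ⟨Fin.castSucc i, Fin.castSucc_lt_last i, rfl⟩
  have hXc : LinearIndependent K (fun i : Fin k => X (Fin.castSucc i)) :=
    hX.comp _ (Fin.castSucc_injective k)
  have hWdim : Module.finrank K W = k := by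
    rw [hW, himg, finrank_span_eq_card hXc, Fintype.card_fin]
  obtain ⟨s₀, hs₀⟩ : ∃ s₀, Z s₀ ∉ W := by
    by_contra hcon
    push Not at hcon
    have h1 : Submodule.span K (Set.range Z) ≤ W := by
      rw [Submodule.span_le]
      rintro _ ⟨s, rfl⟩
      exact hcon s
    have h2 := Submodule.finrank_mono h1
    rw [finrank_span_eq_card hZ.indep, Fintype.card_fin, hWdim] at h2
    omega
  have hPG : g ^ (k + 1) * G = ∏ r, lam r := by
    have h1 : (g ^ (k + 1) * G) * lam ⟨k - 1, by omega⟩ = (∏ r, lam r) * lam ⟨k - 1, by omega⟩ := by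
      rw [← hgpow, hG]
      ring
    exact mul_right_cancel₀ (hlam _).ne' h1
  have hsmall : ∀ s, s ≠ s₀ → NN v m A t' (Z s) ≤ C₂ * g := by
    intro s hs
    have h1 := flat_aux2 hk (fun s => NN v m A t' (Z s)) hαpos
      (fun s => hαle (Z s) (hZ.mem s)) (hαG (Z s₀) (hZ.mem s₀) hs₀) hZprod hs
    have h2 : (c₀ / F) ^ k * c₀ ≤ (α ^ k * G) * g := by
      have h3 : (α ^ k * G) * g = (c₀ / F) ^ k * ∏ r, lam r := by
        rw [← hPG, hα]
        have : c₀ * g / F = (c₀ / F) * g := by ring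
        rw [this, mul_pow]
        ring
      rw [h3]
      exact mul_le_mul_of_nonneg_left hP1 (by positivity)
    have h4 : 0 < (c₀ / F) ^ k * c₀ := by positivity
    have h5 : NN v m A t' (Z s) * ((c₀ / F) ^ k * c₀) ≤ C₁ * g := by
      calc NN v m A t' (Z s) * ((c₀ / F) ^ k * c₀)
          ≤ NN v m A t' (Z s) * ((α ^ k * G) * g) :=
            mul_le_mul_of_nonneg_left h2 (hαpos.le.trans (hαle _ (hZ.mem s)))
        _ = (NN v m A t' (Z s) * (α ^ k * G)) * g := by ring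
        _ ≤ C₁ * g := mul_le_mul_of_nonneg_right h1 hg.le
    rw [← le_div_iff₀ h4] at h5
    refine h5.trans (le_of_eq ?_)
    rw [hC₂, div_pow, div_pow]
    field_simp
  have hgle : g ≤ D * G ^ (-(1 / ((k : ℝ) + 1))) := by
    have h1 : g ^ (k + 1) ≤ max C₀ 1 / G := by
      rw [le_div_iff₀ hG0, hPG]
      exact hP2.trans (le_max_left _ _)
    have h2 : 0 ≤ D * G ^ (-(1 / ((k : ℝ) + 1))) := by positivity
    apply le_of_pow_le_pow_left₀ (n := k + 1) (by omega) h2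
    refine h1.trans (le_of_eq ?_)
    have hk1 : ((k : ℝ) + 1) ≠ 0 := by positivity
    have hmax : (0 : ℝ) ≤ max C₀ 1 := zero_le_one.trans (le_max_right _ _)
    rw [mul_pow, hD, ← Real.rpow_natCast, ← Real.rpow_mul hmax, ← Real.rpow_natCast,
      ← Real.rpow_mul hG0.le]
    push_cast
    have e1 : 1 / ((k : ℝ) + 1) * ((k : ℝ) + 1) = 1 := by field_simp
    have e2 : -(1 / ((k : ℝ) + 1)) * ((k : ℝ) + 1) = -1 := by field_simp
    rw [e1, e2, Real.rpow_one, Real.rpow_neg_one]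
    rfl
  have hZW : ∀ s, s ≠ s₀ → Z s ∈ W := by
    intro s hs
    by_contra hcon
    have h1 := (hbasic (Z s) (hZ.mem s)).2 hcon
    have h2 := hsmall s hs
    have h3 : c₀ * g * G ≤ F * (C₂ * g) := h1.trans (mul_le_mul_of_nonneg_left h2 hFpos.le)
    have h4 : G ≤ F * C₂ / c₀ := by
      rw [le_div_iff₀ hc₀]
      have h5 : g * (G * c₀) ≤ g * (F * C₂) := by linarith
      exact le_of_mul_le_mul_left h5 hg
    have h6 : F * C₂ / c₀ + 1 ≤ G :=
      ((le_max_right _ _).trans (le_max_right _ _)).trans hCG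
    linarith
  have hYind : LinearIndependent K (fun j : Fin k => Z (s₀.succAbove j)) :=
    hZ.indep.comp _ Fin.succAbove_right_injective
  refine ⟨π, ρ, hρ, hρ1, hbd, fun j => Z (s₀.succAbove j), hYind, fun j => hZ.mem _, ?_, ?_⟩
  · intro j
    refine (hsmall _ (Fin.succAbove_ne s₀ j)).trans ?_
    calc C₂ * g ≤ C₂ * (D * G ^ (-(1 / ((k : ℝ) + 1)))) :=
          mul_le_mul_of_nonneg_left hgle hC₂pos.le
      _ = (C₂ * D) * G ^ (-(1 / ((k : ℝ) + 1))) := by ring
      _ ≤ _ := by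
          apply mul_le_mul_of_nonneg_right _ (Real.rpow_nonneg hG0.le _)
          exact (le_max_left _ _).trans (le_max_right _ _)
  · apply Submodule.eq_of_le_of_finrank_eq
    · rw [Submodule.span_le]
      rintro _ ⟨j, rfl⟩
      exact hZW _ (Fin.succAbove_ne s₀ j)
    · rw [finrank_span_eq_card hYind, Fintype.card_fin, hWdim]

end Pool.Agent.Work.SUB
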