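import Pool.Agent.Work.SUB.Flat

/-!
# FlatN: flattening for an unordered family (block M, module M14)

PROOF. Write `N = k + 1` (`obtain ⟨k, rfl⟩`, `k ≥ 1`). Take `C = max 2 C_flat`. Sort: `σ = Tuple.sort
lam`, so `lam ∘ σ` is monotone. `σ (Fin.last k) = s₀`: otherwise, with `s = σ (last) ≠ s₀`,
`G * lam s ≤ lam s₀ ≤ lam s` (monotone: `s₀ = σ r`, `r ≤ last`), impossible for `G ≥ 2`. Apply `flat` to
`X ∘ σ`, `lam ∘ σ` and `G' = lam s₀ / lam (σ ⟨k-1, _⟩) ≥ G` (`σ ⟨k-1,_⟩ ≠ s₀`). Its hypothesis: for `Y`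
in `span ((X ∘ σ) '' {i | i ≤ r})`, not in `span ((X ∘ σ) '' {i | i < r})`, one has
`Y ∉ span (X '' {s | s ≠ σ r})` (coefficients with respect to the independent `X`: `Y = ∑_{i ≤ r} a_i
X (σ i)` with `a_r ≠ 0`). The result: `C G'^(-1/N) ≤ C G^(-1/N)`, and `(X ∘ σ) '' {i | i < last} =
X '' {s | s ≠ s₀}`. The bounds for `ρ` and the product do not depend on the order of `lam`.
-/

set_option autoImplicit false

noncomputable section

namespace Pool.Agent.Work.SUB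

variable {K : Type} [Field K] [Height.AdmissibleAbsValues K] {ι : Type} [Fintype ι]
  {v : ι → AbsoluteValue K ℝ} {m : ι → ℕ} {R : Subring K}

omit [Height.AdmissibleAbsValues K] in
/-- Spans of subfamilies of an independent family intersect in the span of the intersection. -/
private theorem span_inter_aux {N : ℕ} {X : Fin N → Fin N → K} (hX : LinearIndependent K X)
    (s t : Set (Fin N)) {Y : Fin N → K} (h1 : Y ∈ Submodule.span K (X '' s))
    (h2 : Y ∈ Submodule.span K (X '' t)) : Y ∈ Submodule.span K (X '' (s ∩ t)) := by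
  rw [Finsupp.mem_span_image_iff_linearCombination] at h1 h2 ⊢
  obtain ⟨l, hl, hl'⟩ := h1
  obtain ⟨l', hl2, hl2'⟩ := h2
  have hll : l = l' := hX (by rw [hl', hl2'])
  subst hll
  refine ⟨l, ?_, hl'⟩
  rw [Finsupp.mem_supported] at hl hl2 ⊢
  exact Set.subset_inter hl hl2

theorem flatN (hS : IsSD v m R) (w₀ : ι) {N : ℕ} (hN : 2 ≤ N)
    (A : ι → Matrix (Fin N) (Fin N) K) (hA : ∀ w, (A w).det ≠ 0)
    (c₀ C₀ : ℝ) (hc₀ : 0 < c₀) : ∃ C : ℝ, 1 ≤ C ∧ ∀ t : ι → Fin N → ℝ,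
      (∀ w i, 0 < t w i) → wt m t = 1 → ∀ X : Fin N → Fin N → K,
      LinearIndependent K X → ∀ lam : Fin N → ℝ, (∀ r, 0 < lam r) →
      c₀ ≤ ∏ r, lam r → ∏ r, lam r ≤ C₀ →
      (∀ r Y, Rv R Y → Y ∉ Submodule.span K (X '' {s | s ≠ r}) → c₀ * lam r ≤ NN v m A t Y) →
      ∀ (s₀ : Fin N) (G : ℝ), (∀ s, s ≠ s₀ → G * lam s ≤ lam s₀) → C ≤ G →
      ∃ (π : Equiv.Perm (Fin N)) (ρ : Fin N → ℝ), (∀ r, 0 < ρ r) ∧ ∏ r, ρ r = 1 ∧
        (∀ B : ℝ, 1 ≤ B → (∀ r, B⁻¹ ≤ lam r ∧ lam r ≤ B) → ∀ r, (B ^ 2)⁻¹ ≤ ρ r ∧ ρ r ≤ B ^ 2) ∧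
        ∃ Y : Fin (N - 1) → Fin N → K, LinearIndependent K Y ∧ (∀ j, Rv R (Y j)) ∧
          (∀ j, NN v m A (modt m w₀ π ρ t) (Y j) ≤ C * G ^ (-(1 / (N : ℝ)))) ∧
          Submodule.span K (Set.range Y) = Submodule.span K (X '' {s | s ≠ s₀}) := by
  obtain ⟨k, rfl⟩ : ∃ k, N = k + 1 := ⟨N - 1, by omega⟩
  have hk : 1 ≤ k := by omega
  obtain ⟨C, hC, hflat⟩ := flat hS w₀ hk A hA c₀ C₀ hc₀
  refine ⟨max 2 C, (by norm_num : (1 : ℝ) ≤ 2).trans (le_max_left _ _), ?_⟩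
  intro t ht hwt X hX lam hlam hP1 hP2 hlow s₀ G hG hCG
  have hG2 : 2 ≤ G := (le_max_left _ _).trans hCG
  have hG0 : 0 < G := by linarith
  set σ : Equiv.Perm (Fin (k + 1)) := Tuple.sort lam with hσdef
  have hmono : Monotone (lam ∘ σ) := Tuple.monotone_sort lam
  have hσ : σ (Fin.last k) = s₀ := by
    by_contra hne
    have h1 := hG (σ (Fin.last k)) hne
    have h2 : lam s₀ ≤ lam (σ (Fin.last k)) := by
      have := hmono (Fin.le_last (σ.symm s₀))
      simpa using this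
    have h3 := hlam (σ (Fin.last k))
    have h4 : 2 * lam (σ (Fin.last k)) ≤ G * lam (σ (Fin.last k)) :=
      mul_le_mul_of_nonneg_right hG2 h3.le
    linarith
  set k' : Fin (k + 1) := ⟨k - 1, by omega⟩ with hk'
  have hk'last : k' ≠ Fin.last k := by
    intro h
    have := congrArg Fin.val h
    simp only [hk', Fin.val_last] at this
    omega
  have hσk' : σ k' ≠ s₀ := by
    intro h
    exact hk'last (σ.injective (h.trans hσ.symm))
  have hGG' : G ≤ lam s₀ / lam (σ k') := by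
    rw [le_div_iff₀ (hlam _)]
    exact hG _ hσk'
  obtain ⟨π, ρ, hρ, hρ1, hbd, Y, hYind, hYR, hYNN, hYspan⟩ := hflat t ht hwt (X ∘ σ)
    (hX.comp σ σ.injective) (lam ∘ σ) (fun r => hlam _) hmono
    (by rw [show ∏ r, (lam ∘ σ) r = ∏ r, lam r from Equiv.prod_comp σ lam]; exact hP1)
    (by rw [show ∏ r, (lam ∘ σ) r = ∏ r, lam r from Equiv.prod_comp σ lam]; exact hP2)
    (by
      intro r Y hY hY1 hY2
      refine hlow (σ r) Y hY ?_
      intro hcon
      apply hY2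
      have h1 : (X ∘ σ) '' {i | i ≤ r} = X '' (σ '' {i | i ≤ r}) := Set.image_comp _ _ _
      have h2 : (X ∘ σ) '' {i | i < r} = X '' (σ '' {i | i < r}) := Set.image_comp _ _ _
      rw [h1] at hY1
      rw [h2]
      refine Submodule.span_mono (Set.image_mono ?_) (span_inter_aux hX _ _ hY1 hcon)
      rintro _ ⟨⟨i, hi, rfl⟩, hne⟩
      have hir : i ≤ r := hi
      have hir' : i ≠ r := fun h => hne (by rw [h])
      exact ⟨i, lt_of_le_of_ne hir hir', rfl⟩)
    (lam s₀ / lam (σ k')) (by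
      show lam (σ (Fin.last k)) = lam s₀ / lam (σ k') * lam (σ k')
      rw [hσ]
      exact (div_mul_cancel₀ _ (hlam _).ne').symm) ((le_max_right _ _).trans (hCG.trans hGG'))
  refine ⟨π, ρ, hρ, hρ1, fun B hB h => hbd B hB fun r => h _, Y, hYind, hYR, ?_, ?_⟩
  · intro j
    refine (hYNN j).trans ?_
    have hcast : ((k + 1 : ℕ) : ℝ) = (k : ℝ) + 1 := by push_cast; ring
    rw [hcast]
    have hneg : -(1 / ((k : ℝ) + 1)) ≤ 0 := by
      have : 0 ≤ 1 / ((k : ℝ) + 1) := by positivity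
      linarith
    apply mul_le_mul (le_max_right _ _)
      (Real.rpow_le_rpow_of_nonpos hG0 hGG' hneg) (Real.rpow_nonneg _ _)
      ((zero_le_two).trans (le_max_left _ _))
    exact hG0.le.trans hGG'
  · rw [hYspan]
    have h1 : (X ∘ σ) '' {i | i < Fin.last k} = X '' (σ '' {i | i < Fin.last k}) :=
      Set.image_comp _ _ _
    rw [h1]
    congr 2
    ext s
    constructor
    · rintro ⟨i, hi, rfl⟩
      intro h
      have : i = Fin.last k := σ.injective (h.trans hσ.symm)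
      exact absurd this (ne_of_lt hi)
    · intro hs
      refine ⟨σ.symm s, ?_, by simp⟩
      refine lt_of_le_of_ne (Fin.le_last _) ?_
      intro h
      apply hs
      rw [← hσ, ← h]
      simp

end Pool.Agent.Work.SUB
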