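import Pool.Agent.Work.SUB.Defs

/-!
# LGHt: height of a polynomial with coefficients in `R` (block E)

PROOF. `hP F = logHeight (fun s : F.support => F.coeff s)`. Let `N = F.support.card ≥ 1` (`F ≠ 0`) and
`e : Fin N ≃ F.support`; `Height.logHeight_comp_equiv` (or `mulHeight_comp_equiv`) replaces the index
type by `Fin N`. The tuple `x : Fin N → K` is nonzero with coordinates in `R`, so
`mulHeight x ≤ HR v m x = ∏ w, (⨆ i, v w (x i)) ^ m w ≤ ∏ w, H ^ m w = H ^ ∑ w, m w`
(`hS.height_le`, `ciSup_le` with `Nonempty (Fin N)`), take logarithms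
(`Real.log_pow`, `Height.mulHeight_pos`).
-/

set_option autoImplicit false

noncomputable section

namespace Pool.Agent.Work.SUB

theorem hP_le {K : Type} [Field K] [Height.AdmissibleAbsValues K] {ι : Type} [Fintype ι]
    {v : ι → AbsoluteValue K ℝ} {m : ι → ℕ} {R : Subring K} (hS : IsSD v m R) {σ : Type}
    (F : MvPolynomial σ K) (hF : F ≠ 0) {H : ℝ} (hH : 1 ≤ H)
    (hR : ∀ s ∈ F.support, F.coeff s ∈ R) (hb : ∀ s ∈ F.support, ∀ w, v w (F.coeff s) ≤ H) :
    hP F ≤ (∑ w, (m w : ℝ)) * Real.log H := by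
  classical
  have hN : 0 < F.support.card := Finset.card_pos.2 (Finset.nonempty_iff_ne_empty.2
    fun h => hF (MvPolynomial.support_eq_empty.1 h))
  obtain ⟨e⟩ : Nonempty (Fin F.support.card ≃ F.support) := ⟨F.support.equivFin.symm⟩
  have h1 : hP F = Height.logHeight ((fun s : F.support => F.coeff s) ∘ e) :=
    (Height.logHeight_comp_equiv e _).symm
  have hne : Nonempty (Fin F.support.card) := ⟨⟨0, hN⟩⟩
  have hRv : Rv R ((fun s : F.support => F.coeff s) ∘ e) := by
    refine ⟨fun h => ?_, fun i => hR _ (e i).2⟩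
    have h2 := congrFun h ⟨0, hN⟩
    exact (MvPolynomial.mem_support_iff.1 (e ⟨0, hN⟩).2) h2
  have h3 := hS.height_le _ _ hRv
  have h4 : HR v m ((fun s : F.support => F.coeff s) ∘ e) ≤ ∏ w, H ^ m w := by
    unfold HR
    refine Finset.prod_le_prod (fun w _ => ?_) (fun w _ => ?_)
    · exact pow_nonneg (Real.iSup_nonneg fun i => (v w).nonneg _) _
    · refine pow_le_pow_left₀ (Real.iSup_nonneg fun i => (v w).nonneg _) ?_ _
      exact ciSup_le fun i => hb _ (e i).2 w
  have h5 : ∏ w, H ^ m w = H ^ ∑ w, m w := Finset.prod_pow_eq_pow_sum _ _ _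
  rw [h1, Height.logHeight_eq_log_mulHeight]
  calc Real.log (Height.mulHeight ((fun s : F.support => F.coeff s) ∘ e))
      ≤ Real.log (H ^ ∑ w, m w) :=
        Real.log_le_log (Height.mulHeight_pos _) (h3.trans (h4.trans_eq h5))
    _ = _ := by
        rw [Real.log_pow]
        push_cast
        ring

end Pool.Agent.Work.SUB
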