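import Pool.Agent.Work.SUB.LGLowA

/-!
# LGLow: hyperplanes of small height belong to a finite set (block E)

PROOF. For `I : ι → Finset (Fin (k+1))` let
`W I = {ℓ' | ∀ w, ∀ i ∉ I w, vecMul ℓ' (A w)⁻¹ i = 0}` (a submodule of `Fin (k+1) → K`) and
`V I = {y | ∀ ℓ' ∈ W I, ∑ i, ℓ' i * y i = 0}` (a submodule), `𝒱 = Set.range V`, finite because
the type of the `I` is finite. For every `I` such that `W I` contains two linearly independent
vectors fix such a pair `ℓ¹_I, ℓ²_I` with coordinates in `R` (multiply by a common denominator,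
`hS.frac`). Let `C ≥ 1` bound `(k+1) * v w (vecMul ℓ^a_I (A w)⁻¹ i)` and its power `m w` for all
`I, a, w, i`. Let `c₀`, `Q₀` be from `lowA`, and enlarge `Q₀` such that
`C ^ s * Q₀ ^ (Λ / 2) < 1`, `s = card ι`, `Λ = ∑ w, m w * ∑ i, c w i < 0`.
Let `Q ≥ Q₀`, `x` as in the statement, and suppose some `ℓ ≠ 0` kills all `x l` and has
`logHeight ℓ < c₀ log Q`. Put `I w = {i | vecMul ℓ (A w)⁻¹ i ≠ 0}`, nonempty since `ℓ ≠ 0` and
`(A w)⁻¹` is invertible. Choose `i(w) ∈ I w` with `c w (i w)` maximal; `lowA`: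
`∑ w, m w * c w (i w) ≤ Λ / 2`. Clearly `ℓ ∈ W I`.
* If `W I` contains two independent vectors: one of `ℓ¹_I, ℓ²_I`, say `ℓ'`, is not a multiple of
  `ℓ`, so by `span_eq_of_dual` some `y = ∑ i, ℓ' i * x l i` is `≠ 0`; it is in `R`. At `w`:
  `y = ∑ i, (vecMul ℓ' (A w)⁻¹ i) * ((A w).mulVec (x l) i)` (`Matrix.dotProduct_mulVec`,
  `Matrix.vecMul_vecMul`, `(A w)⁻¹ * A w = 1`), only `i ∈ I w` contribute, so
  `v w y ≤ (k+1) max_i v w (vecMul ℓ' (A w)⁻¹ i) * Q ^ (c w (i w))`, `v w y ^ m w ≤ C * Q ^ (m w * c w (i w))`,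
  `1 ≤ ∏ w, v w y ^ m w ≤ C ^ s * Q ^ (Λ / 2) < 1` (`hS.prod_ge`): contradiction.
* Otherwise every element of `W I` is a multiple of `ℓ` (`ℓ ∈ W I`, `ℓ ≠ 0`), so
  `V I = {y | ∑ i, ℓ i * y i = 0} = span x` by `span_eq_of_dual`: `span x ∈ 𝒱`.
-/

set_option autoImplicit false

noncomputable section

namespace Pool.Agent.Work.SUB

/-- The space of the vectors whose dual coordinates vanish outside `I`. -/
private def WI {K : Type} [Field K] {ι : Type} {k : ℕ}
    (A : ι → Matrix (Fin (k + 1)) (Fin (k + 1)) K) (I : ι → Finset (Fin (k + 1))) :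
    Submodule K (Fin (k + 1) → K) where
  carrier := {ℓ | ∀ w, ∀ i ∉ I w, Matrix.vecMul ℓ (A w)⁻¹ i = 0}
  add_mem' := by
    intro a b ha hb w i hi
    rw [Matrix.add_vecMul, Pi.add_apply, ha w i hi, hb w i hi, add_zero]
  zero_mem' := by
    intro w i _
    rw [Matrix.zero_vecMul, Pi.zero_apply]
  smul_mem' := by
    intro r a ha w i hi
    rw [Matrix.smul_vecMul, Pi.smul_apply, ha w i hi, smul_zero]

/-- The common kernel of the vectors in `WI`. -/
private def VI {K : Type} [Field K] {ι : Type} {k : ℕ}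
    (A : ι → Matrix (Fin (k + 1)) (Fin (k + 1)) K) (I : ι → Finset (Fin (k + 1))) :
    Submodule K (Fin (k + 1) → K) where
  carrier := {y | ∀ ℓ ∈ WI A I, ∑ i, ℓ i * y i = 0}
  add_mem' := by
    intro a b ha hb ℓ hℓ
    simp only [Pi.add_apply, mul_add, Finset.sum_add_distrib, ha ℓ hℓ, hb ℓ hℓ, add_zero]
  zero_mem' := by
    intro ℓ _
    simp
  smul_mem' := by
    intro r a ha ℓ hℓ
    have : ∑ i, ℓ i * (r • a) i = r * ∑ i, ℓ i * a i := by
      rw [Finset.mul_sum]
      exact Finset.sum_congr rfl fun i _ => by simp [mul_left_comm]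
    rw [this, ha ℓ hℓ, mul_zero]

private theorem vecMul_inv_mul {K : Type} [Field K] {k : ℕ}
    {A : Matrix (Fin (k + 1)) (Fin (k + 1)) K} (hA : A.det ≠ 0) (ℓ : Fin (k + 1) → K) :
    Matrix.vecMul (Matrix.vecMul ℓ A⁻¹) A = ℓ := by
  rw [Matrix.vecMul_vecMul, Matrix.nonsing_inv_mul A (isUnit_iff_ne_zero.2 hA), Matrix.vecMul_one]

private theorem common_den {K : Type} [Field K] [Height.AdmissibleAbsValues K] {ι : Type}
    [Fintype ι] {v : ι → AbsoluteValue K ℝ} {m : ι → ℕ} {R : Subring K} (hS : IsSD v m R)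
    {n : ℕ} (x : Fin n → K) : ∃ b ∈ R, b ≠ 0 ∧ ∀ i, b * x i ∈ R := by
  classical
  choose b hbR hb0 hb using fun i => hS.frac (x i)
  refine ⟨∏ i, b i, R.prod_mem fun i _ => hbR i, Finset.prod_ne_zero_iff.2 fun i _ => hb0 i,
    fun i => ?_⟩
  rw [← Finset.prod_erase_mul Finset.univ b (Finset.mem_univ i), mul_assoc]
  exact R.mul_mem (R.prod_mem fun j _ => hbR j) (hb i)

theorem low {K : Type} [Field K] [Height.AdmissibleAbsValues K] {ι : Type} [Fintype ι]
    {v : ι → AbsoluteValue K ℝ} {m : ι → ℕ} {R : Subring K} (hS : IsSD v m R) {k : ℕ}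
    (A : ι → Matrix (Fin (k + 1)) (Fin (k + 1)) K) (hA : ∀ w, (A w).det ≠ 0)
    (c : ι → Fin (k + 1) → ℝ) (hc : ∑ w, (m w : ℝ) * ∑ i, c w i < 0) :
    ∃ c₀ : ℝ, 0 < c₀ ∧ ∃ Q₀ : ℝ, 1 < Q₀ ∧
      ∃ 𝒱 : Set (Submodule K (Fin (k + 1) → K)), 𝒱.Finite ∧
      ∀ Q : ℝ, Q₀ ≤ Q → ∀ x : Fin k → Fin (k + 1) → K, LinearIndependent K x →
        (∀ j, Rv R (x j)) → (∀ j w i, v w ((A w).mulVec (x j) i) ≤ Q ^ c w i) →
        Submodule.span K (Set.range x) ∉ 𝒱 →
        ∀ ℓ : Fin (k + 1) → K, ℓ ≠ 0 → (∀ l, ∑ i, ℓ i * x l i = 0) →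
          c₀ * Real.log Q ≤ Height.logHeight ℓ := by
  classical
  obtain ⟨c₀, hc₀, Q₀, hQ₀, hA'⟩ := lowA hS A hA c hc
  -- independent vectors in the spaces `WI`
  have hpair : ∀ I : ι → Finset (Fin (k + 1)), ∃ g : Fin 2 → Fin (k + 1) → K,
      (∀ e i, g e i ∈ R) ∧ (∀ e, g e ∈ WI A I) ∧
      ((∃ g' : Fin 2 → Fin (k + 1) → K, (∀ e, g' e ∈ WI A I) ∧ LinearIndependent K g') →
        LinearIndependent K g) := by
    intro I
    by_cases h : ∃ g' : Fin 2 → Fin (k + 1) → K, (∀ e, g' e ∈ WI A I) ∧ LinearIndependent K g'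
    · obtain ⟨g', h1, h2⟩ := h
      choose b hbR hb0 hb using fun e => common_den hS (g' e)
      refine ⟨fun e => b e • g' e, fun e i => hb e i, fun e => (WI A I).smul_mem _ (h1 e),
        fun _ => ?_⟩
      have := h2.units_smul (fun e => Units.mk0 (b e) (hb0 e))
      exact this
    · exact ⟨fun _ => 0, fun _ _ => R.zero_mem, fun _ => (WI A I).zero_mem, fun h' => absurd h' h⟩
  choose g hgR hgW hgI using hpair
  -- the constant
  obtain ⟨C, hC1, hC⟩ : ∃ C : ℝ, 1 ≤ C ∧ ∀ I e w,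
      ∑ i, v w (Matrix.vecMul (g I e) (A w)⁻¹ i) ≤ C := by
    refine ⟨1 + ∑ I, ∑ e, ∑ w, ∑ i, v w (Matrix.vecMul (g I e) (A w)⁻¹ i), ?_, ?_⟩
    · have : 0 ≤ ∑ I, ∑ e, ∑ w, ∑ i, v w (Matrix.vecMul (g I e) (A w)⁻¹ i) :=
        Finset.sum_nonneg fun I _ => Finset.sum_nonneg fun e _ => Finset.sum_nonneg fun w _ =>
          Finset.sum_nonneg fun i _ => (v w).nonneg _
      linarith
    · intro I e w
      have h1 : ∑ i, v w (Matrix.vecMul (g I e) (A w)⁻¹ i) ≤
          ∑ w, ∑ i, v w (Matrix.vecMul (g I e) (A w)⁻¹ i) :=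
        Finset.single_le_sum (f := fun w => ∑ i, v w (Matrix.vecMul (g I e) (A w)⁻¹ i))
          (fun w _ => Finset.sum_nonneg fun i _ => (v w).nonneg _) (Finset.mem_univ w)
      have h2 : ∑ w, ∑ i, v w (Matrix.vecMul (g I e) (A w)⁻¹ i) ≤
          ∑ e, ∑ w, ∑ i, v w (Matrix.vecMul (g I e) (A w)⁻¹ i) :=
        Finset.single_le_sum (f := fun e => ∑ w, ∑ i, v w (Matrix.vecMul (g I e) (A w)⁻¹ i))
          (fun e _ => Finset.sum_nonneg fun w _ => Finset.sum_nonneg fun i _ => (v w).nonneg _)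
          (Finset.mem_univ e)
      have h3 : ∑ e, ∑ w, ∑ i, v w (Matrix.vecMul (g I e) (A w)⁻¹ i) ≤
          ∑ I, ∑ e, ∑ w, ∑ i, v w (Matrix.vecMul (g I e) (A w)⁻¹ i) :=
        Finset.single_le_sum
          (f := fun I => ∑ e, ∑ w, ∑ i, v w (Matrix.vecMul (g I e) (A w)⁻¹ i))
          (fun I _ => Finset.sum_nonneg fun e _ => Finset.sum_nonneg fun w _ =>
            Finset.sum_nonneg fun i _ => (v w).nonneg _) (Finset.mem_univ I)
      linarith
  set Λ : ℝ := ∑ w, (m w : ℝ) * ∑ i, c w i with hΛ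
  set M : ℝ := ∑ w, (m w : ℝ) with hM
  set T : ℝ := 2 * M * Real.log C / (-Λ) + 1 with hT
  refine ⟨c₀, hc₀, max Q₀ (Real.exp T), lt_of_lt_of_le hQ₀ (le_max_left _ _),
    Set.range (VI A), Set.finite_range _, ?_⟩
  intro Q hQ x hxl hxR hxb hxV ℓ hℓ0 hℓx
  by_contra hlt
  push Not at hlt
  have hQ1 : Q₀ ≤ Q := (le_max_left _ _).trans hQ
  have hQ2 : Real.exp T ≤ Q := (le_max_right _ _).trans hQ
  have hQ0 : 0 < Q := (Real.exp_pos T).trans_le hQ2
  have hsmall := hA' Q hQ1 x hxl hxR hxb ℓ hℓ0 hℓx hlt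
  obtain ⟨hspan, hprop⟩ := span_eq_of_dual x hxl ℓ hℓ0 hℓx
  let I : ι → Finset (Fin (k + 1)) := fun w =>
    Finset.univ.filter fun i => Matrix.vecMul ℓ (A w)⁻¹ i ≠ 0
  have hIne : ∀ w, (I w).Nonempty := by
    intro w
    by_contra hne
    rw [Finset.not_nonempty_iff_eq_empty] at hne
    apply hℓ0
    have h1 : Matrix.vecMul ℓ (A w)⁻¹ = 0 := by
      funext i
      by_contra hi
      have : i ∈ I w := by simp only [I, Finset.mem_filter]; exact ⟨Finset.mem_univ i, hi⟩
      rw [hne] at this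
      exact absurd this (Finset.notMem_empty i)
    rw [← vecMul_inv_mul (hA w) ℓ, h1, Matrix.zero_vecMul]
  have hmax : ∀ w, ∃ i ∈ I w, ∀ i' ∈ I w, c w i' ≤ c w i := fun w =>
    Finset.exists_max_image (I w) (c w) (hIne w)
  choose i₀ hi₀ himax using hmax
  have hsum := hsmall i₀ fun w => by
    have := hi₀ w
    simp only [I, Finset.mem_filter] at this
    exact this.2
  have hℓW : ℓ ∈ WI A I := by
    intro w i hi
    by_contra h
    exact hi (by simp only [I, Finset.mem_filter]; exact ⟨Finset.mem_univ i, h⟩)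
  by_cases hdim : ∃ g' : Fin 2 → Fin (k + 1) → K, (∀ e, g' e ∈ WI A I) ∧ LinearIndependent K g'
  · -- a fixed vector of `WI` does not vanish on the span
    have hli := hgI I hdim
    obtain ⟨e, he⟩ : ∃ e, ¬ ∀ l, ∑ i, g I e i * x l i = 0 := by
      by_contra hcon
      push Not at hcon
      obtain ⟨a, ha⟩ := hprop (g I 0) (hcon 0)
      obtain ⟨b, hb⟩ := hprop (g I 1) (hcon 1)
      have hz := Fintype.linearIndependent_iff.1 hli ![b, -a] (by
        simp only [Fin.sum_univ_two, Matrix.cons_val_zero, Matrix.cons_val_one]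
        rw [ha, hb, smul_smul, smul_smul, ← add_smul]
        ring_nf
        simp)
      have hb0 : b = 0 := by simpa using hz 0
      have h1 : g I 1 = 0 := by rw [hb, hb0, zero_smul]
      exact hli.ne_zero 1 h1
    push Not at he
    obtain ⟨l, hl⟩ := he
    set y : K := ∑ i, g I e i * x l i with hy
    have hyR : y ∈ R := R.sum_mem fun i _ => R.mul_mem (hgR I e i) ((hxR l).2 i)
    have h1 := hS.prod_ge y hyR hl
    have h2 : ∀ w, v w y ≤ C * Q ^ c w (i₀ w) := by
      intro w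
      have e1 : y = ∑ i, Matrix.vecMul (g I e) (A w)⁻¹ i * (A w).mulVec (x l) i := by
        have : y = dotProduct (g I e) (x l) := rfl
        rw [this]
        change _ = dotProduct (Matrix.vecMul (g I e) (A w)⁻¹) ((A w).mulVec (x l))
        rw [Matrix.dotProduct_mulVec, vecMul_inv_mul (hA w)]
      have e2 : ∀ i, v w (Matrix.vecMul (g I e) (A w)⁻¹ i * (A w).mulVec (x l) i) ≤
          v w (Matrix.vecMul (g I e) (A w)⁻¹ i) * Q ^ c w (i₀ w) := by
        intro i
        rw [map_mul]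
        by_cases hi : i ∈ I w
        · apply mul_le_mul_of_nonneg_left _ ((v w).nonneg _)
          exact (hxb l w i).trans (Real.rpow_le_rpow_of_exponent_le
            (hQ₀.le.trans hQ1) (himax w i hi))
        · rw [hgW I e w i hi]
          simp
      calc v w y ≤ ∑ i, v w (Matrix.vecMul (g I e) (A w)⁻¹ i * (A w).mulVec (x l) i) := by
            rw [e1]; exact (v w).sum_le _ _
        _ ≤ ∑ i, v w (Matrix.vecMul (g I e) (A w)⁻¹ i) * Q ^ c w (i₀ w) :=
            Finset.sum_le_sum fun i _ => e2 i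
        _ = (∑ i, v w (Matrix.vecMul (g I e) (A w)⁻¹ i)) * Q ^ c w (i₀ w) := by
            rw [Finset.sum_mul]
        _ ≤ C * Q ^ c w (i₀ w) :=
            mul_le_mul_of_nonneg_right (hC I e w) (Real.rpow_nonneg hQ0.le _)
    have h3 : ∏ w, v w y ^ m w ≤ Real.exp (M * Real.log C + Real.log Q * (Λ / 2)) := by
      calc ∏ w, v w y ^ m w ≤ ∏ w, (C * Q ^ c w (i₀ w)) ^ m w :=
            Finset.prod_le_prod (fun w _ => pow_nonneg ((v w).nonneg _) _)
              (fun w _ => pow_le_pow_left₀ ((v w).nonneg _) (h2 w) _)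
        _ = ∏ w, Real.exp (m w * (Real.log C + Real.log Q * c w (i₀ w))) := by
            refine Finset.prod_congr rfl fun w _ => ?_
            rw [Real.exp_nat_mul, Real.exp_add, Real.exp_log (by linarith),
              Real.rpow_def_of_pos hQ0]
        _ = Real.exp (∑ w, (m w * (Real.log C + Real.log Q * c w (i₀ w)))) :=
            (Real.exp_sum _ _).symm
        _ ≤ _ := by
            apply Real.exp_le_exp.2
            have : ∑ w, ((m w : ℝ) * (Real.log C + Real.log Q * c w (i₀ w))) =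
                M * Real.log C + Real.log Q * ∑ w, (m w : ℝ) * c w (i₀ w) := by
              rw [hM, Finset.sum_mul, Finset.mul_sum, ← Finset.sum_add_distrib]
              exact Finset.sum_congr rfl fun w _ => by ring
            rw [this]
            have hlog : 0 ≤ Real.log Q := Real.log_nonneg (hQ₀.le.trans hQ1)
            nlinarith [mul_le_mul_of_nonneg_left hsum hlog]
    have h4 : M * Real.log C + Real.log Q * (Λ / 2) < 0 := by
      have hlog : T ≤ Real.log Q := (Real.le_log_iff_exp_le hQ0).2 hQ2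
      have hΛ0 : 0 < -Λ := by linarith
      have h5 : 2 * M * Real.log C < -Λ * T := by
        rw [hT, mul_add, mul_div_cancel₀ _ hΛ0.ne']
        linarith
      nlinarith [mul_le_mul_of_nonneg_left hlog hΛ0.le]
    have h5 : ∏ w, v w y ^ m w < 1 := lt_of_le_of_lt h3 (by rw [Real.exp_lt_one_iff]; exact h4)
    linarith
  · -- `WI` is one dimensional
    apply hxV
    refine ⟨I, ?_⟩
    ext y
    rw [hspan y]
    constructor
    · intro hy; exact hy ℓ hℓW
    · intro hy ℓ' hℓ'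
      have : ∃ a : K, ℓ' = a • ℓ := by
        by_contra hno
        apply hdim
        refine ⟨![ℓ, ℓ'], ?_, ?_⟩
        · intro e; fin_cases e
          · exact hℓW
          · exact hℓ'
        · rw [LinearIndependent.pair_iff' hℓ0]
          intro a ha
          exact hno ⟨a, ha.symm⟩
      obtain ⟨a, rfl⟩ := this
      have : ∑ i, (a • ℓ) i * y i = a * ∑ i, ℓ i * y i := by
        rw [Finset.mul_sum]
        exact Finset.sum_congr rfl fun i _ => by simp [mul_assoc]
      rw [this, hy, mul_zero]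

end Pool.Agent.Work.SUB
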