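import Mathlib

/-!
# LGNum: choice of the parameters (block E, Mathlib only, real numbers)

PROOFS.
* `exists_seq`: induction on `N`. `N = 0` trivial. Given `t : Fin N → ℝ` choose `t' ≥ T₀` and
  `t' ≥ r * t i` for all `i` (a finite maximum, e.g. `t' ≥ |T₀| + ∑ i, |r * t i|`) with `P t'`, and
  take `Fin.snoc t t'` (`Fin.lastCases`, `Fin.snoc_castSucc`, `Fin.snoc_last`).
* `exists_deg`: let `S = ∑ h, t h ≥ t h` for each `h`, `D = (S + 1) * (1 + 1 / η + 2 / σ)`,
  `d h = ⌈D / t h⌉₊`. `D / t h ≤ d h ≤ D / t h + 1` (`Nat.le_ceil`, `Nat.ceil_lt_add_one`),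
  `D > 0`, so `1 ≤ d h`, `D ≤ d h * t h ≤ D + t h ≤ D + η D`. For `i < j`:
  `d j ≤ D / t j + 1 ≤ σ D / (2 t i) + 1` and `1 ≤ σ D / (2 t i)` because `D ≥ 2 t i / σ`; so
  `d j ≤ σ D / t i ≤ σ * d i`. Finally `d h ≤ D / t h + 1 ≤ 2 D / t h ≤ 2 D / T₀` because
  `t h ≤ D` and `T₀ ≤ t h`.
-/

set_option autoImplicit false

noncomputable section

namespace Pool.Agent.Work.SUB

theorem exists_seq (P : ℝ → Prop) (hP : ∀ T : ℝ, ∃ t, T ≤ t ∧ P t) (N : ℕ) (T₀ r : ℝ) :
    ∃ t : Fin N → ℝ, (∀ h, P (t h)) ∧ (∀ h, T₀ ≤ t h) ∧ ∀ i j : Fin N, i < j → r * t i ≤ t j := by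
  induction N with
  | zero => exact ⟨fun i => i.elim0, fun i => i.elim0, fun i => i.elim0, fun i => i.elim0⟩
  | succ N ih =>
    obtain ⟨t, h1, h2, h3⟩ := ih
    obtain ⟨t', ht', hPt⟩ := hP (|T₀| + ∑ i, |r * t i|)
    have hs : 0 ≤ ∑ i, |r * t i| := Finset.sum_nonneg fun i _ => abs_nonneg _
    refine ⟨Fin.snoc t t', ?_, ?_, ?_⟩
    · intro h
      refine Fin.lastCases ?_ (fun i => ?_) h
      · simpa using hPt
      · simpa using h1 i
    · intro h
      refine Fin.lastCases ?_ (fun i => ?_) h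
      · have := le_abs_self T₀
        simp only [Fin.snoc_last]
        linarith
      · simpa using h2 i
    · intro i j hij
      revert hij
      refine Fin.lastCases ?_ (fun j => ?_) j
      · refine Fin.lastCases ?_ (fun i => ?_) i
        · intro hij
          exact absurd hij (lt_irrefl _)
        · intro _
          simp only [Fin.snoc_last, Fin.snoc_castSucc]
          have h4 : |r * t i| ≤ ∑ i, |r * t i| :=
            Finset.single_le_sum (f := fun i => |r * t i|) (fun i _ => abs_nonneg _)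
              (Finset.mem_univ i)
          have := le_abs_self (r * t i)
          have := abs_nonneg T₀
          linarith
      · refine Fin.lastCases ?_ (fun i => ?_) i
        · intro hij
          exact absurd hij (not_lt.2 (Fin.le_last _))
        · intro hij
          simp only [Fin.snoc_castSucc]
          exact h3 i j (Fin.castSucc_lt_castSucc_iff.1 hij)

theorem exists_deg {N : ℕ} (t : Fin N → ℝ) {T₀ : ℝ} (hT : 0 < T₀) (ht : ∀ h, T₀ ≤ t h) {σ : ℝ}
    (hσ : 0 < σ) (hr : ∀ i j : Fin N, i < j → 2 / σ * t i ≤ t j) {η : ℝ} (hη : 0 < η) :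
    ∃ D : ℝ, 0 < D ∧ ∃ d : Fin N → ℕ, (∀ h, 1 ≤ d h) ∧ (∀ h, D ≤ d h * t h) ∧
      (∀ h, d h * t h ≤ (1 + η) * D) ∧ (∀ i j : Fin N, i < j → (d j : ℝ) ≤ σ * d i) ∧
      ∀ h, (d h : ℝ) ≤ 2 * D / T₀ := by
  have htp : ∀ h, 0 < t h := fun h => hT.trans_le (ht h)
  set S : ℝ := ∑ h, t h with hS
  have hS0 : 0 ≤ S := Finset.sum_nonneg fun h _ => (htp h).le
  have htS : ∀ h, t h ≤ S := fun h =>
    Finset.single_le_sum (f := t) (fun i _ => (htp i).le) (Finset.mem_univ h)
  set D : ℝ := (S + 1) * (1 + 1 / η + 2 / σ) with hD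
  have h1η : 0 < 1 / η := by positivity
  have h2σ : 0 < 2 / σ := by positivity
  have hD1 : S + 1 ≤ D := by
    have : 0 ≤ (S + 1) * (1 / η + 2 / σ) := by positivity
    rw [hD]; linarith
  have hDη : (S + 1) * (1 / η) ≤ D := by
    have : 0 ≤ (S + 1) * (1 + 2 / σ) := by positivity
    rw [hD]; linarith
  have hDσ : (S + 1) * (2 / σ) ≤ D := by
    have : 0 ≤ (S + 1) * (1 + 1 / η) := by positivity
    rw [hD]; linarith
  have hD0 : 0 < D := by linarith
  have htD : ∀ h, t h ≤ D := fun h => by linarith [htS h]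
  have htη : ∀ h, t h ≤ η * D := fun h => by
    have h1 : t h * (1 / η) ≤ D := by
      have : t h * (1 / η) ≤ (S + 1) * (1 / η) :=
        mul_le_mul_of_nonneg_right (by linarith [htS h]) h1η.le
      linarith
    calc t h = η * (t h * (1 / η)) := by field_simp
      _ ≤ η * D := mul_le_mul_of_nonneg_left h1 hη.le
  have htσ : ∀ h, t h * (2 / σ) ≤ D := fun h => by
    have : t h * (2 / σ) ≤ (S + 1) * (2 / σ) :=
      mul_le_mul_of_nonneg_right (by linarith [htS h]) h2σ.le
    linarith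
  have hc1 : ∀ h, D / t h ≤ (⌈D / t h⌉₊ : ℝ) := fun h => Nat.le_ceil _
  have hc2 : ∀ h, (⌈D / t h⌉₊ : ℝ) ≤ D / t h + 1 := fun h =>
    (Nat.ceil_lt_add_one (div_nonneg hD0.le (htp h).le)).le
  refine ⟨D, hD0, fun h => ⌈D / t h⌉₊, ?_, ?_, ?_, ?_, ?_⟩
  · intro h
    exact Nat.ceil_pos.2 (div_pos hD0 (htp h))
  · intro h
    have := mul_le_mul_of_nonneg_right (hc1 h) (htp h).le
    rwa [div_mul_cancel₀ _ (htp h).ne'] at this
  · intro h
    have := mul_le_mul_of_nonneg_right (hc2 h) (htp h).le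
    rw [add_mul, div_mul_cancel₀ _ (htp h).ne'] at this
    linarith [htη h]
  · intro i j hij
    have h1 : D / t j ≤ σ * D / (2 * t i) := by
      rw [div_le_div_iff₀ (htp j) (by linarith [htp i])]
      have h2 := hr i j hij
      have h3 : 2 * t i ≤ σ * t j := by
        have := mul_le_mul_of_nonneg_left h2 hσ.le
        calc 2 * t i = σ * (2 / σ * t i) := by field_simp
          _ ≤ σ * t j := this
      calc D * (2 * t i) ≤ D * (σ * t j) := mul_le_mul_of_nonneg_left h3 hD0.le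
        _ = σ * D * t j := by ring
    have h2 : 1 ≤ σ * D / (2 * t i) := by
      rw [le_div_iff₀ (by linarith [htp i]), one_mul]
      have := mul_le_mul_of_nonneg_left (htσ i) hσ.le
      calc 2 * t i = σ * (t i * (2 / σ)) := by field_simp
        _ ≤ σ * D := this
    have h3 : σ * D / (2 * t i) + σ * D / (2 * t i) = σ * (D / t i) := by
      have := (htp i).ne'
      field_simp
      ring
    have h4 : σ * (D / t i) ≤ σ * (⌈D / t i⌉₊ : ℝ) :=
      mul_le_mul_of_nonneg_left (hc1 i) hσ.le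
    have h5 := hc2 j
    linarith
  · intro h
    have h1 : 1 ≤ D / t h := by
      rw [le_div_iff₀ (htp h), one_mul]; exact htD h
    have h2 : D / t h ≤ D / T₀ := div_le_div_of_nonneg_left hD0.le hT (ht h)
    have h3 := hc2 h
    calc (⌈D / t h⌉₊ : ℝ) ≤ D / t h + 1 := h3
      _ ≤ D / T₀ + D / T₀ := by linarith
      _ = 2 * D / T₀ := by ring

end Pool.Agent.Work.SUB
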