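import Pool.Agent.Work.SUB.LGDefs

/-!
# LGPts: from vanishing coefficients to vanishing on the product of hyperplanes (block E, algebra)

`x h` is a basis of the hyperplane `ker (ℓ h)`, `Y h 0 = e_{α h}`, `Y h l.succ = x h l`. If the
coefficients of `s` in `ev d p (lin Y)` vanish for `∑ h, s (h, 0) / d h < θ`, then for every point
`z` of the product of the hyperplanes the coefficients `κ`, `∑ κ h / d h < θ`, of the polynomial
`ev d p (z + τ e_α)` in the variables `τ_h = X h` vanish.

PROOF. (1) `z h ∈ span (x h)`: the kernel of the nonzero functional `y ↦ ∑ i, ℓ h i * y i` has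
dimension `k` (rank-nullity, `LinearMap.finrank_range_add_finrank_ker`, range = `K`), it contains the
`k`-dimensional span of `x h` (`finrank_span_eq_card`), so they are equal
(`Submodule.eq_of_le_of_finrank_eq`). Choose `u h l` with `z h = ∑ l, u h l • x h l`
(`Submodule.mem_span_range_iff_exists_fun`).
(2) Let `φ = aeval (fun a => Fin.cases (X a.1) (fun l => C (u a.1 l)) a.2) :
MvPolynomial (Fin N × Fin (k+1)) K →ₐ[K] MvPolynomial (Fin N) K`. By `map_ev` and
`Fin.sum_univ_succ`, `φ (ev d p (lin Y)) = ev d p (fun h i => C (z h i) + if i = α h then X h else 0)`.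
(3) `φ G = ∑_{s ∈ G.support} φ (monomial s (G.coeff s))` and
`φ (monomial s a) = C (a * ∏ u^..) * ∏_h X h ^ s (h, 0)` has coefficient `0` at `κ` unless
`s (h, 0) = κ h` for all `h`, and then `G.coeff s = 0` by hypothesis.
-/

set_option autoImplicit false

noncomputable section

namespace Pool.Agent.Work.SUB

open Finset MvPolynomial

private theorem lgp_span {K : Type} [Field K] {k : ℕ} (ℓ : Fin (k + 1) → K) (α : Fin (k + 1))
    (hα : ℓ α ≠ 0) (x : Fin k → Fin (k + 1) → K) (hx : LinearIndependent K x)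
    (hℓ : ∀ l, ∑ i, ℓ i * x l i = 0) (z : Fin (k + 1) → K) (hz : ∑ i, ℓ i * z i = 0) :
    ∃ u : Fin k → K, ∑ l, u l • x l = z := by
  let f : (Fin (k + 1) → K) →ₗ[K] K := ∑ i, ℓ i • LinearMap.proj i
  have hf : ∀ y, f y = ∑ i, ℓ i * y i := fun y => by simp [f]
  have hsurj : LinearMap.range f = ⊤ := by
    rw [LinearMap.range_eq_top]
    intro c
    refine ⟨Pi.single α (c / ℓ α), ?_⟩
    rw [hf, Finset.sum_eq_single α]
    · rw [Pi.single_eq_same]
      field_simp
    · intro i _ hi
      rw [Pi.single_eq_of_ne hi, mul_zero]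
    · intro h
      exact absurd (Finset.mem_univ _) h
  have hk : Module.finrank K (LinearMap.ker f) = k := by
    have h1 := LinearMap.finrank_range_add_finrank_ker f
    rw [hsurj, finrank_top] at h1
    simp at h1
    omega
  have hle : Submodule.span K (Set.range x) ≤ LinearMap.ker f := by
    rw [Submodule.span_le]
    rintro _ ⟨l, rfl⟩
    simp only [SetLike.mem_coe, LinearMap.mem_ker]
    rw [hf]
    exact hℓ l
  have heq : Submodule.span K (Set.range x) = LinearMap.ker f := by
    apply Submodule.eq_of_le_of_finrank_eq hle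
    rw [finrank_span_eq_card hx, hk, Fintype.card_fin]
  have hzm : z ∈ Submodule.span K (Set.range x) := by
    rw [heq, LinearMap.mem_ker, hf]
    exact hz
  exact (Submodule.mem_span_range_iff_exists_fun K).1 hzm

private theorem lgp_coeff {K : Type} [Field K] {N k : ℕ} (u : Fin N → Fin k → K)
    (s : (Fin N × Fin (k + 1)) →₀ ℕ) (a : K) (κ : Fin N →₀ ℕ) (hne : ¬ ∀ h, s (h, 0) = κ h) :
    (aeval (fun b : Fin N × Fin (k + 1) =>
      (Fin.cases (X b.1) (fun l => C (u b.1 l)) b.2 : MvPolynomial (Fin N) K))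
      (monomial s a)).coeff κ = 0 := by
  rw [aeval_monomial, Finsupp.prod_fintype _ _ (fun _ => pow_zero _), Fintype.prod_prod_type]
  have h1 : (∏ h : Fin N, ∏ i : Fin (k + 1),
      ((Fin.cases (X h) (fun l => C (u h l)) i : MvPolynomial (Fin N) K)) ^ s (h, i)) =
      C (∏ h, ∏ l, u h l ^ s (h, l.succ)) *
        monomial (Finsupp.equivFunOnFinite.symm fun h => s (h, 0)) 1 := by
    have h2 : (monomial (Finsupp.equivFunOnFinite.symm fun h => s (h, 0)) (1 : K) :
        MvPolynomial (Fin N) K) = ∏ h, X h ^ s (h, 0) := by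
      rw [monomial_eq, Finsupp.prod_fintype _ _ (fun _ => pow_zero _)]
      simp
    rw [h2, map_prod, ← Finset.prod_mul_distrib]
    refine Finset.prod_congr rfl fun h _ => ?_
    rw [Fin.prod_univ_succ]
    simp only [Fin.cases_zero, Fin.cases_succ, map_prod, map_pow]
    ring
  rw [h1, ← mul_assoc, algebraMap_eq, ← map_mul, coeff_C_mul, coeff_monomial, if_neg, mul_zero]
  intro h
  apply hne
  intro h'
  have := DFunLike.congr_fun h h'
  simpa using this

theorem pts_vanish {K : Type} [Field K] {N k : ℕ} (d : Fin N → ℕ)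
    (p : (Fin N → Fin (k + 1) → ℕ) → K) (ℓ : Fin N → Fin (k + 1) → K) (α : Fin N → Fin (k + 1))
    (hα : ∀ h, ℓ h (α h) ≠ 0) (x : Fin N → Fin k → Fin (k + 1) → K)
    (hx : ∀ h, LinearIndependent K (x h)) (hℓ : ∀ h l, ∑ i, ℓ h i * x h l i = 0) (θ : ℝ)
    (Y : Fin N → Fin (k + 1) → Fin (k + 1) → K) (hY0 : ∀ h, Y h 0 = Pi.single (α h) 1)
    (hYs : ∀ (h : Fin N) (l : Fin k), Y h l.succ = x h l)
    (hG : ∀ s : (Fin N × Fin (k + 1)) →₀ ℕ, ∑ h, (s (h, 0) : ℝ) / d h < θ →
      (ev d p (lin Y)).coeff s = 0)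
    (z : Fin N → Fin (k + 1) → K) (hz : ∀ h, ∑ i, ℓ h i * z h i = 0) (κ : Fin N →₀ ℕ)
    (hκ : ∑ h, (κ h : ℝ) / d h < θ) :
    (ev d p (fun h i => (C (z h i) + if i = α h then X h else 0 :
      MvPolynomial (Fin N) K))).coeff κ = 0 := by
  choose u hu using fun h => lgp_span (ℓ h) (α h) (hα h) (x h) (hx h) (hℓ h) (z h) (hz h)
  let φ : MvPolynomial (Fin N × Fin (k + 1)) K →ₐ[K] MvPolynomial (Fin N) K :=
    aeval (fun b : Fin N × Fin (k + 1) =>
      (Fin.cases (X b.1) (fun l => C (u b.1 l)) b.2 : MvPolynomial (Fin N) K))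
  have hφ : φ (ev d p (lin Y)) = ev d p (fun h i => (C (z h i) + if i = α h then X h else 0 :
      MvPolynomial (Fin N) K)) := by
    rw [map_ev]
    congr 1
    funext h i
    simp only [lin, map_sum, map_mul, φ, algHom_C, aeval_X]
    rw [Fin.sum_univ_succ]
    simp only [Fin.cases_zero, Fin.cases_succ, hY0, hYs, algebraMap_eq]
    have hzi : z h i = ∑ l, u h l * x h l i := by
      conv_lhs => rw [← hu h]
      simp
    rw [hzi, map_sum, add_comm]
    congr 1
    · exact Finset.sum_congr rfl fun l _ => by rw [map_mul, mul_comm]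
    · by_cases hi : i = α h
      · subst hi
        simp
      · rw [if_neg hi, Pi.single_eq_of_ne hi]
        simp
  rw [← hφ]
  set G := ev d p (lin Y) with hGdef
  rw [G.as_sum, map_sum, coeff_sum]
  refine Finset.sum_eq_zero fun s hs => ?_
  by_cases hsκ : ∀ h, s (h, 0) = κ h
  · have : G.coeff s = 0 := hG s (by simpa only [hsκ] using hκ)
    rw [this, map_zero, map_zero, coeff_zero]
  · exact lgp_coeff u s _ κ hsκ

end Pool.Agent.Work.SUB
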