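import Pool.Agent.Work.SUB.LGDefs

/-!
# LGRatio: a ratio of coordinates of large height (block E, Mathlib heights only)

PROOF. Choose `α` with `ℓ α ≠ 0`, and `β ≠ α` maximizing `logHeight₁ (ℓ i / ℓ α)` over `i ≠ α`
(nonempty because `k ≥ 1`). Put `y i = ℓ i / ℓ α`. `mulHeight ℓ = mulHeight y`
(`Height.mulHeight_smul_eq_mulHeight`). Consider the Segre product
(`Height.mulHeight_fun_prod_eq` with the index type `{i // i ≠ α}` and the pairs `![y i, 1]`):
`mulHeight (fun I : {i // i ≠ α} → Fin 2 => ∏ i, ![y i, 1] (I i)) = ∏_{i ≠ α} mulHeight ![y i, 1]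
= ∏_{i ≠ α} mulHeight₁ (y i)` (`Height.mulHeight₁_eq_mulHeight`). The tuple `y` is obtained from the
Segre tuple by a map of the indices (`i ↦` the function which is `0` at `i` and `1` elsewhere; for
`i = α` constantly `1`), so `Height.mulHeight_comp_le` gives
`mulHeight y ≤ ∏_{i ≠ α} mulHeight₁ (y i)`; take logarithms:
`logHeight ℓ ≤ ∑_{i ≠ α} logHeight₁ (y i) ≤ k * logHeight₁ (y β)`, and
`logHeight₁ (- y) = logHeight₁ y` (`Height.logHeight₁_neg`), `-(ℓ β) / ℓ α = - y β`.
-/

set_option autoImplicit false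

noncomputable section

namespace Pool.Agent.Work.SUB

theorem exists_ratio {K : Type} [Field K] [Height.AdmissibleAbsValues K] {k : ℕ} (hk : 1 ≤ k)
    (ℓ : Fin (k + 1) → K) (hℓ : ℓ ≠ 0) :
    ∃ α β : Fin (k + 1), α ≠ β ∧ ℓ α ≠ 0 ∧
      Height.logHeight ℓ ≤ k * Height.logHeight₁ (-(ℓ β) / ℓ α) := by
  classical
  obtain ⟨α, hα⟩ : ∃ α, ℓ α ≠ 0 := Function.ne_iff.mp hℓ
  obtain ⟨y, hy⟩ : ∃ y : Fin (k + 1) → K, y = fun i => ℓ i / ℓ α := ⟨_, rfl⟩
  have hne : (Finset.univ.erase α).Nonempty := by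
    rw [← Finset.card_pos, Finset.card_erase_of_mem (Finset.mem_univ _), Finset.card_univ,
      Fintype.card_fin]
    omega
  obtain ⟨β, hβ, hmax⟩ := Finset.exists_max_image (Finset.univ.erase α)
    (fun i => Height.logHeight₁ (y i)) hne
  refine ⟨α, β, (Finset.ne_of_mem_erase hβ).symm, hα, ?_⟩
  have h1 : Height.logHeight ℓ = Height.logHeight y := by
    have : y = (ℓ α)⁻¹ • ℓ := by
      funext i
      simp [hy, div_eq_inv_mul]
    rw [this, Height.logHeight_smul_eq_logHeight _ (inv_ne_zero hα)]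
  have h2 : Height.logHeight y ≤ ∑ i : {i // i ≠ α}, Height.logHeight₁ (y i) := by
    have hx : ∀ a : {i // i ≠ α}, (![y a, 1] : Fin 2 → K) ≠ 0 := by
      intro a h
      have := congrFun h 1
      simp at this
    have e := Height.logHeight_fun_prod_eq
      (x := fun a : {i // i ≠ α} => (![y a, 1] : Fin 2 → K)) hx
    have e2 : y = (fun I : {i // i ≠ α} → Fin 2 => ∏ a : {i // i ≠ α}, (![y a, 1] : Fin 2 → K) (I a)) ∘
        (fun (i : Fin (k + 1)) (a : {i // i ≠ α}) => if i = a then (0 : Fin 2) else 1) := by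
      funext i
      simp only [Function.comp_apply]
      by_cases hi : i = α
      · have h3 : ∀ a : {i // i ≠ α},
            (![y a, 1] : Fin 2 → K) (if i = (a : Fin (k + 1)) then (0 : Fin 2) else 1) = 1 := by
          intro a
          have : i ≠ (a : Fin (k + 1)) := fun h => a.2 (h.symm.trans hi)
          simp [this]
        rw [Finset.prod_congr rfl fun a _ => h3 a, Finset.prod_const_one, hi, hy]
        exact div_self hα
      · rw [Finset.prod_eq_single (⟨i, hi⟩ : {i // i ≠ α})]
        · simp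
        · intro b _ hb
          have : i ≠ (b : Fin (k + 1)) := fun h => hb (Subtype.ext h.symm)
          simp [this]
        · intro h
          exact absurd (Finset.mem_univ _) h
    calc Height.logHeight y = Height.logHeight
          ((fun I : {i // i ≠ α} → Fin 2 => ∏ a : {i // i ≠ α}, (![y a, 1] : Fin 2 → K) (I a)) ∘
        (fun (i : Fin (k + 1)) (a : {i // i ≠ α}) => if i = a then (0 : Fin 2) else 1)) := by
          rw [← e2]
      _ ≤ Height.logHeight
          (fun I : {i // i ≠ α} → Fin 2 => ∏ a : {i // i ≠ α}, (![y a, 1] : Fin 2 → K) (I a)) :=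
          Height.logHeight_comp_le _ _
      _ = ∑ i : {i // i ≠ α}, Height.logHeight (![y i, 1] : Fin 2 → K) := e
      _ = _ := Finset.sum_congr rfl fun i _ => (Height.logHeight₁_eq_logHeight _).symm
  have h3 : ∑ i : {i // i ≠ α}, Height.logHeight₁ (y i) ≤ k * Height.logHeight₁ (y β) := by
    have h4 : ∀ i ∈ (Finset.univ : Finset {i // i ≠ α}),
        Height.logHeight₁ (y i) ≤ Height.logHeight₁ (y β) := fun i _ =>
      hmax i (Finset.mem_erase.2 ⟨i.2, Finset.mem_univ _⟩)
    have h5 := Finset.sum_le_card_nsmul _ _ _ h4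
    have h6 : (Finset.univ : Finset {i // i ≠ α}).card = k := by
      rw [Finset.card_univ, Fintype.card_subtype_compl]
      simp
    rw [h6, nsmul_eq_mul] at h5
    exact h5
  have h7 : Height.logHeight₁ (-(ℓ β) / ℓ α) = Height.logHeight₁ (y β) := by
    rw [neg_div, Height.logHeight₁_neg, hy]
  rw [h1, h7]
  exact h2.trans h3

end Pool.Agent.Work.SUB
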