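import Pool.Agent.Work.SUB.LGDefs

/-!
# LGTwo: reduction to one variable per block (block E, algebra)

PROOF. Let `n = k + 1`, `ξ h = - ℓ h (β h) / ℓ h (α h)`, call the indices `i ≠ α h, β h` of the
block `h` the rest, `rest j : Fin N → Fin n → ℕ` = `j` with the entries at `α h, β h` replaced by
`0`, `|j| = ∑_h ∑_i rest j h i`. Choose `j₀ ∈ MI d` with `p j₀ ≠ 0` and `|j₀|` minimal
(`Finset.exists_min_image` on the filtered finset). Define
`F = ∑_{j ∈ MI d, rest j = rest j₀} monomial (fun h => j h (α h)) (p j)`.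
* For `j ∈ MI d` with `rest j = rest j₀` the exponent `j h (β h) = d h - ∑ rest - j h (α h)` is
  determined by `j h (α h)`; so `j ↦ (j h (α h))_h` is injective on the index set of `F`: every
  nonzero coefficient of `F` is some `p j`, the coefficient at `(j₀ h (α h))` is `p j₀ ≠ 0`, and
  `degreeOf h F ≤ d h` because `j h (α h) ≤ d h`.
* Index. Let `Rz = MvPolynomial (Fin N × Fin n) K` (variables `z_{h,i}`), and over `Rz` the point
  `x̃ h i = X (h, i)` for `i` rest, `x̃ h (β h) = 1`, `x̃ h (α h) = C (ξ h) + η h`,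
  `η h = - ∑_{i rest} C (ℓ h i / ℓ h (α h)) * X (h, i)`. For `κ` with `∑ κ h / d h < θ` let
  `Θ ∈ Rz` be the coefficient of `κ` in
  `G̃ = ∑_{j ∈ MI d} C (C (p j)) * ∏_h ∏_i (C (x̃ h i) + if i = α h then X h else 0) ^ j h i`
  in `MvPolynomial (Fin N) Rz`. For every `z ∈ K^(Fin N × Fin n)`, `eval z Θ` is the coefficient of
  `κ` in `ev d p (..)` at the point `z' = eval z x̃`, which satisfies `∑ i, ℓ h i * z' h i = 0`; so it
  is zero by hypothesis, and `Θ = 0` (`MvPolynomial.funext`, `K` infinite).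
* Take the coefficient of `Θ` at the exponent `r₀ = fin (rest j₀)`. The term `j` of `G̃` equals
  `(∏_{h, i rest} X (h, i) ^ j h i) * ∏_h (C (x̃ h (α h)) + X h) ^ j h (α h)`, i.e. the monomial
  `fin (rest j)` of `Rz` times `g_j`, so its contribution to the coefficient at `r₀` is `0` unless
  `rest j ≤ rest j₀` (`coeff_monomial_mul'`); by minimality of `|j₀|` (for `p j ≠ 0`) this forces
  `rest j = rest j₀`, and then it is `p j` times the constant term (`z = 0`, `η ↦ 0`) of the
  coefficient `κ` of `∏_h (C (C (ξ h) + η h) + X h) ^ j h (α h)`, i.e. the coefficient `κ` of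
  `∏_h (C (ξ h) + X h) ^ j h (α h)`. The sum over these `j` is the coefficient `κ` of
  `shiftP ξ F`. So it vanishes: `IdxGe d ξ F θ`.
(One may also avoid `MvPolynomial (Fin N) Rz`: fix `κ` and work with the `K`-polynomial
`Θ z = ∑_j p j * z^{rest j} * ∏_h (choose (j h (α h)) (κ h)) * (ξ h + η h (z)) ^ (j h (α h) - κ h)`,
using that the coefficient `κ` of `∏_h (C a_h + X h) ^ e_h` is
`∏_h choose (e_h) (κ h) * a_h ^ (e_h - κ h)`.)
-/

set_option autoImplicit false

noncomputable section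

namespace Pool.Agent.Work.SUB

open Finset MvPolynomial

/-- The exponents of the variables other than `α h`, `β h`. -/
private def lgtRest {N n : ℕ} (α β : Fin N → Fin n) (j : Fin N → Fin n → ℕ) :
    Fin N → Fin n → ℕ :=
  fun h i => if i = α h ∨ i = β h then 0 else j h i

/-- The exponents of the variables `α h`. -/
private def lgtExp {N n : ℕ} (α : Fin N → Fin n) (j : Fin N → Fin n → ℕ) : Fin N →₀ ℕ :=
  Finsupp.equivFunOnFinite.symm fun h => j h (α h)

private theorem lgtExp_apply {N n : ℕ} (α : Fin N → Fin n) (j : Fin N → Fin n → ℕ) (h : Fin N) :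
    lgtExp α j h = j h (α h) := rfl

private theorem lgt_inj {N n : ℕ} (d : Fin N → ℕ) (α β : Fin N → Fin n)
    (j j' : Fin N → Fin n → ℕ) (hj : j ∈ MI d) (hj' : j' ∈ MI d)
    (hr : lgtRest α β j = lgtRest α β j') (he : lgtExp α j = lgtExp α j') : j = j' := by
  have h1 : ∀ h i, i ≠ β h → j h i = j' h i := by
    intro h i hi
    by_cases hia : i = α h
    · subst hia
      exact DFunLike.congr_fun he h
    · have := congr_fun (congr_fun hr h) i
      simpa [lgtRest, hia, hi] using this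
  funext h i
  by_cases hi : i = β h
  · subst hi
    have e1 := mem_MI.1 hj h
    have e2 := mem_MI.1 hj' h
    rw [← Finset.add_sum_erase _ _ (Finset.mem_univ (β h))] at e1 e2
    have e3 : ∑ x ∈ Finset.univ.erase (β h), j h x = ∑ x ∈ Finset.univ.erase (β h), j' h x :=
      Finset.sum_congr rfl fun x hx => h1 h x (Finset.ne_of_mem_erase hx)
    omega
  · exact h1 h i hi

/-- The polynomial in the variables `α h`. -/
private def lgtF {K : Type} [Field K] {N n : ℕ} (d : Fin N → ℕ)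
    (p : (Fin N → Fin n → ℕ) → K) (α β : Fin N → Fin n) (j₀ : Fin N → Fin n → ℕ) :
    MvPolynomial (Fin N) K :=
  ∑ j ∈ (MI d).filter (fun j => lgtRest α β j = lgtRest α β j₀), monomial (lgtExp α j) (p j)

private theorem lgtF_coeff {K : Type} [Field K] {N n : ℕ} (d : Fin N → ℕ)
    (p : (Fin N → Fin n → ℕ) → K) (α β : Fin N → Fin n) (j₀ j : Fin N → Fin n → ℕ)
    (hj : j ∈ MI d) (hr : lgtRest α β j = lgtRest α β j₀) :
    (lgtF d p α β j₀).coeff (lgtExp α j) = p j := by
  rw [lgtF, coeff_sum, Finset.sum_eq_single j]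
  · rw [coeff_monomial, if_pos rfl]
  · intro j' hj' hne
    rw [coeff_monomial, if_neg]
    intro he
    obtain ⟨h1, h2⟩ := Finset.mem_filter.1 hj'
    exact hne (lgt_inj d α β j' j h1 hj (h2.trans hr.symm) he)
  · intro hn
    exact absurd (Finset.mem_filter.2 ⟨hj, hr⟩) hn

private theorem lgtF_support {K : Type} [Field K] {N n : ℕ} (d : Fin N → ℕ)
    (p : (Fin N → Fin n → ℕ) → K) (α β : Fin N → Fin n) (j₀ : Fin N → Fin n → ℕ)
    (s : Fin N →₀ ℕ) (hs : s ∈ (lgtF d p α β j₀).support) :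
    ∃ j ∈ MI d, lgtRest α β j = lgtRest α β j₀ ∧ lgtExp α j = s := by
  rw [mem_support_iff, lgtF, coeff_sum] at hs
  obtain ⟨j, hj, hne⟩ := Finset.exists_ne_zero_of_sum_ne_zero hs
  obtain ⟨h1, h2⟩ := Finset.mem_filter.1 hj
  refine ⟨j, h1, h2, ?_⟩
  by_contra hc
  rw [coeff_monomial, if_neg hc] at hne
  exact hne rfl

/-- The linear form `- ∑_{i rest} (ℓ h i / ℓ h (α h)) X (h, i)`. -/
private def lgtEta {K : Type} [Field K] {N n : ℕ} (ℓ : Fin N → Fin n → K) (α β : Fin N → Fin n)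
    (h : Fin N) : MvPolynomial (Fin N × Fin n) K :=
  -∑ i, if i = α h ∨ i = β h then 0 else C (ℓ h i / ℓ h (α h)) * X (h, i)

/-- The generic point of the product of hyperplanes with `β`-coordinates `1`. -/
private def lgtPt {K : Type} [Field K] {N n : ℕ} (ℓ : Fin N → Fin n → K) (α β : Fin N → Fin n)
    (h : Fin N) (i : Fin n) : MvPolynomial (Fin N × Fin n) K :=
  if i = α h then C (-(ℓ h (β h)) / ℓ h (α h)) + lgtEta ℓ α β h else
    if i = β h then 1 else X (h, i)

private theorem lgtPt_mem {K : Type} [Field K] {N n : ℕ} (ℓ : Fin N → Fin n → K)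
    (α β : Fin N → Fin n) (hαβ : ∀ h, α h ≠ β h) (hα : ∀ h, ℓ h (α h) ≠ 0)
    (z : Fin N × Fin n → K) (h : Fin N) : ∑ i, ℓ h i * eval z (lgtPt ℓ α β h i) = 0 := by
  have hη : eval z (lgtEta ℓ α β h) =
      -∑ i, if i = α h ∨ i = β h then 0 else ℓ h i / ℓ h (α h) * z (h, i) := by
    rw [lgtEta, map_neg, map_sum]
    congr 1
    refine Finset.sum_congr rfl fun i _ => ?_
    split_ifs <;> simp
  have h1 : ∀ i, ℓ h i * eval z (lgtPt ℓ α β h i) =
      (if i = α h then ℓ h (α h) * (-(ℓ h (β h)) / ℓ h (α h) + eval z (lgtEta ℓ α β h)) else 0) +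
      (if i = β h then ℓ h (β h) else 0) +
      ℓ h (α h) * (if i = α h ∨ i = β h then 0 else ℓ h i / ℓ h (α h) * z (h, i)) := by
    intro i
    by_cases hi : i = α h
    · subst hi
      have := hαβ h
      simp [lgtPt, this]
    · by_cases hi' : i = β h
      · subst hi'
        simp [lgtPt, hi]
      · simp only [lgtPt, if_neg hi, if_neg hi', hi, hi', or_self, if_false, eval_X, zero_add]
        have := hα h
        field_simp
  rw [Finset.sum_congr rfl fun i _ => h1 i, Finset.sum_add_distrib, Finset.sum_add_distrib,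
    Finset.sum_ite_eq', Finset.sum_ite_eq', if_pos (Finset.mem_univ _),
    if_pos (Finset.mem_univ _), ← Finset.mul_sum, hη]
  have := hα h
  field_simp
  ring

/-- The polynomial over the generic point. -/
private def lgtT {K : Type} [Field K] {N n : ℕ} (ℓ : Fin N → Fin n → K) (α β : Fin N → Fin n)
    (j : Fin N → Fin n → ℕ) : MvPolynomial (Fin N) (MvPolynomial (Fin N × Fin n) K) :=
  ∏ h, ∏ i, (C (lgtPt ℓ α β h i) + if i = α h then X h else 0) ^ j h i

private theorem lgtT_eq {K : Type} [Field K] {N n : ℕ} (ℓ : Fin N → Fin n → K)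
    (α β : Fin N → Fin n) (hαβ : ∀ h, α h ≠ β h) (j : Fin N → Fin n → ℕ) :
    lgtT ℓ α β j = C (monomial (fin (lgtRest α β j)) 1) *
      ∏ h, (C (C (-(ℓ h (β h)) / ℓ h (α h)) + lgtEta ℓ α β h) + X h) ^ j h (α h) := by
  have hm : (monomial (fin (lgtRest α β j)) (1 : K) : MvPolynomial (Fin N × Fin n) K) =
      ∏ h, ∏ i, X (h, i) ^ lgtRest α β j h i := by
    rw [monomial_eq, Finsupp.prod_fintype _ _ (fun _ => pow_zero _), Fintype.prod_prod_type]
    simp
  rw [lgtT, hm, map_prod, ← Finset.prod_mul_distrib]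
  refine Finset.prod_congr rfl fun h _ => ?_
  have h1 : ∀ i, (C (lgtPt ℓ α β h i) + if i = α h then X h else 0 :
      MvPolynomial (Fin N) (MvPolynomial (Fin N × Fin n) K)) ^ j h i =
      C (X (h, i) ^ lgtRest α β j h i) * (if i = α h then
        (C (C (-(ℓ h (β h)) / ℓ h (α h)) + lgtEta ℓ α β h) + X h) ^ j h (α h) else 1) := by
    intro i
    by_cases hi : i = α h
    · subst hi
      simp [lgtPt, lgtRest]
    · by_cases hi' : i = β h
      · subst hi'
        simp [lgtPt, hi, lgtRest]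
      · simp [lgtPt, hi, hi', lgtRest]
  rw [Finset.prod_congr rfl fun i _ => h1 i, Finset.prod_mul_distrib, Finset.prod_ite_eq',
    if_pos (Finset.mem_univ _), map_prod]

private theorem lgtT_coeff {K : Type} [Field K] {N n : ℕ} (ℓ : Fin N → Fin n → K)
    (α β : Fin N → Fin n) (hαβ : ∀ h, α h ≠ β h) (j j₀ : Fin N → Fin n → ℕ) (κ : Fin N →₀ ℕ)
    (hm : ∑ a, fin (lgtRest α β j₀) a ≤ ∑ a, fin (lgtRest α β j) a) :
    ((lgtT ℓ α β j).coeff κ).coeff (fin (lgtRest α β j₀)) =
      if lgtRest α β j = lgtRest α β j₀ then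
        (∏ h, (C (-(ℓ h (β h)) / ℓ h (α h)) + X h) ^ j h (α h) :
          MvPolynomial (Fin N) K).coeff κ else 0 := by
  rw [lgtT_eq ℓ α β hαβ, coeff_C_mul, coeff_monomial_mul']
  by_cases hr : lgtRest α β j = lgtRest α β j₀
  · rw [if_pos hr, hr, if_pos le_rfl, one_mul, tsub_self]
    have h2 : (∏ h, (C (-(ℓ h (β h)) / ℓ h (α h)) + X h) ^ j h (α h) :
          MvPolynomial (Fin N) K) = map constantCoeff
        (∏ h, (C (C (-(ℓ h (β h)) / ℓ h (α h)) + lgtEta ℓ α β h) + X h) ^ j h (α h)) := by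
      rw [map_prod]
      refine Finset.prod_congr rfl fun h _ => ?_
      rw [map_pow, map_add, map_C, map_X, map_add, constantCoeff_C]
      have : constantCoeff (lgtEta ℓ α β h) = 0 := by
        rw [lgtEta, map_neg, map_sum, neg_eq_zero]
        refine Finset.sum_eq_zero fun i _ => ?_
        split_ifs <;> simp
      rw [this, add_zero]
    rw [h2, coeff_map, constantCoeff_eq]
  · rw [if_neg hr, if_neg]
    intro hle
    apply hr
    apply fin_injective
    have h3 : ∑ a, fin (lgtRest α β j) a ≤ ∑ a, fin (lgtRest α β j₀) a :=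
      Finset.sum_le_sum fun a _ => hle a
    have h4 := (Finset.sum_eq_sum_iff_of_le (fun a _ => hle a)).1 (le_antisymm h3 hm)
    ext a
    exact h4 a (Finset.mem_univ _)

theorem two_var {K : Type} [Field K] [CharZero K] {N k : ℕ} (d : Fin N → ℕ)
    (p : (Fin N → Fin (k + 1) → ℕ) → K) (hp : ∃ j ∈ MI d, p j ≠ 0)
    (ℓ : Fin N → Fin (k + 1) → K) (α β : Fin N → Fin (k + 1)) (hαβ : ∀ h, α h ≠ β h)
    (hα : ∀ h, ℓ h (α h) ≠ 0) (θ : ℝ)
    (hG : ∀ z : Fin N → Fin (k + 1) → K, (∀ h, ∑ i, ℓ h i * z h i = 0) → ∀ κ : Fin N →₀ ℕ,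
      ∑ h, (κ h : ℝ) / d h < θ →
      (ev d p (fun h i => (C (z h i) + if i = α h then X h else 0 :
        MvPolynomial (Fin N) K))).coeff κ = 0) :
    ∃ F : MvPolynomial (Fin N) K, F ≠ 0 ∧ (∀ h, F.degreeOf h ≤ d h) ∧
      (∀ s ∈ F.support, ∃ j ∈ MI d, F.coeff s = p j) ∧
      IdxGe d (fun h => -(ℓ h (β h)) / ℓ h (α h)) F θ := by
  classical
  haveI : Infinite K := CharZero.infinite K
  obtain ⟨j₁, hj₁, hpj₁⟩ := hp
  obtain ⟨j₀, hj₀, hmin⟩ := Finset.exists_min_image ((MI d).filter fun j => p j ≠ 0)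
    (fun j => ∑ a, fin (lgtRest α β j) a) ⟨j₁, Finset.mem_filter.2 ⟨hj₁, hpj₁⟩⟩
  obtain ⟨hj₀, hpj₀⟩ := Finset.mem_filter.1 hj₀
  refine ⟨lgtF d p α β j₀, ?_, ?_, ?_, ?_⟩
  · intro h0
    apply hpj₀
    rw [← lgtF_coeff d p α β j₀ j₀ hj₀ rfl, h0, coeff_zero]
  · intro h
    rw [degreeOf_le_iff]
    intro s hs
    obtain ⟨j, hj, -, rfl⟩ := lgtF_support d p α β j₀ s hs
    rw [lgtExp_apply, ← mem_MI.1 hj h]
    exact Finset.single_le_sum (f := fun i => j h i) (fun _ _ => Nat.zero_le _)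
      (Finset.mem_univ _)
  · intro s hs
    obtain ⟨j, hj, hr, rfl⟩ := lgtF_support d p α β j₀ s hs
    exact ⟨j, hj, lgtF_coeff d p α β j₀ j hj hr⟩
  · intro κ hκ
    by_contra hlt
    rw [not_le] at hlt
    rw [mem_support_iff] at hκ
    apply hκ
    have hΘ : ∑ j ∈ MI d, C (p j) * (lgtT ℓ α β j).coeff κ = 0 := by
      apply MvPolynomial.funext
      intro z
      have h1 := hG (fun h i => eval z (lgtPt ℓ α β h i)) (lgtPt_mem ℓ α β hαβ hα z) κ hlt
      rw [ev, coeff_sum] at h1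
      rw [map_sum, map_zero, ← h1]
      refine Finset.sum_congr rfl fun j _ => ?_
      rw [map_mul, eval_C, algebraMap_eq, coeff_C_mul]
      congr 1
      have h2 : (∏ h, ∏ i, (C (eval z (lgtPt ℓ α β h i)) + if i = α h then X h else 0) ^ j h i :
          MvPolynomial (Fin N) K) = map (eval z) (lgtT ℓ α β j) := by
        rw [lgtT, map_prod]
        refine Finset.prod_congr rfl fun h _ => ?_
        rw [map_prod]
        refine Finset.prod_congr rfl fun i _ => ?_
        rw [map_pow, map_add, map_C]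
        split_ifs <;> simp
      rw [h2, coeff_map]
    have h5 := congrArg (coeff (fin (lgtRest α β j₀))) hΘ
    rw [coeff_sum, coeff_zero] at h5
    rw [← h5]
    have h6 : shiftP (fun h => -(ℓ h (β h)) / ℓ h (α h)) (lgtF d p α β j₀) =
        ∑ j ∈ (MI d).filter (fun j => lgtRest α β j = lgtRest α β j₀),
          C (p j) * ∏ h, (C (-(ℓ h (β h)) / ℓ h (α h)) + X h) ^ j h (α h) := by
      rw [shiftP, lgtF, map_sum]
      refine Finset.sum_congr rfl fun j _ => ?_
      rw [aeval_monomial, Finsupp.prod_fintype _ _ (fun _ => pow_zero _), algebraMap_eq]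
      congr 1
      refine Finset.prod_congr rfl fun h _ => ?_
      rw [lgtExp_apply, add_comm]
    rw [h6, coeff_sum, Finset.sum_filter]
    refine Finset.sum_congr rfl fun j hj => ?_
    rw [coeff_C_mul, coeff_C_mul]
    by_cases hpj : p j = 0
    · rw [hpj]
      simp
    · rw [lgtT_coeff ℓ α β hαβ j j₀ κ (hmin j (Finset.mem_filter.2 ⟨hj, hpj⟩))]
      split_ifs <;> simp

end Pool.Agent.Work.SUB
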