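import Pool.Agent.Work.SUB.LGBd

/-!
# LGVan: vanishing of coefficients by the product formula (block E)

PROOF. Let `G = ev d p (lin Y)`. Its coefficients are in `R` (`p j ∈ R`, `Y h l i ∈ R`): the
polynomials with coefficients in the subring `R` are closed under sums, products and powers (range of
`MvPolynomial.map R.subtype`, `MvPolynomial.mem_range_map_iff_coeffs_subset` or lift everything).
At the place `w`, by `hpq` with `X = lin Y` and `mulVec_lin`,
`G = ev d (q w) (lin (fun h l => (A w).mulVec (Y h l)))`, so `coeff_bound` gives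
`v w (G.coeff s) ≤ C₂ ^ (∑ d) * exp (E w + B ∑ h, t h * s (h, 0))
 = exp (∑ d * log C₂ + E w + B ∑ h, t h * s (h, 0))`. Hence
`∏ w, v w (G.coeff s) ^ m w ≤ exp (∑ w, m w * (..)) < 1` and `hS.prod_ge` forces `G.coeff s = 0`.
-/

set_option autoImplicit false

noncomputable section

namespace Pool.Agent.Work.SUB

open Finset MvPolynomial

private theorem ev_coeff_mem {K : Type} [Field K] {R : Subring K} {N k : ℕ} (d : Fin N → ℕ)
    (p : (Fin N → Fin (k + 1) → ℕ) → K) (hp : ∀ j ∈ MI d, p j ∈ R)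
    (Y : Fin N → Fin (k + 1) → Fin (k + 1) → K) (hY : ∀ h l i, Y h l i ∈ R)
    (s : (Fin N × Fin (k + 1)) →₀ ℕ) : (ev d p (lin Y)).coeff s ∈ R := by
  have hC : ∀ a ∈ R, (C a : MvPolynomial (Fin N × Fin (k + 1)) K) ∈
      (MvPolynomial.map (σ := Fin N × Fin (k + 1)) R.subtype).range := by
    intro a ha
    exact ⟨C ⟨a, ha⟩, by simp⟩
  have hX : ∀ b, (X b : MvPolynomial (Fin N × Fin (k + 1)) K) ∈
      (MvPolynomial.map (σ := Fin N × Fin (k + 1)) R.subtype).range := by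
    intro b
    exact ⟨X b, by simp⟩
  have hlin : ∀ h i, lin Y h i ∈
      (MvPolynomial.map (σ := Fin N × Fin (k + 1)) R.subtype).range := by
    intro h i
    unfold lin
    exact Subring.sum_mem _ fun l _ => Subring.mul_mem _ (hC _ (hY h l i)) (hX _)
  have h1 : ev d p (lin Y) ∈
      (MvPolynomial.map (σ := Fin N × Fin (k + 1)) R.subtype).range := by
    unfold ev
    refine Subring.sum_mem _ fun j hj => Subring.mul_mem _ (hC _ (hp j hj)) ?_
    exact Subring.prod_mem _ fun h _ => Subring.prod_mem _ fun i _ =>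
      Subring.pow_mem _ (hlin h i) _
  obtain ⟨F, hF⟩ := h1
  rw [← hF, MvPolynomial.coeff_map]
  exact (F.coeff s).2

theorem coeff_vanish {K : Type} [Field K] [Height.AdmissibleAbsValues K] {ι : Type} [Fintype ι]
    {v : ι → AbsoluteValue K ℝ} {m : ι → ℕ} {R : Subring K} (hS : IsSD v m R) {N k : ℕ}
    (A : ι → Matrix (Fin (k + 1)) (Fin (k + 1)) K) (d : Fin N → ℕ)
    (p : (Fin N → Fin (k + 1) → ℕ) → K) (hp : ∀ j ∈ MI d, p j ∈ R)
    (q : ι → (Fin N → Fin (k + 1) → ℕ) → K)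
    (hpq : ∀ (w : ι) (X : Fin N → Fin (k + 1) → MvPolynomial (Fin N × Fin (k + 1)) K),
      ev d p X = ev d (q w) (fun h => ((A w).map (algebraMap K
        (MvPolynomial (Fin N × Fin (k + 1)) K))).mulVec (X h)))
    (Y : Fin N → Fin (k + 1) → Fin (k + 1) → K) (hY : ∀ h l i, Y h l i ∈ R)
    (c : ι → Fin (k + 1) → ℝ) (t : Fin N → ℝ) (ht : ∀ h, 0 ≤ t h) {B C₀ C₁ : ℝ}
    (hB : ∀ w i, |c w i| ≤ B) (hC₀ : 1 ≤ C₀) (hC₁ : 1 ≤ C₁)
    (hY0 : ∀ w h i, v w ((A w).mulVec (Y h 0) i) ≤ C₀)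
    (hYs : ∀ (w : ι) (h : Fin N) (l : Fin k) (i : Fin (k + 1)),
      v w ((A w).mulVec (Y h l.succ) i) ≤ Real.exp (c w i * t h))
    (hq : ∀ w, ∀ j ∈ MI d, v w (q w j) ≤ C₁ ^ ∑ h, d h) (E : ι → ℝ)
    (hE : ∀ w, ∀ j ∈ MI d, q w j ≠ 0 → ∑ h, ∑ i, c w i * t h * j h i ≤ E w)
    (s : (Fin N × Fin (k + 1)) →₀ ℕ)
    (hneg : ∑ w, (m w : ℝ) * ((∑ h, (d h : ℝ)) * Real.log (2 ^ (k + 1) * C₁ * ((k + 1) * C₀)) +
      (E w + B * ∑ h, t h * s (h, 0))) < 0) :
    (ev d p (lin Y)).coeff s = 0 := by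
  by_contra hne
  have hR := ev_coeff_mem d p hp Y hY s
  have h1 := hS.prod_ge _ hR hne
  have hM : (0 : ℝ) < 2 ^ (k + 1) * C₁ * ((k + 1) * C₀) := by positivity
  have h2 : ∀ w, v w ((ev d p (lin Y)).coeff s) ≤
      Real.exp ((∑ h, (d h : ℝ)) * Real.log (2 ^ (k + 1) * C₁ * ((k + 1) * C₀)) +
        (E w + B * ∑ h, t h * s (h, 0))) := by
    intro w
    have e1 : ev d p (lin Y) = ev d (q w) (lin fun h l => (A w).mulVec (Y h l)) := by
      rw [hpq w (lin Y)]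
      congr 1
      funext h i
      exact mulVec_lin (A w) Y h i
    rw [e1]
    refine (coeff_bound (v w) d (q w) (fun h l => (A w).mulVec (Y h l)) (c w) t ht (hB w) hC₀ hC₁
      (fun h i => hY0 w h i) (fun h l i => hYs w h l i) (hq w) (hE w) s).trans (le_of_eq ?_)
    rw [Real.exp_add ((∑ h, (d h : ℝ)) * _)]
    congr 1
    rw [mul_comm (∑ h, (d h : ℝ)), Real.exp_mul, Real.exp_log hM, ← Nat.cast_sum,
      Real.rpow_natCast]
  have h3 : ∏ w, v w ((ev d p (lin Y)).coeff s) ^ m w ≤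
      Real.exp (∑ w, (m w : ℝ) * ((∑ h, (d h : ℝ)) *
        Real.log (2 ^ (k + 1) * C₁ * ((k + 1) * C₀)) + (E w + B * ∑ h, t h * s (h, 0)))) := by
    rw [Real.exp_sum]
    refine Finset.prod_le_prod (fun w _ => pow_nonneg ((v w).nonneg _) _) fun w _ => ?_
    rw [Real.exp_nat_mul]
    exact pow_le_pow_left₀ ((v w).nonneg _) (h2 w) _
  have h4 := h1.trans h3
  exact absurd h4 (not_le.2 (Real.exp_lt_one_iff.2 hneg))

end Pool.Agent.Work.SUB
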