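import Pool.Agent.Work.SUB.LGAux
import Pool.Agent.Work.SUB.LGVan
import Pool.Agent.Work.SUB.LGPts
import Pool.Agent.Work.SUB.LGTwo
import Pool.Agent.Work.SUB.LGRatio
import Pool.Agent.Work.SUB.LGLow
import Pool.Agent.Work.SUB.LGNum
import Pool.Agent.Work.SUB.LGHt

/-!
# LastGap: the last gap theorem (block E, end of the block)
-/

set_option autoImplicit false

noncomputable section

namespace Pool.Agent.Work.SUB

open Finset MvPolynomial

/-- The sum of the exponents in the approximation. -/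
private theorem expo_le {N k : ℕ} (d : Fin N → ℕ) (hd : ∀ h, 1 ≤ d h) (c : Fin (k + 1) → ℝ)
    (t : Fin N → ℝ) {B D η X : ℝ} (hB : ∀ i, |c i| ≤ B) (hD : 0 ≤ D)
    (h1 : ∀ h, D ≤ d h * t h) (h2 : ∀ h, d h * t h ≤ (1 + η) * D)
    (j : Fin N → Fin (k + 1) → ℕ) (hj : j ∈ MI d)
    (hX : ∑ h, ∑ i, c i * (j h i : ℝ) / d h ≤ X) :
    ∑ h, ∑ i, c i * t h * j h i ≤ D * X + N * (B * η * D) := by
  have hj' := mem_MI.1 hj
  have e1 : ∀ h, ∑ i, c i * t h * j h i ≤ D * (∑ i, c i * (j h i : ℝ) / d h) + B * η * D := by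
    intro h
    have hdh : (0 : ℝ) < d h := by exact_mod_cast hd h
    have hs : (∑ i, (j h i : ℝ)) = d h := by exact_mod_cast hj' h
    have e2 : ∀ i, c i * t h * j h i ≤ D * (c i * (j h i : ℝ) / d h) + B * η * D * (j h i / d h) := by
      intro i
      have e3 : c i * t h * j h i = D * (c i * (j h i : ℝ) / d h) +
          c i * (d h * t h - D) * (j h i / d h) := by field_simp; ring
      rw [e3]
      have e4 : c i * (d h * t h - D) ≤ B * η * D := by
        calc c i * (d h * t h - D) ≤ B * (d h * t h - D) :=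
              mul_le_mul_of_nonneg_right ((le_abs_self _).trans (hB i)) (by linarith [h1 h])
          _ ≤ B * (η * D) := by
              apply mul_le_mul_of_nonneg_left _ ((abs_nonneg _).trans (hB i))
              linarith [h2 h]
          _ = B * η * D := by ring
      have e5 : (0 : ℝ) ≤ j h i / d h := by positivity
      nlinarith [mul_le_mul_of_nonneg_right e4 e5]
    calc ∑ i, c i * t h * j h i
        ≤ ∑ i, (D * (c i * (j h i : ℝ) / d h) + B * η * D * (j h i / d h)) :=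
          Finset.sum_le_sum fun i _ => e2 i
      _ = D * (∑ i, c i * (j h i : ℝ) / d h) + B * η * D * ((∑ i, (j h i : ℝ)) / d h) := by
          rw [Finset.sum_add_distrib, Finset.mul_sum, Finset.sum_div, Finset.mul_sum]
      _ = _ := by rw [hs, div_self hdh.ne', mul_one]
  calc ∑ h, ∑ i, c i * t h * j h i
      ≤ ∑ h, (D * (∑ i, c i * (j h i : ℝ) / d h) + B * η * D) := Finset.sum_le_sum fun h _ => e1 h
    _ = D * (∑ h, ∑ i, c i * (j h i : ℝ) / d h) + N * (B * η * D) := by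
        rw [Finset.sum_add_distrib, Finset.mul_sum]; simp
    _ ≤ _ := by nlinarith [mul_le_mul_of_nonneg_left hX hD]

/-- If a box of small volume (`∑ c < 0`) contains `n - 1` independent vectors with coordinates in
`R`, then their span is one of finitely many hyperplanes (`n = k + 1`). -/
theorem lastGap {K : Type} [Field K] [CharZero K] [Height.AdmissibleAbsValues K] {ι : Type}
    [Fintype ι] {v : ι → AbsoluteValue K ℝ} {m : ι → ℕ} {R : Subring K} (hS : IsSD v m R)
    (hRoth : ∀ N, RothLemma K N) {k : ℕ} (hk : 1 ≤ k)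
    (A : ι → Matrix (Fin (k + 1)) (Fin (k + 1)) K) (hA : ∀ w, (A w).det ≠ 0)
    (c : ι → Fin (k + 1) → ℝ) (hc : ∑ w, (m w : ℝ) * ∑ i, c w i < 0) :
    ∃ Q₀ : ℝ, 1 ≤ Q₀ ∧ ∃ 𝒱 : Set (Submodule K (Fin (k + 1) → K)), 𝒱.Finite ∧
      ∀ Q : ℝ, Q₀ ≤ Q → ∀ x : Fin k → Fin (k + 1) → K, LinearIndependent K x →
        (∀ j, Rv R (x j)) → (∀ j w i, v w ((A w).mulVec (x j) i) ≤ Q ^ c w i) →
        Submodule.span K (Set.range x) ∈ 𝒱 := by
  classical
  obtain ⟨c₀, hc₀, Q₀, hQ₀, 𝒱, h𝒱, hlow⟩ := low hS A hA c hc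
  by_contra hcon
  push Not at hcon
  obtain ⟨w₀⟩ := hS.ne
  -- parameters
  set M : ℝ := ∑ w, (m w : ℝ) with hM
  have hM1 : 1 ≤ M := by
    have h1 : (1 : ℝ) ≤ m w₀ := by exact_mod_cast hS.m_pos w₀
    exact h1.trans (Finset.single_le_sum (f := fun w => (m w : ℝ)) (fun w _ => by positivity)
      (Finset.mem_univ w₀))
  set δ : ℝ := -∑ w, (m w : ℝ) * ∑ i, c w i with hδ
  have hδ0 : 0 < δ := by rw [hδ]; linarith
  set B : ℝ := 1 + ∑ w, ∑ i, |c w i| with hBdef
  have hB : ∀ w i, |c w i| ≤ B := by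
    intro w i
    have h1 : |c w i| ≤ ∑ i, |c w i| :=
      Finset.single_le_sum (f := fun i => |c w i|) (fun i _ => abs_nonneg _) (Finset.mem_univ i)
    have h2 : ∑ i, |c w i| ≤ ∑ w, ∑ i, |c w i| :=
      Finset.single_le_sum (f := fun w => ∑ i, |c w i|)
        (fun w _ => Finset.sum_nonneg fun i _ => abs_nonneg _) (Finset.mem_univ w)
    rw [hBdef]; linarith
  have hB1 : 1 ≤ B := by
    have : 0 ≤ ∑ w, ∑ i, |c w i| := Finset.sum_nonneg fun w _ => Finset.sum_nonneg fun i _ =>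
      abs_nonneg _
    rw [hBdef]; linarith
  set n : ℝ := (k : ℝ) + 1 with hn
  have hn1 : 1 ≤ n := by rw [hn]; linarith [(Nat.cast_nonneg k : (0 : ℝ) ≤ k)]
  have hk1 : (1 : ℝ) ≤ k := by exact_mod_cast hk
  set ε : ℝ := δ / (8 * n * M) with hε
  have hε0 : 0 < ε := by positivity
  set η : ℝ := min 1 (δ / (8 * n * M * B)) with hη
  have hη0 : 0 < η := by rw [hη]; exact lt_min one_pos (by positivity)
  have hη1 : η ≤ 1 := min_le_left _ _
  have hη2 : η ≤ δ / (8 * n * M * B) := min_le_right _ _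
  set κ : ℝ := δ / (16 * n * M * B) with hκ
  have hκ0 : 0 < κ := by positivity
  obtain ⟨N₀, haux⟩ := auxPoly hS (n := k + 1) (Nat.succ_pos k) A hA c hB hε0
  set N : ℕ := N₀ + 1 with hN
  have hN1 : (1 : ℝ) ≤ N := by rw [hN]; push_cast; linarith [(Nat.cast_nonneg N₀ : (0 : ℝ) ≤ N₀)]
  obtain ⟨C₁, hC₁, haux⟩ := haux N (Nat.le_succ _) (Nat.succ_pos _)
  obtain ⟨σ, hσ, CR, hCR, hroth⟩ := hRoth N (κ * N) (by positivity)
  -- bound for the entries of the matrices
  obtain ⟨C₀, hC₀, hC₀A⟩ : ∃ C₀ : ℝ, 1 ≤ C₀ ∧ ∀ w i a, v w (A w i a) ≤ C₀ := by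
    refine ⟨1 + ∑ w, ∑ i, ∑ a, v w (A w i a), ?_, ?_⟩
    · have : 0 ≤ ∑ w, ∑ i, ∑ a, v w (A w i a) := Finset.sum_nonneg fun w _ =>
        Finset.sum_nonneg fun i _ => Finset.sum_nonneg fun a _ => (v w).nonneg _
      linarith
    · intro w i a
      have h1 : v w (A w i a) ≤ ∑ a, v w (A w i a) :=
        Finset.single_le_sum (f := fun a => v w (A w i a)) (fun a _ => (v w).nonneg _)
          (Finset.mem_univ a)
      have h2 : ∑ a, v w (A w i a) ≤ ∑ i, ∑ a, v w (A w i a) :=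
        Finset.single_le_sum (f := fun i => ∑ a, v w (A w i a))
          (fun i _ => Finset.sum_nonneg fun a _ => (v w).nonneg _) (Finset.mem_univ i)
      have h3 : ∑ i, ∑ a, v w (A w i a) ≤ ∑ w, ∑ i, ∑ a, v w (A w i a) :=
        Finset.single_le_sum (f := fun w => ∑ i, ∑ a, v w (A w i a))
          (fun w _ => Finset.sum_nonneg fun i _ => Finset.sum_nonneg fun a _ => (v w).nonneg _)
          (Finset.mem_univ w)
      linarith
  set LC : ℝ := Real.log (2 ^ (k + 1) * C₁ * ((k + 1) * C₀)) with hLC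
  have hLC0 : 0 ≤ LC := by
    apply Real.log_nonneg
    have h1 : (1 : ℝ) ≤ 2 ^ (k + 1) := one_le_pow₀ (by norm_num)
    have h2 : (1 : ℝ) ≤ (k + 1) * C₀ := one_le_mul_of_one_le_of_one_le (by linarith) hC₀
    exact one_le_mul_of_one_le_of_one_le (one_le_mul_of_one_le_of_one_le h1 hC₁) h2
  have hlC₁ : 0 ≤ Real.log C₁ := Real.log_nonneg hC₁
  set T₁ : ℝ := 32 * n * M * LC / δ with hT₁
  set T₂ : ℝ := 2 * N * k * (CR * (M * Real.log C₁ + 1)) / c₀ with hT₂
  have hT₁0 : 0 ≤ T₁ := by positivity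
  have hT₂0 : 0 ≤ T₂ := by positivity
  set T₀ : ℝ := 1 + T₁ + T₂ with hT₀
  have hT₀0 : 0 < T₀ := by positivity
  -- the sequence
  let P : ℝ → Prop := fun t => Real.log Q₀ ≤ t ∧ ∃ x : Fin k → Fin (k + 1) → K,
    LinearIndependent K x ∧ (∀ j, Rv R (x j)) ∧
    (∀ j w i, v w ((A w).mulVec (x j) i) ≤ Real.exp (c w i * t)) ∧
    Submodule.span K (Set.range x) ∉ 𝒱
  have hPt : ∀ T : ℝ, ∃ t, T ≤ t ∧ P t := by
    intro T
    obtain ⟨Q, hQ, x, hx1, hx2, hx3, hx4⟩ := hcon (max Q₀ (Real.exp T))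
      (hQ₀.le.trans (le_max_left _ _)) 𝒱 h𝒱
    have hQ1 : Q₀ ≤ Q := (le_max_left _ _).trans hQ
    have hQ2 : Real.exp T ≤ Q := (le_max_right _ _).trans hQ
    have hQ0 : 0 < Q := (Real.exp_pos T).trans_le hQ2
    refine ⟨Real.log Q, (Real.le_log_iff_exp_le hQ0).2 hQ2,
      Real.log_le_log (by linarith) hQ1, x, hx1, hx2, fun j w i => ?_, hx4⟩
    have := hx3 j w i
    rwa [Real.rpow_def_of_pos hQ0, mul_comm] at this
  obtain ⟨t, htP, htT, htr⟩ := exists_seq P hPt N T₀ (2 / σ)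
  have hQlog : 0 < Real.log Q₀ := Real.log_pos hQ₀
  have ht0 : ∀ h, 0 < t h := fun h => hT₀0.trans_le (htT h)
  choose htQ x hxl hxR hxb hxV using htP
  -- the equations
  have hdual : ∀ h, ∃ ℓ : Fin (k + 1) → K, ℓ ≠ 0 ∧ (∀ l, ∑ i, ℓ i * x h l i = 0) ∧
      c₀ * t h ≤ Height.logHeight ℓ := by
    intro h
    obtain ⟨ℓ, h1, _, h3, _⟩ := exists_dual R (x h) (hxl h) (fun l i => (hxR h l).2 i)
    refine ⟨ℓ, h1, h3, ?_⟩
    have h4 : Q₀ ≤ Real.exp (t h) := (Real.log_le_iff_le_exp (by linarith)).1 (htQ h)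
    have h5 := hlow (Real.exp (t h)) h4 (x h) (hxl h) (hxR h) (fun j w i => by
      rw [← Real.exp_mul, mul_comm]; exact hxb h j w i) (hxV h) ℓ h1 h3
    rwa [Real.log_exp] at h5
  choose ℓ hℓ0 hℓx hℓh using hdual
  have hrat : ∀ h, ∃ α β : Fin (k + 1), α ≠ β ∧ ℓ h α ≠ 0 ∧
      Height.logHeight (ℓ h) ≤ k * Height.logHeight₁ (-(ℓ h β) / ℓ h α) :=
    fun h => exists_ratio hk (ℓ h) (hℓ0 h)
  choose α β hαβ hα hht using hrat
  obtain ⟨D, hD, d, hd1, hdl, hdu, hds, hdT⟩ := exists_deg t hT₀0 htT hσ htr hη0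
  have hd0 : ∀ h, (0 : ℝ) < d h := fun h => by exact_mod_cast hd1 h
  obtain ⟨p, hp0, hpR, hpb, hpq⟩ := haux d hd1
  choose q hq1 hq2 hq3 using hpq
  let Y : Fin N → Fin (k + 1) → Fin (k + 1) → K := fun h => Fin.cons (Pi.single (α h) 1) (x h)
  have hY0 : ∀ h, Y h 0 = Pi.single (α h) 1 := fun h => rfl
  have hYs : ∀ (h : Fin N) (l : Fin k), Y h l.succ = x h l := fun h l => rfl
  have hSd : ∑ h, (d h : ℝ) ≤ N * (2 * D / T₀) := by
    calc ∑ h, (d h : ℝ) ≤ ∑ _h : Fin N, 2 * D / T₀ := Finset.sum_le_sum fun h _ => hdT h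
      _ = N * (2 * D / T₀) := by simp
  have hSd0 : 0 ≤ ∑ h, (d h : ℝ) := Finset.sum_nonneg fun h _ => (hd0 h).le
  -- vanishing of the coefficients
  have hvan : ∀ s : (Fin N × Fin (k + 1)) →₀ ℕ, ∑ h, (s (h, 0) : ℝ) / d h < κ * N →
      (ev d p (lin Y)).coeff s = 0 := by
    intro s hs
    refine coeff_vanish hS A d p hpR q (fun w X => hq3 w _ X) Y ?_ c t (fun h => (ht0 h).le)
      hB hC₀ hC₁ ?_ ?_ hq2
      (fun w => D * (N * ((∑ i, c w i) / (k + 1 : ℕ) + ε)) + N * (B * η * D)) ?_ s ?_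
    · intro h l i
      refine Fin.cases ?_ (fun l => ?_) l
      · rw [hY0]
        rcases eq_or_ne i (α h) with rfl | hi
        · rw [Pi.single_eq_same]; exact R.one_mem
        · rw [Pi.single_eq_of_ne hi]; exact R.zero_mem
      · rw [hYs]; exact (hxR h l).2 i
    · intro w h i
      rw [hY0, Matrix.mulVec_single_one]
      exact hC₀A w i (α h)
    · intro w h l i
      rw [hYs]; exact hxb h l w i
    · intro w j hj hqj
      exact expo_le d hd1 (c w) t (hB w) hD.le hdl hdu j hj (hq1 w j hj hqj).le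
    · -- the numerical inequality
      have hs1 : ∑ h, t h * (s (h, 0) : ℝ) ≤ (1 + η) * D * (κ * N) := by
        calc ∑ h, t h * (s (h, 0) : ℝ) = ∑ h, (d h * t h) * ((s (h, 0) : ℝ) / d h) := by
              refine Finset.sum_congr rfl fun h _ => ?_
              have := (hd0 h).ne'
              field_simp
          _ ≤ ∑ h, ((1 + η) * D) * ((s (h, 0) : ℝ) / d h) := by
              refine Finset.sum_le_sum fun h _ => ?_
              exact mul_le_mul_of_nonneg_right (hdu h) (by positivity)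
          _ = (1 + η) * D * ∑ h, (s (h, 0) : ℝ) / d h := by rw [Finset.mul_sum]
          _ ≤ _ := mul_le_mul_of_nonneg_left hs.le (by positivity)
      have hcast : ((k + 1 : ℕ) : ℝ) = n := by push_cast; rfl
      rw [hcast]
      have e1 : ∑ w, (m w : ℝ) * ((∑ h, (d h : ℝ)) * LC +
          (D * (N * ((∑ i, c w i) / n + ε)) + N * (B * η * D) + B * ∑ h, t h * (s (h, 0) : ℝ))) =
          M * ((∑ h, (d h : ℝ)) * LC + D * N * ε + N * (B * η * D) +
            B * ∑ h, t h * (s (h, 0) : ℝ)) - D * N * δ / n := by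
        have e2 : ∀ w, (m w : ℝ) * ((∑ h, (d h : ℝ)) * LC +
          (D * (N * ((∑ i, c w i) / n + ε)) + N * (B * η * D) +
            B * ∑ h, t h * (s (h, 0) : ℝ))) =
          (m w : ℝ) * ((∑ h, (d h : ℝ)) * LC + D * N * ε + N * (B * η * D) +
            B * ∑ h, t h * (s (h, 0) : ℝ)) + D * N / n * ((m w : ℝ) * ∑ i, c w i) := by
          intro w; ring
        rw [Finset.sum_congr rfl fun w _ => e2 w, Finset.sum_add_distrib, ← Finset.sum_mul,
          ← Finset.mul_sum]
        have e3 : ∑ w, (m w : ℝ) * ∑ i, c w i = -δ := by rw [hδ]; ring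
        rw [e3]; ring
      rw [e1]
      have hDN : 0 < D * N := by positivity
      have i1 : M * ((∑ h, (d h : ℝ)) * LC) ≤ D * N * δ / n / 8 := by
        have a1 : (∑ h, (d h : ℝ)) * LC ≤ N * (2 * D / T₀) * LC :=
          mul_le_mul_of_nonneg_right hSd hLC0
        have a2 : M * (N * (2 * D / T₀) * LC) ≤ D * N * δ / n / 8 := by
          have a3 : 32 * n * M * LC ≤ δ * T₀ := by
            have : 32 * n * M * LC = δ * T₁ := by rw [hT₁]; field_simp
            rw [this]
            apply mul_le_mul_of_nonneg_left _ hδ0.le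
            rw [hT₀]; linarith
          have a4 : M * (N * (2 * D / T₀) * LC) = D * N * (2 * M * LC / T₀) := by
            field_simp
          have a5 : 2 * M * LC / T₀ ≤ δ / n / 8 := by
            rw [div_le_iff₀ hT₀0, div_div, div_mul_eq_mul_div, le_div_iff₀ (by positivity)]
            nlinarith [hLC0, hM1, hn1, mul_nonneg (mul_nonneg (by linarith : (0 : ℝ) ≤ n)
              (by linarith : (0 : ℝ) ≤ M)) hLC0]
          rw [a4]
          calc D * N * (2 * M * LC / T₀) ≤ D * N * (δ / n / 8) :=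
                mul_le_mul_of_nonneg_left a5 hDN.le
            _ = _ := by ring
        exact (mul_le_mul_of_nonneg_left a1 (by linarith)).trans a2
      have i2 : M * (D * N * ε) ≤ D * N * δ / n / 8 := by
        rw [hε]
        have : M * (D * N * (δ / (8 * n * M))) = D * N * δ / n / 8 := by
          have : M ≠ 0 := by linarith
          field_simp
        rw [this]
      have i3 : M * (N * (B * η * D)) ≤ D * N * δ / n / 8 := by
        have a1 : B * η ≤ δ / (8 * n * M) := by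
          calc B * η ≤ B * (δ / (8 * n * M * B)) := mul_le_mul_of_nonneg_left hη2 (by linarith)
            _ = δ / (8 * n * M) := by
                have : B ≠ 0 := by linarith
                field_simp
        calc M * (N * (B * η * D)) = M * (D * N * (B * η)) := by ring
          _ ≤ M * (D * N * (δ / (8 * n * M))) := by gcongr
          _ = _ := by
            have : M ≠ 0 := by linarith
            field_simp
      have i4 : M * (B * ∑ h, t h * (s (h, 0) : ℝ)) ≤ D * N * δ / n / 8 := by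
        calc M * (B * ∑ h, t h * (s (h, 0) : ℝ)) ≤ M * (B * ((1 + η) * D * (κ * N))) := by
              gcongr
          _ ≤ M * (B * (2 * D * (κ * N))) := by
              have : (1 + η) ≤ 2 := by linarith
              gcongr
          _ = _ := by
              rw [hκ]
              have h1 : B ≠ 0 := by linarith
              have h2 : M ≠ 0 := by linarith
              field_simp
              ring
      have hpos : 0 < D * N * δ / n := by positivity
      have e5 : M * ((∑ h, (d h : ℝ)) * LC + D * N * ε + N * (B * η * D) +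
            B * ∑ h, t h * (s (h, 0) : ℝ)) = M * ((∑ h, (d h : ℝ)) * LC) + M * (D * N * ε) +
            M * (N * (B * η * D)) + M * (B * ∑ h, t h * (s (h, 0) : ℝ)) := by ring
      rw [e5]
      linarith
  -- reduction to Roth's lemma
  have hpts := pts_vanish d p ℓ α hα x hxl hℓx (κ * N) Y hY0 hYs hvan
  obtain ⟨F, hF0, hFd, hFc, hFI⟩ := two_var d p hp0 ℓ α β hαβ hα (κ * N) hpts
  refine hroth d (fun h => -(ℓ h (β h)) / ℓ h (α h)) F hF0 hd1 hFd hds ?_ hFI
  intro h
  have hC₁d : 1 ≤ C₁ ^ ∑ h, d h := one_le_pow₀ hC₁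
  have hPF : hP F ≤ M * Real.log (C₁ ^ ∑ h, d h) :=
    hP_le hS F hF0 hC₁d
      (fun s hs => by obtain ⟨j, hj, hj'⟩ := hFc s hs; rw [hj']; exact hpR j hj)
      (fun s hs w => by obtain ⟨j, hj, hj'⟩ := hFc s hs; rw [hj']; exact hpb w j hj)
  rw [Real.log_pow] at hPF
  push_cast at hPF
  -- the left side
  have l1' : CR * (hP F + ∑ i, (d i : ℝ)) ≤ CR * ((M * Real.log C₁ + 1) * (N * (2 * D / T₀))) := by
    apply mul_le_mul_of_nonneg_left _ (by linarith)
    calc hP F + ∑ i, (d i : ℝ) ≤ M * ((∑ i, (d i : ℝ)) * Real.log C₁) + ∑ i, (d i : ℝ) := by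
          linarith
      _ = (M * Real.log C₁ + 1) * ∑ i, (d i : ℝ) := by ring
      _ ≤ _ := mul_le_mul_of_nonneg_left hSd (by positivity)
  have l2' : CR * ((M * Real.log C₁ + 1) * (N * (2 * D / T₀))) ≤ c₀ * D / k := by
    have a1 : 2 * N * k * (CR * (M * Real.log C₁ + 1)) ≤ c₀ * T₀ := by
      have : 2 * N * k * (CR * (M * Real.log C₁ + 1)) = c₀ * T₂ := by rw [hT₂]; field_simp
      rw [this]
      apply mul_le_mul_of_nonneg_left _ hc₀.le
      rw [hT₀]; linarith
    have a2 : CR * ((M * Real.log C₁ + 1) * (N * (2 * D / T₀))) =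
        D * (2 * N * (CR * (M * Real.log C₁ + 1)) / T₀) := by ring
    have a3 : 2 * N * (CR * (M * Real.log C₁ + 1)) / T₀ ≤ c₀ / k := by
      rw [div_le_div_iff₀ hT₀0 (by linarith)]
      calc 2 * N * (CR * (M * Real.log C₁ + 1)) * k =
          2 * N * k * (CR * (M * Real.log C₁ + 1)) := by ring
        _ ≤ _ := a1
    rw [a2]
    calc D * (2 * N * (CR * (M * Real.log C₁ + 1)) / T₀) ≤ D * (c₀ / k) :=
          mul_le_mul_of_nonneg_left a3 hD.le
      _ = _ := by ring
  -- the right side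
  have r1 : c₀ * D / k ≤ d h * Height.logHeight₁ (-(ℓ h (β h)) / ℓ h (α h)) := by
    have b1 : c₀ * t h ≤ k * Height.logHeight₁ (-(ℓ h (β h)) / ℓ h (α h)) :=
      (hℓh h).trans (hht h)
    have b2 : c₀ * D ≤ k * (d h * Height.logHeight₁ (-(ℓ h (β h)) / ℓ h (α h))) := by
      calc c₀ * D ≤ c₀ * (d h * t h) := mul_le_mul_of_nonneg_left (hdl h) hc₀.le
        _ = d h * (c₀ * t h) := by ring
        _ ≤ d h * (k * Height.logHeight₁ (-(ℓ h (β h)) / ℓ h (α h))) :=
            mul_le_mul_of_nonneg_left b1 (hd0 h).le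
        _ = _ := by ring
    rw [div_le_iff₀ (by linarith)]
    linarith
  exact l1'.trans (l2'.trans r1)

end Pool.Agent.Work.SUB
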