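import Pool.Agent.Work.SUB.Bal
import Pool.Agent.Work.SUB.LastGap

/-!
# LGN: the last gap theorem for twisted norms (block M)

PROOF. `M = ∑ w, m w ≥ 1` (`hS.ne`, `hS.m_pos`), `C` from `balance`. Apply `lastGap` to the exponents
`c' w i = c w i - δ / (2 M)`: `∑ m w ∑ c' w i = - (k + 1) δ / 2 < 0`; get `Q₀'`, `𝒱`. Let `Q₀ ≥ Q₀'` be so
large that `C ≤ Q₀ ^ (δ / (2 M))`. For `x` as in the statement, `balance` gives `a j ∈ R`, `a j ≠ 0` with
`tw (a j • x j) ≤ C NN (x j) ^ (1/M) ≤ C Q ^ (-δ/M) ≤ Q ^ (-δ/(2M))`, so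
`v w (L_{w,i} (a j • x j)) ≤ Q ^ (c w i) Q ^ (-δ/(2M)) = Q ^ (c' w i)` (`le_tw`). The vectors `a j • x j` are
independent (`LinearIndependent.units_smul`), `Rv` (`Rv_smul`), and have the same span as the `x j`.
-/

set_option autoImplicit false

noncomputable section

namespace Pool.Agent.Work.SUB

variable {K : Type} [Field K] [CharZero K] [Height.AdmissibleAbsValues K] {ι : Type} [Fintype ι]
  {v : ι → AbsoluteValue K ℝ} {m : ι → ℕ} {R : Subring K}

theorem lastGapN (hS : IsSD v m R) (hRoth : ∀ N, RothLemma K N) {k : ℕ} (hk : 1 ≤ k)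
    (A : ι → Matrix (Fin (k + 1)) (Fin (k + 1)) K) (hA : ∀ w, (A w).det ≠ 0)
    (c : ι → Fin (k + 1) → ℝ) (hc : ∑ w, (m w : ℝ) * ∑ i, c w i = 0) (δ : ℝ) (hδ : 0 < δ) :
    ∃ Q₀ : ℝ, 1 ≤ Q₀ ∧ ∃ 𝒱 : Set (Submodule K (Fin (k + 1) → K)), 𝒱.Finite ∧
      ∀ Q : ℝ, Q₀ ≤ Q → ∀ x : Fin k → Fin (k + 1) → K, LinearIndependent K x →
        (∀ j, Rv R (x j)) → (∀ j, NN v m A (fun w i => Q ^ (-(c w i))) (x j) ≤ Q ^ (-δ)) →
        Submodule.span K (Set.range x) ∈ 𝒱 := by
  obtain ⟨C, hC, hbal⟩ := balance hS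
  set M : ℝ := ((∑ w, m w : ℕ) : ℝ) with hM
  have hMpos : 0 < M := by
    rw [hM]
    exact Nat.cast_pos.mpr (sum_m_pos hS)
  set ε : ℝ := δ / (2 * M) with hε
  have hεpos : 0 < ε := by positivity
  have hc' : ∑ w, (m w : ℝ) * ∑ i : Fin (k + 1), (c w i - ε) < 0 := by
    have h1 : ∀ w, (m w : ℝ) * ∑ i : Fin (k + 1), (c w i - ε) =
        (m w : ℝ) * (∑ i, c w i) - (m w : ℝ) * (((k + 1 : ℕ) : ℝ) * ε) := by
      intro w
      rw [Finset.sum_sub_distrib, Finset.sum_const, Finset.card_univ, Fintype.card_fin,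
        nsmul_eq_mul]
      ring
    rw [Finset.sum_congr rfl fun w _ => h1 w, Finset.sum_sub_distrib, ← Finset.sum_mul, hc,
      ← Nat.cast_sum, ← hM]
    have : 0 < M * (((k + 1 : ℕ) : ℝ) * ε) := by positivity
    linarith
  obtain ⟨Q₁, hQ₁, 𝒱, hfin, h⟩ := lastGap hS hRoth hk A hA (fun w i => c w i - ε) hc'
  refine ⟨max Q₁ (C ^ (1 / ε)), hQ₁.trans (le_max_left _ _), 𝒱, hfin, ?_⟩
  intro Q hQ x hx hxR hxN
  have hQ1 : Q₁ ≤ Q := (le_max_left _ _).trans hQ
  have hQpos : 0 < Q := by linarith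
  have hC0 : 0 < C := by linarith
  have hCQ : C ≤ Q ^ ε := by
    have h1 : C ^ (1 / ε) ≤ Q := (le_max_right _ _).trans hQ
    have h2 := Real.rpow_le_rpow (Real.rpow_nonneg hC0.le _) h1 hεpos.le
    rwa [← Real.rpow_mul hC0.le, one_div, inv_mul_cancel₀ hεpos.ne', Real.rpow_one] at h2
  choose a haR ha0 hatw _ using fun j => hbal (k + 1) A hA (fun w i => Q ^ (-(c w i)))
    (fun w i => Real.rpow_pos_of_pos hQpos _) (x j) (hxR j)
  have hbox : ∀ j w i, v w ((A w).mulVec (a j • x j) i) ≤ Q ^ (c w i - ε) := by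
    intro j w i
    have h1 : Q ^ (-(c w i)) * v w ((A w).mulVec (a j • x j) i) ≤
        tw (v w) (A w) (fun i => Q ^ (-(c w i))) (a j • x j) :=
      le_tw (v w) (A w) (fun i => Q ^ (-(c w i))) (a j • x j) i
    have h2 := h1.trans (hatw j w)
    have h3 : NN v m A (fun w i => Q ^ (-(c w i))) (x j) ^ (1 / M) ≤ Q ^ (-(2 * ε)) := by
      have h4 := Real.rpow_le_rpow (NN_nonneg (fun w i => (Real.rpow_pos_of_pos hQpos _).le) _)
        (hxN j) (by positivity : (0 : ℝ) ≤ 1 / M)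
      refine h4.trans (le_of_eq ?_)
      rw [← Real.rpow_mul hQpos.le]
      congr 1
      rw [hε]
      field_simp
    have h5 : C * NN v m A (fun w i => Q ^ (-(c w i))) (x j) ^ (1 / M) ≤ Q ^ (-ε) := by
      calc C * NN v m A (fun w i => Q ^ (-(c w i))) (x j) ^ (1 / M)
          ≤ Q ^ ε * Q ^ (-(2 * ε)) :=
            mul_le_mul hCQ h3 (Real.rpow_nonneg (NN_nonneg
              (fun w i => (Real.rpow_pos_of_pos hQpos _).le) _) _) (Real.rpow_nonneg hQpos.le _)
        _ = Q ^ (-ε) := by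
            rw [← Real.rpow_add hQpos]
            congr 1
            ring
    have h6 := h2.trans h5
    calc v w ((A w).mulVec (a j • x j) i)
        = Q ^ (c w i) * (Q ^ (-(c w i)) * v w ((A w).mulVec (a j • x j) i)) := by
          rw [← mul_assoc, ← Real.rpow_add hQpos, add_neg_cancel, Real.rpow_zero, one_mul]
      _ ≤ Q ^ (c w i) * Q ^ (-ε) := mul_le_mul_of_nonneg_left h6 (Real.rpow_nonneg hQpos.le _)
      _ = Q ^ (c w i - ε) := by
          rw [← Real.rpow_add hQpos]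
          congr 1
  have hind : LinearIndependent K (fun j => a j • x j) :=
    hx.units_smul (fun j => Units.mk0 (a j) (ha0 j))
  have hspan : Submodule.span K (Set.range (fun j => a j • x j)) =
      Submodule.span K (Set.range x) := by
    apply le_antisymm
    · rw [Submodule.span_le]
      rintro _ ⟨j, rfl⟩
      exact Submodule.smul_mem _ _ (Submodule.subset_span ⟨j, rfl⟩)
    · rw [Submodule.span_le]
      rintro _ ⟨j, rfl⟩
      have h1 : x j = (a j)⁻¹ • (a j • x j) := by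
        rw [smul_smul, inv_mul_cancel₀ (ha0 j), one_smul]
      show x j ∈ Submodule.span K (Set.range (fun j => a j • x j))
      rw [h1]
      exact Submodule.smul_mem _ _ (Submodule.subset_span ⟨j, rfl⟩)
  rw [← hspan]
  exact h Q hQ1 _ hind (fun j => Rv_smul (haR j) (ha0 j) (hxR j)) hbox

end Pool.Agent.Work.SUB
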