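import Pool.Agent.Work.SUB.Tw
import Pool.Agent.Work.SUB.LGN

/-!
# Net: exponents in a bounded region; uniform last gap theorem (block M, module M14)

PROOF of `exists_net`. The set `{c | (∀ w i, |c w i| ≤ B) ∧ ∑ w, m w * ∑ i, c w i = 0}` is compact
in `ι → Fin N → ℝ` (closed and bounded; sup metric), so it is covered by finitely many balls of radius
`η` with centres in it (`IsCompact.finite_cover_balls`).
PROOF of `NN_round`: `Q ^ (-(c' w i)) ≤ Q ^ η * Q ^ (-(c w i))` (`Q ≥ 1`), `NN_mono`, `NN_scale`.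
PROOF of `lastGapUnif`: `η = δ / (2 M)` (`M = ∑ m w ≥ 1`); apply `lastGapN` with `δ / 2` to each of the
finitely many vectors of the net; take the maximum of the `Q₀` and the union of the sets. For `c`
bounded by `B` with weighted sum zero take `c'` in the net with distance `≤ η`:
`NN_{c'} (Y j) ≤ (Q^η)^M NN_c (Y j) ≤ Q^(δ/2) Q^(-δ)`.
-/

set_option autoImplicit false

noncomputable section

namespace Pool.Agent.Work.SUB

theorem exists_net {ι : Type} [Fintype ι] (m : ι → ℕ) (N : ℕ) (B η : ℝ) (hη : 0 < η) :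
    ∃ 𝒞 : Set (ι → Fin N → ℝ), 𝒞.Finite ∧ (∀ c ∈ 𝒞, ∑ w, (m w : ℝ) * ∑ i, c w i = 0) ∧
      ∀ c : ι → Fin N → ℝ, (∀ w i, |c w i| ≤ B) → ∑ w, (m w : ℝ) * ∑ i, c w i = 0 →
        ∃ c' ∈ 𝒞, ∀ w i, |c w i - c' w i| ≤ η := by
  set S : Set (ι → Fin N → ℝ) :=
    {c | (∀ w i, |c w i| ≤ B) ∧ ∑ w, (m w : ℝ) * ∑ i, c w i = 0} with hS
  have hcomp : IsCompact S := by
    have h1 : S = (Set.pi Set.univ fun _ : ι => Set.pi Set.univ fun _ : Fin N => Set.Icc (-B) B) ∩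
        {c | ∑ w, (m w : ℝ) * ∑ i, c w i = 0} := by
      ext c
      simp only [hS, Set.mem_ofPred_eq, Set.mem_inter_iff, Set.mem_pi, Set.mem_univ, true_imp_iff,
        Set.mem_Icc, abs_le]
    rw [h1]
    refine IsCompact.inter_right
      (isCompact_univ_pi fun _ => isCompact_univ_pi fun _ => isCompact_Icc) ?_
    exact isClosed_eq (by fun_prop) continuous_const
  obtain ⟨𝒞, h𝒞S, h𝒞f, h𝒞⟩ := hcomp.finite_cover_balls hη
  refine ⟨𝒞, h𝒞f, fun c hc => (h𝒞S hc).2, fun c hc1 hc2 => ?_⟩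
  have hc : c ∈ S := ⟨hc1, hc2⟩
  obtain ⟨c', hc', hd⟩ := Set.mem_iUnion₂.1 (h𝒞 hc)
  refine ⟨c', hc', fun w i => ?_⟩
  have h1 : dist c c' < η := hd
  have h2 : dist (c w) (c' w) ≤ dist c c' := dist_le_pi_dist _ _ _
  have h3 : dist (c w i) (c' w i) ≤ dist (c w) (c' w) := dist_le_pi_dist _ _ _
  rw [← Real.dist_eq]
  linarith

variable {K : Type} [Field K] {ι : Type} [Fintype ι] {v : ι → AbsoluteValue K ℝ} {m : ι → ℕ}
  {R : Subring K}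

theorem NN_round {N : ℕ} (A : ι → Matrix (Fin N) (Fin N) K) (c c' : ι → Fin N → ℝ) {η Q : ℝ}
    (hQ : 1 ≤ Q) (h : ∀ w i, |c w i - c' w i| ≤ η) (x : Fin N → K) :
    NN v m A (fun w i => Q ^ (-(c' w i))) x ≤
      Q ^ (η * (∑ w, m w : ℕ)) * NN v m A (fun w i => Q ^ (-(c w i))) x := by
  have hQ0 : 0 < Q := by linarith
  rw [Real.rpow_mul hQ0.le, Real.rpow_natCast, ← NN_scale (Real.rpow_nonneg hQ0.le _)]
  refine NN_mono (fun w i => Real.rpow_nonneg hQ0.le _) (fun w i => ?_) x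
  rw [← Real.rpow_add hQ0]
  refine Real.rpow_le_rpow_of_exponent_le hQ ?_
  have := (abs_le.1 (h w i)).2
  linarith

variable [CharZero K] [Height.AdmissibleAbsValues K]

theorem lastGapUnif (hS : IsSD v m R) (hRoth : ∀ N, RothLemma K N) {k : ℕ} (hk : 1 ≤ k)
    (A : ι → Matrix (Fin (k + 1)) (Fin (k + 1)) K) (hA : ∀ w, (A w).det ≠ 0) (B δ : ℝ)
    (hδ : 0 < δ) :
    ∃ Q₀ : ℝ, 1 ≤ Q₀ ∧ ∃ 𝒱 : Set (Submodule K (Fin (k + 1) → K)), 𝒱.Finite ∧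
      ∀ Q : ℝ, Q₀ ≤ Q → ∀ c : ι → Fin (k + 1) → ℝ, (∀ w i, |c w i| ≤ B) →
        ∑ w, (m w : ℝ) * ∑ i, c w i = 0 →
        ∀ x : Fin k → Fin (k + 1) → K, LinearIndependent K x →
        (∀ j, Rv R (x j)) → (∀ j, NN v m A (fun w i => Q ^ (-(c w i))) (x j) ≤ Q ^ (-δ)) →
        Submodule.span K (Set.range x) ∈ 𝒱 := by
  have hM : (0 : ℝ) < (∑ w, m w : ℕ) := by exact_mod_cast sum_m_pos hS
  obtain ⟨𝒞, h𝒞f, h𝒞0, h𝒞⟩ := exists_net m (k + 1) B (δ / (2 * (∑ w, m w : ℕ))) (by positivity)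
  choose! Q₀ hQ₀ 𝒱 h𝒱 h using fun (c : ι → Fin (k + 1) → ℝ)
    (hc : ∑ w, (m w : ℝ) * ∑ i, c w i = 0) => lastGapN hS hRoth hk A hA c hc (δ / 2) (half_pos hδ)
  refine ⟨1 + ∑ c ∈ h𝒞f.toFinset, Q₀ c, ?_, ⋃ c ∈ 𝒞, 𝒱 c,
    h𝒞f.biUnion fun c hc => h𝒱 c (h𝒞0 c hc), ?_⟩
  · have : 0 ≤ ∑ c ∈ h𝒞f.toFinset, Q₀ c := Finset.sum_nonneg fun c hc =>
      zero_le_one.trans (hQ₀ c (h𝒞0 c (h𝒞f.mem_toFinset.1 hc)))
    linarith
  intro Q hQ c hcB hc0 x hx hxR hxN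
  obtain ⟨c', hc', hd⟩ := h𝒞 c hcB hc0
  have hle : Q₀ c' ≤ ∑ c ∈ h𝒞f.toFinset, Q₀ c :=
    Finset.single_le_sum (f := Q₀) (fun c hc =>
      zero_le_one.trans (hQ₀ c (h𝒞0 c (h𝒞f.mem_toFinset.1 hc)))) (h𝒞f.mem_toFinset.2 hc')
  have h1 := hQ₀ c' (h𝒞0 c' hc')
  have hQ1 : 1 ≤ Q := by linarith
  have hQ0 : 0 < Q := by linarith
  refine Set.mem_biUnion hc' (h c' (h𝒞0 c' hc') Q (by linarith) x hx hxR fun j => ?_)
  refine (NN_round A c c' hQ1 hd (x j)).trans ?_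
  refine (mul_le_mul_of_nonneg_left (hxN j) (Real.rpow_nonneg hQ0.le _)).trans ?_
  rw [← Real.rpow_add hQ0]
  refine Real.rpow_le_rpow_of_exponent_le hQ1 (le_of_eq ?_)
  field_simp
  ring

end Pool.Agent.Work.SUB
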