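import Pool.Agent.Work.SUB.CmpBin

/-!
# Pluck: the hyperplane spanned by the wedges determines the subspace (block M, module M13)

PROOF. For `x` independent (a basis) let `H` be the span of the `X_s = wedge (x ∘ emb s)`, `s` not the
top index `s₀`. Claim: for `y : Fin n → K`, `y ∈ span (x '' {i | i.val < n - p})` iff for all
`z : Fin p → Fin n → K` with `z 0 = y` (`1 ≤ p`) one has `wedge z ∈ H`. Since the right-hand side only
depends on `H`, the claim proves the theorem.
Multilinearity: `wedge` is an alternating map in `z` (`Matrix.det` in the rows; e.g. use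
`Matrix.detRowAlternating` or the map `ιMulti` composed with the coordinates), so `wedge z` for
`z i = ∑ j, a i j • x j` is a linear combination of the `wedge (x ∘ f)`, `f : Fin p → Fin n`, which are
`0` if `f` is not injective and `± X_s` with `image f = image (emb s)` otherwise (sort `f`).
(=>) if `y = z 0` is a combination of the `x j`, `j < n - p`, only `f` with `f 0 < n - p` occur, so
`image f` is not the top subset. (<=) if `y = ∑ a j • x j` with `a j₀ ≠ 0` for some `j₀ ≥ n - p`,
let `z` be `y` followed by the other `x j`, `j ≥ n - p`, `j ≠ j₀`, in any order: `wedge z =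
± a j₀ X_{s₀} + (element of H)`: the only `f` occurring with image the top subset has `f 0 = j₀`; as
the `X_s` are independent (`wedge_indep`), `wedge z ∉ H`.
ALTERNATIVE (maybe simpler): coordinates. Let `X` be the matrix with columns `x j`; replacing `x` by
`X⁻¹ x` (and the wedges by `cmp p X⁻¹` of them, `cmp_mulVec_wedge`, `det_cmp_ne_zero`) one may assume
that `x` is the standard basis; then `H = {ζ | ζ s₀ = 0}` and `wedge z s₀` is the determinant of the
last `p` coordinates of the `z i`: it vanishes for all `z` with `z 0 = y` iff the last `p` coordinates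
of `y` vanish.
-/

set_option autoImplicit false

noncomputable section

namespace Pool.Agent.Work.SUB

private theorem mem_span_cols {K : Type} [Field K] {m : ℕ} {M : Matrix (Fin m) (Fin m) K}
    (hM : M.det ≠ 0) (T : Set (Fin m)) (y : Fin m → K) :
    y ∈ Submodule.span K ((fun (j : Fin m) (i : Fin m) => M i j) '' T) ↔
      ∀ j ∉ T, (M⁻¹.mulVec y) j = 0 := by
  have hu : IsUnit M.det := isUnit_iff_ne_zero.2 hM
  have hcol : ∀ j, M.mulVec (Pi.single j 1) = fun i => M i j := fun j => by
    rw [Matrix.mulVec_single_one]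
    rfl
  constructor
  · intro hy
    refine Submodule.span_induction (p := fun y _ => ∀ j ∉ T, (M⁻¹.mulVec y) j = 0)
      ?_ ?_ ?_ ?_ hy
    · rintro _ ⟨k, hk, rfl⟩ j hj
      show (M⁻¹.mulVec fun i => M i k) j = 0
      have hne : j ≠ k := fun h => hj (by rw [h]; exact hk)
      rw [← hcol, Matrix.mulVec_mulVec, Matrix.nonsing_inv_mul M hu, Matrix.one_mulVec,
        Pi.single_eq_of_ne hne]
    · intro j _
      rw [Matrix.mulVec_zero]
      rfl
    · intro a b _ _ ha hb j hj
      rw [Matrix.mulVec_add, Pi.add_apply, ha j hj, hb j hj, add_zero]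
    · intro c a _ ha j hj
      rw [Matrix.mulVec_smul, Pi.smul_apply, ha j hj, smul_zero]
  · intro hy
    have h1 : y = ∑ j, (M⁻¹.mulVec y) j • (fun i => M i j) := by
      have h2 : M.mulVec (M⁻¹.mulVec y) = y := by
        rw [Matrix.mulVec_mulVec, Matrix.mul_nonsing_inv M hu, Matrix.one_mulVec]
      funext i
      conv_lhs => rw [← h2]
      rw [Finset.sum_apply]
      simp only [Matrix.mulVec, dotProduct, Pi.smul_apply, smul_eq_mul]
      exact Finset.sum_congr rfl fun j _ => mul_comm _ _
    rw [h1]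
    refine Submodule.sum_mem _ fun j _ => ?_
    by_cases hj : j ∈ T
    · exact Submodule.smul_mem _ _ (Submodule.subset_span ⟨j, hj, rfl⟩)
    · rw [hy j hj, zero_smul]
      exact Submodule.zero_mem _

private theorem det_swap_ne {K : Type} [Field K] {p : ℕ} (hp : 1 ≤ p) (c : Fin p → K)
    (j0 : Fin p) (hc : c j0 ≠ 0) {N : Matrix (Fin p) (Fin p) K}
    (h0 : ∀ j, N ⟨0, hp⟩ j = c j)
    (h1 : ∀ i, i ≠ ⟨0, hp⟩ → ∀ j, N i j = if Equiv.swap ⟨0, hp⟩ j0 i = j then 1 else 0) :
    N.det ≠ 0 := by
  set σ : Equiv.Perm (Fin p) := Equiv.swap ⟨0, hp⟩ j0 with hσ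
  have hdet := Matrix.det_permute' σ N
  have hval : ∀ i j, i ≠ ⟨0, hp⟩ → (N.submatrix id σ) i j = if i = j then 1 else 0 := by
    intro i j hi
    rw [Matrix.submatrix_apply, id, h1 i hi]
    simp only [EmbeddingLike.apply_eq_iff_eq]
  have htri : (N.submatrix id σ).BlockTriangular id := by
    intro i j hij
    have hi : i ≠ ⟨0, hp⟩ := by
      rintro rfl
      exact absurd hij (by simp [Fin.lt_def])
    have hij' : j < i := hij
    rw [hval i j hi, if_neg (ne_of_gt hij')]
  rw [Matrix.det_of_isUpperTriangular htri] at hdet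
  have hprod : ∏ i, (N.submatrix id σ) i i ≠ 0 := by
    rw [Finset.prod_ne_zero_iff]
    intro i _
    by_cases hi : i = ⟨0, hp⟩
    · subst hi
      rw [Matrix.submatrix_apply, id, h0, hσ, Equiv.swap_apply_left]
      exact hc
    · rw [hval i i hi, if_pos rfl]
      exact one_ne_zero
  intro hN
  rw [hN, mul_zero] at hdet
  exact hprod hdet

/-- the subspace in terms of the hyperplane -/
private theorem mem_low_iff {K : Type} [Field K] {n p : ℕ} (hp : 1 ≤ p) {s₀ : Fin (n.choose p)}
    (hs₀ : IsTop s₀) {x : Fin n → Fin n → K} (hx : LinearIndependent K x) (y : Fin n → K) :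
    y ∈ Submodule.span K (x '' {i | (i : ℕ) < n - p}) ↔
      ∀ z : Fin p → Fin n → K, z ⟨0, hp⟩ = y → wedge z ∈
        Submodule.span K ((fun s : Fin (n.choose p) => wedge (fun i => x (emb s i))) ''
          {s | s ≠ s₀}) := by
  have hpn : p ≤ n := by
    by_contra h
    have h0 := Nat.choose_eq_zero_of_lt (not_le.1 h)
    have h1 := s₀.2
    omega
  set X : Matrix (Fin n) (Fin n) K := (Matrix.of x).transpose with hX
  have hXdet : X.det ≠ 0 := by
    rw [hX, Matrix.det_transpose]
    exact ((Matrix.isUnit_iff_isUnit_det _).1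
      (Matrix.linearIndependent_rows_iff_isUnit.1 hx)).ne_zero
  have hXu : IsUnit X.det := isUnit_iff_ne_zero.2 hXdet
  have hcinv : (cmp p X)⁻¹ = cmp p X⁻¹ := by
    apply Matrix.inv_eq_right_inv
    rw [← cmp_mul, Matrix.mul_nonsing_inv X hXu, cmp_one]
  have hcols : (fun s : Fin (n.choose p) => wedge (fun i => x (emb s i))) =
      fun (s : Fin (n.choose p)) (t : Fin (n.choose p)) => cmp p X t s := by
    funext s
    exact (cmp_col p X s).symm
  have hH : ∀ z : Fin p → Fin n → K, wedge z ∈
      Submodule.span K ((fun s : Fin (n.choose p) => wedge (fun i => x (emb s i))) ''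
          {s | s ≠ s₀}) ↔ (Matrix.of fun i j => (X⁻¹.mulVec (z i)) (emb s₀ j)).det = 0 := by
    intro z
    rw [hcols, mem_span_cols (det_cmp_ne_zero p hXdet), hcinv, cmp_mulVec_wedge]
    constructor
    · intro h
      exact h s₀ (fun h' => h' rfl)
    · intro h j hj
      have : j = s₀ := not_not.1 hj
      subst this
      exact h
  have hlow : y ∈ Submodule.span K (x '' {i | (i : ℕ) < n - p}) ↔
      ∀ j : Fin p, (X⁻¹.mulVec y) (emb s₀ j) = 0 := by
    have h1 := mem_span_cols hXdet {i | (i : ℕ) < n - p} y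
    have h2 : (fun (j : Fin n) (i : Fin n) => X i j) = x := rfl
    rw [h2] at h1
    rw [h1]
    constructor
    · intro h j
      apply h
      show ¬ ((emb s₀ j : ℕ) < n - p)
      rw [hs₀ j]
      omega
    · intro h k hk
      have hk' : n - p ≤ (k : ℕ) := not_lt.1 hk
      have h3 : k = emb s₀ ⟨(k : ℕ) - (n - p), by have := k.2; omega⟩ := by
        apply Fin.ext
        rw [hs₀]
        show (k : ℕ) = n - p + ((k : ℕ) - (n - p))
        omega
      rw [h3]
      exact h _
  rw [hlow]
  constructor
  · rintro h z rfl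
    rw [hH]
    exact Matrix.det_eq_zero_of_row_eq_zero ⟨0, hp⟩ fun j => h j
  · intro h
    by_contra hne
    push Not at hne
    obtain ⟨j0, hj0⟩ := hne
    classical
    have h4 := h (fun i => if i = ⟨0, hp⟩ then y else x (emb s₀ (Equiv.swap ⟨0, hp⟩ j0 i)))
      (if_pos rfl)
    rw [hH] at h4
    refine det_swap_ne hp (fun j => (X⁻¹.mulVec y) (emb s₀ j)) j0 hj0 ?_ ?_ h4
    · intro j
      show (X⁻¹.mulVec (if (⟨0, hp⟩ : Fin p) = ⟨0, hp⟩ then y else _)) (emb s₀ j) = _
      rw [if_pos rfl]
    · intro i hi j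
      show (X⁻¹.mulVec (if i = ⟨0, hp⟩ then y else _)) (emb s₀ j) = _
      rw [if_neg hi]
      have h5 : x (emb s₀ (Equiv.swap ⟨0, hp⟩ j0 i)) =
          X.mulVec (Pi.single (emb s₀ (Equiv.swap ⟨0, hp⟩ j0 i)) 1) := by
        rw [Matrix.mulVec_single_one]
        rfl
      rw [h5, Matrix.mulVec_mulVec, Matrix.nonsing_inv_mul X hXu, Matrix.one_mulVec,
        Pi.single_apply]
      have h6 : (emb s₀ j = emb s₀ (Equiv.swap ⟨0, hp⟩ j0 i)) ↔
          Equiv.swap ⟨0, hp⟩ j0 i = j := by
        rw [(emb s₀).injective.eq_iff]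
        exact eq_comm
      simp only [h6]

theorem pluck {K : Type} [Field K] {n p : ℕ} (hp : 1 ≤ p) {s₀ : Fin (n.choose p)}
    (hs₀ : IsTop s₀) {x x' : Fin n → Fin n → K} (hx : LinearIndependent K x)
    (hx' : LinearIndependent K x')
    (h : Submodule.span K ((fun s : Fin (n.choose p) => wedge (fun i => x (emb s i))) ''
        {s | s ≠ s₀}) =
      Submodule.span K ((fun s : Fin (n.choose p) => wedge (fun i => x' (emb s i))) ''
        {s | s ≠ s₀})) :
    Submodule.span K (x '' {i | (i : ℕ) < n - p}) =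
      Submodule.span K (x' '' {i | (i : ℕ) < n - p}) := by
  ext y
  rw [mem_low_iff hp hs₀ hx y, mem_low_iff hp hs₀ hx' y, h]

end Pool.Agent.Work.SUB
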