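import Pool.Agent.Work.SUB.Upper

/-!
# QBd: polynomial bounds for quasi-minima; exponents of weights (block M, module M14)

PROOF of `qmin_bounds`. Let `a = max over w, i of |c w i|` (or `∑ |c w i|`), `M = ∑ m w`. `NN_lower`
with `s = Q^(-a)`: `c₁ Q^(-a M) ≤ NN (x j)`. `upper` with `wt m t = Q^(-∑ m c) = 1`: `∏ NN (x j) ≤ C`, so
`NN (x j) ≤ C (Q^(a M) / c₁)^(n-1)`. Take `B = a M n + 1` and `Q₀` with `Q₀ ≥ 1/c₁`,
`Q₀ ≥ C (1/c₁)^(n-1)`.
PROOF of `exists_exp`: `c w i = - log (t w i) / log Q`.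
-/

set_option autoImplicit false

noncomputable section

namespace Pool.Agent.Work.SUB

variable {K : Type} [Field K] [Height.AdmissibleAbsValues K] {ι : Type} [Fintype ι]
  {v : ι → AbsoluteValue K ℝ} {m : ι → ℕ} {R : Subring K}

omit [Field K] [Height.AdmissibleAbsValues K] in
theorem wt_rpow (m : ι → ℕ) {n : ℕ} (c : ι → Fin n → ℝ)
    (hc : ∑ w, (m w : ℝ) * ∑ i, c w i = 0) {Q : ℝ} (hQ : 0 < Q) :
    wt m (fun w i => Q ^ (-(c w i))) = 1 := by
  unfold wt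
  have h1 : ∀ w, ∏ i : Fin n, (Q ^ (-(c w i))) ^ m w = Q ^ (-((m w : ℝ) * ∑ i, c w i)) := by
    intro w
    have h2 : ∀ i : Fin n, (Q ^ (-(c w i))) ^ m w = Q ^ (-((m w : ℝ) * c w i)) := by
      intro i
      rw [← Real.rpow_natCast, ← Real.rpow_mul hQ.le]
      congr 1
      ring
    rw [Finset.prod_congr rfl fun i _ => h2 i, ← Real.rpow_sum_of_pos hQ,
      Finset.sum_neg_distrib, Finset.mul_sum]
  rw [Finset.prod_congr rfl fun w _ => h1 w, ← Real.rpow_sum_of_pos hQ,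
    Finset.sum_neg_distrib, hc, neg_zero, Real.rpow_zero]

theorem qmin_bounds (hS : IsSD v m R) {n : ℕ} (hn : 0 < n) (A : ι → Matrix (Fin n) (Fin n) K)
    (hA : ∀ w, (A w).det ≠ 0) (c : ι → Fin n → ℝ) (hc : ∑ w, (m w : ℝ) * ∑ i, c w i = 0) :
    ∃ B : ℝ, 0 ≤ B ∧ ∃ Q₀ : ℝ, 1 ≤ Q₀ ∧ ∀ Q : ℝ, Q₀ ≤ Q → ∀ x : Fin n → Fin n → K,
      QMin v m R A (fun w i => Q ^ (-(c w i))) x → ∀ j,
        Q ^ (-B) ≤ NN v m A (fun w i => Q ^ (-(c w i))) (x j) ∧
        NN v m A (fun w i => Q ^ (-(c w i))) (x j) ≤ Q ^ B := by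
  obtain ⟨c₁, hc₁, hlow⟩ := NN_lower hS hA
  obtain ⟨C, hC1, hup⟩ := upper hS hn A hA
  set M : ℕ := ∑ w, m w with hM
  set a : ℝ := ∑ w, ∑ i, |c w i| with ha
  have ha0 : 0 ≤ a := Finset.sum_nonneg fun w _ => Finset.sum_nonneg fun i _ => abs_nonneg _
  have hca : ∀ w i, c w i ≤ a := by
    intro w i
    have h1 : |c w i| ≤ ∑ i, |c w i| :=
      Finset.single_le_sum (f := fun i => |c w i|) (fun i _ => abs_nonneg _) (Finset.mem_univ i)
    have h2 : ∑ i, |c w i| ≤ a :=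
      Finset.single_le_sum (f := fun w => ∑ i, |c w i|)
        (fun w _ => Finset.sum_nonneg fun i _ => abs_nonneg _) (Finset.mem_univ w)
    exact (le_abs_self _).trans (h1.trans h2)
  set L : ℝ := min c₁ 1 with hL
  have hL0 : 0 < L := lt_min hc₁ zero_lt_one
  have hL1 : L ≤ 1 := min_le_right _ _
  have hLc : L ≤ c₁ := min_le_left _ _
  have hLi : 1 ≤ 1 / L := by rw [le_div_iff₀ hL0]; linarith
  have hn1 : (1 : ℝ) ≤ n := by exact_mod_cast hn
  have hM0 : (0 : ℝ) ≤ M := Nat.cast_nonneg M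
  have haM : 0 ≤ a * M := mul_nonneg ha0 hM0
  have hpow1 : ∀ k : ℕ, 1 ≤ (1 / L) ^ k := fun k => one_le_pow₀ hLi
  have hQ₀1 : 1 ≤ C * (1 / L) ^ n := by
    have := hpow1 n
    nlinarith
  have hQ₀2 : 1 / L ≤ C * (1 / L) ^ n := by
    have h1 : (1 / L) ^ 1 ≤ (1 / L) ^ n := pow_le_pow_right₀ hLi hn
    rw [pow_one] at h1
    have h2 : 0 < (1 / L) ^ n := by positivity
    nlinarith
  have hQ₀3 : C * (1 / L) ^ (n - 1) ≤ C * (1 / L) ^ n :=
    mul_le_mul_of_nonneg_left (pow_le_pow_right₀ hLi (Nat.sub_le _ _)) (by linarith)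
  refine ⟨a * M * n + 1, by positivity, C * (1 / L) ^ n, hQ₀1, fun Q hQ x hx j => ?_⟩
  have hQ1 : 1 ≤ Q := hQ₀1.trans hQ
  have hQ0 : 0 < Q := by linarith
  have ht : ∀ (w : ι) (i : Fin n), 0 < Q ^ (-(c w i)) := fun w i => Real.rpow_pos_of_pos hQ0 _
  have hlow' : ∀ i, L * Q ^ (-(a * M)) ≤ NN v m A (fun w i => Q ^ (-(c w i))) (x i) := by
    intro i
    have h1 := hlow (fun w i => Q ^ (-(c w i))) (Q ^ (-a)) (Real.rpow_pos_of_pos hQ0 _)
      (fun w i => Real.rpow_le_rpow_of_exponent_le hQ1 (by have := hca w i; linarith)) (x i)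
      (hx.mem i)
    have h2 : (Q ^ (-a)) ^ M = Q ^ (-(a * M)) := by
      rw [← Real.rpow_natCast, ← Real.rpow_mul hQ0.le]
      congr 1
      ring
    rw [h2] at h1
    exact (mul_le_mul_of_nonneg_right hLc (Real.rpow_pos_of_pos hQ0 _).le).trans h1
  have hQp : ∀ y : ℝ, 0 < Q ^ y := fun y => Real.rpow_pos_of_pos hQ0 y
  constructor
  · refine le_trans ?_ (hlow' j)
    have h1 : Q ^ (-(a * M * n + 1)) ≤ Q ^ (-(a * M) + (-1)) := by
      apply Real.rpow_le_rpow_of_exponent_le hQ1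
      nlinarith
    rw [Real.rpow_add hQ0, Real.rpow_neg_one] at h1
    have h2 : Q⁻¹ ≤ L := by
      rw [inv_le_comm₀ hQ0 hL0, ← one_div]
      exact hQ₀2.trans hQ
    calc Q ^ (-(a * M * n + 1)) ≤ Q ^ (-(a * M)) * Q⁻¹ := h1
      _ ≤ Q ^ (-(a * M)) * L := mul_le_mul_of_nonneg_left h2 (hQp _).le
      _ = L * Q ^ (-(a * M)) := mul_comm _ _
  · have h1 := hup _ ht x hx
    rw [wt_rpow m c hc hQ0, mul_one, ← Finset.mul_prod_erase _ _ (Finset.mem_univ j)] at h1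
    have h2 : (L * Q ^ (-(a * M))) ^ (n - 1) ≤
        ∏ i ∈ Finset.univ.erase j, NN v m A (fun w i => Q ^ (-(c w i))) (x i) := by
      have h3 : (L * Q ^ (-(a * M))) ^ (n - 1) =
          ∏ _i ∈ Finset.univ.erase j, (L * Q ^ (-(a * M))) := by
        rw [Finset.prod_const, Finset.card_erase_of_mem (Finset.mem_univ j), Finset.card_univ,
          Fintype.card_fin]
      rw [h3]
      exact Finset.prod_le_prod (fun i _ => (mul_pos hL0 (hQp _)).le) fun i _ => hlow' i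
    have h4 : 0 < (L * Q ^ (-(a * M))) ^ (n - 1) := pow_pos (mul_pos hL0 (hQp _)) _
    have hNNj : 0 ≤ NN v m A (fun w i => Q ^ (-(c w i))) (x j) :=
      NN_nonneg (fun w i => (ht w i).le) _
    have h5 : NN v m A (fun w i => Q ^ (-(c w i))) (x j) * (L * Q ^ (-(a * M))) ^ (n - 1) ≤ C :=
      (mul_le_mul_of_nonneg_left h2 hNNj).trans h1
    have h6 : NN v m A (fun w i => Q ^ (-(c w i))) (x j) ≤
        C / (L * Q ^ (-(a * M))) ^ (n - 1) := by
      rwa [le_div_iff₀ h4]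
    refine h6.trans ?_
    have h7 : C / (L * Q ^ (-(a * M))) ^ (n - 1) =
        C * (1 / L) ^ (n - 1) * (Q ^ (a * M)) ^ (n - 1) := by
      rw [Real.rpow_neg hQ0.le, mul_pow, inv_pow, one_div, inv_pow]
      have hz : (Q ^ (a * M)) ^ (n - 1) ≠ 0 := pow_ne_zero _ (hQp _).ne'
      have hl : L ^ (n - 1) ≠ 0 := pow_ne_zero _ hL0.ne'
      field_simp
    have h8 : (Q ^ (a * M)) ^ (n - 1) = Q ^ (a * M * ((n - 1 : ℕ) : ℝ)) := by
      rw [← Real.rpow_natCast, ← Real.rpow_mul hQ0.le]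
    rw [h7, h8]
    have h9 : ((n - 1 : ℕ) : ℝ) ≤ n := by exact_mod_cast Nat.sub_le n 1
    calc C * (1 / L) ^ (n - 1) * Q ^ (a * M * ((n - 1 : ℕ) : ℝ))
        ≤ Q * Q ^ (a * M * ((n - 1 : ℕ) : ℝ)) :=
          mul_le_mul_of_nonneg_right (hQ₀3.trans hQ) (hQp _).le
      _ = Q ^ (1 + a * M * ((n - 1 : ℕ) : ℝ)) := by
          rw [Real.rpow_add hQ0, Real.rpow_one]
      _ ≤ Q ^ (a * M * n + 1) := by
          apply Real.rpow_le_rpow_of_exponent_le hQ1
          have := mul_le_mul_of_nonneg_left h9 haM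
          linarith

omit [Field K] [Height.AdmissibleAbsValues K] in
theorem exists_exp (m : ι → ℕ) {N : ℕ} (t : ι → Fin N → ℝ) (ht : ∀ w i, 0 < t w i)
    (hwt : wt m t = 1) {Q B : ℝ} (hQ : 1 < Q) (hB : ∀ w i, Q ^ (-B) ≤ t w i ∧ t w i ≤ Q ^ B) :
    ∃ c : ι → Fin N → ℝ, (∀ w i, |c w i| ≤ B) ∧ ∑ w, (m w : ℝ) * ∑ i, c w i = 0 ∧
      t = fun w i => Q ^ (-(c w i)) := by
  have hQ0 : 0 < Q := by linarith
  have hlog : 0 < Real.log Q := Real.log_pos hQ
  refine ⟨fun w i => -(Real.log (t w i) / Real.log Q), fun w i => ?_, ?_, ?_⟩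
  · obtain ⟨h1, h2⟩ := hB w i
    have h3 : -B * Real.log Q ≤ Real.log (t w i) := by
      have := Real.log_le_log (Real.rpow_pos_of_pos hQ0 _) h1
      rwa [Real.log_rpow hQ0] at this
    have h4 : Real.log (t w i) ≤ B * Real.log Q := by
      have := Real.log_le_log (ht w i) h2
      rwa [Real.log_rpow hQ0] at this
    rw [abs_neg, abs_le]
    constructor
    · rw [le_div_iff₀ hlog]
      exact h3
    · rw [div_le_iff₀ hlog]
      exact h4
  · have h1 : Real.log (wt m t) = ∑ w, (m w : ℝ) * ∑ i, Real.log (t w i) := by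
      unfold wt
      rw [Real.log_prod (fun w _ => (Finset.prod_pos fun i _ => pow_pos (ht w i) _).ne')]
      refine Finset.sum_congr rfl fun w _ => ?_
      rw [Real.log_prod (fun i _ => (pow_pos (ht w i) _).ne'), Finset.mul_sum]
      exact Finset.sum_congr rfl fun i _ => Real.log_pow _ _
    rw [hwt, Real.log_one] at h1
    have h2 : ∑ w, (m w : ℝ) * ∑ i, -(Real.log (t w i) / Real.log Q) =
        -(∑ w, (m w : ℝ) * ∑ i, Real.log (t w i)) / Real.log Q := by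
      rw [neg_div, Finset.sum_div, ← Finset.sum_neg_distrib]
      refine Finset.sum_congr rfl fun w _ => ?_
      rw [Finset.sum_neg_distrib, ← Finset.sum_div]
      ring
    rw [h2, ← h1]
    simp
  · funext w i
    rw [neg_neg, Real.rpow_def_of_pos hQ0, mul_div_cancel₀ _ hlog.ne', Real.exp_log (ht w i)]

end Pool.Agent.Work.SUB
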