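import Pool.Agent.Work.SUB.GapCore
import Pool.Agent.Work.SUB.QBd
import Pool.Agent.Work.SUB.Net
import Pool.Agent.Work.SUB.Pluck

/-!
# Gap: a gap between consecutive quasi-minima (block M, module M14)

PROOF. `p = n - g`, so `1 ≤ p < n`, `N = n.choose p ≥ 2`, `w₀ : ι`, `s₀` the top index
(`exists_isTop`), `t = Q^(-c)`, `wt m t = 1` (`wt_rpow`). `B, Q₁` from `qmin_bounds`; `C` from
`gapCore`. Let `D = Q^δ` (`≥ C` for `Q` large). `gapCore` gives `π, ρ, Y`, `NN' (Y j) ≤ C Q^(-δ/N)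
≤ Q^(-δ/(2N))` for `Q` large, where the weights are `t'' = modt m w₀ π ρ (wtc p t)`;
`wt m t'' = (∏ ρ) wt m (wtc p t) = 1` (`wt_modt`, `wt_wtc`). By the bounds `Q^(-B) ≤ NN (x j) ≤ Q^B` one
has `Q^(-2pB) ≤ ρ r ≤ Q^(2pB)`, and `wtc p t w s = Q^(-(expc p c w s))` (`wtc_rpow`), so
`Q^(-B') ≤ t'' ≤ Q^B'` with `B' = 2 p B + p max |c|` (`1/m w₀ ≤ 1`, `Q ≥ 1`). `exists_exp`: `t'' =
Q^(-c')` with `|c'| ≤ B'`, weighted sum `0`. Apply `lastGapUnif` (in dimension `N = k + 1`: write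
`obtain ⟨k, hk⟩ : ∃ k, n.choose p = k + 1` and transport along `hk`, for instance by first proving
the version of `lastGapUnif` for `Fin N`, `2 ≤ N`, `Y : Fin (N - 1) → Fin N → K`, by `subst`) with
`B'` and `δ/(2N)`: `span (range Y) ∈ 𝒱`, finite. So the hyperplane `span {X_s | s ≠ s₀}` is in `𝒱`. By
`pluck` the map `H ↦ span (x '' {i | i < n - p})` is well defined on the set of those hyperplanes;
`𝒰 = {U | ∃ H ∈ 𝒱, ∃ x independent, span {X_s | s ≠ s₀} = H ∧ U = span (x '' {i | i.val < g})}` is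
finite (image of a finite set under a partial function: `Set.Finite.subset` of the image of `𝒱` under
a chosen function).
-/

set_option autoImplicit false

noncomputable section

namespace Pool.Agent.Work.SUB

variable {K : Type} [Field K] [CharZero K] [Height.AdmissibleAbsValues K] {ι : Type} [Fintype ι]
  {v : ι → AbsoluteValue K ℝ} {m : ι → ℕ} {R : Subring K}

private theorem lastGapUnif'' (hS : IsSD v m R) (hRoth : ∀ N, RothLemma K N) {N : ℕ} (hN : 2 ≤ N)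
    (A : ι → Matrix (Fin N) (Fin N) K) (hA : ∀ w, (A w).det ≠ 0) (B δ : ℝ)
    (hδ : 0 < δ) :
    ∃ Q₀ : ℝ, 1 ≤ Q₀ ∧ ∃ 𝒱 : Set (Submodule K (Fin N → K)), 𝒱.Finite ∧
      ∀ Q : ℝ, Q₀ ≤ Q → ∀ c : ι → Fin N → ℝ, (∀ w i, |c w i| ≤ B) →
        ∑ w, (m w : ℝ) * ∑ i, c w i = 0 →
        ∀ x : Fin (N - 1) → Fin N → K, LinearIndependent K x →
        (∀ j, Rv R (x j)) → (∀ j, NN v m A (fun w i => Q ^ (-(c w i))) (x j) ≤ Q ^ (-δ)) →
        Submodule.span K (Set.range x) ∈ 𝒱 := by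
  obtain ⟨k, rfl⟩ : ∃ k, N = k + 1 := ⟨N - 1, by omega⟩
  exact lastGapUnif hS hRoth (by omega) A hA B δ hδ

private theorem two_le_choose' {n p : ℕ} (hp : 1 ≤ p) (hpn : p < n) : 2 ≤ n.choose p := by
  obtain ⟨n', rfl⟩ : ∃ n', n = n' + 1 := ⟨n - 1, by omega⟩
  obtain ⟨p', rfl⟩ : ∃ p', p = p' + 1 := ⟨p - 1, by omega⟩
  rw [Nat.choose_succ_succ']
  have h1 : 0 < n'.choose p' := Nat.choose_pos (by omega)
  have h2 : 0 < n'.choose (p' + 1) := Nat.choose_pos (by omega)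
  omega

private theorem finite_plucked {F : Type} [Field F] {n p : ℕ} (hp : 1 ≤ p)
    {s₀ : Fin (n.choose p)} (hs₀ : IsTop s₀) {𝒱 : Set (Submodule F (Fin (n.choose p) → F))}
    (h𝒱 : 𝒱.Finite) :
    {U : Submodule F (Fin n → F) | ∃ x : Fin n → Fin n → F, LinearIndependent F x ∧
      Submodule.span F ((fun s : Fin (n.choose p) => wedge (fun i => x (emb s i))) ''
        {s | s ≠ s₀}) ∈ 𝒱 ∧ U = Submodule.span F (x '' {i | (i : ℕ) < n - p})}.Finite := by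
  classical
  let f : Submodule F (Fin (n.choose p) → F) → Submodule F (Fin n → F) := fun H =>
    if h : ∃ x : Fin n → Fin n → F, LinearIndependent F x ∧
      Submodule.span F ((fun s : Fin (n.choose p) => wedge (fun i => x (emb s i))) ''
        {s | s ≠ s₀}) = H then Submodule.span F (h.choose '' {i | (i : ℕ) < n - p}) else ⊥
  refine (h𝒱.image f).subset ?_
  rintro U ⟨x, hx, hxV, rfl⟩
  refine ⟨_, hxV, ?_⟩
  have h : ∃ x' : Fin n → Fin n → F, LinearIndependent F x' ∧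
      Submodule.span F ((fun s : Fin (n.choose p) => wedge (fun i => x' (emb s i))) ''
        {s | s ≠ s₀}) = Submodule.span F ((fun s : Fin (n.choose p) =>
          wedge (fun i => x (emb s i))) '' {s | s ≠ s₀}) := ⟨x, hx, rfl⟩
  have h1 : f (Submodule.span F ((fun s : Fin (n.choose p) => wedge (fun i => x (emb s i))) ''
      {s | s ≠ s₀})) = Submodule.span F (h.choose '' {i | (i : ℕ) < n - p}) := dif_pos h
  rw [h1]
  exact pluck hp hs₀ h.choose_spec.1 hx h.choose_spec.2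

theorem gap (hS : IsSD v m R) (hRoth : ∀ N, RothLemma K N) {n : ℕ}
    (A : ι → Matrix (Fin n) (Fin n) K) (hA : ∀ w, (A w).det ≠ 0)
    (c : ι → Fin n → ℝ) (hc : ∑ w, (m w : ℝ) * ∑ i, c w i = 0) (g : ℕ) (hg : 1 ≤ g)
    (hgn : g < n) (δ : ℝ) (hδ : 0 < δ) :
    ∃ Q₀ : ℝ, 1 ≤ Q₀ ∧ ∃ 𝒰 : Set (Submodule K (Fin n → K)), 𝒰.Finite ∧
      ∀ Q : ℝ, Q₀ ≤ Q → ∀ x : Fin n → Fin n → K,
        QMin v m R A (fun w i => Q ^ (-(c w i))) x →
        Q ^ δ * NN v m A (fun w i => Q ^ (-(c w i))) (x ⟨g - 1, by omega⟩) ≤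
          NN v m A (fun w i => Q ^ (-(c w i))) (x ⟨g, hgn⟩) →
        Submodule.span K (x '' {i | (i : ℕ) < g}) ∈ 𝒰 := by
  obtain ⟨w₀⟩ := hS.ne
  obtain ⟨p, hpg⟩ : ∃ p, n = g + p := ⟨n - g, by omega⟩
  have hp : 1 ≤ p := by omega
  have hpn : p < n := by omega
  have hn : 0 < n := by omega
  obtain ⟨s₀, hs₀⟩ := exists_isTop (n := n) (p := p) hpn.le
  have hN : 2 ≤ n.choose p := two_le_choose' hp hpn
  have hNpos : (0 : ℝ) < n.choose p := by exact_mod_cast (show 0 < n.choose p by omega)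
  have hA' : ∀ w, (cmp p (A w)).det ≠ 0 := fun w => det_cmp_ne_zero p (hA w)
  obtain ⟨B, hB0, Q₁, hQ₁, hqb⟩ := qmin_bounds hS hn A hA c hc
  obtain ⟨C, hC1, hC⟩ := gapCore hS w₀ hp hpn A hA hs₀
  set a : ℝ := ∑ w, ∑ i, |c w i| with ha
  have hca : ∀ w i, |c w i| ≤ a := fun w i =>
    (Finset.single_le_sum (f := fun i => |c w i|) (fun _ _ => abs_nonneg _)
      (Finset.mem_univ i)).trans
      (Finset.single_le_sum (f := fun w => ∑ i, |c w i|)
        (fun _ _ => Finset.sum_nonneg fun _ _ => abs_nonneg _) (Finset.mem_univ w))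
  have hexp : ∀ w s, |expc p c w s| ≤ p * a := by
    intro w s
    calc |expc p c w s| ≤ ∑ j, |c w (emb s j)| := Finset.abs_sum_le_sum_abs _ _
      _ ≤ ∑ _j : Fin p, a := Finset.sum_le_sum fun j _ => hca w _
      _ = p * a := by rw [Finset.sum_const, Finset.card_univ, Fintype.card_fin, nsmul_eq_mul]
  obtain ⟨Q₂, hQ₂, 𝒱, h𝒱, hlast⟩ := lastGapUnif'' hS hRoth hN (fun w => cmp p (A w)) hA'
    (B * (2 * p : ℕ) + p * a) (δ / (2 * n.choose p)) (by positivity)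
  have hδN : 0 < δ / (2 * n.choose p) := by positivity
  obtain ⟨Q₃, hQ₃⟩ := Filter.eventually_atTop.1 ((tendsto_rpow_atTop hδ).eventually_ge_atTop C)
  obtain ⟨Q₄, hQ₄⟩ := Filter.eventually_atTop.1 ((tendsto_rpow_atTop hδN).eventually_ge_atTop C)
  refine ⟨1 + Q₁ + Q₂ + |Q₃| + |Q₄|, ?_, _, finite_plucked hp hs₀ h𝒱, ?_⟩
  · have h3 := abs_nonneg Q₃
    have h4 := abs_nonneg Q₄
    linarith
  intro Q hQ x hx hgap
  have h3 := abs_nonneg Q₃
  have h4 := abs_nonneg Q₄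
  have h3' := le_abs_self Q₃
  have h4' := le_abs_self Q₄
  have hQ1 : 1 < Q := by linarith
  have hQ0 : 0 < Q := by linarith
  have ht : ∀ w i, 0 < Q ^ (-(c w i)) := fun w i => Real.rpow_pos_of_pos hQ0 _
  have hwt : wt m (fun w i => Q ^ (-(c w i))) = 1 := wt_rpow m c hc hQ0
  have e1 : (⟨n - p - 1, by omega⟩ : Fin n) = ⟨g - 1, by omega⟩ := Fin.ext (by simp only; omega)
  have e2 : (⟨n - p, by omega⟩ : Fin n) = ⟨g, hgn⟩ := Fin.ext (by simp only; omega)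
  obtain ⟨π, ρ, hρ0, hρ1, hρB, Y, hY, hYR, hYN, hYs⟩ := hC (fun w i => Q ^ (-(c w i))) ht hwt x hx
    (Q ^ δ) (hQ₃ Q (by linarith)) (by rw [e1, e2]; exact hgap)
  have hQB : 1 ≤ Q ^ B := Real.one_le_rpow hQ1.le hB0
  have hQB0 : 0 < Q ^ B := by linarith
  have hρb := hρB (Q ^ B) hQB fun j => by
    have := hqb Q (by linarith) x hx j
    rwa [Real.rpow_neg hQ0.le] at this
  have hm : 1 ≤ m w₀ := hS.m_pos w₀
  have hm0 : (0 : ℝ) < m w₀ := by exact_mod_cast hm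
  have hm1 : 1 / (m w₀ : ℝ) ≤ 1 := by
    rw [div_le_one hm0]
    exact_mod_cast hm
  have hpw1 : 1 ≤ (Q ^ B) ^ (2 * p) := one_le_pow₀ hQB
  have hpw0 : 0 < (Q ^ B) ^ (2 * p) := by linarith
  have hpwe : (Q ^ B) ^ (2 * p) = Q ^ (B * (2 * p : ℕ)) := by
    rw [← Real.rpow_natCast, ← Real.rpow_mul hQ0.le]
  -- bounds for the powers of rho
  have hρu : ∀ r, ρ r ^ (1 / (m w₀ : ℝ)) ≤ Q ^ (B * (2 * p : ℕ)) := by
    intro r
    rw [← hpwe]
    calc ρ r ^ (1 / (m w₀ : ℝ)) ≤ ((Q ^ B) ^ (2 * p)) ^ (1 / (m w₀ : ℝ)) :=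
          Real.rpow_le_rpow (hρ0 r).le (hρb r).2 (by positivity)
      _ ≤ ((Q ^ B) ^ (2 * p)) ^ (1 : ℝ) := Real.rpow_le_rpow_of_exponent_le hpw1 hm1
      _ = _ := Real.rpow_one _
  have hρl : ∀ r, Q ^ (-(B * (2 * p : ℕ))) ≤ ρ r ^ (1 / (m w₀ : ℝ)) := by
    intro r
    rw [Real.rpow_neg hQ0.le, ← hpwe]
    calc ((Q ^ B) ^ (2 * p))⁻¹ = (((Q ^ B) ^ (2 * p)) ^ (1 : ℝ))⁻¹ := by rw [Real.rpow_one]
      _ ≤ (((Q ^ B) ^ (2 * p)) ^ (1 / (m w₀ : ℝ)))⁻¹ :=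
          inv_anti₀ (Real.rpow_pos_of_pos hpw0 _) (Real.rpow_le_rpow_of_exponent_le hpw1 hm1)
      _ = (((Q ^ B) ^ (2 * p))⁻¹) ^ (1 / (m w₀ : ℝ)) := (Real.inv_rpow hpw0.le _).symm
      _ ≤ _ := Real.rpow_le_rpow (inv_pos.2 hpw0).le (hρb r).1 (by positivity)
  have hwl : ∀ w s, Q ^ (-(p * a)) ≤ wtc p (fun w i => Q ^ (-(c w i))) w s := by
    intro w s
    rw [wtc_rpow p c hQ0]
    refine Real.rpow_le_rpow_of_exponent_le hQ1.le ?_
    have := (abs_le.1 (hexp w s)).2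
    linarith
  have hwu : ∀ w s, wtc p (fun w i => Q ^ (-(c w i))) w s ≤ Q ^ (p * a) := by
    intro w s
    rw [wtc_rpow p c hQ0]
    refine Real.rpow_le_rpow_of_exponent_le hQ1.le ?_
    have := (abs_le.1 (hexp w s)).1
    linarith
  have ht' : ∀ w s, 0 < wtc p (fun w i => Q ^ (-(c w i))) w s := fun w s => wtc_pos p ht w s
  have hBp : 0 ≤ B * (2 * p : ℕ) := by positivity
  have hone : 1 ≤ Q ^ (B * (2 * p : ℕ)) := Real.one_le_rpow hQ1.le hBp
  have hone' : Q ^ (-(B * (2 * p : ℕ))) ≤ 1 := by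
    rw [Real.rpow_neg hQ0.le]
    exact inv_le_one_of_one_le₀ hone
  have hbd : ∀ w s, Q ^ (-(B * (2 * p : ℕ) + p * a)) ≤
      modt m w₀ π ρ (wtc p (fun w i => Q ^ (-(c w i)))) w s ∧
      modt m w₀ π ρ (wtc p (fun w i => Q ^ (-(c w i)))) w s ≤ Q ^ (B * (2 * p : ℕ) + p * a) := by
    intro w s
    rw [neg_add, Real.rpow_add hQ0, Real.rpow_add hQ0]
    unfold modt
    split_ifs with hw
    · exact ⟨mul_le_mul (hρl _) (hwl _ _) (Real.rpow_nonneg hQ0.le _)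
        (Real.rpow_nonneg (hρ0 _).le _), mul_le_mul (hρu _) (hwu _ _) (ht' _ _).le
        (Real.rpow_nonneg hQ0.le _)⟩
    · constructor
      · calc Q ^ (-(B * (2 * p : ℕ))) * Q ^ (-(p * a)) ≤ 1 * Q ^ (-(p * a)) :=
              mul_le_mul_of_nonneg_right hone' (Real.rpow_nonneg hQ0.le _)
          _ = Q ^ (-(p * a)) := one_mul _
          _ ≤ _ := hwl _ _
      · calc wtc p (fun w i => Q ^ (-(c w i))) w s ≤ Q ^ (p * a) := hwu _ _
          _ = 1 * Q ^ (p * a) := (one_mul _).symm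
          _ ≤ _ := mul_le_mul_of_nonneg_right hone (Real.rpow_nonneg hQ0.le _)
  have hwt'' : wt m (modt m w₀ π ρ (wtc p (fun w i => Q ^ (-(c w i))))) = 1 := by
    rw [wt_modt hm π hρ0, hρ1, wt_wtc m hp hn, hwt, one_pow, one_mul]
  obtain ⟨c', hc'B, hc'0, hc't⟩ := exists_exp m _
    (fun w s => modt_pos w₀ π hρ0 ht' w s) hwt'' hQ1 hbd
  refine ⟨x, hx.indep, ?_, ?_⟩
  · rw [← hYs]
    refine hlast Q (by linarith) c' hc'B hc'0 Y hY hYR fun j => ?_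
    rw [← hc't]
    refine (hYN j).trans ?_
    rw [← Real.rpow_mul hQ0.le]
    have h5 : Q ^ (-(δ / (2 * n.choose p))) =
        Q ^ (δ / (2 * n.choose p)) * Q ^ (δ * -(1 / (n.choose p : ℝ))) := by
      rw [← Real.rpow_add hQ0]
      congr 1
      field_simp
      ring
    rw [h5]
    exact mul_le_mul_of_nonneg_right (hQ₄ Q (by linarith)) (Real.rpow_nonneg hQ0.le _)
  · have : n - p = g := by omega
    rw [this]

end Pool.Agent.Work.SUB
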