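import Pool.Agent.Work.SUB.CmpDefs

/-!
# GapIneq: the largest product (block M, module M14)

PROOF. `emb s` is strictly increasing, so `(emb s i : ℕ) ≤ n - p + i` for all `i` (`emb s i < emb s
(i+1) < ... < n`), i.e. `emb s i ≤ emb s₀ i`; if `s ≠ s₀` then `(emb s 0 : ℕ) < n - p` (otherwise
`emb s i ≥ n - p + i` for all `i`, so `IsTop s`). Hence `a (emb s i) ≤ 2 a (emb s₀ i)` for all `i`, and
`D a (emb s 0) ≤ 2 D a (n-p-1) ≤ 2 a (n-p) = 2 a (emb s₀ 0)`. Multiply.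
-/

set_option autoImplicit false

noncomputable section

namespace Pool.Agent.Work.SUB

private theorem gi_step {n p : ℕ} (f : Fin p ↪o Fin n) (k : ℕ) :
    ∀ i j : Fin p, (j : ℕ) = i + k → (f i : ℕ) + k ≤ f j := by
  induction k with
  | zero =>
    intro i j h
    have h1 : i = j := Fin.ext (by omega)
    subst h1
    exact le_rfl
  | succ k ih =>
    intro i j h
    have hj := j.2
    have h1 := ih i ⟨i + k, by omega⟩ rfl
    have h2 : f ⟨i + k, by omega⟩ < f j := f.strictMono (Fin.lt_def.2 (by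
      show (i : ℕ) + k < j
      omega))
    have h3 := Fin.lt_def.1 h2
    omega

private theorem gi_le {n p : ℕ} (hpn : p < n) (f : Fin p ↪o Fin n) (i : Fin p) :
    (f i : ℕ) ≤ n - p + i := by
  have hi := i.2
  have h1 := gi_step f (p - 1 - i) i ⟨p - 1, by omega⟩ (by
    show p - 1 = (i : ℕ) + (p - 1 - i)
    omega)
  have h2 := (f ⟨p - 1, by omega⟩).2
  omega

theorem gap_ineq {n p : ℕ} (hp : 1 ≤ p) (hpn : p < n) {s₀ : Fin (n.choose p)} (hs₀ : IsTop s₀)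
    (a : Fin n → ℝ) (ha : ∀ i, 0 < a i) (hmono : ∀ i j, i ≤ j → a i ≤ 2 * a j) (D : ℝ)
    (hD : 1 ≤ D) (hgap : D * a ⟨n - p - 1, by omega⟩ ≤ a ⟨n - p, by omega⟩)
    (s : Fin (n.choose p)) (hs : s ≠ s₀) :
    D * ∏ i, a (emb s i) ≤ 2 ^ p * ∏ i, a (emb s₀ i) := by
  have hle : ∀ i, a (emb s i) ≤ 2 * a (emb s₀ i) := fun i => by
    refine hmono _ _ (Fin.le_def.2 ?_)
    rw [hs₀ i]
    exact gi_le hpn (emb s) i
  have h0 : (emb s ⟨0, by omega⟩ : ℕ) < n - p := by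
    by_contra hc
    apply hs
    refine IsTop.unique (fun i => ?_) hs₀
    have h1 := gi_le hpn (emb s) i
    have h2 := gi_step (emb s) i ⟨0, by omega⟩ i (by
      show (i : ℕ) = 0 + i
      omega)
    omega
  have hD0 : D * a (emb s ⟨0, by omega⟩) ≤ 2 * a (emb s₀ ⟨0, by omega⟩) := by
    have h1 : a (emb s ⟨0, by omega⟩) ≤ 2 * a ⟨n - p - 1, by omega⟩ :=
      hmono _ _ (Fin.le_def.2 (by
        show (emb s ⟨0, by omega⟩ : ℕ) ≤ n - p - 1
        omega))
    have h2 : emb s₀ ⟨0, by omega⟩ = ⟨n - p, by omega⟩ := by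
      apply Fin.ext
      rw [hs₀ ⟨0, by omega⟩]
      show n - p + 0 = n - p
      omega
    rw [h2]
    have h3 := mul_le_mul_of_nonneg_left h1 (zero_le_one.trans hD)
    linarith
  obtain ⟨q, rfl⟩ : ∃ q, p = q + 1 := ⟨p - 1, by omega⟩
  rw [Fin.prod_univ_succ, Fin.prod_univ_succ]
  have h3 : ∏ i : Fin q, a (emb s i.succ) ≤ 2 ^ q * ∏ i : Fin q, a (emb s₀ i.succ) := by
    have h4 : ∏ i : Fin q, a (emb s i.succ) ≤ ∏ i : Fin q, (2 * a (emb s₀ i.succ)) :=
      Finset.prod_le_prod (fun i _ => (ha _).le) fun i _ => hle _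
    refine h4.trans_eq ?_
    rw [Finset.prod_mul_distrib, Finset.prod_const, Finset.card_univ, Fintype.card_fin]
  calc D * (a (emb s 0) * ∏ i : Fin q, a (emb s i.succ))
      = (D * a (emb s 0)) * ∏ i : Fin q, a (emb s i.succ) := by ring
    _ ≤ (2 * a (emb s₀ 0)) * (2 ^ q * ∏ i : Fin q, a (emb s₀ i.succ)) :=
        mul_le_mul hD0 h3 (Finset.prod_nonneg fun i _ => (ha _).le)
          (mul_nonneg zero_le_two (ha _).le)
    _ = 2 ^ (q + 1) * (a (emb s₀ 0) * ∏ i : Fin q, a (emb s₀ i.succ)) := by ring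

end Pool.Agent.Work.SUB
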