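import Pool.Agent.Work.SUB.FlatN
import Pool.Agent.Work.SUB.FirstLow
import Pool.Agent.Work.SUB.CmpNN
import Pool.Agent.Work.SUB.CmpSum
import Pool.Agent.Work.SUB.GapIneq

/-!
# GapCore: a gap between consecutive quasi-minima gives `N - 1` small wedges (block M, module M14)

`p = n - g`, `N = n.choose p ≥ 2`, `A' = fun w => cmp p (A w)`, `t' = wtc p t`.

PROOF. `X s = wedge (fun i => x (emb s i))`, `lam s = ∏ i, NN (x (emb s i))`, `F = (p!)^M`,
`E = (n-1).choose (p-1)`. `wt m t' = 1` (`wt_wtc`); `X` independent (`wedge_indep`), `Rv`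
(`Rv_wedge`), `NN' (X s) ≤ F lam s` (`NN_wedge_le`). `∏ s, lam s = (∏ j, NN (x j))^E` (`prod_emb`) lies
between `c₁₀^E` and `C₁₁^E` (`lower`, `upper`, `wt m t = 1`). `first_low` gives
`c lam r ≤ F^N C₁₁^E NN' Y` for `Y ∉ span (X '' {s ≠ r})`. `gap_ineq` with `a j = NN (x j)`
(`QMin.mono`): `D lam s ≤ 2^p lam s₀` for `s ≠ s₀`, i.e. `G lam s ≤ lam s₀` with `G = D / 2^p`. Apply
`flatN` with suitable `c₀, C₀` (depending only on `A`, `n`, `p`), for `D ≥ 2^p C`. The bounds for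
`ρ`: `B⁻¹ ≤ NN (x j) ≤ B` gives `(B^p)⁻¹ ≤ lam s ≤ B^p`, so `(B^(2p))⁻¹ ≤ ρ ≤ B^(2p)`. Finally
`C G^(-1/N) = C (2^p)^(1/N) D^(-1/N)`; enlarge `C`.
-/

set_option autoImplicit false

noncomputable section

namespace Pool.Agent.Work.SUB

variable {K : Type} [Field K] [Height.AdmissibleAbsValues K] {ι : Type} [Fintype ι]
  {v : ι → AbsoluteValue K ℝ} {m : ι → ℕ} {R : Subring K}

private theorem two_le_choose {n p : ℕ} (hp : 1 ≤ p) (hpn : p < n) : 2 ≤ n.choose p := by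
  obtain ⟨n', rfl⟩ : ∃ n', n = n' + 1 := ⟨n - 1, by omega⟩
  obtain ⟨p', rfl⟩ : ∃ p', p = p' + 1 := ⟨p - 1, by omega⟩
  rw [Nat.choose_succ_succ']
  have h1 : 0 < n'.choose p' := Nat.choose_pos (by omega)
  have h2 : 0 < n'.choose (p' + 1) := Nat.choose_pos (by omega)
  omega

theorem gapCore (hS : IsSD v m R) (w₀ : ι) {n p : ℕ} (hp : 1 ≤ p) (hpn : p < n)
    (A : ι → Matrix (Fin n) (Fin n) K) (hA : ∀ w, (A w).det ≠ 0) {s₀ : Fin (n.choose p)}
    (hs₀ : IsTop s₀) : ∃ C : ℝ, 1 ≤ C ∧ ∀ t : ι → Fin n → ℝ, (∀ w i, 0 < t w i) → wt m t = 1 →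
      ∀ x : Fin n → Fin n → K, QMin v m R A t x → ∀ D : ℝ, C ≤ D →
      D * NN v m A t (x ⟨n - p - 1, by omega⟩) ≤ NN v m A t (x ⟨n - p, by omega⟩) →
      ∃ (π : Equiv.Perm (Fin (n.choose p))) (ρ : Fin (n.choose p) → ℝ), (∀ r, 0 < ρ r) ∧
        ∏ r, ρ r = 1 ∧
        (∀ B : ℝ, 1 ≤ B → (∀ j, B⁻¹ ≤ NN v m A t (x j) ∧ NN v m A t (x j) ≤ B) →
          ∀ r, (B ^ (2 * p))⁻¹ ≤ ρ r ∧ ρ r ≤ B ^ (2 * p)) ∧
        ∃ Y : Fin (n.choose p - 1) → Fin (n.choose p) → K, LinearIndependent K Y ∧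
          (∀ j, Rv R (Y j)) ∧
          (∀ j, NN v m (fun w => cmp p (A w)) (modt m w₀ π ρ (wtc p t)) (Y j) ≤
            C * D ^ (-(1 / (n.choose p : ℝ)))) ∧
          Submodule.span K (Set.range Y) =
            Submodule.span K ((fun s : Fin (n.choose p) => wedge (fun i => x (emb s i))) ''
              {s | s ≠ s₀}) := by
  have hn : 0 < n := by omega
  have hN : 2 ≤ n.choose p := two_le_choose hp hpn
  have hA' : ∀ w, (cmp p (A w)).det ≠ 0 := fun w => det_cmp_ne_zero p (hA w)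
  obtain ⟨c₁, hc₁, hlow⟩ := lower hS A hA
  obtain ⟨C₁, hC₁, hup⟩ := upper hS hn A hA
  obtain ⟨c₂, hc₂, hfl⟩ := first_low hS (fun w => cmp p (A w)) hA'
  set F : ℝ := (p.factorial : ℝ) ^ (∑ w, m w) with hF
  have hF1 : 1 ≤ F := one_le_pow₀ (by exact_mod_cast Nat.one_le_iff_ne_zero.2 p.factorial_ne_zero)
  have hF0 : 0 < F := by linarith
  have hC₁0 : 0 < C₁ := by linarith
  set E : ℕ := (n - 1).choose (p - 1) with hE
  have hk0 : 0 < F ^ (n.choose p) * C₁ ^ E := by positivity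
  obtain ⟨C, hC1, hC⟩ := flatN hS w₀ hN (fun w => cmp p (A w)) hA'
    (min (c₂ / (F ^ (n.choose p) * C₁ ^ E)) (c₁ ^ E)) (C₁ ^ E)
    (lt_min (div_pos hc₂ hk0) (pow_pos hc₁ _))
  refine ⟨2 ^ p * C, ?_, ?_⟩
  · have : (1 : ℝ) ≤ 2 ^ p := one_le_pow₀ (by norm_num)
    nlinarith
  intro t ht hwt x hx D hD hgap
  have h2p : (0 : ℝ) < 2 ^ p := by positivity
  have h2p1 : (1 : ℝ) ≤ 2 ^ p := one_le_pow₀ (by norm_num)
  have hD1 : 1 ≤ D := by nlinarith
  have hD0 : 0 < D := by linarith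
  have ha : ∀ j, 0 < NN v m A t (x j) := fun j => NN_pos hA ht (hx.mem j).1
  set lam : Fin (n.choose p) → ℝ := fun s => ∏ i, NN v m A t (x (emb s i)) with hlam
  have hlam0 : ∀ s, 0 < lam s := fun s => Finset.prod_pos fun i _ => ha _
  have hprod : ∏ s, lam s = (∏ j, NN v m A t (x j)) ^ E :=
    prod_emb hp hn (fun j => NN v m A t (x j))
  have hP0 : 0 < ∏ j, NN v m A t (x j) := Finset.prod_pos fun j _ => ha j
  have hP1 : c₁ ≤ ∏ j, NN v m A t (x j) := by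
    have := hlow t ht x hx.indep hx.mem
    rwa [hwt, mul_one] at this
  have hP2 : ∏ j, NN v m A t (x j) ≤ C₁ := by
    have := hup t ht x hx
    rwa [hwt, mul_one] at this
  have hl1 : c₁ ^ E ≤ ∏ s, lam s := by
    rw [hprod]
    exact pow_le_pow_left₀ hc₁.le hP1 _
  have hl2 : ∏ s, lam s ≤ C₁ ^ E := by
    rw [hprod]
    exact pow_le_pow_left₀ hP0.le hP2 _
  have ht' : ∀ w s, 0 < wtc p t w s := fun w s => wtc_pos p ht w s
  have hwt' : wt m (wtc p t) = 1 := by rw [wt_wtc m hp hn, hwt, one_pow]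
  have hX : LinearIndependent K (fun s : Fin (n.choose p) => wedge (fun i => x (emb s i))) :=
    wedge_indep p hx.indep
  have hfirst : ∀ r Y, Rv R Y → Y ∉ Submodule.span K
      ((fun s : Fin (n.choose p) => wedge (fun i => x (emb s i))) '' {s | s ≠ r}) →
      min (c₂ / (F ^ (n.choose p) * C₁ ^ E)) (c₁ ^ E) * lam r ≤
        NN v m (fun w => cmp p (A w)) (wtc p t) Y := by
    intro r Y hY hYr
    have h1 := hfl (wtc p t) ht' hwt' _ hX (fun s => Rv_wedge p hx.indep hx.mem s) lam F hF1 hlam0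
      (fun s => NN_wedge_le p A t ht (fun i => x (emb s i))) r Y hY hYr
    have hNN : 0 ≤ NN v m (fun w => cmp p (A w)) (wtc p t) Y := NN_nonneg (fun w s => (ht' w s).le) Y
    have h2 : F ^ (n.choose p) * (∏ s, lam s) * NN v m (fun w => cmp p (A w)) (wtc p t) Y ≤
        F ^ (n.choose p) * C₁ ^ E * NN v m (fun w => cmp p (A w)) (wtc p t) Y :=
      mul_le_mul_of_nonneg_right (mul_le_mul_of_nonneg_left hl2 (by positivity)) hNN
    refine (mul_le_mul_of_nonneg_right (min_le_left _ _) (hlam0 r).le).trans ?_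
    rw [div_mul_eq_mul_div, div_le_iff₀ hk0]
    linarith
  have hG : ∀ s, s ≠ s₀ → D / 2 ^ p * lam s ≤ lam s₀ := by
    intro s hs
    have h1 := gap_ineq hp hpn hs₀ (fun j => NN v m A t (x j)) ha
      (fun i j hij => hx.mono hij) D hD1 hgap s hs
    rw [div_mul_eq_mul_div, div_le_iff₀ h2p]
    linarith
  have hCG : C ≤ D / 2 ^ p := by
    rw [le_div_iff₀ h2p]
    linarith
  obtain ⟨π, ρ, hρ0, hρ1, hρB, Y, hY, hYR, hYN, hYs⟩ := hC (wtc p t) ht' hwt' _ hX lam hlam0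
    ((min_le_right _ _).trans hl1) hl2 hfirst s₀ (D / 2 ^ p) hG hCG
  refine ⟨π, ρ, hρ0, hρ1, ?_, Y, hY, hYR, ?_, hYs⟩
  · intro B hB hBx r
    have hB0 : 0 < B := by linarith
    have h1 := hρB (B ^ p) (one_le_pow₀ hB) (fun s => ⟨?_, ?_⟩) r
    · rw [← pow_mul, mul_comm p 2] at h1
      exact h1
    · have : ∏ _i : Fin p, B⁻¹ ≤ lam s :=
        Finset.prod_le_prod (fun i _ => (inv_pos.2 hB0).le) fun i _ => (hBx _).1
      rwa [Finset.prod_const, Finset.card_univ, Fintype.card_fin, inv_pow] at this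
    · have : lam s ≤ ∏ _i : Fin p, B :=
        Finset.prod_le_prod (fun i _ => (ha _).le) fun i _ => (hBx _).2
      rwa [Finset.prod_const, Finset.card_univ, Fintype.card_fin] at this
  · intro j
    refine (hYN j).trans ?_
    have hNpos : (0 : ℝ) < n.choose p := by exact_mod_cast (show 0 < n.choose p by omega)
    have h1 : (D / 2 ^ p) ^ (-(1 / (n.choose p : ℝ))) =
        D ^ (-(1 / (n.choose p : ℝ))) * ((2 : ℝ) ^ p) ^ (1 / (n.choose p : ℝ)) := by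
      rw [Real.div_rpow hD0.le h2p.le, Real.rpow_neg h2p.le, div_inv_eq_mul]
    have h2 : ((2 : ℝ) ^ p) ^ (1 / (n.choose p : ℝ)) ≤ 2 ^ p := by
      have h3 : ((2 : ℝ) ^ p) ^ (1 / (n.choose p : ℝ)) ≤ ((2 : ℝ) ^ p) ^ (1 : ℝ) := by
        refine Real.rpow_le_rpow_of_exponent_le h2p1 ?_
        rw [div_le_one hNpos]
        exact_mod_cast (show 1 ≤ n.choose p by omega)
      rwa [Real.rpow_one] at h3
    rw [h1]
    have h3 : 0 < D ^ (-(1 / (n.choose p : ℝ))) := Real.rpow_pos_of_pos hD0 _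
    have hC0 : 0 < C := by linarith
    calc C * (D ^ (-(1 / (n.choose p : ℝ))) * ((2 : ℝ) ^ p) ^ (1 / (n.choose p : ℝ)))
        ≤ C * (D ^ (-(1 / (n.choose p : ℝ))) * 2 ^ p) := by gcongr
      _ = _ := by ring

end Pool.Agent.Work.SUB
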