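import Pool.Agent.Work.SUB.LGDefs

/-!
# LGCount: counting multi-indices, Chebyshev's inequality (block E, Mathlib only)

`card_MI_le`: `(MI d).card = ∏ h, (piAntidiag univ (d h)).card` (`Fintype.card_piFinset`), and
`piAntidiag univ D ⊆ Fintype.piFinset (fun _ => range (D + 1))`, so its cardinality is at most
`(D + 1) ^ n ≤ (2 ^ D) ^ n` (`Nat.lt_two_pow_self` gives `D + 1 ≤ 2 ^ D`).

`MI_nonempty`: put `j h = Pi.single 0 (d h)` (`0 < n`).

`count_le`. Let `a = piAntidiag univ`, `T h = a (d h)` (a nonempty finset of functions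
`Fin n → ℕ`), and `f h (u) = ∑ i, c i * u i / d h - cbar` for `u ∈ T h`, `cbar = (∑ i, c i) / n`.
(1) `∑_{u ∈ T h} u i` does not depend on `i` (the permutation `Equiv.swap i i'` of the coordinates
  maps `T h` to itself: `Finset.sum_bij`/`Finset.sum_nbij'`), and summing over `i` gives
  `d h * (T h).card`; so `∑_{u ∈ T h} u i = d h * (T h).card / n` and `∑_{u ∈ T h} f h u = 0`.
(2) `|f h u| ≤ 2 B` because `∑ i, u i / d h = 1` and `|cbar| ≤ B`.
(3) `∑_{j ∈ MI d} (∑ h, f h (j h))^2 ≤ N * (2B)^2 * (MI d).card`: expand the square; for `h ≠ h'`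
  the sum over `j ∈ MI d = piFinset T` of `f h (j h) * f h' (j h')` is zero: it equals
  `∏_g (∑_{u ∈ T g} F g u)` with `F h = f h`, `F h' = f h'`, `F g = 1` otherwise
  (`Finset.prod_univ_sum` : `∏ i, ∑ j ∈ t i, f i j = ∑ p ∈ Fintype.piFinset t, ∏ x, f x (p x)`),
  and the factor for `g = h` vanishes by (1). The diagonal terms are `≤ (2B)^2`.
(4) For `j` in the filtered set `∑ h, f h (j h) ≥ N ε > 0`, so its square is `≥ N^2 ε^2`. Hence
  `card (filter) * (N^2 ε^2) ≤ N * (2B)^2 * (MI d).card`; divide by `N`.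
-/

set_option autoImplicit false

noncomputable section

namespace Pool.Agent.Work.SUB

open Finset

private theorem card_anti_le (n D : ℕ) :
    ((Finset.univ : Finset (Fin n)).piAntidiag D).card ≤ 2 ^ (n * D) := by
  have h1 : ((Finset.univ : Finset (Fin n)).piAntidiag D) ⊆
      Fintype.piFinset (fun _ => range (D + 1)) := by
    intro u hu
    rw [Finset.mem_piAntidiag] at hu
    rw [Fintype.mem_piFinset]
    intro i
    rw [mem_range, Nat.lt_succ_iff, ← hu.1]
    exact Finset.single_le_sum (f := u) (fun _ _ => Nat.zero_le _) (Finset.mem_univ i)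
  calc ((Finset.univ : Finset (Fin n)).piAntidiag D).card
      ≤ (Fintype.piFinset (fun _ : Fin n => range (D + 1))).card := Finset.card_le_card h1
    _ = (D + 1) ^ n := by rw [Fintype.card_piFinset]; simp
    _ ≤ (2 ^ D) ^ n := Nat.pow_le_pow_left (Nat.lt_two_pow_self) n
    _ = 2 ^ (n * D) := by rw [← pow_mul, mul_comm]

theorem card_MI_le {N n : ℕ} (d : Fin N → ℕ) :
    (MI (n := n) d).card ≤ 2 ^ (n * ∑ h, d h) := by
  rw [MI, Fintype.card_piFinset, Finset.mul_sum, ← Finset.prod_pow_eq_pow_sum]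
  exact Finset.prod_le_prod' fun h _ => card_anti_le n (d h)

theorem MI_nonempty {N n : ℕ} (hn : 0 < n) (d : Fin N → ℕ) : (MI (n := n) d).Nonempty := by
  refine ⟨fun h => Pi.single ⟨0, hn⟩ (d h), ?_⟩
  rw [mem_MI]
  intro h
  simp [Finset.sum_pi_single']

/-- The sum of a coordinate. -/
private theorem sum_coord {n D : ℕ} (i i' : Fin n) :
    ∑ u ∈ (Finset.univ : Finset (Fin n)).piAntidiag D, (u i : ℝ) =
      ∑ u ∈ (Finset.univ : Finset (Fin n)).piAntidiag D, (u i' : ℝ) := by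
  refine Finset.sum_nbij' (fun u => u ∘ Equiv.swap i i') (fun u => u ∘ Equiv.swap i i') ?_ ?_ ?_ ?_
    ?_
  · intro u hu
    rw [Finset.mem_piAntidiag] at hu ⊢
    refine ⟨?_, fun _ _ => mem_univ _⟩
    rw [← hu.1]
    exact Equiv.sum_comp (Equiv.swap i i') u
  · intro u hu
    rw [Finset.mem_piAntidiag] at hu ⊢
    refine ⟨?_, fun _ _ => mem_univ _⟩
    rw [← hu.1]
    exact Equiv.sum_comp (Equiv.swap i i') u
  · intro u _
    funext a
    simp
  · intro u _
    funext a
    simp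
  · intro u _
    simp

private theorem sum_coord_eq {n D : ℕ} (i : Fin n) :
    (n : ℝ) * ∑ u ∈ (Finset.univ : Finset (Fin n)).piAntidiag D, (u i : ℝ) =
      D * ((Finset.univ : Finset (Fin n)).piAntidiag D).card := by
  have h1 : ∑ i' : Fin n, ∑ u ∈ (Finset.univ : Finset (Fin n)).piAntidiag D, (u i' : ℝ) =
      (n : ℝ) * ∑ u ∈ (Finset.univ : Finset (Fin n)).piAntidiag D, (u i : ℝ) := by
    rw [Finset.sum_congr rfl fun i' _ => sum_coord i' i]
    rw [Finset.sum_const, Finset.card_univ, Fintype.card_fin, nsmul_eq_mul]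
  rw [← h1, Finset.sum_comm]
  have h2 : ∀ u ∈ (Finset.univ : Finset (Fin n)).piAntidiag D, ∑ i' : Fin n, (u i' : ℝ) = D := by
    intro u hu
    rw [Finset.mem_piAntidiag] at hu
    rw [← hu.1]
    push_cast
    rfl
  rw [Finset.sum_congr rfl h2, Finset.sum_const, nsmul_eq_mul, mul_comm]

private def ff {n : ℕ} (c : Fin n → ℝ) (D : ℕ) (u : Fin n → ℕ) : ℝ :=
  ∑ i, c i * (u i : ℝ) / D - (∑ i, c i) / n

private theorem sum_ff {n D : ℕ} (hn : 0 < n) (hD : 1 ≤ D) (c : Fin n → ℝ) :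
    ∑ u ∈ (Finset.univ : Finset (Fin n)).piAntidiag D, ff c D u = 0 := by
  have hD' : (D : ℝ) ≠ 0 := by positivity
  have hn' : (n : ℝ) ≠ 0 := by positivity
  unfold ff
  rw [Finset.sum_sub_distrib, Finset.sum_comm, Finset.sum_const, nsmul_eq_mul]
  have h1 : ∀ i : Fin n, ∑ u ∈ (Finset.univ : Finset (Fin n)).piAntidiag D, c i * (u i : ℝ) / D =
      c i * ((Finset.univ : Finset (Fin n)).piAntidiag D).card / n := by
    intro i
    have h2 := sum_coord_eq (D := D) i
    rw [← Finset.sum_div, ← Finset.mul_sum]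
    rw [div_eq_div_iff hD' hn']
    linear_combination c i * h2
  rw [Finset.sum_congr rfl fun i _ => h1 i, ← Finset.sum_div, ← Finset.sum_mul]
  ring

private theorem abs_ff {n D : ℕ} (hn : 0 < n) (hD : 1 ≤ D) (c : Fin n → ℝ) {B : ℝ}
    (hB : ∀ i, |c i| ≤ B) {u : Fin n → ℕ}
    (hu : u ∈ (Finset.univ : Finset (Fin n)).piAntidiag D) : |ff c D u| ≤ 2 * B := by
  have hD' : (0 : ℝ) < D := by positivity
  have hn' : (0 : ℝ) < n := by positivity
  rw [Finset.mem_piAntidiag] at hu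
  have h1 : |∑ i, c i * (u i : ℝ) / D| ≤ B := by
    calc |∑ i, c i * (u i : ℝ) / D| ≤ ∑ i, |c i * (u i : ℝ) / D| := Finset.abs_sum_le_sum_abs _ _
      _ ≤ ∑ i, B * (u i : ℝ) / D := by
        refine Finset.sum_le_sum fun i _ => ?_
        rw [abs_div, abs_mul, abs_of_pos hD', abs_of_nonneg (a := (u i : ℝ)) (Nat.cast_nonneg (u i))]
        exact div_le_div_of_nonneg_right
          (mul_le_mul_of_nonneg_right (hB i) (Nat.cast_nonneg _)) hD'.le
      _ = B := by
        rw [← Finset.sum_div, ← Finset.mul_sum]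
        have : ∑ i, (u i : ℝ) = D := by rw [← hu.1]; push_cast; rfl
        rw [this, mul_div_assoc, div_self hD'.ne', mul_one]
  have h2 : |(∑ i, c i) / (n : ℝ)| ≤ B := by
    rw [abs_div, abs_of_pos hn', div_le_iff₀ hn']
    calc |∑ i, c i| ≤ ∑ i, |c i| := Finset.abs_sum_le_sum_abs _ _
      _ ≤ ∑ _i : Fin n, B := Finset.sum_le_sum fun i _ => hB i
      _ = B * n := by rw [Finset.sum_const, Finset.card_univ, Fintype.card_fin, nsmul_eq_mul]; ring
  unfold ff
  calc |∑ i, c i * (u i : ℝ) / D - (∑ i, c i) / n| ≤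
      |∑ i, c i * (u i : ℝ) / D| + |(∑ i, c i) / (n : ℝ)| := abs_sub _ _
    _ ≤ 2 * B := by linarith

private theorem cross {N n : ℕ} (hn : 0 < n) (d : Fin N → ℕ) (hd : ∀ h, 1 ≤ d h)
    (c : Fin n → ℝ) {h h' : Fin N} (hh : h ≠ h') :
    ∑ j ∈ MI (n := n) d, ff c (d h) (j h) * ff c (d h') (j h') = 0 := by
  classical
  have h1 : ∀ j : Fin N → Fin n → ℕ, ff c (d h) (j h) * ff c (d h') (j h') =
      ∏ g, (if g = h ∨ g = h' then ff c (d g) (j g) else 1) := by
    intro j
    rw [← Finset.prod_subset (Finset.subset_univ ({h, h'} : Finset (Fin N)))]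
    · rw [Finset.prod_pair hh]
      simp
    · intro g _ hg
      rw [if_neg]
      simpa using hg
  rw [Finset.sum_congr rfl fun j _ => h1 j, MI,
    ← Finset.prod_univ_sum (fun g => (Finset.univ : Finset (Fin n)).piAntidiag (d g))
      (fun g u => if g = h ∨ g = h' then ff c (d g) u else 1)]
  refine Finset.prod_eq_zero (Finset.mem_univ h) ?_
  simp only [true_or, if_true]
  exact sum_ff hn (hd h) c

theorem count_le {N n : ℕ} (hn : 0 < n) (hN : 0 < N) (d : Fin N → ℕ) (hd : ∀ h, 1 ≤ d h)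
    (c : Fin n → ℝ) {B : ℝ} (hB : ∀ i, |c i| ≤ B) {ε : ℝ} (hε : 0 < ε) :
    (((MI (n := n) d).filter fun j => (N : ℝ) * ((∑ i, c i) / n + ε) ≤
      ∑ h, ∑ i, c i * (j h i : ℝ) / d h).card : ℝ) * (N * ε ^ 2) ≤
      4 * B ^ 2 * (MI (n := n) d).card := by
  classical
  have hN' : (0 : ℝ) < N := by positivity
  have h3 : ∑ j ∈ MI (n := n) d, (∑ h, ff c (d h) (j h)) ^ 2 ≤
      N * (4 * B ^ 2) * (MI (n := n) d).card := by
    have e1 : ∀ j : Fin N → Fin n → ℕ, (∑ h, ff c (d h) (j h)) ^ 2 =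
        ∑ h, ∑ h', ff c (d h) (j h) * ff c (d h') (j h') := by
      intro j
      rw [sq, Finset.sum_mul_sum]
    rw [Finset.sum_congr rfl fun j _ => e1 j, Finset.sum_comm]
    calc ∑ h, ∑ j ∈ MI (n := n) d, ∑ h', ff c (d h) (j h) * ff c (d h') (j h')
        = ∑ h, ∑ j ∈ MI (n := n) d, ff c (d h) (j h) * ff c (d h) (j h) := by
          refine Finset.sum_congr rfl fun h _ => ?_
          rw [Finset.sum_comm]
          refine Finset.sum_eq_single h ?_ ?_
          · intro h' _ hh'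
            exact cross hn d hd c (Ne.symm hh')
          · intro hh
            exact absurd (Finset.mem_univ h) hh
      _ ≤ ∑ _h : Fin N, ∑ _j ∈ MI (n := n) d, 4 * B ^ 2 := by
          refine Finset.sum_le_sum fun h _ => Finset.sum_le_sum fun j hj => ?_
          rw [mem_MI] at hj
          have h5 : j h ∈ (Finset.univ : Finset (Fin n)).piAntidiag (d h) := by
            rw [Finset.mem_piAntidiag]
            exact ⟨hj h, fun _ _ => Finset.mem_univ _⟩
          have h6 := abs_ff hn (hd h) c hB h5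
          have h7 : (ff c (d h) (j h)) ^ 2 ≤ (2 * B) ^ 2 := sq_le_sq' (by
            have := neg_abs_le (ff c (d h) (j h)); linarith) (by
            have := le_abs_self (ff c (d h) (j h)); linarith)
          nlinarith
      _ = N * (4 * B ^ 2) * (MI (n := n) d).card := by
          rw [Finset.sum_const, Finset.sum_const, Finset.card_univ, Fintype.card_fin,
            nsmul_eq_mul, nsmul_eq_mul]
          ring
  set Fl := (MI (n := n) d).filter fun j => (N : ℝ) * ((∑ i, c i) / n + ε) ≤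
      ∑ h, ∑ i, c i * (j h i : ℝ) / d h with hFl
  have h4 : ∀ j ∈ Fl, (N * ε) ^ 2 ≤ (∑ h, ff c (d h) (j h)) ^ 2 := by
    intro j hj
    rw [hFl, Finset.mem_filter] at hj
    have h5 : (N : ℝ) * ε ≤ ∑ h, ff c (d h) (j h) := by
      unfold ff
      rw [Finset.sum_sub_distrib, Finset.sum_const, Finset.card_univ, Fintype.card_fin,
        nsmul_eq_mul]
      have := hj.2
      linarith [mul_add (N : ℝ) ((∑ i, c i) / n) ε]
    exact pow_le_pow_left₀ (by positivity) h5 2
  have h5 : (Fl.card : ℝ) * (N * ε) ^ 2 ≤ N * (4 * B ^ 2) * (MI (n := n) d).card := by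
    calc (Fl.card : ℝ) * (N * ε) ^ 2 = ∑ _j ∈ Fl, (N * ε) ^ 2 := by
          rw [Finset.sum_const, nsmul_eq_mul]
      _ ≤ ∑ j ∈ Fl, (∑ h, ff c (d h) (j h)) ^ 2 := Finset.sum_le_sum h4
      _ ≤ ∑ j ∈ MI (n := n) d, (∑ h, ff c (d h) (j h)) ^ 2 :=
          Finset.sum_le_sum_of_subset_of_nonneg (Finset.filter_subset _ _)
            fun j _ _ => sq_nonneg _
      _ ≤ _ := h3
  have h6 : (N : ℝ) * ((Fl.card : ℝ) * (N * ε ^ 2)) ≤
      N * (4 * B ^ 2 * (MI (n := n) d).card) := by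
    calc (N : ℝ) * ((Fl.card : ℝ) * (N * ε ^ 2)) = (Fl.card : ℝ) * (N * ε) ^ 2 := by ring
      _ ≤ N * (4 * B ^ 2) * (MI (n := n) d).card := h5
      _ = N * (4 * B ^ 2 * (MI (n := n) d).card) := by ring
  exact le_of_mul_le_mul_left h6 hN'

end Pool.Agent.Work.SUB
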