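import Pool.Agent.Work.SUB.LGMon
import Pool.Agent.Work.SUB.LGCount

/-!
# LGAux: the auxiliary polynomial (block E)

PROOF. Let `s = card ι`, `N₀ ≥ 8 s B² / ε²`. Choose
* `b ∈ R`, `b ≠ 0` with `b * (A w)⁻¹ i i' ∈ R` for all `w, i, i'` (finitely many uses of `hS.frac`,
  product of the denominators; `Finset.induction` or a `∏` over `ι × Fin n × Fin n`);
* `b₁ ≥ 1` with `v w' ((A w)⁻¹ i i') ≤ b₁` and `v w' b ≤ b₁` for all `w, w', i, i'`;
* `C₀` from `hS.siegel`.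
Given `N ≥ N₀`, `d`. Put `Σ = ∑ h, d h ≥ 1`, `J = {j // j ∈ MI d}` (nonempty by `MI_nonempty`),
`I = Σ w, {j // j ∈ (MI d).filter (bad w)}` where
`bad w j : (N : ℝ) * ((∑ i, c w i) / n + ε) ≤ ∑ h, ∑ i, c w i * (j h i : ℝ) / d h`.
`count_le` for every `w`: `card (bad w) * N ε² ≤ 4 B² card (MI d)`, so
`2 card I ≤ 8 s B² / (N ε²) * card (MI d) ≤ card (MI d) = card J`.
Matrix `a (w, j) J' = b ^ Σ * tC (A w)⁻¹ j J'`: in `R` by `tC_mem`; at every place `w'` it is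
`≤ b₁ ^ Σ * (n b₁) ^ Σ ≤ (n b₁²) ^ Σ =: Bd`, `1 ≤ Bd` (`tC_le`, `n ≥ 1`).
`hS.siegel` gives `ξ ≠ 0` with coefficients in `R`, `∑ a ξ = 0` and
`v w (ξ j) ≤ (C₀ * card J * Bd) ^ C₀ ≤ (C₀ ^ Σ * (2 ^ n) ^ Σ * (n b₁²) ^ Σ) ^ C₀ = C₁ ^ Σ`
with `C₁ = (C₀ * 2 ^ n * (n b₁²)) ^ C₀` (`card_MI_le`; `C₀ ≤ C₀ ^ Σ` because `Σ ≥ 1`;
`(x ^ Σ) ^ C₀ = (x ^ C₀) ^ Σ`).
Put `p j = ξ j` on `MI d`, `0` outside, and `q j = ∑ J ∈ MI d, tC (A w)⁻¹ j J * p J`: the identity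
is `ev_change`; `q j = 0` for `bad w j` because `b ^ Σ * q j = 0`;
`v w (q j) ≤ card (MI d) * (n b₁) ^ Σ * C₁ ^ Σ ≤ (2 ^ n * n * b₁ * C₁) ^ Σ`. Take
`C = 2 ^ n * n * b₁ * C₁ ≥ C₁`.
-/

set_option autoImplicit false

noncomputable section

namespace Pool.Agent.Work.SUB

open Finset MvPolynomial

private theorem common_den {K : Type} [Field K] {R : Subring K}
    (hfrac : ∀ x : K, ∃ b ∈ R, b ≠ 0 ∧ b * x ∈ R) {κ : Type} [Fintype κ] (x : κ → K) :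
    ∃ b ∈ R, b ≠ 0 ∧ ∀ k, b * x k ∈ R := by
  classical
  choose b hbR hb0 hbx using fun k => hfrac (x k)
  refine ⟨∏ k, b k, R.prod_mem fun k _ => hbR k, Finset.prod_ne_zero_iff.2 fun k _ => hb0 k,
    fun k => ?_⟩
  rw [← Finset.mul_prod_erase _ _ (Finset.mem_univ k)]
  have h1 : b k * (∏ i ∈ univ.erase k, b i) * x k = (∏ i ∈ univ.erase k, b i) * (b k * x k) := by
    ring
  rw [h1]
  exact R.mul_mem (R.prod_mem fun k _ => hbR k) (hbx k)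

theorem auxPoly {K : Type} [Field K] [Height.AdmissibleAbsValues K] {ι : Type} [Fintype ι]
    {v : ι → AbsoluteValue K ℝ} {m : ι → ℕ} {R : Subring K} (hS : IsSD v m R) {n : ℕ}
    (hn : 0 < n) (A : ι → Matrix (Fin n) (Fin n) K) (hA : ∀ w, (A w).det ≠ 0)
    (c : ι → Fin n → ℝ) {B : ℝ} (hB : ∀ w i, |c w i| ≤ B) {ε : ℝ} (hε : 0 < ε) :
    ∃ N₀ : ℕ, ∀ N : ℕ, N₀ ≤ N → 0 < N → ∃ C : ℝ, 1 ≤ C ∧ ∀ d : Fin N → ℕ, (∀ h, 1 ≤ d h) →
      ∃ p : (Fin N → Fin n → ℕ) → K, (∃ j ∈ MI d, p j ≠ 0) ∧ (∀ j ∈ MI d, p j ∈ R) ∧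
        (∀ w, ∀ j ∈ MI d, v w (p j) ≤ C ^ ∑ h, d h) ∧
        ∀ w, ∃ q : (Fin N → Fin n → ℕ) → K,
          (∀ j ∈ MI d, q j ≠ 0 →
            ∑ h, ∑ i, c w i * (j h i : ℝ) / d h < (N : ℝ) * ((∑ i, c w i) / n + ε)) ∧
          (∀ j ∈ MI d, v w (q j) ≤ C ^ ∑ h, d h) ∧
          ∀ (B' : Type) [CommRing B'] [Algebra K B'] (X : Fin N → Fin n → B'),
            ev d p X = ev d q (fun h => ((A w).map (algebraMap K B')).mulVec (X h)) := by
  classical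
  -- common denominator
  obtain ⟨b, hbR, hb0, hb⟩ := common_den hS.frac
    (fun k : ι × Fin n × Fin n => (A k.1)⁻¹ k.2.1 k.2.2)
  -- bound for the entries
  obtain ⟨b₁, hb₁1, hb₁A, hb₁b⟩ : ∃ b₁ : ℝ, 1 ≤ b₁ ∧ (∀ w' w i i', v w' ((A w)⁻¹ i i') ≤ b₁) ∧
      ∀ w', v w' b ≤ b₁ := by
    have h0 : 0 ≤ ∑ k : ι × ι × Fin n × Fin n, v k.1 ((A k.2.1)⁻¹ k.2.2.1 k.2.2.2) :=
      Finset.sum_nonneg fun k _ => (v _).nonneg _
    have h0' : 0 ≤ ∑ w', v w' b := Finset.sum_nonneg fun k _ => (v _).nonneg _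
    refine ⟨1 + (∑ k : ι × ι × Fin n × Fin n, v k.1 ((A k.2.1)⁻¹ k.2.2.1 k.2.2.2)) +
      ∑ w', v w' b, by linarith, fun w' w i i' => ?_, fun w' => ?_⟩
    · have h1 : v w' ((A w)⁻¹ i i') ≤
          ∑ k : ι × ι × Fin n × Fin n, v k.1 ((A k.2.1)⁻¹ k.2.2.1 k.2.2.2) :=
        Finset.single_le_sum
          (f := fun k : ι × ι × Fin n × Fin n => v k.1 ((A k.2.1)⁻¹ k.2.2.1 k.2.2.2))
          (fun k _ => (v _).nonneg _) (Finset.mem_univ (w', w, i, i'))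
      linarith
    · have h1 : v w' b ≤ ∑ w', v w' b :=
        Finset.single_le_sum (f := fun w' => v w' b) (fun k _ => (v _).nonneg _)
          (Finset.mem_univ w')
      linarith
  obtain ⟨C₀, hC₀, hsieg⟩ := hS.siegel
  set s : ℕ := Fintype.card ι with hs
  refine ⟨⌈8 * s * B ^ 2 / ε ^ 2⌉₊, fun N hN hNpos => ?_⟩
  have hn1 : (1 : ℝ) ≤ n := by exact_mod_cast hn
  have hε2 : 0 < ε ^ 2 := by positivity
  have hN' : 8 * s * B ^ 2 ≤ N * ε ^ 2 := by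
    have h1 : 8 * s * B ^ 2 / ε ^ 2 ≤ N := (Nat.le_ceil _).trans (by exact_mod_cast hN)
    rwa [div_le_iff₀ hε2] at h1
  have hNε : 0 < (N : ℝ) * ε ^ 2 := mul_pos (by exact_mod_cast hNpos) hε2
  set D : ℝ := C₀ * 2 ^ n * (b₁ * (n * b₁)) with hD
  have hnb : 1 ≤ n * b₁ := by nlinarith
  have hbb : 1 ≤ b₁ * (n * b₁) := by nlinarith
  have h2n : (1 : ℝ) ≤ 2 ^ n := one_le_pow₀ (by norm_num)
  have hC2n : 1 ≤ C₀ * 2 ^ n := by nlinarith
  have hD1 : 1 ≤ D := by nlinarith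
  set C₁ : ℝ := D ^ C₀ with hC₁
  have hC₁1 : 1 ≤ C₁ := Real.one_le_rpow hD1 (by linarith)
  have hK1 : 1 ≤ 2 ^ n * (n * b₁) := by nlinarith
  refine ⟨2 ^ n * (n * b₁) * C₁, by nlinarith, fun d hd => ?_⟩
  set S : ℕ := ∑ h, d h with hSd
  have hS1 : 1 ≤ S := by
    have h0 : d ⟨0, hNpos⟩ ≤ S :=
      Finset.single_le_sum (f := d) (fun _ _ => Nat.zero_le _) (Finset.mem_univ _)
    exact (hd _).trans h0
  -- the index types
  let bad : ι → (Fin N → Fin n → ℕ) → Prop := fun w j =>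
    (N : ℝ) * ((∑ i, c w i) / n + ε) ≤ ∑ h, ∑ i, c w i * (j h i : ℝ) / d h
  let J : Type := {j // j ∈ MI (n := n) d}
  let I : Type := Σ w : ι, {j // j ∈ (MI (n := n) d).filter (bad w)}
  have hcardJ : Fintype.card J = (MI (n := n) d).card := Fintype.card_coe _
  have hcardI : Fintype.card I = ∑ w, ((MI (n := n) d).filter (bad w)).card := by
    rw [Fintype.card_sigma]
    exact Finset.sum_congr rfl fun w _ => Fintype.card_coe _
  have hJpos : 0 < Fintype.card J := by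
    rw [hcardJ]
    exact Finset.card_pos.2 (MI_nonempty hn d)
  have hIJ : 2 * Fintype.card I ≤ Fintype.card J := by
    have h1 : ∀ w, (((MI (n := n) d).filter (bad w)).card : ℝ) * (N * ε ^ 2) ≤
        4 * B ^ 2 * (MI (n := n) d).card := fun w => count_le hn hNpos d hd (c w) (hB w) hε
    have h2 : ((Fintype.card I : ℕ) : ℝ) * (N * ε ^ 2) ≤
        s * (4 * B ^ 2 * (MI (n := n) d).card) := by
      rw [hcardI]
      push_cast
      rw [Finset.sum_mul]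
      refine (Finset.sum_le_sum fun w _ => h1 w).trans (le_of_eq ?_)
      rw [Finset.sum_const, Finset.card_univ, nsmul_eq_mul]
    have hcm : (0 : ℝ) ≤ (MI (n := n) d).card := Nat.cast_nonneg _
    have h3 : (2 * (Fintype.card I : ℝ)) * (N * ε ^ 2) ≤
        (Fintype.card J : ℝ) * (N * ε ^ 2) := by
      rw [hcardJ]
      have h4 := mul_le_mul_of_nonneg_right hN' hcm
      nlinarith
    have h5 := le_of_mul_le_mul_right h3 hNε
    exact_mod_cast h5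
  -- the matrix
  let a : I → J → K := fun x y => b ^ S * tC (A x.1)⁻¹ x.2.1 y.1
  set Bd : ℝ := (b₁ * (n * b₁)) ^ S with hBd
  have hBd1 : 1 ≤ Bd := one_le_pow₀ hbb
  have haR : ∀ x y, a x y ∈ R := fun x y =>
    tC_mem R _ b (fun i i' => hb (x.1, i, i')) d _ _ y.2
  have htC : ∀ w' w j J', J' ∈ MI d → v w' (tC (A w)⁻¹ j J') ≤ (n * b₁) ^ S := fun w' w j J' hJ' =>
    tC_le (v w') _ hb₁1 (hb₁A w' w) d j J' hJ'
  have haB : ∀ x y w', v w' (a x y) ≤ Bd := by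
    intro x y w'
    show v w' (b ^ S * tC (A x.1)⁻¹ x.2.1 y.1) ≤ Bd
    rw [map_mul, map_pow, hBd, mul_pow]
    exact mul_le_mul (pow_le_pow_left₀ ((v w').nonneg _) (hb₁b w') _) (htC w' x.1 _ _ y.2)
      ((v w').nonneg _) (by positivity)
  obtain ⟨ξ, hξ0, hξR, hξeq, hξv⟩ := hsieg I J hIJ hJpos a Bd hBd1 haR haB
  -- size of ξ
  have hcard2 : ((MI (n := n) d).card : ℝ) ≤ (2 ^ n) ^ S := by
    have := card_MI_le (n := n) d
    rw [pow_mul] at this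
    exact_mod_cast this
  have hξC₁ : ∀ y w, v w (ξ y) ≤ C₁ ^ S := by
    intro y w
    refine (hξv y w).trans ?_
    have h1 : C₀ * (Fintype.card J : ℝ) * Bd ≤ D ^ S := by
      have hDS : D ^ S = C₀ ^ S * (2 ^ n) ^ S * Bd := by
        rw [hD, hBd, mul_pow (C₀ * 2 ^ n), mul_pow C₀]
      rw [hcardJ, hDS]
      have h2 : C₀ ≤ C₀ ^ S := by
        calc C₀ = C₀ ^ 1 := (pow_one _).symm
          _ ≤ C₀ ^ S := pow_le_pow_right₀ hC₀ hS1
      have h3 : C₀ * ((MI (n := n) d).card : ℝ) ≤ C₀ ^ S * (2 ^ n) ^ S :=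
        mul_le_mul h2 hcard2 (Nat.cast_nonneg _) (by positivity)
      exact mul_le_mul_of_nonneg_right h3 (by positivity)
    have h0 : 0 ≤ C₀ * (Fintype.card J : ℝ) * Bd := by positivity
    have h4 : C₁ ^ S = (D ^ S) ^ C₀ := by
      rw [hC₁, ← Real.rpow_natCast, ← Real.rpow_mul (by linarith), mul_comm,
        Real.rpow_mul (by linarith), Real.rpow_natCast]
    rw [h4]
    exact Real.rpow_le_rpow h0 h1 (by linarith)
  let p : (Fin N → Fin n → ℕ) → K := fun j => if h : j ∈ MI (n := n) d then ξ ⟨j, h⟩ else 0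
  have hp : ∀ j (h : j ∈ MI (n := n) d), p j = ξ ⟨j, h⟩ := fun j h => dif_pos h
  have hC₁S : C₁ ^ S ≤ (2 ^ n * (n * b₁) * C₁) ^ S := by
    refine pow_le_pow_left₀ (by linarith) ?_ S
    exact le_mul_of_one_le_left (by linarith) hK1
  refine ⟨p, ?_, fun j hj => ?_, fun w j hj => ?_, fun w => ?_⟩
  · obtain ⟨y, hy⟩ := Function.ne_iff.1 hξ0
    refine ⟨y.1, y.2, ?_⟩
    rw [hp y.1 y.2]
    exact hy
  · rw [hp j hj]
    exact hξR _
  · rw [hp j hj]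
    exact (hξC₁ _ w).trans hC₁S
  · refine ⟨fun j => ∑ J' ∈ MI d, tC (A w)⁻¹ j J' * p J', fun j hj hq => ?_, fun j hj => ?_,
      fun B' _ _ X => ev_change (A w) (hA w) d p X⟩
    · by_contra hbad
      have hbad' : bad w j := not_lt.1 hbad
      apply hq
      have hjf : j ∈ (MI (n := n) d).filter (bad w) := Finset.mem_filter.2 ⟨hj, hbad'⟩
      have h1 := hξeq ⟨w, ⟨j, hjf⟩⟩
      have h2 : ∑ y : J, a ⟨w, ⟨j, hjf⟩⟩ y * ξ y =
          b ^ S * ∑ J' ∈ MI d, tC (A w)⁻¹ j J' * p J' := by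
        rw [Finset.mul_sum, ← Finset.sum_coe_sort (MI (n := n) d)]
        refine Finset.sum_congr rfl fun y _ => ?_
        rw [hp y.1 y.2]
        show b ^ S * tC (A w)⁻¹ j y.1 * ξ y = b ^ S * (tC (A w)⁻¹ j y.1 * ξ ⟨y.1, y.2⟩)
        rw [mul_assoc]
      rw [h2] at h1
      exact (mul_eq_zero.1 h1).resolve_left (pow_ne_zero _ hb0)
    · refine ((v w).sum_le _ _).trans ?_
      calc ∑ J' ∈ MI d, v w (tC (A w)⁻¹ j J' * p J')
          ≤ ∑ _J' ∈ MI (n := n) d, (n * b₁) ^ S * C₁ ^ S := by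
            refine Finset.sum_le_sum fun J' hJ' => ?_
            rw [map_mul, hp J' hJ']
            exact mul_le_mul (htC w w j J' hJ') (hξC₁ _ w) ((v w).nonneg _) (by positivity)
        _ = ((MI (n := n) d).card : ℝ) * ((n * b₁) ^ S * C₁ ^ S) := by
            rw [Finset.sum_const, nsmul_eq_mul]
        _ ≤ (2 ^ n) ^ S * ((n * b₁) ^ S * C₁ ^ S) :=
            mul_le_mul_of_nonneg_right hcard2 (by positivity)
        _ = (2 ^ n * (n * b₁) * C₁) ^ S := by rw [mul_pow, mul_pow]; ring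

end Pool.Agent.Work.SUB
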