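import Pool.Agent.Work.SUB.LGL1
import Pool.Agent.Work.SUB.LGCount

/-!
# LGBd: bound for the coefficients at one place (block E)

`Z h l` (`l : Fin (k+1)`) are vectors, `Z h 0` arbitrary (entries `≤ C₀`), the entries `i` of
`Z h l.succ` are `≤ exp (c i * t h)`. The polynomial `ev d q (lin Z)` in the variables `(h, l)` is
bounded in terms of `E ≥ ∑_{h,i} c i * t h * j h i` (`q j ≠ 0`).

PROOF. Weights `ρ (h, 0) = exp (- B t h)`, `ρ (h, l.succ) = 1`. `l1_lin_le` gives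
`l1 (lin Z h i) ≤ C₀ exp (-B t h) + k exp (c i t h) ≤ (k + 1) C₀ exp (c i * t h)`
(`Fin.sum_univ_succ`; `-B ≤ c i`, `t h ≥ 0`). By `l1_sum_le, l1_mul_le, l1_prod_le, l1_pow_le` and
`l1 (C a) = v a`,
`l1 (ev d q (lin Z)) ≤ ∑_{j ∈ MI d} v (q j) * ∏_{h,i} ((k+1) C₀ exp (c i t h)) ^ (j h i)`.
Terms with `q j = 0` vanish; otherwise the product is
`((k+1) C₀) ^ (∑ d) * exp (∑_{h,i} c i t h j h i) ≤ ((k+1) C₀) ^ (∑ d) * exp E`
(`∑_{h,i} j h i = ∑ d` for `j ∈ MI d`, `Finset.prod_pow_eq_pow_sum`, `Real.exp_sum`). With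
`card (MI d) ≤ 2 ^ ((k+1) ∑ d)` (`card_MI_le`) the sum is
`≤ (2 ^ (k+1) * C₁ * ((k+1) C₀)) ^ (∑ d) * exp E`. Finally `coeff_le_l1` with
`ρ^s = exp (- B ∑ h, t h * s (h, 0))` (`Finsupp.prod` over the `Fintype` `Fin N × Fin (k+1)`:
`Finsupp.prod_fintype`, `Fintype.prod_prod_type`, `Fin.prod_univ_succ`).
-/

set_option autoImplicit false

noncomputable section

namespace Pool.Agent.Work.SUB

open Finset MvPolynomial

private theorem rho_prod {N k : ℕ} (t : Fin N → ℝ) (B : ℝ) (s : (Fin N × Fin (k + 1)) →₀ ℕ) :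
    (s.prod fun a e => (if a.2 = 0 then Real.exp (-(B * t a.1)) else 1) ^ e) =
      Real.exp (-(B * ∑ h, t h * s (h, 0))) := by
  rw [Finsupp.prod_fintype _ _ fun a => pow_zero _, Fintype.prod_prod_type]
  simp only [Fin.prod_univ_succ, if_true, Fin.succ_ne_zero, if_false, one_pow,
    Finset.prod_const_one, mul_one]
  have h1 : ∀ h ∈ (Finset.univ : Finset (Fin N)), Real.exp (-(B * t h)) ^ s (h, 0) =
      Real.exp (-(B * (t h * s (h, 0)))) := by
    intro h _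
    rw [← Real.exp_nat_mul]
    congr 1
    ring
  rw [Finset.prod_congr rfl h1, ← Real.exp_sum]
  congr 1
  rw [Finset.mul_sum, Finset.sum_neg_distrib]

private theorem term_le {K : Type} [Field K] (v : AbsoluteValue K ℝ) {N k : ℕ} (d : Fin N → ℕ)
    (q : (Fin N → Fin (k + 1) → ℕ) → K) (L : Fin N → Fin (k + 1) → ℝ)
    (c : Fin (k + 1) → ℝ) (t : Fin N → ℝ) {C₀ C₁ E : ℝ} (hC₀ : 1 ≤ C₀) (hC₁ : 1 ≤ C₁)
    (hL0 : ∀ h i, 0 ≤ L h i)
    (hL : ∀ h i, L h i ≤ (k + 1) * C₀ * Real.exp (c i * t h))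
    (hq : ∀ j ∈ MI d, v (q j) ≤ C₁ ^ ∑ h, d h)
    (hE : ∀ j ∈ MI d, q j ≠ 0 → ∑ h, ∑ i, c i * t h * j h i ≤ E)
    (j : Fin N → Fin (k + 1) → ℕ) (hj : j ∈ MI d) :
    v (q j) * ∏ h, ∏ i, L h i ^ j h i ≤
      (C₁ * ((k + 1) * C₀)) ^ (∑ h, d h) * Real.exp E := by
  have hk : (0 : ℝ) ≤ (k + 1) * C₀ := by positivity
  by_cases h0 : q j = 0
  · rw [h0, map_zero, zero_mul]
    positivity
  · have h1 : ∏ h, ∏ i, L h i ^ j h i ≤ ((k + 1) * C₀) ^ (∑ h, d h) * Real.exp E := by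
      calc ∏ h, ∏ i, L h i ^ j h i
          ≤ ∏ h, ∏ i, ((k + 1) * C₀ * Real.exp (c i * t h)) ^ j h i := by
            refine Finset.prod_le_prod (fun h _ => Finset.prod_nonneg fun i _ =>
              pow_nonneg (hL0 h i) _) fun h _ => ?_
            exact Finset.prod_le_prod (fun i _ => pow_nonneg (hL0 h i) _)
              fun i _ => pow_le_pow_left₀ (hL0 h i) (hL h i) _
        _ = ((k + 1) * C₀) ^ (∑ h, d h) * Real.exp (∑ h, ∑ i, c i * t h * j h i) := by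
            rw [Real.exp_sum]
            have h2 : ∀ h : Fin N, ∏ i, ((k + 1) * C₀ * Real.exp (c i * t h)) ^ j h i =
                ((k + 1) * C₀) ^ d h * Real.exp (∑ i, c i * t h * j h i) := by
              intro h
              rw [Real.exp_sum, ← mem_MI.1 hj h, ← Finset.prod_pow_eq_pow_sum,
                ← Finset.prod_mul_distrib]
              refine Finset.prod_congr rfl fun i _ => ?_
              rw [mul_pow, ← Real.exp_nat_mul]
              congr 2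
              ring
            rw [Finset.prod_congr rfl fun h _ => h2 h, Finset.prod_mul_distrib,
              Finset.prod_pow_eq_pow_sum]
        _ ≤ _ := mul_le_mul_of_nonneg_left (Real.exp_le_exp.2 (hE j hj h0)) (pow_nonneg hk _)
    calc v (q j) * ∏ h, ∏ i, L h i ^ j h i
        ≤ C₁ ^ (∑ h, d h) * (((k + 1) * C₀) ^ (∑ h, d h) * Real.exp E) :=
          mul_le_mul (hq j hj) h1 (Finset.prod_nonneg fun h _ => Finset.prod_nonneg fun i _ =>
            pow_nonneg (hL0 h i) _) (by positivity)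
      _ = _ := by
          rw [mul_pow C₁]
          ring

theorem coeff_bound {K : Type} [Field K] (v : AbsoluteValue K ℝ) {N k : ℕ} (d : Fin N → ℕ)
    (q : (Fin N → Fin (k + 1) → ℕ) → K) (Z : Fin N → Fin (k + 1) → Fin (k + 1) → K)
    (c : Fin (k + 1) → ℝ) (t : Fin N → ℝ) (ht : ∀ h, 0 ≤ t h) {B C₀ C₁ E : ℝ}
    (hB : ∀ i, |c i| ≤ B) (hC₀ : 1 ≤ C₀) (hC₁ : 1 ≤ C₁)
    (hZ0 : ∀ h i, v (Z h 0 i) ≤ C₀)
    (hZ : ∀ (h : Fin N) (l : Fin k) (i : Fin (k + 1)), v (Z h l.succ i) ≤ Real.exp (c i * t h))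
    (hq : ∀ j ∈ MI d, v (q j) ≤ C₁ ^ ∑ h, d h)
    (hE : ∀ j ∈ MI d, q j ≠ 0 → ∑ h, ∑ i, c i * t h * j h i ≤ E)
    (s : (Fin N × Fin (k + 1)) →₀ ℕ) :
    v ((ev d q (lin Z)).coeff s) ≤
      (2 ^ (k + 1) * C₁ * ((k + 1) * C₀)) ^ (∑ h, d h) *
        Real.exp (E + B * ∑ h, t h * s (h, 0)) := by
  obtain ⟨ρ, hρdef⟩ : ∃ ρ : Fin N × Fin (k + 1) → ℝ,
      ρ = fun a => if a.2 = 0 then Real.exp (-(B * t a.1)) else 1 := ⟨_, rfl⟩
  have hρ : ∀ a, 0 < ρ a := by
    intro a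
    rw [hρdef]
    dsimp only
    split_ifs
    · exact Real.exp_pos _
    · exact one_pos
  have hlin : ∀ h i, l1 v ρ (lin Z h i) ≤ (k + 1) * C₀ * Real.exp (c i * t h) := by
    intro h i
    refine (l1_lin_le v ρ hρ Z h i).trans ?_
    rw [Fin.sum_univ_succ]
    have e0 : ρ (h, 0) = Real.exp (-(B * t h)) := by
      rw [hρdef]
      simp
    have e1 : ∀ l : Fin k, ρ (h, l.succ) = 1 := by
      intro l
      rw [hρdef]
      simp [Fin.succ_ne_zero]
    have h1 : v (Z h 0 i) * ρ (h, 0) ≤ C₀ * Real.exp (c i * t h) := by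
      rw [e0]
      refine mul_le_mul (hZ0 h i) (Real.exp_le_exp.2 ?_) (Real.exp_pos _).le (by linarith)
      have h2 := (abs_le.1 (hB i)).1
      nlinarith [mul_le_mul_of_nonneg_right h2 (ht h)]
    have h2 : ∑ l : Fin k, v (Z h l.succ i) * ρ (h, l.succ) ≤ k * Real.exp (c i * t h) := by
      calc ∑ l : Fin k, v (Z h l.succ i) * ρ (h, l.succ)
          ≤ ∑ _l : Fin k, Real.exp (c i * t h) := by
            refine Finset.sum_le_sum fun l _ => ?_
            rw [e1, mul_one]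
            exact hZ h l i
        _ = _ := by simp
    have h3 : (k : ℝ) * Real.exp (c i * t h) ≤ k * (C₀ * Real.exp (c i * t h)) := by
      refine mul_le_mul_of_nonneg_left ?_ (Nat.cast_nonneg _)
      exact le_mul_of_one_le_left (Real.exp_pos _).le hC₀
    calc v (Z h 0 i) * ρ (h, 0) + ∑ l : Fin k, v (Z h l.succ i) * ρ (h, l.succ)
        ≤ C₀ * Real.exp (c i * t h) + k * (C₀ * Real.exp (c i * t h)) :=
          add_le_add h1 (h2.trans h3)
      _ = _ := by ring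
  have hev : l1 v ρ (ev d q (lin Z)) ≤
      (2 ^ (k + 1) * C₁ * ((k + 1) * C₀)) ^ (∑ h, d h) * Real.exp E := by
    unfold ev
    refine (l1_sum_le v ρ hρ _ _).trans ?_
    have h1 : ∀ j ∈ MI d, l1 v ρ (algebraMap K (MvPolynomial (Fin N × Fin (k + 1)) K) (q j) *
        ∏ h, ∏ i, lin Z h i ^ j h i) ≤
        (C₁ * ((k + 1) * C₀)) ^ (∑ h, d h) * Real.exp E := by
      intro j hj
      refine (l1_mul_le v ρ hρ _ _).trans ?_
      have h2 : l1 v ρ (algebraMap K (MvPolynomial (Fin N × Fin (k + 1)) K) (q j)) = v (q j) := by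
        have := l1_monomial v ρ (0 : (Fin N × Fin (k + 1)) →₀ ℕ) (q j)
        rw [Finsupp.prod_zero_index, mul_one] at this
        exact this
      rw [h2]
      refine le_trans (mul_le_mul_of_nonneg_left ?_ ((v).nonneg _))
        (term_le v d q (fun h i => l1 v ρ (lin Z h i)) c t hC₀ hC₁
          (fun h i => l1_nonneg v ρ hρ _) hlin hq hE j hj)
      refine (l1_prod_le v ρ hρ _ _).trans ?_
      refine Finset.prod_le_prod (fun h _ => l1_nonneg v ρ hρ _) fun h _ => ?_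
      refine (l1_prod_le v ρ hρ _ _).trans ?_
      exact Finset.prod_le_prod (fun i _ => l1_nonneg v ρ hρ _) fun i _ => l1_pow_le v ρ hρ _ _
    refine (Finset.sum_le_card_nsmul _ _ _ h1).trans ?_
    rw [nsmul_eq_mul]
    have h3 : ((MI (n := k + 1) d).card : ℝ) ≤ (2 ^ (k + 1)) ^ (∑ h, d h) := by
      rw [← pow_mul]
      exact_mod_cast card_MI_le d
    have h4 : 0 ≤ (C₁ * ((k + 1) * C₀)) ^ (∑ h, d h) * Real.exp E := by positivity
    calc ((MI (n := k + 1) d).card : ℝ) * ((C₁ * ((k + 1) * C₀)) ^ (∑ h, d h) * Real.exp E)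
        ≤ (2 ^ (k + 1)) ^ (∑ h, d h) * ((C₁ * ((k + 1) * C₀)) ^ (∑ h, d h) * Real.exp E) :=
          mul_le_mul_of_nonneg_right h3 h4
      _ = _ := by
          rw [← mul_assoc, ← mul_pow, ← mul_assoc ((2 : ℝ) ^ (k + 1)) C₁]
  have hc := coeff_le_l1 v ρ hρ (ev d q (lin Z)) s
  have hp : (s.prod fun i e => ρ i ^ e) = Real.exp (-(B * ∑ h, t h * s (h, 0))) := by
    rw [hρdef]
    exact rho_prod t B s
  rw [hp] at hc
  have h5 := hc.trans hev
  have h6 := mul_le_mul_of_nonneg_right h5 (Real.exp_pos (B * ∑ h, t h * s (h, 0))).le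
  rw [mul_assoc, ← Real.exp_add, neg_add_cancel, Real.exp_zero, mul_one, mul_assoc,
    ← Real.exp_add] at h6
  exact h6

end Pool.Agent.Work.SUB
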