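import Pool.Agent.Work.SUB.Defs

/-!
# LGDefs: definitions for the last gap theorem (block E)

* `MI d`: the multi-indices `j : Fin N → Fin n → ℕ` (`N` blocks) with `∑ i, j h i = d h`;
* `ev d p X`: the value at `X` of the block homogeneous polynomial with coefficients `p`;
* `l1 v ρ F`: the weighted `ℓ¹` norm of a polynomial;
* `lin Y h i`: the linear form `∑ l, Y h l i * X (h, l)`;
* `fin j`: the exponent of the monomial `j`.
-/

set_option autoImplicit false

noncomputable section

namespace Pool.Agent.Work.SUB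

open Finset

/-- Multi-indices: `N` blocks, the block `h` has `n` exponents with sum `d h`. -/
def MI {N n : ℕ} (d : Fin N → ℕ) : Finset (Fin N → Fin n → ℕ) :=
  Fintype.piFinset fun h => Finset.univ.piAntidiag (d h)

theorem mem_MI {N n : ℕ} {d : Fin N → ℕ} {j : Fin N → Fin n → ℕ} :
    j ∈ MI d ↔ ∀ h, ∑ i, j h i = d h := by
  simp [MI, Finset.mem_piAntidiag]

/-- The value at `X` of the block homogeneous polynomial with coefficients `p`. -/
def ev {K : Type} [Field K] {B : Type} [CommRing B] [Algebra K B] {N n : ℕ} (d : Fin N → ℕ)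
    (p : (Fin N → Fin n → ℕ) → K) (X : Fin N → Fin n → B) : B :=
  ∑ j ∈ MI d, algebraMap K B (p j) * ∏ h, ∏ i, X h i ^ j h i

/-- Algebra homomorphisms commute with `ev`. -/
theorem map_ev {K : Type} [Field K] {B B' : Type} [CommRing B] [Algebra K B] [CommRing B']
    [Algebra K B'] (φ : B →ₐ[K] B') {N n : ℕ} (d : Fin N → ℕ)
    (p : (Fin N → Fin n → ℕ) → K) (X : Fin N → Fin n → B) :
    φ (ev d p X) = ev d p (fun h i => φ (X h i)) := by
  simp [ev, map_sum, map_mul, map_prod, map_pow]

/-- The weighted `ℓ¹` norm of a polynomial. -/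
def l1 {K : Type} [Field K] (v : AbsoluteValue K ℝ) {σ : Type} (ρ : σ → ℝ)
    (F : MvPolynomial σ K) : ℝ :=
  ∑ s ∈ F.support, v (F.coeff s) * s.prod fun i e => ρ i ^ e

/-- The exponent of the monomial with exponents `j h i`. -/
def fin {N n : ℕ} (j : Fin N → Fin n → ℕ) : (Fin N × Fin n) →₀ ℕ :=
  Finsupp.equivFunOnFinite.symm fun a => j a.1 a.2

@[simp] theorem fin_apply {N n : ℕ} (j : Fin N → Fin n → ℕ) (a : Fin N × Fin n) :
    fin j a = j a.1 a.2 := rfl

theorem fin_injective {N n : ℕ} : Function.Injective (fin : (Fin N → Fin n → ℕ) → _) := by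
  intro j j' h
  funext a b
  simpa using DFunLike.congr_fun h (a, b)

open MvPolynomial in
/-- The linear forms `∑ l, Y h l i * X (h, l)`. -/
def lin {K : Type} [Field K] {N n : ℕ} (Y : Fin N → Fin n → Fin n → K) (h : Fin N) (i : Fin n) :
    MvPolynomial (Fin N × Fin n) K :=
  ∑ l, C (Y h l i) * X (h, l)

open MvPolynomial in
theorem mulVec_lin {K : Type} [Field K] {N n : ℕ} (A : Matrix (Fin n) (Fin n) K)
    (Y : Fin N → Fin n → Fin n → K) (h : Fin N) (i : Fin n) :
    (A.map (algebraMap K (MvPolynomial (Fin N × Fin n) K))).mulVec (lin Y h) i =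
      lin (fun h l => A.mulVec (Y h l)) h i := by
  simp only [lin, Matrix.mulVec, dotProduct, Matrix.map_apply, Finset.mul_sum, map_sum,
    Finset.sum_mul, MvPolynomial.algebraMap_eq, map_mul]
  rw [Finset.sum_comm]
  exact Finset.sum_congr rfl fun l _ => Finset.sum_congr rfl fun x _ => by ring

end Pool.Agent.Work.SUB
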