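import Pool.Agent.Work.SUB.LGDefs

/-!
# LGDual: the equation of the hyperplane and its dual coordinates (block E, linear algebra)

PROOF. For `y : Fin (k+1) → K` let `M y = Matrix.of (Fin.snoc x y)` (rows `x 0, …, x (k-1), y`) and
`ℓ i = (M (Pi.single i 1)).det`. Expanding in the last row (`det` is linear in the last row:
`Matrix.det_updateRow_add`, `..smul`, or `Matrix.detRowAlternating.toMultilinearMap` and
`Fin.snoc`/`Function.update`) `∑ i, ℓ i * y i = (M y).det` for all `y`.
* `ℓ i ∈ R`: the entries of `M (Pi.single i 1)` are in `R`; `Matrix.det_apply` and closure of the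
  subring under sums and products.
* `∑ i, ℓ i * x l i = 0`: two equal rows (`Matrix.det_zero_of_row_eq`).
* `ℓ ≠ 0`: `x` can be completed to a basis: there is `y` not in the span of the `x l` (dimension
  `k < k + 1`), then `Fin.snoc x y` is independent and `(M y).det ≠ 0`
  (`Matrix.det_ne_zero_iff...`/`LinearIndependent` of the rows of a square matrix is equivalent to
  `IsUnit det`: `Matrix.linearIndependent_rows_iff_isUnit`).
* Bound. Let `y = A⁻¹ e_i` (column `i` of `A⁻¹`), so `(Matrix.vecMul ℓ A⁻¹) i = ∑ i', ℓ i' * y i' =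
  (M y).det`, and `M y * Aᵀ` has rows `A x_l` and `A y = e_i`. So
  `(M y).det * A.det = (M y * Aᵀ).det =: det M'`, `M' l.castSucc = A.mulVec (x l)`,
  `M' (Fin.last k) = Pi.single i 1`. By `Matrix.det_apply`, the triangle inequality and
  `v (sign) = 1`: `v (det M') ≤ ∑ π, ∏ a, v (M' (π a) a)` (or `M' a (π a)` after transposing). A
  permutation contributes `0` unless the last row is met in the column `i`, and then the product is
  at most `∏_{i' ≠ i} r i' = (∏ i', r i') / r i`. There are `(k+1)!` permutations.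
-/

set_option autoImplicit false

noncomputable section

namespace Pool.Agent.Work.SUB

/-- The matrix with rows `x 0, …, x (k-1), y`. -/
private def dM {K : Type} [Field K] {k : ℕ} (x : Fin k → Fin (k + 1) → K) (y : Fin (k + 1) → K) :
    Matrix (Fin (k + 1)) (Fin (k + 1)) K :=
  Matrix.of (Fin.snoc (α := fun _ => Fin (k + 1) → K) x y)

private theorem dM_cast {K : Type} [Field K] {k : ℕ} (x : Fin k → Fin (k + 1) → K)
    (y : Fin (k + 1) → K) (l : Fin k) : dM x y l.castSucc = x l :=
  Fin.snoc_castSucc (α := fun _ => Fin (k + 1) → K) y x l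

private theorem dM_last {K : Type} [Field K] {k : ℕ} (x : Fin k → Fin (k + 1) → K)
    (y : Fin (k + 1) → K) : dM x y (Fin.last k) = y :=
  Fin.snoc_last (α := fun _ => Fin (k + 1) → K) y x

private theorem dM_upd {K : Type} [Field K] {k : ℕ} (x : Fin k → Fin (k + 1) → K)
    (y z : Fin (k + 1) → K) : dM x z = (dM x y).updateRow (Fin.last k) z := by
  funext a
  refine Fin.lastCases ?_ (fun l => ?_) a
  · rw [dM_last, Matrix.updateRow_self]
  · rw [dM_cast, Matrix.updateRow_ne (Fin.castSucc_lt_last l).ne, dM_cast]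

/-- the determinant is linear in the last row -/
private theorem dM_det {K : Type} [Field K] {k : ℕ} (x : Fin k → Fin (k + 1) → K)
    (y : Fin (k + 1) → K) :
    (dM x y).det = ∑ i, (dM x (Pi.single i 1)).det * y i := by
  have h : ∀ z, (dM x z).det = Matrix.detRowAlternating.toMultilinearMap.toLinearMap (dM x 0)
      (Fin.last k) z := by
    intro z
    rw [dM_upd x 0 z]
    rfl
  rw [h y]
  conv_lhs => rw [← Finset.univ_sum_single y]
  rw [map_sum]
  refine Finset.sum_congr rfl fun i _ => ?_
  have h2 : (Pi.single i (y i) : Fin (k + 1) → K) = y i • Pi.single i 1 := by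
    rw [← Pi.single_smul]; simp
  rw [h2, map_smul, ← h, smul_eq_mul, mul_comm]

private theorem det_bound {K : Type} [Field K] {k : ℕ} (v : AbsoluteValue K ℝ)
    (M : Matrix (Fin (k + 1)) (Fin (k + 1)) K) (i : Fin (k + 1)) (r : Fin (k + 1) → ℝ)
    (hr : ∀ i, 0 < r i) (h1 : ∀ (l : Fin k) i, v (M l.castSucc i) ≤ r i)
    (h2 : M (Fin.last k) = Pi.single i 1) :
    v M.det * r i ≤ (k + 1).factorial * ∏ i', r i' := by
  have hb : ∀ π : Equiv.Perm (Fin (k + 1)),
      v (((Equiv.Perm.sign π : ℤ) : K) * ∏ a, M a (π a)) * r i ≤ ∏ i', r i' := by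
    intro π
    have hs : v (((Equiv.Perm.sign π : ℤ) : K)) = 1 := by
      rcases Int.units_eq_one_or (Equiv.Perm.sign π) with h | h <;> rw [h] <;> simp
    rw [map_mul, hs, one_mul, map_prod, Fin.prod_univ_castSucc, h2]
    by_cases hπ : π (Fin.last k) = i
    · rw [← Equiv.prod_comp π r, Fin.prod_univ_castSucc (fun a => r (π a)), hπ, Pi.single_eq_same,
        map_one, mul_one]
      refine mul_le_mul_of_nonneg_right ?_ (hr i).le
      exact Finset.prod_le_prod (fun a _ => v.nonneg _) fun a _ => h1 a _
    · rw [Pi.single_eq_of_ne hπ, map_zero, mul_zero, zero_mul]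
      exact Finset.prod_nonneg fun a _ => (hr a).le
  have hdet : v M.det ≤ ∑ π : Equiv.Perm (Fin (k + 1)),
      v (((Equiv.Perm.sign π : ℤ) : K) * ∏ a, M a (π a)) := by
    rw [← Matrix.det_transpose, Matrix.det_apply']
    exact v.sum_le _ _
  calc v M.det * r i ≤ (∑ π : Equiv.Perm (Fin (k + 1)),
      v (((Equiv.Perm.sign π : ℤ) : K) * ∏ a, M a (π a))) * r i :=
        mul_le_mul_of_nonneg_right hdet (hr i).le
    _ = ∑ π : Equiv.Perm (Fin (k + 1)),
      v (((Equiv.Perm.sign π : ℤ) : K) * ∏ a, M a (π a)) * r i := Finset.sum_mul _ _ _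
    _ ≤ ∑ _π : Equiv.Perm (Fin (k + 1)), ∏ i', r i' := Finset.sum_le_sum fun π _ => hb π
    _ = (k + 1).factorial * ∏ i', r i' := by
      rw [Finset.sum_const, Finset.card_univ, Fintype.card_perm, Fintype.card_fin, nsmul_eq_mul]

theorem exists_dual {K : Type} [Field K] {k : ℕ} (R : Subring K)
    (x : Fin k → Fin (k + 1) → K) (hx : LinearIndependent K x) (hR : ∀ l i, x l i ∈ R) :
    ∃ ℓ : Fin (k + 1) → K, ℓ ≠ 0 ∧ (∀ i, ℓ i ∈ R) ∧ (∀ l, ∑ i, ℓ i * x l i = 0) ∧
      ∀ (A : Matrix (Fin (k + 1)) (Fin (k + 1)) K), A.det ≠ 0 → ∀ (v : AbsoluteValue K ℝ)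
        (r : Fin (k + 1) → ℝ), (∀ i, 0 < r i) → (∀ l i, v (A.mulVec (x l) i) ≤ r i) →
        ∀ i, v (Matrix.vecMul ℓ A⁻¹ i) * v A.det * r i ≤ (k + 1).factorial * ∏ i', r i' := by
  refine ⟨fun i => (dM x (Pi.single i 1)).det, ?_, ?_, ?_, ?_⟩
  · intro h0
    -- a vector outside the span
    have hlt : Submodule.span K (Set.range x) < ⊤ := by
      rw [lt_top_iff_ne_top]
      intro htop
      have h1 : Module.finrank K (Submodule.span K (Set.range x)) = k := by
        rw [finrank_span_eq_card hx, Fintype.card_fin]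
      rw [htop, finrank_top, Module.finrank_fin_fun] at h1
      omega
    obtain ⟨y, -, hy⟩ := SetLike.exists_of_lt hlt
    have hli : LinearIndependent K (Fin.snoc (α := fun _ => Fin (k + 1) → K) x y) :=
      linearIndependent_finSnoc.2 ⟨hx, hy⟩
    have hu : IsUnit (dM x y) := Matrix.linearIndependent_rows_iff_isUnit.1 hli
    have hd : (dM x y).det ≠ 0 := ((Matrix.isUnit_iff_isUnit_det _).1 hu).ne_zero
    apply hd
    rw [dM_det]
    refine Finset.sum_eq_zero fun i _ => ?_
    have := congrFun h0 i
    simp only [Pi.zero_apply] at this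
    rw [this, zero_mul]
  · intro i
    have hent : ∀ a b, dM x (Pi.single i 1) a b ∈ R := by
      intro a b
      refine Fin.lastCases ?_ (fun l => ?_) a
      · rw [dM_last]
        by_cases hb : b = i
        · rw [hb, Pi.single_eq_same]; exact R.one_mem
        · rw [Pi.single_eq_of_ne hb]; exact R.zero_mem
      · rw [dM_cast]; exact hR l b
    simp only
    rw [Matrix.det_apply']
    refine R.sum_mem fun π _ => R.mul_mem (by simp) (R.prod_mem fun a _ => hent _ _)
  · intro l
    rw [← dM_det x (x l)]
    refine Matrix.det_zero_of_row_eq (Fin.castSucc_lt_last l).ne ?_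
    rw [dM_last, dM_cast]
  · intro A hA v r hr hAx i
    have hAu : IsUnit A.det := isUnit_iff_ne_zero.2 hA
    set y : Fin (k + 1) → K := fun b => A⁻¹ b i with hy
    have h1 : Matrix.vecMul (fun i => (dM x (Pi.single i 1)).det) A⁻¹ i = (dM x y).det := by
      rw [dM_det x y]; rfl
    have h2 : (dM x y).det * A.det = (dM x y * A.transpose).det := by
      rw [Matrix.det_mul, Matrix.det_transpose]
    have hrow : ∀ a, (dM x y * A.transpose) a = A.mulVec (dM x y a) := by
      intro a
      funext b
      simp only [Matrix.mul_apply, Matrix.transpose_apply, Matrix.mulVec, dotProduct]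
      exact Finset.sum_congr rfl fun c _ => mul_comm _ _
    rw [h1, ← map_mul, h2]
    refine det_bound v _ i r hr ?_ ?_
    · intro l b
      rw [hrow, dM_cast]
      exact hAx l b
    · rw [hrow, dM_last]
      funext b
      have h3 : A.mulVec y b = (A * A⁻¹) b i := by
        simp only [Matrix.mul_apply, Matrix.mulVec, dotProduct, hy]
      rw [h3, Matrix.mul_nonsing_inv _ hAu, Matrix.one_apply, Pi.single_apply]

/-- Two nonzero equations of the same hyperplane are proportional; the span of `k` independent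
vectors killed by `ℓ ≠ 0` is the kernel of `ℓ`. (The annihilator of the `k`-dimensional space
`span x` has dimension `1`; `span x` is contained in the kernel of `ℓ`, both have dimension `k`.) -/
theorem span_eq_of_dual {K : Type} [Field K] {k : ℕ} (x : Fin k → Fin (k + 1) → K)
    (hx : LinearIndependent K x) (ℓ : Fin (k + 1) → K) (hℓ : ℓ ≠ 0)
    (h0 : ∀ l, ∑ i, ℓ i * x l i = 0) :
    (∀ y, y ∈ Submodule.span K (Set.range x) ↔ ∑ i, ℓ i * y i = 0) ∧
      ∀ ℓ' : Fin (k + 1) → K, (∀ l, ∑ i, ℓ' i * x l i = 0) → ∃ a : K, ℓ' = a • ℓ := by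
  -- the linear form
  have key : ∀ y, y ∈ Submodule.span K (Set.range x) ↔ ∑ i, ℓ i * y i = 0 := by
    have hle : ∀ y ∈ Submodule.span K (Set.range x), ∑ i, ℓ i * y i = 0 := by
      intro y hy
      induction hy using Submodule.span_induction with
      | mem y hy => obtain ⟨l, rfl⟩ := hy; exact h0 l
      | zero => simp
      | add y z _ _ hy hz =>
        simp only [Pi.add_apply, mul_add, Finset.sum_add_distrib, hy, hz, add_zero]
      | smul a y _ hy =>
        simp only [Pi.smul_apply, smul_eq_mul]
        calc ∑ i, ℓ i * (a * y i) = a * ∑ i, ℓ i * y i := by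
              rw [Finset.mul_sum]; exact Finset.sum_congr rfl fun i _ => by ring
          _ = 0 := by rw [hy, mul_zero]
    intro y
    refine ⟨hle y, fun hy => ?_⟩
    by_contra hyn
    have hli : LinearIndependent K (Fin.snoc (α := fun _ => Fin (k + 1) → K) x y) :=
      linearIndependent_finSnoc.2 ⟨hx, hyn⟩
    have hspan : Submodule.span K (Set.range (Fin.snoc (α := fun _ => Fin (k + 1) → K) x y)) = ⊤ :=
      hli.span_eq_top_of_card_eq_finrank' (by simp)
    apply hℓ
    funext i
    have hm : (Pi.single i 1 : Fin (k + 1) → K) ∈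
        Submodule.span K (Set.range (Fin.snoc (α := fun _ => Fin (k + 1) → K) x y)) := by
      rw [hspan]; trivial
    have hall : ∀ z ∈ Submodule.span K
        (Set.range (Fin.snoc (α := fun _ => Fin (k + 1) → K) x y)), ∑ i, ℓ i * z i = 0 := by
      intro z hz
      induction hz using Submodule.span_induction with
      | mem z hz =>
        obtain ⟨l, rfl⟩ := hz
        refine Fin.lastCases ?_ (fun l => ?_) l
        · simpa using hy
        · simpa using h0 l
      | zero => simp
      | add y z _ _ hy hz =>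
        simp only [Pi.add_apply, mul_add, Finset.sum_add_distrib, hy, hz, add_zero]
      | smul a y _ hy =>
        simp only [Pi.smul_apply, smul_eq_mul]
        calc ∑ i, ℓ i * (a * y i) = a * ∑ i, ℓ i * y i := by
              rw [Finset.mul_sum]; exact Finset.sum_congr rfl fun i _ => by ring
          _ = 0 := by rw [hy, mul_zero]
    have := hall _ hm
    simpa [Pi.single_apply] using this
  refine ⟨key, ?_⟩
  intro ℓ' h'
  have hle' : ∀ y ∈ Submodule.span K (Set.range x), ∑ i, ℓ' i * y i = 0 := by
    intro y hy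
    induction hy using Submodule.span_induction with
    | mem y hy => obtain ⟨l, rfl⟩ := hy; exact h' l
    | zero => simp
    | add y z _ _ hy hz =>
      simp only [Pi.add_apply, mul_add, Finset.sum_add_distrib, hy, hz, add_zero]
    | smul a y _ hy =>
      simp only [Pi.smul_apply, smul_eq_mul]
      calc ∑ i, ℓ' i * (a * y i) = a * ∑ i, ℓ' i * y i := by
            rw [Finset.mul_sum]; exact Finset.sum_congr rfl fun i _ => by ring
        _ = 0 := by rw [hy, mul_zero]
  obtain ⟨c, hc⟩ := Function.ne_iff.1 hℓ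
  simp only [Pi.zero_apply] at hc
  refine ⟨ℓ' c / ℓ c, ?_⟩
  funext i
  -- the vector `ℓ c e_i - ℓ i e_c` is in the kernel
  have hk : ∑ b, ℓ b * (ℓ c • (Pi.single i 1 : Fin (k + 1) → K) -
      ℓ i • (Pi.single c 1 : Fin (k + 1) → K)) b = 0 := by
    simp only [Pi.sub_apply, Pi.smul_apply, smul_eq_mul, mul_sub, Finset.sum_sub_distrib,
      Pi.single_apply, mul_ite, mul_one, mul_zero, Finset.sum_ite_eq', Finset.mem_univ, if_true]
    ring
  have h2 := hle' _ ((key _).2 hk)
  simp only [Pi.sub_apply, Pi.smul_apply, smul_eq_mul, mul_sub, Finset.sum_sub_distrib,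
    Pi.single_apply, mul_ite, mul_one, mul_zero, Finset.sum_ite_eq', Finset.mem_univ, if_true] at h2
  simp only [Pi.smul_apply, smul_eq_mul]
  field_simp
  linear_combination h2

end Pool.Agent.Work.SUB
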