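import Pool.Agent.Work.SUB.LGDefs

/-!
# LGL1: the weighted `ℓ¹` norm of a polynomial (block E, Mathlib only)

`l1 v ρ F = ∑_{s ∈ supp F} |F_s| ρ^s` with weights `ρ i > 0`.

PROOFS. Work with the following fact first (private lemma `l1_of_subset`): if `F.support ⊆ T` then
`l1 v ρ F = ∑ s ∈ T, v (F.coeff s) * s.prod ..` (extra terms have coefficient `0`).
* `l1_add_le`: sum over `T = F.support ∪ G.support`, `v (a + b) ≤ v a + v b`.
* `l1_sum_le`: induction (`Finset.induction_on`), `l1 0 = 0`.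
* `l1_monomial`: `l1 v ρ (monomial s a) = v a * ρ^s`.
* `l1_mul_le`: write `F = ∑_{s ∈ supp F} monomial s (F.coeff s)` and the same for `G`
  (`MvPolynomial.as_sum`), expand `F * G` as a double sum of
  `monomial (s + s') (F_s * G_{s'})`, use `l1_sum_le` twice, `l1_monomial`, `v (ab) = v a v b` and
  `(s + s').prod = s.prod * s'.prod` (`Finsupp.prod_add_index'`); the double sum of products is the
  product of the sums.
* `l1_pow_le`, `l1_prod_le`: induction (`l1 1 = 1`, `l1 ≥ 0`).
* `coeff_le_l1`: one term of a sum of nonnegative terms (if `s ∉ support` the left side is `0`).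
* `l1_lin_le`: `lin Y h i = ∑ l, C (Y h l i) * X (h, l)`; `l1 (C a * X e) = v a * ρ e`
  (`C a * X e = monomial (single e 1) a`), and `l1_sum_le`.
-/

set_option autoImplicit false

noncomputable section

namespace Pool.Agent.Work.SUB

open Finset MvPolynomial

variable {K : Type} [Field K] (v : AbsoluteValue K ℝ) {σ : Type} (ρ : σ → ℝ)

private theorem pw_pos {ρ : σ → ℝ} (hρ : ∀ i, 0 < ρ i) (s : σ →₀ ℕ) :
    0 < s.prod fun i e => ρ i ^ e :=
  Finset.prod_pos fun i _ => pow_pos (hρ i) _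

private theorem l1_of_subset (F : MvPolynomial σ K) {T : Finset (σ →₀ ℕ)} (hT : F.support ⊆ T) :
    l1 v ρ F = ∑ s ∈ T, v (F.coeff s) * s.prod fun i e => ρ i ^ e := by
  refine Finset.sum_subset hT fun s _ hs => ?_
  rw [MvPolynomial.notMem_support_iff.1 hs, map_zero, zero_mul]

private theorem l1_zero : l1 v ρ (0 : MvPolynomial σ K) = 0 := by
  simp [l1]

theorem l1_nonneg (hρ : ∀ i, 0 < ρ i) (F : MvPolynomial σ K) : 0 ≤ l1 v ρ F :=
  Finset.sum_nonneg fun s _ => mul_nonneg (v.nonneg _) (pw_pos hρ s).le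

theorem l1_monomial (s : σ →₀ ℕ) (a : K) :
    l1 v ρ (monomial s a) = v a * s.prod fun i e => ρ i ^ e := by
  classical
  rw [l1_of_subset v ρ (monomial s a) (T := {s}) MvPolynomial.support_monomial_subset,
    Finset.sum_singleton, MvPolynomial.coeff_monomial, if_pos rfl]

theorem l1_add_le (hρ : ∀ i, 0 < ρ i) (F G : MvPolynomial σ K) :
    l1 v ρ (F + G) ≤ l1 v ρ F + l1 v ρ G := by
  classical
  rw [l1_of_subset v ρ (F + G) (T := F.support ∪ G.support) MvPolynomial.support_add,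
    l1_of_subset v ρ F (T := F.support ∪ G.support) Finset.subset_union_left,
    l1_of_subset v ρ G (T := F.support ∪ G.support) Finset.subset_union_right,
    ← Finset.sum_add_distrib]
  refine Finset.sum_le_sum fun s _ => ?_
  rw [← add_mul, MvPolynomial.coeff_add]
  exact mul_le_mul_of_nonneg_right (v.add_le _ _) (pw_pos hρ s).le

theorem l1_sum_le (hρ : ∀ i, 0 < ρ i) {β : Type} (T : Finset β) (F : β → MvPolynomial σ K) :
    l1 v ρ (∑ b ∈ T, F b) ≤ ∑ b ∈ T, l1 v ρ (F b) := by
  classical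
  induction T using Finset.induction_on with
  | empty => simp [l1_zero]
  | insert b T hb ih =>
    rw [Finset.sum_insert hb, Finset.sum_insert hb]
    exact (l1_add_le v ρ hρ _ _).trans (add_le_add le_rfl ih)

theorem l1_mul_le (hρ : ∀ i, 0 < ρ i) (F G : MvPolynomial σ K) :
    l1 v ρ (F * G) ≤ l1 v ρ F * l1 v ρ G := by
  have h1 : F * G = ∑ s ∈ F.support, ∑ s' ∈ G.support,
      monomial (s + s') (F.coeff s * G.coeff s') := by
    conv_lhs => rw [F.as_sum, G.as_sum]
    rw [Finset.sum_mul_sum]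
    refine Finset.sum_congr rfl fun s _ => Finset.sum_congr rfl fun s' _ => ?_
    rw [MvPolynomial.monomial_mul]
  rw [h1]
  calc l1 v ρ (∑ s ∈ F.support, ∑ s' ∈ G.support, monomial (s + s') (F.coeff s * G.coeff s'))
      ≤ ∑ s ∈ F.support, l1 v ρ (∑ s' ∈ G.support,
        monomial (s + s') (F.coeff s * G.coeff s')) := l1_sum_le v ρ hρ _ _
    _ ≤ ∑ s ∈ F.support, ∑ s' ∈ G.support,
        l1 v ρ (monomial (s + s') (F.coeff s * G.coeff s')) :=
        Finset.sum_le_sum fun s _ => l1_sum_le v ρ hρ _ _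
    _ = ∑ s ∈ F.support, ∑ s' ∈ G.support, (v (F.coeff s) * s.prod fun i e => ρ i ^ e) *
        (v (G.coeff s') * s'.prod fun i e => ρ i ^ e) := by
        refine Finset.sum_congr rfl fun s _ => Finset.sum_congr rfl fun s' _ => ?_
        rw [l1_monomial, map_mul, Finsupp.prod_add_index' (fun _ => pow_zero _)
          (fun _ _ _ => pow_add _ _ _)]
        ring
    _ = l1 v ρ F * l1 v ρ G := by
        rw [l1, l1, Finset.sum_mul_sum]

private theorem l1_one : l1 v ρ (1 : MvPolynomial σ K) = 1 := by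
  have := l1_monomial v ρ 0 (1 : K)
  simpa using this

theorem l1_pow_le (hρ : ∀ i, 0 < ρ i) (F : MvPolynomial σ K) (k : ℕ) :
    l1 v ρ (F ^ k) ≤ l1 v ρ F ^ k := by
  induction k with
  | zero => simp [l1_one]
  | succ k ih =>
    rw [pow_succ, pow_succ]
    exact (l1_mul_le v ρ hρ _ _).trans
      (mul_le_mul_of_nonneg_right ih (l1_nonneg v ρ hρ F))

theorem l1_prod_le (hρ : ∀ i, 0 < ρ i) {β : Type} (T : Finset β) (F : β → MvPolynomial σ K) :
    l1 v ρ (∏ b ∈ T, F b) ≤ ∏ b ∈ T, l1 v ρ (F b) := by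
  classical
  induction T using Finset.induction_on with
  | empty => simp [l1_one]
  | insert b T hb ih =>
    rw [Finset.prod_insert hb, Finset.prod_insert hb]
    exact (l1_mul_le v ρ hρ _ _).trans
      (mul_le_mul_of_nonneg_left ih (l1_nonneg v ρ hρ _))

theorem coeff_le_l1 (hρ : ∀ i, 0 < ρ i) (F : MvPolynomial σ K) (s : σ →₀ ℕ) :
    v (F.coeff s) * (s.prod fun i e => ρ i ^ e) ≤ l1 v ρ F := by
  by_cases hs : s ∈ F.support
  · exact Finset.single_le_sum (f := fun s => v (F.coeff s) * s.prod fun i e => ρ i ^ e)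
      (fun s _ => mul_nonneg (v.nonneg _) (pw_pos hρ s).le) hs
  · rw [MvPolynomial.notMem_support_iff.1 hs, map_zero, zero_mul]
    exact l1_nonneg v ρ hρ F

theorem l1_lin_le {N n : ℕ} (ρ : Fin N × Fin n → ℝ) (hρ : ∀ a, 0 < ρ a)
    (Y : Fin N → Fin n → Fin n → K) (h : Fin N) (i : Fin n) :
    l1 v ρ (lin Y h i) ≤ ∑ l, v (Y h l i) * ρ (h, l) := by
  refine (l1_sum_le v ρ hρ _ _).trans (Finset.sum_le_sum fun l _ => ?_)
  rw [MvPolynomial.C_mul_X_eq_monomial, l1_monomial]
  simp

end Pool.Agent.Work.SUB
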