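import Pool.Agent.Work.SUB.LGDual

/-!
# LGLowA: a hyperplane of small height has a small sum of exponents (block E)

PROOF. Let `Λ = ∑ w, m w * ∑ i, c w i < 0`, `δ = - Λ`, `s = card ι ≥ 1`, `c₀ = δ / (4 s)`. Constants:
for all `w, i`, `C_{w,i}` from `hS.liouville w (k+1) (fun i' => (A w)⁻¹ i' i)`; let `C ≥ 1` be
an upper bound of all `C_{w,i}` and of all `((k+1)! / v w (A w).det) ^ m w`.
Given `Q ≥ Q₀ ≥ 1`, `x`, let `ℓ₀` be the vector of `exists_dual R x` and `ℓ` any nonzero vector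
killing the `x l`. By `span_eq_of_dual`, `ℓ = a • ℓ₀`, `a ≠ 0`; `logHeight ℓ = logHeight ℓ₀`
(`Height.logHeight_smul_eq_logHeight`) and `vecMul ℓ (A w)⁻¹ i ≠ 0 ↔ vecMul ℓ₀ (A w)⁻¹ i ≠ 0`. So let
`ℓ = ℓ₀`. Put `β w i = vecMul ℓ (A w)⁻¹ i = ∑ i', (A w)⁻¹ i' i * ℓ i'`, `s_w = ∑ i, c w i`.
`exists_dual` with `r i = Q ^ c w i`: `v w (β w i) ≤ (k+1)!/v w (A w).det * Q ^ (s_w - c w i)`
(`∏ i, Q ^ c w i = Q ^ s_w`, `Real.rpow_sum_of_pos`/`Real.rpow_add`).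
For `i(w)` with `β w (i w) ≠ 0`, Liouville:
`nrm (v w) ℓ ^ m w ≤ C * mulHeight ℓ * v w (β w (i w)) ^ m w
  ≤ C² * mulHeight ℓ * Q ^ (m w * (s_w - c w (i w)))`.
Multiply over `w`: `HR v m ℓ ≤ C^(2s) * (mulHeight ℓ)^s * Q ^ (Λ - ∑ w, m w * c w (i w))`.
`1 ≤ mulHeight ℓ ≤ HR v m ℓ` (`hS.height_le`, `Height.one_le_mulHeight`). If
`logHeight ℓ < c₀ * log Q` then, taking logarithms,
`0 ≤ 2 s log C + s c₀ log Q + (Λ - ∑ w, m w * c w (i w)) log Q`, so
`∑ w, m w * c w (i w) ≤ Λ + δ / 4 + 2 s log C / log Q ≤ Λ / 2` when `log Q ≥ 8 s log C / δ` and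
`log Q > 0`. Take `Q₀ = exp (max 1 (8 s log C / δ))`.
-/

set_option autoImplicit false

noncomputable section

namespace Pool.Agent.Work.SUB

private theorem nrm_nonneg' {K : Type} [Field K] (v : AbsoluteValue K ℝ) {n : ℕ} (x : Fin n → K) :
    0 ≤ nrm v x := Real.iSup_nonneg fun _ => v.nonneg _

private theorem le_sum_of {α : Type} [Fintype α] (f : α → ℝ) (hf : ∀ a, 0 ≤ f a) (a : α) :
    f a ≤ ∑ b, f b := Finset.single_le_sum (fun b _ => hf b) (Finset.mem_univ a)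

theorem lowA {K : Type} [Field K] [Height.AdmissibleAbsValues K] {ι : Type} [Fintype ι]
    {v : ι → AbsoluteValue K ℝ} {m : ι → ℕ} {R : Subring K} (hS : IsSD v m R) {k : ℕ}
    (A : ι → Matrix (Fin (k + 1)) (Fin (k + 1)) K) (hA : ∀ w, (A w).det ≠ 0)
    (c : ι → Fin (k + 1) → ℝ) (hc : ∑ w, (m w : ℝ) * ∑ i, c w i < 0) :
    ∃ c₀ : ℝ, 0 < c₀ ∧ ∃ Q₀ : ℝ, 1 < Q₀ ∧
      ∀ Q : ℝ, Q₀ ≤ Q → ∀ x : Fin k → Fin (k + 1) → K, LinearIndependent K x →
        (∀ j, Rv R (x j)) → (∀ j w i, v w ((A w).mulVec (x j) i) ≤ Q ^ c w i) →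
        ∀ ℓ : Fin (k + 1) → K, ℓ ≠ 0 → (∀ l, ∑ i, ℓ i * x l i = 0) →
          Height.logHeight ℓ < c₀ * Real.log Q →
          ∀ i : ι → Fin (k + 1), (∀ w, Matrix.vecMul ℓ (A w)⁻¹ (i w) ≠ 0) →
            ∑ w, (m w : ℝ) * c w (i w) ≤ (∑ w, (m w : ℝ) * ∑ i, c w i) / 2 := by
  have hne := hS.ne
  choose CL hCL0 hCL using fun w i => hS.liouville w (k + 1) (fun i' => (A w)⁻¹ i' i)
  set f : ι → ℝ := fun w => ((k + 1).factorial : ℝ) / v w (A w).det with hf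
  have hdet : ∀ w, 0 < v w (A w).det := fun w => (v w).pos (hA w)
  have hf0 : ∀ w, 0 < f w := fun w => div_pos (by positivity) (hdet w)
  set C : ℝ := 1 + ∑ w, ∑ i, CL w i + ∑ w, f w ^ m w with hC
  have hs1 : 0 ≤ ∑ w, ∑ i, CL w i :=
    Finset.sum_nonneg fun w _ => Finset.sum_nonneg fun i _ => (hCL0 w i).le
  have hs2 : 0 ≤ ∑ w, f w ^ m w := Finset.sum_nonneg fun w _ => (pow_pos (hf0 w) _).le
  have hC1 : 1 ≤ C := by linarith
  have hC0 : 0 < C := by linarith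
  have hCLC : ∀ w i, CL w i ≤ C := by
    intro w i
    have h1 := le_sum_of (fun i => CL w i) (fun i => (hCL0 w i).le) i
    have h2 := le_sum_of (fun w => ∑ i, CL w i)
      (fun w => Finset.sum_nonneg fun i _ => (hCL0 w i).le) w
    linarith
  have hfC : ∀ w, f w ^ m w ≤ C := by
    intro w
    have h1 := le_sum_of (fun w => f w ^ m w) (fun w => (pow_pos (hf0 w) _).le) w
    linarith
  set Λ : ℝ := ∑ w, (m w : ℝ) * ∑ i, c w i with hΛ
  have hcard : (1 : ℝ) ≤ Fintype.card ι := by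
    exact_mod_cast Fintype.card_pos
  have hcard0 : (0 : ℝ) < Fintype.card ι := by linarith
  have hlogC : 0 ≤ Real.log C := Real.log_nonneg hC1
  refine ⟨-Λ / (4 * Fintype.card ι), div_pos (by linarith) (by linarith),
    Real.exp (max 1 (8 * Fintype.card ι * Real.log C / (-Λ))), ?_, ?_⟩
  · exact Real.one_lt_exp_iff.2 (lt_of_lt_of_le one_pos (le_max_left _ _))
  intro Q hQ x hx hR hbd ℓ hℓ hkill hht i hi
  have hQ0 : 0 < Q := (Real.exp_pos _).trans_le hQ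
  have hlogQ : max 1 (8 * Fintype.card ι * Real.log C / (-Λ)) ≤ Real.log Q :=
    (Real.le_log_iff_exp_le hQ0).2 hQ
  have hlogQ1 : 1 ≤ Real.log Q := (le_max_left _ _).trans hlogQ
  have hlogQ2 : 8 * Fintype.card ι * Real.log C ≤ Real.log Q * (-Λ) := by
    have := (le_max_right _ _).trans hlogQ
    rwa [div_le_iff₀ (by linarith)] at this
  obtain ⟨ℓ₀, hℓ₀, hR₀, hk₀, hb₀⟩ := exists_dual R x hx (fun l i => (hR l).2 i)
  obtain ⟨a, rfl⟩ := (span_eq_of_dual x hx ℓ₀ hℓ₀ hk₀).2 ℓ hkill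
  have ha : a ≠ 0 := by
    rintro rfl
    exact hℓ (zero_smul _ _)
  rw [Height.logHeight_smul_eq_logHeight _ ha] at hht
  have hβ : ∀ w, Matrix.vecMul ℓ₀ (A w)⁻¹ (i w) ≠ 0 := by
    intro w h0
    apply hi w
    rw [Matrix.smul_vecMul, Pi.smul_apply, h0, smul_zero]
  have hβeq : ∀ w, Matrix.vecMul ℓ₀ (A w)⁻¹ (i w) = ∑ i', (A w)⁻¹ i' (i w) * ℓ₀ i' := by
    intro w
    rw [Matrix.vecMul, dotProduct]
    exact Finset.sum_congr rfl fun i' _ => mul_comm _ _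
  have hQc : ∀ w i, (0 : ℝ) < Q ^ c w i := fun w i => Real.rpow_pos_of_pos hQ0 _
  have hvβ : ∀ w, v w (Matrix.vecMul ℓ₀ (A w)⁻¹ (i w)) ≤
      f w * Q ^ (∑ i', c w i' - c w (i w)) := by
    intro w
    have h1 := hb₀ (A w) (hA w) (v w) (fun i' => Q ^ c w i') (hQc w) (fun l i' => hbd l w i') (i w)
    rw [← Real.rpow_sum_of_pos hQ0] at h1
    rw [Real.rpow_sub hQ0, hf, div_mul_div_comm, le_div_iff₀ (mul_pos (hdet w) (hQc w _))]
    calc _ = v w (Matrix.vecMul ℓ₀ (A w)⁻¹ (i w)) * v w (A w).det * Q ^ c w (i w) := by ring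
      _ ≤ _ := h1
  have hH1 : 1 ≤ Height.mulHeight ℓ₀ := Height.one_le_mulHeight ℓ₀
  have hH0 : 0 < Height.mulHeight ℓ₀ := by linarith
  have hloc : ∀ w, nrm (v w) ℓ₀ ^ m w ≤
      C * C * Height.mulHeight ℓ₀ * Q ^ ((m w : ℝ) * (∑ i', c w i' - c w (i w))) := by
    intro w
    have h1 := hCL w (i w) ℓ₀ (by rw [← hβeq]; exact hβ w)
    rw [← hβeq] at h1
    have h2 : v w (Matrix.vecMul ℓ₀ (A w)⁻¹ (i w)) ^ m w ≤
        C * Q ^ ((m w : ℝ) * (∑ i', c w i' - c w (i w))) := by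
      calc _ ≤ (f w * Q ^ (∑ i', c w i' - c w (i w))) ^ m w :=
            pow_le_pow_left₀ ((v w).nonneg _) (hvβ w) _
        _ = f w ^ m w * Q ^ ((m w : ℝ) * (∑ i', c w i' - c w (i w))) := by
            rw [mul_pow, ← Real.rpow_natCast (Q ^ _) (m w), ← Real.rpow_mul hQ0.le,
              mul_comm (∑ i', c w i' - c w (i w))]
        _ ≤ _ := mul_le_mul_of_nonneg_right (hfC w) (Real.rpow_pos_of_pos hQ0 _).le
    calc _ ≤ CL w (i w) * Height.mulHeight ℓ₀ * v w (Matrix.vecMul ℓ₀ (A w)⁻¹ (i w)) ^ m w := h1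
      _ ≤ C * Height.mulHeight ℓ₀ * (C * Q ^ ((m w : ℝ) * (∑ i', c w i' - c w (i w)))) := by
          refine mul_le_mul (mul_le_mul_of_nonneg_right (hCLC w _) hH0.le) h2
            (pow_nonneg ((v w).nonneg _) _) (by positivity)
      _ = _ := by ring
  have hprod : Height.mulHeight ℓ₀ ≤ (C * C * Height.mulHeight ℓ₀) ^ Fintype.card ι *
      Q ^ (Λ - ∑ w, (m w : ℝ) * c w (i w)) := by
    refine (hS.height_le (k + 1) ℓ₀ ⟨hℓ₀, hR₀⟩).trans ?_
    unfold HR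
    refine (Finset.prod_le_prod (fun w _ => pow_nonneg (nrm_nonneg' (v w) ℓ₀) _)
      fun w _ => hloc w).trans (le_of_eq ?_)
    rw [Finset.prod_mul_distrib, Finset.prod_const, Finset.card_univ, ← Real.rpow_sum_of_pos hQ0]
    congr 2
    rw [hΛ, ← Finset.sum_sub_distrib]
    exact Finset.sum_congr rfl fun w _ => mul_sub _ _ _
  have hlog : 0 ≤ Fintype.card ι * (2 * Real.log C + Height.logHeight ℓ₀) +
      (Λ - ∑ w, (m w : ℝ) * c w (i w)) * Real.log Q := by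
    have h1 := Real.log_le_log one_pos (hH1.trans hprod)
    rw [Real.log_one, Real.log_mul (by positivity) (Real.rpow_pos_of_pos hQ0 _).ne',
      Real.log_pow, Real.log_rpow hQ0, Real.log_mul (by positivity) hH0.ne',
      Real.log_mul hC0.ne' hC0.ne'] at h1
    rw [Height.logHeight_eq_log_mulHeight]
    linarith
  have hht2 : Fintype.card ι * Height.logHeight ℓ₀ ≤ -Λ / 4 * Real.log Q := by
    have h1 := mul_le_mul_of_nonneg_left hht.le hcard0.le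
    refine h1.trans (le_of_eq ?_)
    field_simp
  set T := ∑ w, (m w : ℝ) * c w (i w) with hT
  have hfin : T * Real.log Q ≤ Λ / 2 * Real.log Q := by nlinarith
  exact le_of_mul_le_mul_right hfin (by linarith)

end Pool.Agent.Work.SUB
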