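import Pool.Agent.Work.SUB.LGL1

/-!
# LGMon: change of coordinates in block homogeneous polynomials (block E)

`mon β J = ∏_h ∏_i (∑_{i'} β i i' X (h, i')) ^ (J h i)`, `tC β j J` = coefficient of the monomial
`j` in `mon β J`.

PROOFS.
* `mon_eq`: for `J ∈ MI d`, `mon β J = ∑_{j ∈ MI d} monomial (fin j) (tC β j J)`. Every `s` in the
  support of `mon β J` satisfies `∑ i, s (h, i) = d h` for all `h`: `mon β J` is weighted homogeneous
  of degree `d h` for the weight `fun a => if a.1 = h then 1 else 0`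
  (`MvPolynomial.IsWeightedHomogeneous.prod`, `.pow`, `.sum`, `isWeightedHomogeneous_X`,
  `isWeightedHomogeneous_C`; the factor of block `h'` has degree `if h' = h then J h' i else 0`). So
  the support is contained in the image of `MI d` under `fin` (surjective: `s = fin (fun h i => s (h,i))`)
  and `MvPolynomial.ext`/`coeff_sum`/`coeff_monomial` with `fin_injective` finish.
* `ev_change`: `X h i = ∑_{i'} β i i' Z h i'` for `Z h = A X h` because `β A = 1` (`β = A⁻¹`,
  `Matrix.nonsing_inv_mul`). So `∏ X^J = aeval (fun a => Z a.1 a.2) (mon β J)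
  = ∑_j algebraMap (tC β j J) * ∏ Z^j` by `mon_eq`; sum over `J` and exchange the sums.
* `tC_le`: `v (tC β j J) ≤ l1 v 1 (mon β J) ≤ ∏_{h,i} (∑_{i'} v (β i i'))^(J h i)
  ≤ (n b)^(∑ d)` with `v (β i i') ≤ b`, `1 ≤ b` (LGL1 with `ρ = 1`; `∑_{h,i} J h i = ∑ h, d h`;
  if `n = 0` all sums are empty: then every `d h = 0` and the claim is `v 1 ≤ 1` or `v 0 ≤ 1`).
* `tC_mem`: `b^(∑ d) * mon β J = mon (b β) J` and `mon γ J` has coefficients in `R` if `γ` has: the
  polynomials with all coefficients in the subring `R` form a subring (range of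
  `MvPolynomial.map R.subtype`, or prove closure under sums and products directly).
-/

set_option autoImplicit false

noncomputable section

namespace Pool.Agent.Work.SUB

open Finset MvPolynomial

variable {K : Type} [Field K]

/-- The monomial `J` in the coordinates `β`. -/
def mon {N n : ℕ} (β : Matrix (Fin n) (Fin n) K) (J : Fin N → Fin n → ℕ) :
    MvPolynomial (Fin N × Fin n) K :=
  ∏ h, ∏ i, (∑ i', C (β i i') * X (h, i')) ^ J h i

/-- The coefficient of the monomial `j` in `mon β J`. -/
def tC {N n : ℕ} (β : Matrix (Fin n) (Fin n) K) (j J : Fin N → Fin n → ℕ) : K :=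
  (mon β J).coeff (fin j)

/-- the weight which separates the blocks -/
private def lgmWt {N n : ℕ} : Fin N × Fin n → (Fin N → ℕ) := fun a => Pi.single a.1 1

private theorem lgm_wt_apply {N n : ℕ} (s : (Fin N × Fin n) →₀ ℕ) (h : Fin N) :
    Finsupp.weight (lgmWt (N := N) (n := n)) s h = ∑ i, s (h, i) := by
  rw [Finsupp.weight_apply, Finsupp.sum_fintype _ _ (by intro i; simp), Finset.sum_apply,
    Fintype.sum_prod_type, Finset.sum_eq_single h]
  · apply Finset.sum_congr rfl
    intro i _
    simp [lgmWt]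
  · intro h' _ hne
    apply Finset.sum_eq_zero
    intro i _
    simp [lgmWt, hne.symm]
  · intro hh
    exact absurd (Finset.mem_univ h) hh

private theorem mon_hom {N n : ℕ} (β : Matrix (Fin n) (Fin n) K) (d : Fin N → ℕ)
    (J : Fin N → Fin n → ℕ) (hJ : J ∈ MI d) :
    IsWeightedHomogeneous (lgmWt (N := N) (n := n)) (mon β J) d := by
  have h1 : IsWeightedHomogeneous (lgmWt (N := N) (n := n)) (mon β J)
      (∑ h : Fin N, ∑ i : Fin n, J h i • (Pi.single h 1 : Fin N → ℕ)) := by
    unfold mon
    apply IsWeightedHomogeneous.prod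
    intro h _
    apply IsWeightedHomogeneous.prod
    intro i _
    apply IsWeightedHomogeneous.pow
    apply IsWeightedHomogeneous.sum
    intro i' _
    have h2 : IsWeightedHomogeneous (lgmWt (N := N) (n := n)) (X (h, i') : MvPolynomial _ K)
        (Pi.single h 1 : Fin N → ℕ) := isWeightedHomogeneous_X _ _ _
    exact h2.C_mul _
  have h2 : (∑ h : Fin N, ∑ i : Fin n, J h i • (Pi.single h 1 : Fin N → ℕ)) = d := by
    rw [mem_MI] at hJ
    funext h
    rw [Finset.sum_apply, Finset.sum_eq_single h]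
    · rw [Finset.sum_apply, ← hJ h]
      apply Finset.sum_congr rfl
      intro i _
      simp
    · intro h' _ hne
      rw [Finset.sum_apply]
      apply Finset.sum_eq_zero
      intro i _
      simp [hne.symm]
    · intro hh
      exact absurd (Finset.mem_univ h) hh
  rw [h2] at h1
  exact h1

theorem mon_eq {N n : ℕ} (β : Matrix (Fin n) (Fin n) K) (d : Fin N → ℕ) (J : Fin N → Fin n → ℕ)
    (hJ : J ∈ MI d) : mon β J = ∑ j ∈ MI d, monomial (fin j) (tC β j J) := by
  classical
  ext s
  rw [coeff_sum]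
  simp only [coeff_monomial]
  set j₀ : Fin N → Fin n → ℕ := fun h i => s (h, i) with hj₀
  have hfin : fin j₀ = s := by
    ext a
    rw [fin_apply]
  by_cases hmem : j₀ ∈ MI d
  · rw [Finset.sum_eq_single j₀]
    · rw [if_pos hfin, tC, hfin]
    · intro j _ hne
      rw [if_neg]
      intro hh
      apply hne
      apply fin_injective
      rw [hh, hfin]
    · intro hh
      exact absurd hmem hh
  · rw [Finset.sum_eq_zero]
    · by_contra hne
      apply hmem
      rw [mem_MI]
      intro h
      have h1 := mon_hom β d J hJ hne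
      rw [← lgm_wt_apply, h1]
    · intro j hj
      rw [if_neg]
      intro hh
      apply hmem
      have : j = j₀ := by
        apply fin_injective
        rw [hh, hfin]
      rw [← this]
      exact hj

/-- Coefficients in the new coordinates `Z h = A (X h)`. -/
theorem ev_change {N n : ℕ} (A : Matrix (Fin n) (Fin n) K) (hA : A.det ≠ 0) (d : Fin N → ℕ)
    (p : (Fin N → Fin n → ℕ) → K) {B : Type} [CommRing B] [Algebra K B] (X : Fin N → Fin n → B) :
    ev d p X = ev d (fun j => ∑ J ∈ MI d, tC A⁻¹ j J * p J)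
      (fun h => (A.map (algebraMap K B)).mulVec (X h)) := by
  set Z : Fin N → Fin n → B := fun h => (A.map (algebraMap K B)).mulVec (X h) with hZ
  have hX : ∀ h i, ∑ i', algebraMap K B (A⁻¹ i i') * Z h i' = X h i := by
    intro h i
    have h1 : (A⁻¹.map (algebraMap K B)).mulVec (Z h) = X h := by
      rw [hZ]
      simp only [Matrix.mulVec_mulVec]
      rw [← Matrix.map_mul, Matrix.nonsing_inv_mul _ (isUnit_iff_ne_zero.2 hA),
        Matrix.map_one _ (map_zero _) (map_one _), Matrix.one_mulVec]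
    exact congrFun h1 i
  have hmon : ∀ J ∈ MI d, ∏ h, ∏ i, X h i ^ J h i =
      ∑ j ∈ MI d, algebraMap K B (tC A⁻¹ j J) * ∏ h, ∏ i, Z h i ^ j h i := by
    intro J hJ
    have h1 : aeval (fun a : Fin N × Fin n => Z a.1 a.2) (mon A⁻¹ J) =
        ∏ h, ∏ i, X h i ^ J h i := by
      unfold mon
      simp only [map_prod, map_pow, map_sum, map_mul, aeval_C, aeval_X, hX]
    have h2 := congrArg (aeval (fun a : Fin N × Fin n => Z a.1 a.2)) (mon_eq A⁻¹ d J hJ)
    rw [h1, map_sum] at h2
    rw [h2]
    apply Finset.sum_congr rfl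
    intro j _
    rw [aeval_monomial, Finsupp.prod_fintype _ _ (by intro a; simp), Fintype.prod_prod_type]
    rfl
  unfold ev
  rw [Finset.sum_congr rfl (fun J hJ => by rw [hmon J hJ, Finset.mul_sum])]
  rw [Finset.sum_comm]
  apply Finset.sum_congr rfl
  intro j _
  rw [map_sum, Finset.sum_mul]
  apply Finset.sum_congr rfl
  intro J _
  rw [map_mul]
  ring

theorem tC_le {N n : ℕ} (v : AbsoluteValue K ℝ) (β : Matrix (Fin n) (Fin n) K) {b : ℝ}
    (hb1 : 1 ≤ b) (hb : ∀ i i', v (β i i') ≤ b) (d : Fin N → ℕ) (j J : Fin N → Fin n → ℕ)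
    (hJ : J ∈ MI d) : v (tC β j J) ≤ (n * b) ^ ∑ h, d h := by
  have hρ : ∀ a : Fin N × Fin n, (0 : ℝ) < (fun _ => (1 : ℝ)) a := fun _ => one_pos
  have h1 := coeff_le_l1 v (fun _ : Fin N × Fin n => (1 : ℝ)) hρ (mon β J) (fin j)
  have h2 : ((fin j).prod fun (i : Fin N × Fin n) (e : ℕ) => (1 : ℝ) ^ e) = 1 := by
    simp
  rw [h2, mul_one] at h1
  have hlin : ∀ (h : Fin N) (i : Fin n),
      l1 v (fun _ : Fin N × Fin n => (1 : ℝ)) (∑ i', C (β i i') * X (h, i')) ≤ n * b := by
    intro h i
    refine (l1_sum_le v _ hρ _ _).trans ?_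
    have h3 : ∀ i' ∈ (Finset.univ : Finset (Fin n)),
        l1 v (fun _ : Fin N × Fin n => (1 : ℝ)) (C (β i i') * X (h, i')) ≤ b := by
      intro i' _
      rw [C_mul_X_eq_monomial, l1_monomial]
      simpa using hb i i'
    refine (Finset.sum_le_card_nsmul _ _ _ h3).trans ?_
    simp
  have h4 : l1 v (fun _ : Fin N × Fin n => (1 : ℝ)) (mon β J) ≤
      ∏ h : Fin N, ∏ i : Fin n, (n * b) ^ J h i := by
    unfold mon
    refine (l1_prod_le v _ hρ _ _).trans ?_
    apply Finset.prod_le_prod
    · intro h _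
      exact l1_nonneg v _ hρ _
    · intro h _
      refine (l1_prod_le v _ hρ _ _).trans ?_
      apply Finset.prod_le_prod
      · intro i _
        exact l1_nonneg v _ hρ _
      · intro i _
        refine (l1_pow_le v _ hρ _ _).trans ?_
        exact pow_le_pow_left₀ (l1_nonneg v _ hρ _) (hlin h i) _
  have h5 : ∏ h : Fin N, ∏ i : Fin n, ((n : ℝ) * b) ^ J h i = (n * b) ^ ∑ h, d h := by
    rw [← Finset.prod_pow_eq_pow_sum]
    apply Finset.prod_congr rfl
    intro h _
    rw [Finset.prod_pow_eq_pow_sum, mem_MI.1 hJ h]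
  rw [← h5]
  exact h1.trans h4

theorem tC_mem {N n : ℕ} (R : Subring K) (β : Matrix (Fin n) (Fin n) K) (b : K)
    (hb : ∀ i i', b * β i i' ∈ R) (d : Fin N → ℕ) (j J : Fin N → Fin n → ℕ)
    (hJ : J ∈ MI d) : b ^ (∑ h, d h) * tC β j J ∈ R := by
  set P : MvPolynomial (Fin N × Fin n) R :=
    ∏ h, ∏ i, (∑ i', C (⟨b * β i i', hb i i'⟩ : R) * X (h, i')) ^ J h i with hP
  have h1 : map R.subtype P = C (b ^ ∑ h, d h) * mon β J := by
    rw [hP]
    simp only [map_prod, map_pow, map_sum, map_mul, map_C, map_X, Subring.subtype_apply]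
    have h2 : ∀ (h : Fin N) (i : Fin n),
        ∑ i', C b * C (β i i') * (X (h, i') : MvPolynomial (Fin N × Fin n) K) =
        C b * ∑ i', C (β i i') * X (h, i') := by
      intro h i
      rw [Finset.mul_sum]
      apply Finset.sum_congr rfl
      intro i' _
      ring
    simp only [h2, mul_pow]
    unfold mon
    simp only [Finset.prod_mul_distrib]
    congr 1
    rw [← Finset.prod_pow_eq_pow_sum]
    apply Finset.prod_congr rfl
    intro h _
    rw [Finset.prod_pow_eq_pow_sum, mem_MI.1 hJ h]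
  have h2 := congrArg (coeff (fin j)) h1
  rw [coeff_map, coeff_C_mul] at h2
  rw [tC, ← h2]
  exact (coeff (fin j) P).2

end Pool.Agent.Work.SUB
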