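import Pool.Agent.Work.SUB.Dav

/-!
# Modt: changing the weights at one place (block M, module M8)

PROOF of `exists_modt`. Take `π` from `davenport (v w₀) (A w₀) (t w₀) x`. Let `c = 1 / m w₀`,
`t' = modt m w₀ π ρ t`. For `y` in the span of the `x_i`, `i ≤ j`, there is `l ≤ j` with
`tw y ≤ n! * t (π l) v (L_{π l} y)` (at `w₀`); `t' w₀ (π l) = ρ l ^ c * t w₀ (π l)` and `ρ j ≤ ρ l`, so
`ρ j ^ c * tw y ≤ n! * t' (π l) v (L_{π l} y) ≤ n! * tw' y` (`le_tw`). Raise to the power `m w₀`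
(`(ρ j ^ c) ^ (m w₀) = ρ j`); the factors of `NN` at `w ≠ w₀` do not change.
-/

set_option autoImplicit false

noncomputable section

namespace Pool.Agent.Work.SUB

open Classical in
/-- The weights `t`, multiplied by `ρ l ^ (1 / m w₀)` at `w₀` and the form with index `π l`. -/
def modt {ι : Type} (m : ι → ℕ) (w₀ : ι) {n : ℕ} (π : Equiv.Perm (Fin n)) (ρ : Fin n → ℝ)
    (t : ι → Fin n → ℝ) : ι → Fin n → ℝ :=
  fun w i => if w = w₀ then ρ (π.symm i) ^ (1 / (m w₀ : ℝ)) * t w i else t w i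

variable {K : Type} [Field K] {ι : Type} [Fintype ι] {v : ι → AbsoluteValue K ℝ} {m : ι → ℕ}

theorem modt_pos (w₀ : ι) {n : ℕ} (π : Equiv.Perm (Fin n)) {ρ : Fin n → ℝ} (hρ : ∀ j, 0 < ρ j)
    {t : ι → Fin n → ℝ} (ht : ∀ w i, 0 < t w i) (w : ι) (i : Fin n) :
    0 < modt m w₀ π ρ t w i := by
  unfold modt
  split_ifs
  · exact mul_pos (Real.rpow_pos_of_pos (hρ _) _) (ht w i)
  · exact ht w i

private theorem modt_rpow {w₀ : ι} (hm : 1 ≤ m w₀) {x : ℝ} (hx : 0 ≤ x) :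
    (x ^ (1 / (m w₀ : ℝ))) ^ m w₀ = x := by
  have h : (m w₀ : ℝ) ≠ 0 := by
    have h1 : (0 : ℝ) < m w₀ := by exact_mod_cast hm
    exact h1.ne'
  rw [← Real.rpow_mul_natCast hx, one_div, inv_mul_cancel₀ h, Real.rpow_one]

theorem wt_modt {w₀ : ι} (hm : 1 ≤ m w₀) {n : ℕ} (π : Equiv.Perm (Fin n)) {ρ : Fin n → ℝ}
    (hρ : ∀ j, 0 < ρ j) (t : ι → Fin n → ℝ) :
    wt m (modt m w₀ π ρ t) = (∏ j, ρ j) * wt m t := by
  classical
  have h1 : ∀ w, ∏ i, modt m w₀ π ρ t w i ^ m w =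
      (if w = w₀ then ∏ j, ρ j else 1) * ∏ i, t w i ^ m w := by
    intro w
    by_cases h : w = w₀
    · subst h
      rw [if_pos rfl, ← Equiv.prod_comp π.symm ρ, ← Finset.prod_mul_distrib]
      refine Finset.prod_congr rfl fun i _ => ?_
      unfold modt
      rw [if_pos rfl, mul_pow, modt_rpow hm (hρ _).le]
    · rw [if_neg h, one_mul]
      refine Finset.prod_congr rfl fun i _ => ?_
      unfold modt
      rw [if_neg h]
  unfold wt
  rw [Finset.prod_congr rfl fun w _ => h1 w, Finset.prod_mul_distrib, Finset.prod_ite_eq',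
    if_pos (Finset.mem_univ _)]

theorem exists_modt {w₀ : ι} (hm : 1 ≤ m w₀) {n : ℕ} (A : ι → Matrix (Fin n) (Fin n) K)
    (t : ι → Fin n → ℝ) (ht : ∀ w i, 0 < t w i) (x : Fin n → Fin n → K) :
    ∃ π : Equiv.Perm (Fin n), ∀ ρ : Fin n → ℝ, (∀ j, 0 < ρ j) → Antitone ρ →
      ∀ (j : Fin n) (y : Fin n → K), y ∈ Submodule.span K (x '' {i | i ≤ j}) →
        ρ j * NN v m A t y ≤ (n.factorial : ℝ) ^ m w₀ * NN v m A (modt m w₀ π ρ t) y := by
  classical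
  obtain ⟨π, hπ⟩ := davenport (v w₀) (A w₀) (t w₀) (ht w₀) x
  refine ⟨π, fun ρ hρ hanti j y hy => ?_⟩
  obtain ⟨l, hlj, hl⟩ := hπ j y hy
  have ht' : ∀ w i, 0 < modt m w₀ π ρ t w i := modt_pos w₀ π hρ ht
  have hc : (0 : ℝ) ≤ 1 / (m w₀ : ℝ) := by positivity
  have h1 : ρ j ^ (1 / (m w₀ : ℝ)) * tw (v w₀) (A w₀) (t w₀) y ≤
      (n.factorial : ℝ) * tw (v w₀) (A w₀) (modt m w₀ π ρ t w₀) y := by
    have h2 := le_tw (v w₀) (A w₀) (modt m w₀ π ρ t w₀) y (π l)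
    have h3 : modt m w₀ π ρ t w₀ (π l) = ρ l ^ (1 / (m w₀ : ℝ)) * t w₀ (π l) := by
      unfold modt
      rw [if_pos rfl, Equiv.symm_apply_apply]
    rw [h3] at h2
    have h4 : ρ j ^ (1 / (m w₀ : ℝ)) ≤ ρ l ^ (1 / (m w₀ : ℝ)) :=
      Real.rpow_le_rpow (hρ j).le (hanti hlj) hc
    have h5 : 0 ≤ t w₀ (π l) * v w₀ ((A w₀).mulVec y (π l)) :=
      mul_nonneg (ht w₀ _).le ((v w₀).nonneg _)
    have h6 : 0 ≤ ρ j ^ (1 / (m w₀ : ℝ)) := Real.rpow_nonneg (hρ j).le _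
    calc ρ j ^ (1 / (m w₀ : ℝ)) * tw (v w₀) (A w₀) (t w₀) y
        ≤ ρ j ^ (1 / (m w₀ : ℝ)) *
            ((n.factorial : ℝ) * (t w₀ (π l) * v w₀ ((A w₀).mulVec y (π l)))) :=
          mul_le_mul_of_nonneg_left hl h6
      _ = (n.factorial : ℝ) *
            (ρ j ^ (1 / (m w₀ : ℝ)) * (t w₀ (π l) * v w₀ ((A w₀).mulVec y (π l)))) := by ring
      _ ≤ (n.factorial : ℝ) *
            (ρ l ^ (1 / (m w₀ : ℝ)) * (t w₀ (π l) * v w₀ ((A w₀).mulVec y (π l)))) :=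
          mul_le_mul_of_nonneg_left (mul_le_mul_of_nonneg_right h4 h5) (Nat.cast_nonneg _)
      _ ≤ (n.factorial : ℝ) * tw (v w₀) (A w₀) (modt m w₀ π ρ t w₀) y := by
          refine mul_le_mul_of_nonneg_left ?_ (Nat.cast_nonneg _)
          rw [← mul_assoc]
          exact h2
  have h7 : 0 ≤ ρ j ^ (1 / (m w₀ : ℝ)) * tw (v w₀) (A w₀) (t w₀) y :=
    mul_nonneg (Real.rpow_nonneg (hρ j).le _) (tw_nonneg _ _ (fun i => (ht w₀ i).le) y)
  have h8 := pow_le_pow_left₀ h7 h1 (m w₀)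
  rw [mul_pow, mul_pow, modt_rpow hm (hρ j).le] at h8
  unfold NN
  rw [← Finset.mul_prod_erase _ _ (Finset.mem_univ w₀),
    ← Finset.mul_prod_erase (Finset.univ : Finset ι)
      (fun w => tw (v w) (A w) (modt m w₀ π ρ t w) y ^ m w) (Finset.mem_univ w₀)]
  have h9 : ∏ w ∈ Finset.univ.erase w₀, tw (v w) (A w) (modt m w₀ π ρ t w) y ^ m w =
      ∏ w ∈ Finset.univ.erase w₀, tw (v w) (A w) (t w) y ^ m w := by
    refine Finset.prod_congr rfl fun w hw => ?_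
    have h10 : modt m w₀ π ρ t w = t w := by
      funext i
      unfold modt
      rw [if_neg (Finset.ne_of_mem_erase hw)]
    rw [h10]
  rw [h9, ← mul_assoc, ← mul_assoc]
  refine mul_le_mul_of_nonneg_right h8 (Finset.prod_nonneg fun w _ => ?_)
  exact pow_nonneg (tw_nonneg _ _ (fun i => (ht w i).le) y) _

end Pool.Agent.Work.SUB
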