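import Pool.Agent.Work.SUB.Gap

/-!
# Param: the parametric Subspace Theorem (block M, module M15)

PROOF of `param'`. `γ = δ / (2n)`. For `g = 1, ..., n-1` let `Q_g`, `𝒰_g` be from `gap` with `γ`; let `c₁₀` be
from `lower` (`wt m t = 1` by `wt_rpow`): `c₁₀ ≤ ∏ NN (x j)` for quasi-minimal `x`. `Q₀` = maximum of the
`Q_g`, and so large that `4^n Q₀^(-nδ/2) < c₁₀`. `𝒰` = the members `≠ ⊤` of the union of the `𝒰_g`.
Let `Q ≥ Q₀`, `y` with `Rv R y`, `NN y ≤ Q^(-δ)`; `x` quasi-minimal (`exists_qmin`), `j₀` the first index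
(`exists_first`): `y ∈ span (x '' {i ≤ j₀})`, `y ∉ span (x '' {i < j₀})`, so `NN (x j₀) ≤ 2 NN y ≤
2 Q^(-δ)`. Suppose `NN (x g) < Q^γ NN (x (g-1))` for all `g` with `j₀ < g ≤ n-1`. Then
`NN (x j) ≤ 2 NN (x j₀) ≤ 4 Q^(-δ)` for `j ≤ j₀` (`QMin.mono`) and `NN (x j) ≤ Q^(γ (j-j₀)) 2 Q^(-δ) ≤
2 Q^(-δ/2)` for `j > j₀`; so `c₁₀ ≤ ∏ NN (x j) ≤ 4^n Q^(-nδ/2)`, a contradiction. So there is `g > j₀` with
`Q^γ NN (x (g-1)) ≤ NN (x g)`, and `span (x '' {i | i.val < g}) ∈ 𝒰_g`; it contains `y` and has dimension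
`g < n`, so it is not `⊤`.

PROOF of `paramUnif`: as `lastGapUnif` (Net.lean): finite net of exponents, `NN_round`.
-/

set_option autoImplicit false

noncomputable section

namespace Pool.Agent.Work.SUB

variable {K : Type} [Field K] [CharZero K] [Height.AdmissibleAbsValues K] {ι : Type} [Fintype ι]
  {v : ι → AbsoluteValue K ℝ} {m : ι → ℕ} {R : Subring K}

theorem param' (hS : IsSD v m R) (hRoth : ∀ N, RothLemma K N) {n : ℕ} (hn : 2 ≤ n)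
    (A : ι → Matrix (Fin n) (Fin n) K) (hA : ∀ w, (A w).det ≠ 0)
    (c : ι → Fin n → ℝ) (hc : ∑ w, (m w : ℝ) * ∑ i, c w i = 0) (δ : ℝ) (hδ : 0 < δ) :
    ∃ Q₀ : ℝ, 1 ≤ Q₀ ∧ ∃ 𝒰 : Set (Submodule K (Fin n → K)), 𝒰.Finite ∧ (∀ U ∈ 𝒰, U ≠ ⊤) ∧
      ∀ Q : ℝ, Q₀ ≤ Q → ∀ x : Fin n → K, Rv R x →
        NN v m A (fun w i => Q ^ (-(c w i))) x ≤ Q ^ (-δ) → ∃ U ∈ 𝒰, x ∈ U := by
  have hn0 : (0 : ℝ) < n := by exact_mod_cast (show 0 < n by omega)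
  have hγ : 0 < δ / (2 * n) := by positivity
  choose Qg hQg 𝒰g h𝒰g hg using fun g : Fin (n - 1) => gap hS hRoth A hA c hc ((g : ℕ) + 1)
    (by omega) (by omega) (δ / (2 * n)) hγ
  obtain ⟨c₁, hc₁, hlow⟩ := lower hS A hA
  have hnδ : 0 < (n : ℝ) * (δ / 2) := by positivity
  have htend := (tendsto_rpow_neg_atTop hnδ).const_mul ((4 : ℝ) ^ n)
  rw [mul_zero] at htend
  obtain ⟨Q₁, hQ₁⟩ := Filter.eventually_atTop.1 (htend.eventually_lt_const hc₁)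
  refine ⟨1 + ∑ g, Qg g + |Q₁|, ?_, {U | U ≠ ⊤ ∧ ∃ g, U ∈ 𝒰g g}, ?_, fun U hU => hU.1, ?_⟩
  · have h1 : 0 ≤ ∑ g, Qg g := Finset.sum_nonneg fun g _ => zero_le_one.trans (hQg g)
    have h2 := abs_nonneg Q₁
    linarith
  · refine (Set.finite_iUnion h𝒰g).subset ?_
    rintro U ⟨-, g, hgU⟩
    exact Set.mem_iUnion.2 ⟨g, hgU⟩
  intro Q hQ y hyR hyN
  have hsum : 0 ≤ ∑ g, Qg g := Finset.sum_nonneg fun g _ => zero_le_one.trans (hQg g)
  have habs := abs_nonneg Q₁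
  have habs' := le_abs_self Q₁
  have hQ1 : 1 ≤ Q := by linarith
  have hQ0 : 0 < Q := by linarith
  have hQQ₁ : Q₁ ≤ Q := by linarith
  have ht : ∀ w i, 0 < Q ^ (-(c w i)) := fun w i => Real.rpow_pos_of_pos hQ0 _
  obtain ⟨x, hx⟩ := exists_qmin hS A hA (fun w i => Q ^ (-(c w i))) ht
  obtain ⟨j₀, hj₀, hj₀'⟩ := exists_first hx.indep hyR.1
  have hxj₀ : NN v m A (fun w i => Q ^ (-(c w i))) (x j₀) ≤ 2 * Q ^ (-δ) :=
    (hx.min j₀ y hyR hj₀').trans (by linarith)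
  have hex : ∃ g : Fin (n - 1), (j₀ : ℕ) ≤ g ∧
      Q ^ (δ / (2 * n)) * NN v m A (fun w i => Q ^ (-(c w i))) (x ⟨(g : ℕ) + 1 - 1, by omega⟩) ≤
      NN v m A (fun w i => Q ^ (-(c w i))) (x ⟨(g : ℕ) + 1, by omega⟩) := by
    by_contra hcon
    push Not at hcon
    have hup : ∀ k : ℕ, ∀ hk : (j₀ : ℕ) + k < n,
        NN v m A (fun w i => Q ^ (-(c w i))) (x ⟨(j₀ : ℕ) + k, hk⟩) ≤
          Q ^ (δ / (2 * n) * k) * (2 * Q ^ (-δ)) := by
      intro k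
      induction k with
      | zero =>
        intro hk
        simpa using hxj₀
      | succ k ih =>
        intro hk
        have h1 := hcon ⟨(j₀ : ℕ) + k, by omega⟩ (by simp)
        have h2 := ih (by omega)
        have h3 : Q ^ (δ / (2 * n) * ((k + 1 : ℕ) : ℝ)) =
            Q ^ (δ / (2 * n)) * Q ^ (δ / (2 * n) * (k : ℝ)) := by
          rw [← Real.rpow_add hQ0]
          congr 1
          push_cast
          ring
        rw [h3, mul_assoc]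
        refine le_trans (le_of_lt ?_) (mul_le_mul_of_nonneg_left h2 (Real.rpow_nonneg hQ0.le _))
        exact h1
    have hall : ∀ j : Fin n, NN v m A (fun w i => Q ^ (-(c w i))) (x j) ≤ 4 * Q ^ (-(δ / 2)) := by
      intro j
      have hδ2 : Q ^ (-δ) ≤ Q ^ (-(δ / 2)) :=
        Real.rpow_le_rpow_of_exponent_le hQ1 (by linarith)
      have hpos : 0 < Q ^ (-(δ / 2)) := Real.rpow_pos_of_pos hQ0 _
      rcases le_total j j₀ with hj | hj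
      · have h1 := hx.mono hj
        linarith
      · have hj' : (j₀ : ℕ) ≤ j := hj
        have h1 := hup ((j : ℕ) - j₀) (by omega)
        have h2 : (⟨(j₀ : ℕ) + ((j : ℕ) - j₀), by omega⟩ : Fin n) = j := by
          apply Fin.ext
          simp only
          omega
        rw [h2] at h1
        have h3 : Q ^ (δ / (2 * n) * (((j : ℕ) - j₀ : ℕ) : ℝ)) ≤ Q ^ (δ / 2) := by
          refine Real.rpow_le_rpow_of_exponent_le hQ1 ?_
          have h4 : (((j : ℕ) - j₀ : ℕ) : ℝ) ≤ n := by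
            exact_mod_cast (show (j : ℕ) - j₀ ≤ n by omega)
          calc δ / (2 * n) * (((j : ℕ) - j₀ : ℕ) : ℝ) ≤ δ / (2 * n) * n :=
                mul_le_mul_of_nonneg_left h4 hγ.le
            _ = δ / 2 := by
                field_simp
        have h5 : Q ^ (δ / 2) * (2 * Q ^ (-δ)) = 2 * Q ^ (-(δ / 2)) := by
          have : Q ^ (-(δ / 2)) = Q ^ (δ / 2) * Q ^ (-δ) := by
            rw [← Real.rpow_add hQ0]
            congr 1
            ring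
          rw [this]
          ring
        have h6 : 0 ≤ 2 * Q ^ (-δ) := by
          have := Real.rpow_nonneg hQ0.le (-δ)
          linarith
        have h7 := mul_le_mul_of_nonneg_right h3 h6
        rw [h5] at h7
        linarith
    have h1 := hlow (fun w i => Q ^ (-(c w i))) ht x hx.indep hx.mem
    rw [wt_rpow m c hc hQ0, mul_one] at h1
    have h2 : ∏ j, NN v m A (fun w i => Q ^ (-(c w i))) (x j) ≤ ∏ _j : Fin n, (4 * Q ^ (-(δ / 2))) :=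
      Finset.prod_le_prod (fun j _ => NN_nonneg (fun w i => (ht w i).le) _) fun j _ => hall j
    rw [Finset.prod_const, Finset.card_univ, Fintype.card_fin, mul_pow, ← Real.rpow_natCast
      (Q ^ (-(δ / 2))), ← Real.rpow_mul hQ0.le] at h2
    have h3 := hQ₁ Q hQQ₁
    have h4 : -(δ / 2) * (n : ℝ) = -((n : ℝ) * (δ / 2)) := by ring
    rw [h4] at h2
    linarith
  obtain ⟨g, hjg, hgg⟩ := hex
  have hQgg : Qg g ≤ Q := by
    have : Qg g ≤ ∑ g, Qg g := Finset.single_le_sum (f := Qg)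
      (fun g _ => zero_le_one.trans (hQg g)) (Finset.mem_univ g)
    linarith
  refine ⟨Submodule.span K (x '' {i | (i : ℕ) < (g : ℕ) + 1}), ⟨?_, g, hg g Q hQgg x hx hgg⟩, ?_⟩
  · intro htop
    have h1 := hx.indep.notMem_span_image (s := {i | (i : ℕ) < (g : ℕ) + 1})
      (x := (⟨(g : ℕ) + 1, by omega⟩ : Fin n)) (by simp)
    rw [htop] at h1
    exact h1 Submodule.mem_top
  · refine Submodule.span_mono (Set.image_mono ?_) hj₀
    intro i hi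
    have : (i : ℕ) ≤ j₀ := hi
    show (i : ℕ) < (g : ℕ) + 1
    omega

theorem paramUnif (hS : IsSD v m R) (hRoth : ∀ N, RothLemma K N) {n : ℕ} (hn : 2 ≤ n)
    (A : ι → Matrix (Fin n) (Fin n) K) (hA : ∀ w, (A w).det ≠ 0) (B δ : ℝ) (hδ : 0 < δ) :
    ∃ Q₀ : ℝ, 1 ≤ Q₀ ∧ ∃ 𝒰 : Set (Submodule K (Fin n → K)), 𝒰.Finite ∧ (∀ U ∈ 𝒰, U ≠ ⊤) ∧
      ∀ Q : ℝ, Q₀ ≤ Q → ∀ c : ι → Fin n → ℝ, (∀ w i, |c w i| ≤ B) →
        ∑ w, (m w : ℝ) * ∑ i, c w i = 0 → ∀ x : Fin n → K, Rv R x →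
        NN v m A (fun w i => Q ^ (-(c w i))) x ≤ Q ^ (-δ) → ∃ U ∈ 𝒰, x ∈ U := by
  have hM : (0 : ℝ) < (∑ w, m w : ℕ) := by exact_mod_cast sum_m_pos hS
  obtain ⟨𝒞, h𝒞f, h𝒞0, h𝒞⟩ := exists_net m n B (δ / (2 * (∑ w, m w : ℕ))) (by positivity)
  choose! Q₀ hQ₀ 𝒱 h𝒱 h𝒱t h using fun (c : ι → Fin n → ℝ)
    (hc : ∑ w, (m w : ℝ) * ∑ i, c w i = 0) => param' hS hRoth hn A hA c hc (δ / 2) (half_pos hδ)
  refine ⟨1 + ∑ c ∈ h𝒞f.toFinset, Q₀ c, ?_, ⋃ c ∈ 𝒞, 𝒱 c,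
    h𝒞f.biUnion fun c hc => h𝒱 c (h𝒞0 c hc), ?_, ?_⟩
  · have : 0 ≤ ∑ c ∈ h𝒞f.toFinset, Q₀ c := Finset.sum_nonneg fun c hc =>
      zero_le_one.trans (hQ₀ c (h𝒞0 c (h𝒞f.mem_toFinset.1 hc)))
    linarith
  · intro U hU
    obtain ⟨c, hc, hU'⟩ := Set.mem_iUnion₂.1 hU
    exact h𝒱t c (h𝒞0 c hc) U hU'
  intro Q hQ c hcB hc0 x hxR hxN
  obtain ⟨c', hc', hd⟩ := h𝒞 c hcB hc0
  have hle : Q₀ c' ≤ ∑ c ∈ h𝒞f.toFinset, Q₀ c :=
    Finset.single_le_sum (f := Q₀) (fun c hc =>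
      zero_le_one.trans (hQ₀ c (h𝒞0 c (h𝒞f.mem_toFinset.1 hc)))) (h𝒞f.mem_toFinset.2 hc')
  have h1 := hQ₀ c' (h𝒞0 c' hc')
  have hQ1 : 1 ≤ Q := by linarith
  have hQ0 : 0 < Q := by linarith
  obtain ⟨U, hU, hxU⟩ := h c' (h𝒞0 c' hc') Q (by linarith) x hxR (by
    refine (NN_round A c c' hQ1 hd x).trans ?_
    refine (mul_le_mul_of_nonneg_left hxN (Real.rpow_nonneg hQ0.le _)).trans ?_
    rw [← Real.rpow_add hQ0]
    refine Real.rpow_le_rpow_of_exponent_le hQ1 (le_of_eq ?_)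
    field_simp
    ring)
  exact ⟨U, Set.mem_biUnion hc' hU, hxU⟩

end Pool.Agent.Work.SUB
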