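import Pool.Agent.Work.SUB.Tw

/-!
# Pigeon: Minkowski's first theorem and Siegel's lemma by the pigeonhole principle (block M)

`HasCover`: a ball of radius `ρ` of `K` (for `v w`) is covered by `C (ρ/σ)^(m w)` sets of diameter
`≤ σ`. `HasCount`: many elements of `R` in some large box. `HasCount2`: many elements of `R` in boxes of
size `P` (for the `S`-integers of a number field: elements of the ring of integers).

PROOF of `mink_of`. Let `n > 0`; `C₁` with `v w (L_{w,i} x) ≤ C₁ nrm x` for all `w`, `i` (`mulVec_le`,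
`C₁ ≥ 1`), `C₂` the maximum of the constants of `HasCover`, `c` the constant of `HasCount`. Let `r > 0`.
Take the box `B` with `B w ≥ max (1, all r w i)` and the finset `s` of `HasCount`,
`c ∏ B^m ≤ s.card`. For `x : Fin n → s` the values satisfy `v w (L_{w,i} x) ≤ C₁ B w =: ρ_w ≥ r w i =: σ`.
The map `x ↦ (f_{w,i} (L_{w,i} x))_{w,i}` goes from a set with `s.card^n ≥ c^n ∏ B^(n m)` elements to one
with `∏_{w,i} N_{w,i} ≤ ∏_{w,i} C₂ (C₁ B_w / r_{w,i})^(m w) = C₂^(n |ι|) C₁^(n M) ∏ B^(n m) / wt m r`. If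
`wt m r > C₂^(n |ι|) C₁^(n M) / c^n` it is not injective (`Fintype.exists_ne_map_eq_of_card_lt`), and the
difference of two vectors with the same image is the wanted `x`. (All in the reals; cast the cards.)

PROOF of `siegel_of`. `I`, `J` with `2 |I| ≤ |J|`, `|J| ≥ 1`, `|a i j|_w ≤ B`, `B ≥ 1`. `HasCount2`: `c`, `d ≥ 1`;
for `P ≥ 1` a box `(B_w)`, `1 ≤ B_w ≤ P`, `∏ B_w^(m w) = P^d` and a finset `s ⊆ R` in the box with
`c P^d ≤ s.card`. For `ξ : J → s` the values `∑_j a_{ij} ξ_j` satisfy `v w (..) ≤ |J| B B_w =: ρ_w`. Let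
`σ_w = 1/2` for all `w` (then an element `y ∈ R` with `v w y ≤ 1/2` for all `w` is `0` by `prod_ge`: the
product `∏ (1/2)^(m w) < 1`, `ι` nonempty, `m w ≥ 1`). The number of cells for each `i` is at most
`∏_w C₂ (2 |J| B B_w)^(m w) = C₂^|ι| (2 |J| B)^M P^d`. The number of `ξ` is `≥ (c P^d)^|J| ≥ (c P^d)^(2|I|)`
if `c P^d ≥ 1`. So if `c^2 P^(2d) > C₂^|ι| (2|J|B)^M P^d`, i.e. `P^d > C₂^|ι| (2|J|B)^M / c^2`, two
different `ξ` have the same image (for `|I| = 0` use `(c P^d)^|J| ≥ 2`): their difference is nonzero, in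
`R`, satisfies the equations and has `v w ≤ 2 P`. Take `P = ` a constant times `(|J| B)^M` (`≥ 1`;
`P^d ≥ P`): `2 P ≤ (C |J| B)^C` for a suitable real `C ≥ 1`.
-/

set_option autoImplicit false

noncomputable section

namespace Pool.Agent.Work.SUB

/-- Balls are covered by few small cells. -/
def HasCover {K : Type} [Field K] {ι : Type} (v : ι → AbsoluteValue K ℝ) (m : ι → ℕ) : Prop :=
  ∀ w, ∃ C : ℝ, 1 ≤ C ∧ ∀ ρ σ : ℝ, 0 < σ → σ ≤ ρ → ∃ (N : ℕ) (f : K → Fin N),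
    (N : ℝ) ≤ C * (ρ / σ) ^ m w ∧
      ∀ x y : K, v w x ≤ ρ → v w y ≤ ρ → f x = f y → v w (x - y) ≤ σ

/-- Many elements of `R` in some large box. -/
def HasCount {K : Type} [Field K] {ι : Type} [Fintype ι] (v : ι → AbsoluteValue K ℝ)
    (m : ι → ℕ) (R : Subring K) : Prop :=
  ∃ c : ℝ, 0 < c ∧ ∀ B₀ : ℝ, ∃ B : ι → ℝ, (∀ w, B₀ ≤ B w ∧ 1 ≤ B w) ∧ ∃ s : Finset K,
    (∀ x ∈ s, x ∈ R ∧ ∀ w, v w x ≤ B w) ∧ c * ∏ w, B w ^ m w ≤ s.card

/-- Many elements of `R` in boxes of controlled size. -/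
def HasCount2 {K : Type} [Field K] {ι : Type} [Fintype ι] (v : ι → AbsoluteValue K ℝ)
    (m : ι → ℕ) (R : Subring K) : Prop :=
  ∃ c : ℝ, 0 < c ∧ ∃ d : ℕ, 1 ≤ d ∧ ∀ P : ℝ, 1 ≤ P → ∃ B : ι → ℝ,
    (∀ w, 1 ≤ B w ∧ B w ≤ P) ∧ ∏ w, B w ^ m w = P ^ d ∧ ∃ s : Finset K,
    (∀ x ∈ s, x ∈ R ∧ ∀ w, v w x ≤ B w) ∧ c * P ^ d ≤ s.card

variable {K : Type} [Field K] {ι : Type} [Fintype ι] {v : ι → AbsoluteValue K ℝ} {m : ι → ℕ}
  {R : Subring K}

private theorem sub_mulVec' {n : ℕ} (A : Matrix (Fin n) (Fin n) K) (x y : Fin n → K)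
    (i : Fin n) : A.mulVec (fun j => x j - y j) i = A.mulVec x i - A.mulVec y i := by
  have h := congrFun (Matrix.mulVec_sub A x y) i
  rw [Pi.sub_apply] at h
  exact h

theorem mink_of (hcov : HasCover v m) (hcount : HasCount v m R) (n : ℕ) (hn : 0 < n)
    (A : ι → Matrix (Fin n) (Fin n) K) :
    ∃ C : ℝ, 0 < C ∧ ∀ r : ι → Fin n → ℝ, (∀ w i, 0 < r w i) → C ≤ wt m r →
      ∃ x, Rv R x ∧ ∀ w i, v w ((A w).mulVec x i) ≤ r w i := by
  classical
  choose C₂ hC₂1 hC₂ using hcov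
  obtain ⟨c, hc, hcount⟩ := hcount
  obtain ⟨C₁, hC₁1, hC₁⟩ : ∃ C₁ : ℝ, 1 ≤ C₁ ∧ ∀ w i, ∑ j, v w (A w i j) ≤ C₁ := by
    have h0 : ∀ w i, 0 ≤ ∑ j, v w (A w i j) := fun w i =>
      Finset.sum_nonneg fun j _ => (v w).nonneg _
    have h0' : ∀ w, 0 ≤ ∑ i, ∑ j, v w (A w i j) := fun w => Finset.sum_nonneg fun i _ => h0 w i
    refine ⟨1 + ∑ w, ∑ i, ∑ j, v w (A w i j), ?_, fun w i => ?_⟩
    · have : 0 ≤ ∑ w, ∑ i, ∑ j, v w (A w i j) := Finset.sum_nonneg fun w _ => h0' w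
      linarith
    · have h1 : ∑ j, v w (A w i j) ≤ ∑ i, ∑ j, v w (A w i j) :=
        Finset.single_le_sum (f := fun i => ∑ j, v w (A w i j)) (fun i _ => h0 w i)
          (Finset.mem_univ i)
      have h2 : ∑ i, ∑ j, v w (A w i j) ≤ ∑ w, ∑ i, ∑ j, v w (A w i j) :=
        Finset.single_le_sum (f := fun w => ∑ i, ∑ j, v w (A w i j)) (fun w _ => h0' w)
          (Finset.mem_univ w)
      linarith
  have hC₁0 : 0 < C₁ := by linarith
  set T : ℝ := (∏ w, C₂ w * C₁ ^ m w) ^ n / c ^ n with hT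
  have hT0 : 0 < T := by
    refine div_pos (pow_pos (Finset.prod_pos fun w _ => ?_) n) (pow_pos hc n)
    have := hC₂1 w
    positivity
  refine ⟨T + 1, by linarith, fun r hr hwt => ?_⟩
  have hwtpos : 0 < wt m r := wt_pos hr
  -- the box
  have hrsum : ∀ w i, r w i ≤ ∑ w, ∑ i, r w i := by
    intro w i
    have h1 : r w i ≤ ∑ i, r w i :=
      Finset.single_le_sum (f := fun i => r w i) (fun i _ => (hr w i).le) (Finset.mem_univ i)
    have h2 : ∑ i, r w i ≤ ∑ w, ∑ i, r w i :=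
      Finset.single_le_sum (f := fun w => ∑ i, r w i)
        (fun w _ => Finset.sum_nonneg fun i _ => (hr w i).le) (Finset.mem_univ w)
    linarith
  obtain ⟨B, hB, s, hs, hcard⟩ := hcount (∑ w, ∑ i, r w i)
  have hB1 : ∀ w, 1 ≤ B w := fun w => (hB w).2
  have hB0 : ∀ w, 0 < B w := fun w => by have := hB1 w; linarith
  have hrB : ∀ w i, r w i ≤ C₁ * B w := by
    intro w i
    have h1 := hrsum w i
    have h2 := (hB w).1
    have h3 := hB0 w
    nlinarith
  choose N f hN hf using fun w i => hC₂ w (C₁ * B w) (r w i) (hr w i) (hrB w i)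
  let Φ : (Fin n → s) → (∀ w : ι, ∀ i : Fin n, Fin (N w i)) := fun x w i =>
    f w i ((A w).mulVec (fun j => (x j : K)) i)
  have hlt : Fintype.card (∀ w : ι, ∀ i : Fin n, Fin (N w i)) < Fintype.card (Fin n → s) := by
    have e1 : Fintype.card (∀ w : ι, ∀ i : Fin n, Fin (N w i)) = ∏ w, ∏ i, N w i := by
      simp
    have e2 : Fintype.card (Fin n → s) = s.card ^ n := by
      simp
    rw [e1, e2]
    have h1 : ((∏ w, ∏ i, N w i : ℕ) : ℝ) ≤
        (∏ w, C₂ w * C₁ ^ m w) ^ n * (∏ w, B w ^ m w) ^ n / wt m r := by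
      have h2 : ((∏ w, ∏ i, N w i : ℕ) : ℝ) ≤
          ∏ w, ∏ i : Fin n, (C₂ w * C₁ ^ m w * B w ^ m w / r w i ^ m w) := by
        push_cast
        refine Finset.prod_le_prod (fun w _ => Finset.prod_nonneg fun i _ => Nat.cast_nonneg _)
          fun w _ => Finset.prod_le_prod (fun i _ => Nat.cast_nonneg _) fun i _ => ?_
        refine (hN w i).trans (le_of_eq ?_)
        rw [div_pow, mul_pow]
        ring
      refine h2.trans (le_of_eq ?_)
      have h3 : ∀ w, ∏ i : Fin n, (C₂ w * C₁ ^ m w * B w ^ m w / r w i ^ m w) =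
          (C₂ w * C₁ ^ m w * B w ^ m w) ^ n / ∏ i, r w i ^ m w := by
        intro w
        rw [Finset.prod_div_distrib, Finset.prod_const, Finset.card_univ, Fintype.card_fin]
      rw [Finset.prod_congr rfl fun w _ => h3 w, Finset.prod_div_distrib, ← mul_pow,
        ← Finset.prod_mul_distrib, Finset.prod_pow]
      rfl
    have hBm : 0 < ∏ w, B w ^ m w := Finset.prod_pos fun w _ => pow_pos (hB0 w) _
    have h4 : (∏ w, C₂ w * C₁ ^ m w) ^ n * (∏ w, B w ^ m w) ^ n / wt m r <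
        (c * ∏ w, B w ^ m w) ^ n := by
      rw [div_lt_iff₀ hwtpos, mul_pow]
      have h5 : T < wt m r := by linarith
      have hcn : 0 < c ^ n := pow_pos hc n
      have h6 : (∏ w, C₂ w * C₁ ^ m w) ^ n < c ^ n * wt m r := by
        rw [hT, div_lt_iff₀ hcn] at h5
        linarith
      have h7 : 0 < (∏ w, B w ^ m w) ^ n := pow_pos hBm n
      calc (∏ w, C₂ w * C₁ ^ m w) ^ n * (∏ w, B w ^ m w) ^ n
          < c ^ n * wt m r * (∏ w, B w ^ m w) ^ n := mul_lt_mul_of_pos_right h6 h7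
        _ = c ^ n * (∏ w, B w ^ m w) ^ n * wt m r := by ring
    have h8 : (c * ∏ w, B w ^ m w) ^ n ≤ ((s.card ^ n : ℕ) : ℝ) := by
      push_cast
      exact pow_le_pow_left₀ (mul_nonneg hc.le hBm.le) hcard n
    have h9 : ((∏ w, ∏ i, N w i : ℕ) : ℝ) < ((s.card ^ n : ℕ) : ℝ) :=
      h1.trans_lt (h4.trans_le h8)
    exact_mod_cast h9
  obtain ⟨x, y, hxy, hΦ⟩ := Fintype.exists_ne_map_eq_of_card_lt Φ hlt
  refine ⟨fun j => (x j : K) - (y j : K), ⟨?_, fun j => ?_⟩, fun w i => ?_⟩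
  · intro h
    apply hxy
    funext j
    have := congrFun h j
    exact Subtype.ext (sub_eq_zero.1 this)
  · exact R.sub_mem (hs _ (x j).2).1 (hs _ (y j).2).1
  · rw [sub_mulVec' (A w) (fun j => (x j : K)) (fun j => (y j : K)) i]
    have hb : ∀ z : Fin n → s, v w ((A w).mulVec (fun j => (z j : K)) i) ≤ C₁ * B w := by
      intro z
      refine (mulVec_le (v w) (A w) _ i).trans ?_
      refine mul_le_mul (hC₁ w i) ?_ (nrm_nonneg _ _) hC₁0.le
      exact nrm_le (v w) (hB0 w).le fun j => (hs _ (z j).2).2 w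
    exact hf w i _ _ (hb x) (hb y) (congrFun (congrFun hΦ w) i)

theorem siegel_of (hne : Nonempty ι) (hm : ∀ w, 1 ≤ m w)
    (hprod : ∀ c ∈ R, c ≠ 0 → 1 ≤ ∏ w, v w c ^ m w)
    (hcov : HasCover v m) (hcount : HasCount2 v m R) :
    ∃ C : ℝ, 1 ≤ C ∧ ∀ (I J : Type) [Fintype I] [Fintype J],
      2 * Fintype.card I ≤ Fintype.card J → 0 < Fintype.card J →
      ∀ (a : I → J → K) (B : ℝ), 1 ≤ B → (∀ i j, a i j ∈ R) → (∀ i j w, v w (a i j) ≤ B) →
        ∃ ξ : J → K, ξ ≠ 0 ∧ (∀ j, ξ j ∈ R) ∧ (∀ i, ∑ j, a i j * ξ j = 0) ∧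
          ∀ j w, v w (ξ j) ≤ (C * Fintype.card J * B) ^ C := by
  classical
  choose C₂ hC₂1 hC₂ using hcov
  obtain ⟨c, hc, d, hd, hcount⟩ := hcount
  set K₂ : ℝ := ∏ w, C₂ w with hK₂
  set M : ℕ := ∑ w, m w with hM
  have hMpos : 1 ≤ M := by
    obtain ⟨w⟩ := hne
    exact (hm w).trans (Finset.single_le_sum (f := m) (fun _ _ => Nat.zero_le _)
      (Finset.mem_univ w))
  have hK₂1 : 0 < K₂ := Finset.prod_pos fun w _ => by have := hC₂1 w; linarith
  set Λ : ℝ := 1 + 2 / c + K₂ * 2 ^ M / c ^ 2 with hΛ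
  have hΛ1 : 1 ≤ Λ := by
    have h1 : 0 < 2 / c := by positivity
    have h2 : 0 < K₂ * 2 ^ M / c ^ 2 := by positivity
    linarith
  have hM0 : (0 : ℝ) ≤ M := Nat.cast_nonneg M
  refine ⟨2 * Λ + M, by linarith, ?_⟩
  intro I J _ _ hIJ hJ a B hB haR haB
  have hJ1 : (1 : ℝ) ≤ Fintype.card J := by exact_mod_cast hJ
  have hJB : 1 ≤ (Fintype.card J : ℝ) * B := by nlinarith
  set q : ℝ := (Fintype.card J : ℝ) * B with hq
  have hqM : 1 ≤ q ^ M := one_le_pow₀ hJB
  set P : ℝ := Λ * q ^ M with hP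
  have hP1 : 1 ≤ P := by nlinarith
  obtain ⟨b, hb, hbprod, s, hs, hcard⟩ := hcount P hP1
  have hb0 : ∀ w, 0 < b w := fun w => by have := (hb w).1; linarith
  have hρ : ∀ w, (1 / 2 : ℝ) ≤ q * b w := by
    intro w
    have := (hb w).1
    nlinarith
  choose N f hN hf using fun w => hC₂ w (q * b w) (1 / 2) (by norm_num) (hρ w)
  let Φ : (J → s) → (I → ∀ w : ι, Fin (N w)) := fun x i w =>
    f w (∑ j, a i j * (x j : K))
  have hPd : P ≤ P ^ d := by
    calc P = P ^ 1 := (pow_one P).symm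
      _ ≤ P ^ d := pow_le_pow_right₀ hP1 hd
  have hPd0 : 0 < P ^ d := pow_pos (by linarith) d
  have hX2 : 2 ≤ c * P ^ d := by
    have h1 : 2 ≤ c * Λ := by
      rw [hΛ]
      have h3 : c * (1 + 2 / c + K₂ * 2 ^ M / c ^ 2) = c + 2 + K₂ * 2 ^ M / c := by
        field_simp
      have h4 : 0 < K₂ * 2 ^ M / c := by positivity
      rw [h3]
      linarith
    have h2 : Λ ≤ P ^ d := by
      have : Λ ≤ P := by
        rw [hP]
        exact le_mul_of_one_le_right (by linarith) hqM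
      linarith
    have h3 : c * Λ ≤ c * P ^ d := mul_le_mul_of_nonneg_left h2 hc.le
    linarith
  have hYX : K₂ * (2 * q) ^ M * P ^ d < (c * P ^ d) ^ 2 := by
    have h1 : K₂ * (2 * q) ^ M < c ^ 2 * P ^ d := by
      have h2 : K₂ * 2 ^ M < c ^ 2 * Λ := by
        rw [hΛ]
        have h3 : c ^ 2 * (1 + 2 / c + K₂ * 2 ^ M / c ^ 2) = c ^ 2 + 2 * c + K₂ * 2 ^ M := by
          field_simp
        rw [h3]
        nlinarith [pow_pos hc 2]
      calc K₂ * (2 * q) ^ M = K₂ * 2 ^ M * q ^ M := by rw [mul_pow]; ring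
        _ < c ^ 2 * Λ * q ^ M := mul_lt_mul_of_pos_right h2 (by linarith)
        _ = c ^ 2 * P := by rw [hP]; ring
        _ ≤ c ^ 2 * P ^ d := mul_le_mul_of_nonneg_left hPd (by positivity)
    calc K₂ * (2 * q) ^ M * P ^ d < c ^ 2 * P ^ d * P ^ d := mul_lt_mul_of_pos_right h1 hPd0
      _ = (c * P ^ d) ^ 2 := by ring
  have hNprod : ((∏ w, N w : ℕ) : ℝ) ≤ K₂ * (2 * q) ^ M * P ^ d := by
    have h2 : ((∏ w, N w : ℕ) : ℝ) ≤ ∏ w, (C₂ w * ((2 * q) ^ m w * b w ^ m w)) := by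
      push_cast
      refine Finset.prod_le_prod (fun w _ => Nat.cast_nonneg _) fun w _ => ?_
      refine (hN w).trans (le_of_eq ?_)
      rw [← mul_pow]
      congr 2
      ring
    refine h2.trans (le_of_eq ?_)
    rw [Finset.prod_mul_distrib, Finset.prod_mul_distrib, Finset.prod_pow_eq_pow_sum, hbprod]
    ring
  have hlt : Fintype.card (I → ∀ w : ι, Fin (N w)) < Fintype.card (J → s) := by
    have e1 : Fintype.card (I → ∀ w : ι, Fin (N w)) = (∏ w, N w) ^ Fintype.card I := by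
      simp
    have e2 : Fintype.card (J → s) = s.card ^ Fintype.card J := by
      simp
    rw [e1, e2]
    have h1 : (((∏ w, N w) ^ Fintype.card I : ℕ) : ℝ) < (c * P ^ d) ^ Fintype.card J := by
      rcases Nat.eq_zero_or_pos (Fintype.card I) with hI | hI
      · rw [hI, pow_zero, Nat.cast_one]
        exact one_lt_pow₀ (by linarith) (by omega)
      · calc (((∏ w, N w) ^ Fintype.card I : ℕ) : ℝ)
            = ((∏ w, N w : ℕ) : ℝ) ^ Fintype.card I := by push_cast; rfl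
          _ < ((c * P ^ d) ^ 2) ^ Fintype.card I :=
              pow_lt_pow_left₀ (hNprod.trans_lt hYX) (Nat.cast_nonneg _) (by omega)
          _ = (c * P ^ d) ^ (2 * Fintype.card I) := by rw [← pow_mul]
          _ ≤ (c * P ^ d) ^ Fintype.card J := pow_le_pow_right₀ (by linarith) hIJ
    have h2 : (c * P ^ d) ^ Fintype.card J ≤ ((s.card ^ Fintype.card J : ℕ) : ℝ) := by
      push_cast
      exact pow_le_pow_left₀ (by linarith) hcard _
    exact_mod_cast h1.trans_le h2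
  obtain ⟨x, y, hxy, hΦ⟩ := Fintype.exists_ne_map_eq_of_card_lt Φ hlt
  have hxR : ∀ (z : J → s) j, (z j : K) ∈ R := fun z j => (hs _ (z j).2).1
  have hsub : ∀ i, ∑ j, a i j * ((x j : K) - (y j : K)) =
      (∑ j, a i j * (x j : K)) - ∑ j, a i j * (y j : K) := by
    intro i
    rw [← Finset.sum_sub_distrib]
    exact Finset.sum_congr rfl fun j _ => by ring
  refine ⟨fun j => (x j : K) - (y j : K), ?_, fun j => R.sub_mem (hxR x j) (hxR y j),
    fun i => ?_, fun j w => ?_⟩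
  · intro h
    apply hxy
    funext j
    have := congrFun h j
    exact Subtype.ext (sub_eq_zero.1 this)
  · by_contra hne0
    have hmem : ∑ j, a i j * ((x j : K) - (y j : K)) ∈ R :=
      R.sum_mem fun j _ => R.mul_mem (haR i j) (R.sub_mem (hxR x j) (hxR y j))
    have h1 := hprod _ hmem hne0
    have hball : ∀ (z : J → s) w, v w (∑ j, a i j * (z j : K)) ≤ q * b w := by
      intro z w
      refine ((v w).sum_le _ _).trans ?_
      calc ∑ j, v w (a i j * (z j : K)) ≤ ∑ _j : J, B * b w := by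
            refine Finset.sum_le_sum fun j _ => ?_
            rw [map_mul]
            exact mul_le_mul (haB i j w) ((hs _ (z j).2).2 w) ((v w).nonneg _) (by linarith)
        _ = q * b w := by
            rw [Finset.sum_const, Finset.card_univ, nsmul_eq_mul, hq]
            ring
    have h2 : ∀ w, v w (∑ j, a i j * ((x j : K) - (y j : K))) ≤ 1 / 2 := by
      intro w
      rw [hsub]
      exact hf w _ _ (hball x w) (hball y w) (congrFun (congrFun hΦ i) w)
    have h3 : ∏ w, v w (∑ j, a i j * ((x j : K) - (y j : K))) ^ m w ≤ (1 / 2 : ℝ) ^ M := by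
      rw [hM, ← Finset.prod_pow_eq_pow_sum]
      exact Finset.prod_le_prod (fun w _ => pow_nonneg ((v w).nonneg _) _)
        fun w _ => pow_le_pow_left₀ ((v w).nonneg _) (h2 w) _
    have h4 : (1 / 2 : ℝ) ^ M ≤ (1 / 2 : ℝ) ^ 1 :=
      pow_le_pow_of_le_one (by norm_num) (by norm_num) hMpos
    rw [pow_one] at h4
    linarith
  · have h1 : v w ((x j : K) - (y j : K)) ≤ 2 * P := by
      have h2 : v w ((x j : K) - (y j : K)) ≤ v w (x j : K) + v w (y j : K) := by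
        rw [sub_eq_add_neg]
        refine ((v w).add_le _ _).trans ?_
        rw [(v w).map_neg]
      have h3 := (hs _ (x j).2).2 w
      have h4 := (hs _ (y j).2).2 w
      have h5 := (hb w).2
      linarith
    refine h1.trans ?_
    have hC1 : 1 ≤ 2 * Λ + M := by linarith
    have e1 : (2 * Λ + M) * (Fintype.card J : ℝ) * B = (2 * Λ + M) * q := by rw [hq]; ring
    rw [e1, Real.mul_rpow (by linarith) (by linarith)]
    have h5 : 2 * Λ ≤ (2 * Λ + M : ℝ) ^ (2 * Λ + M : ℝ) := by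
      calc 2 * Λ ≤ 2 * Λ + M := by linarith
        _ = (2 * Λ + M : ℝ) ^ (1 : ℝ) := (Real.rpow_one _).symm
        _ ≤ _ := Real.rpow_le_rpow_of_exponent_le hC1 hC1
    have h6 : q ^ M ≤ q ^ (2 * Λ + M : ℝ) := by
      rw [← Real.rpow_natCast]
      exact Real.rpow_le_rpow_of_exponent_le hJB (by linarith)
    calc 2 * P = 2 * Λ * q ^ M := by rw [hP]; ring
      _ ≤ _ := mul_le_mul h5 h6 (by linarith) (by linarith)

end Pool.Agent.Work.SUB
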