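import Pool.Agent.Work.SUB.Tw

/-!
# QMin: quasi-minimal systems (block M, module M9)

PROOF of `exists_qmin`. By induction on `k ≤ n` there is `x : Fin k → Fin n → K`, independent, all
`Rv R (x j)`, with the minimality property for all `j < k` (`span (x '' {i | i < j})`). Step: `S = span
(range x)` has dimension `k < n`, so some standard basis vector `e_i` (coordinates `0, 1 ∈ R`) is not
in `S`; the set `{NN y | Rv R y, y ∉ S}` is not empty and bounded below by a positive number
(`NN_lower` with `s = min t`), so its infimum `I` is positive and there is `y` with `NN y ≤ 2 I`. Put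
`x_k = y` (`Fin.snoc`, `LinearIndependent.finSnoc`...; the spans over `{i | i < j}` do not change for
`j ≤ k`). For the induction it is convenient to state the minimality of `x j` for `y` not in the span of
`{x i | i.val < j.val}`.

PROOF of `QMin.mono`: for `i ≤ j` the vector `x j` is not in `span (x '' {l | l < i})` by linear
independence.
-/

set_option autoImplicit false

noncomputable section

namespace Pool.Agent.Work.SUB

/-- A quasi-minimal system for the twisted norm `NN`. -/
structure QMin {K : Type} [Field K] {ι : Type} [Fintype ι] (v : ι → AbsoluteValue K ℝ)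
    (m : ι → ℕ) (R : Subring K) {n : ℕ} (A : ι → Matrix (Fin n) (Fin n) K)
    (t : ι → Fin n → ℝ) (x : Fin n → Fin n → K) : Prop where
  indep : LinearIndependent K x
  mem : ∀ j, Rv R (x j)
  min : ∀ (j : Fin n) (y : Fin n → K), Rv R y → y ∉ Submodule.span K (x '' {i | i < j}) →
    NN v m A t (x j) ≤ 2 * NN v m A t y

variable {K : Type} [Field K] [Height.AdmissibleAbsValues K] {ι : Type} [Fintype ι]
  {v : ι → AbsoluteValue K ℝ} {m : ι → ℕ} {R : Subring K}

private theorem qm_min (hS : IsSD v m R) {n : ℕ} (A : ι → Matrix (Fin n) (Fin n) K)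
    (hA : ∀ w, (A w).det ≠ 0) (t : ι → Fin n → ℝ) (ht : ∀ w i, 0 < t w i)
    (S : Submodule K (Fin n → K)) (hne : S ≠ ⊤) :
    ∃ y, Rv R y ∧ y ∉ S ∧ ∀ z, Rv R z → z ∉ S → NN v m A t y ≤ 2 * NN v m A t z := by
  obtain ⟨V, hV⟩ : ∃ V : Set ℝ, V = {r | ∃ y, Rv R y ∧ y ∉ S ∧ NN v m A t y = r} := ⟨_, rfl⟩
  have hVne : V.Nonempty := by
    have h1 : ∃ i, (Pi.basisFun K (Fin n)) i ∉ S := by
      by_contra hc
      push Not at hc
      apply hne
      rw [eq_top_iff, ← (Pi.basisFun K (Fin n)).span_eq, Submodule.span_le]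
      rintro _ ⟨i, rfl⟩
      exact hc i
    obtain ⟨i, hi⟩ := h1
    rw [Pi.basisFun_apply] at hi
    have hRv : Rv R (Pi.single i (1 : K)) := by
      refine ⟨fun h => hi (h ▸ S.zero_mem), fun j => ?_⟩
      rw [Pi.single_apply]
      split_ifs
      · exact R.one_mem
      · exact R.zero_mem
    rw [hV]
    exact ⟨_, _, hRv, hi, rfl⟩
  obtain ⟨s, hs, hst⟩ : ∃ s : ℝ, 0 < s ∧ ∀ w i, s ≤ t w i := by
    rcases isEmpty_or_nonempty (ι × Fin n) with h | h
    · exact ⟨1, one_pos, fun w i => (h.false (w, i)).elim⟩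
    · obtain ⟨p, hp⟩ := Finite.exists_min fun p : ι × Fin n => t p.1 p.2
      exact ⟨t p.1 p.2, ht _ _, fun w i => hp (w, i)⟩
  obtain ⟨c, hc, hlow⟩ := NN_lower (v := v) (m := m) (A := A) hS hA
  have hlb : ∀ r ∈ V, c * s ^ (∑ w, m w) ≤ r := by
    intro r hr
    rw [hV] at hr
    obtain ⟨y, hy, -, rfl⟩ := hr
    exact hlow t s hs hst y hy
  have hc0 : 0 < c * s ^ (∑ w, m w) := mul_pos hc (pow_pos hs _)
  have hI : 0 < sInf V := hc0.trans_le (le_csInf hVne hlb)
  obtain ⟨r, hr, hrI⟩ := exists_lt_of_csInf_lt hVne (by linarith : sInf V < 2 * sInf V)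
  rw [hV] at hr
  obtain ⟨y, hy, hyS, rfl⟩ := hr
  refine ⟨y, hy, hyS, fun z hz hzS => ?_⟩
  have h2 : sInf V ≤ NN v m A t z := csInf_le ⟨_, hlb⟩ (hV ▸ ⟨z, hz, hzS, rfl⟩)
  linarith

private theorem qm_step (hS : IsSD v m R) {n : ℕ} (A : ι → Matrix (Fin n) (Fin n) K)
    (hA : ∀ w, (A w).det ≠ 0) (t : ι → Fin n → ℝ) (ht : ∀ w i, 0 < t w i) (k : ℕ)
    (hk : k ≤ n) :
    ∃ x : Fin k → Fin n → K, LinearIndependent K x ∧ (∀ j, Rv R (x j)) ∧
      ∀ (j : Fin k) (y : Fin n → K), Rv R y → y ∉ Submodule.span K (x '' {i | i < j}) →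
        NN v m A t (x j) ≤ 2 * NN v m A t y := by
  induction k with
  | zero => exact ⟨Fin.elim0, linearIndependent_empty_type, fun j => j.elim0, fun j => j.elim0⟩
  | succ k ih =>
    obtain ⟨x, hx, hmem, hmin⟩ := ih (by omega)
    have hne : Submodule.span K (Set.range x) ≠ ⊤ := by
      intro h
      have h1 := finrank_span_eq_card hx
      rw [h, finrank_top, Module.finrank_fintype_fun_eq_card, Fintype.card_fin,
        Fintype.card_fin] at h1
      omega
    obtain ⟨y, hy, hyS, hmin'⟩ := qm_min hS A hA t ht _ hne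
    refine ⟨Fin.snoc (α := fun _ => Fin n → K) x y, linearIndependent_finSnoc.2 ⟨hx, hyS⟩,
      ?_, ?_⟩
    · intro j
      induction j using Fin.lastCases with
      | last =>
        rw [Fin.snoc_last]
        exact hy
      | cast j =>
        rw [Fin.snoc_castSucc]
        exact hmem j
    · intro j z hz hzS
      induction j using Fin.lastCases with
      | last =>
        rw [Fin.snoc_last]
        refine hmin' z hz fun h => hzS (Submodule.span_mono ?_ h)
        rintro _ ⟨i, rfl⟩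
        exact ⟨i.castSucc, Fin.castSucc_lt_last i, Fin.snoc_castSucc ..⟩
      | cast j =>
        rw [Fin.snoc_castSucc]
        refine hmin j z hz fun h => hzS (Submodule.span_mono ?_ h)
        rintro _ ⟨i, hi, rfl⟩
        exact ⟨i.castSucc, Fin.castSucc_lt_castSucc_iff.2 hi, Fin.snoc_castSucc ..⟩

theorem exists_qmin (hS : IsSD v m R) {n : ℕ} (A : ι → Matrix (Fin n) (Fin n) K)
    (hA : ∀ w, (A w).det ≠ 0) (t : ι → Fin n → ℝ) (ht : ∀ w i, 0 < t w i) :
    ∃ x, QMin v m R A t x := by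
  obtain ⟨x, h1, h2, h3⟩ := qm_step hS A hA t ht n le_rfl
  exact ⟨x, h1, h2, h3⟩

omit [Height.AdmissibleAbsValues K] in
theorem QMin.mono {n : ℕ} {A : ι → Matrix (Fin n) (Fin n) K} {t : ι → Fin n → ℝ}
    {x : Fin n → Fin n → K} (h : QMin v m R A t x) {i j : Fin n} (hij : i ≤ j) :
    NN v m A t (x i) ≤ 2 * NN v m A t (x j) :=
  h.min i (x j) (h.mem j) (h.indep.notMem_span_image (not_lt.2 hij))

/-- For a nonzero vector `y` there is a first `j` with `y` in the span of the `x i`, `i ≤ j`. -/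
theorem exists_first {n : ℕ} {x : Fin n → Fin n → K} (hx : LinearIndependent K x)
    {y : Fin n → K} (hy : y ≠ 0) : ∃ j : Fin n, y ∈ Submodule.span K (x '' {i | i ≤ j}) ∧
      y ∉ Submodule.span K (x '' {i | i < j}) := by
  classical
  have hP : ∃ k : ℕ, y ∈ Submodule.span K (x '' {i : Fin n | (i : ℕ) < k}) := by
    refine ⟨n, ?_⟩
    have h1 : {i : Fin n | (i : ℕ) < n} = Set.univ := by
      ext i
      simp
    rw [h1, Set.image_univ, hx.span_eq_top_of_card_eq_finrank' (by
      rw [Module.finrank_fintype_fun_eq_card])]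
    exact Submodule.mem_top
  have h0 : ¬ y ∈ Submodule.span K (x '' {i : Fin n | (i : ℕ) < 0}) := by
    intro h
    apply hy
    have h1 : {i : Fin n | (i : ℕ) < 0} = ∅ := by
      ext i
      simp
    rw [h1, Set.image_empty, Submodule.span_empty] at h
    exact (Submodule.mem_bot K).1 h
  obtain ⟨k, hk, hkmin⟩ : ∃ k : ℕ, y ∈ Submodule.span K (x '' {i : Fin n | (i : ℕ) < k}) ∧
      ∀ l < k, ¬ y ∈ Submodule.span K (x '' {i : Fin n | (i : ℕ) < l}) :=
    ⟨Nat.find hP, Nat.find_spec hP, fun l hl => Nat.find_min hP hl⟩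
  have hk0 : k ≠ 0 := fun h => h0 (h ▸ hk)
  have hkn : k ≤ n := by
    by_contra hc
    refine hkmin n (by omega) (Submodule.span_mono (Set.image_mono fun i _ => ?_) hk)
    exact i.2
  refine ⟨⟨k - 1, by omega⟩, Submodule.span_mono (Set.image_mono fun i hi => ?_) hk, fun h => ?_⟩
  · have h1 : (i : ℕ) < k := hi
    show i ≤ ⟨k - 1, _⟩
    rw [Fin.le_def]
    show (i : ℕ) ≤ k - 1
    omega
  · refine hkmin (k - 1) (by omega) (Submodule.span_mono (Set.image_mono fun i hi => ?_) h)
    exact Fin.lt_def.1 hi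

end Pool.Agent.Work.SUB
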