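import Pool.Agent.Work.SUB.RTay

/-!
# RChain (M): the chain rule for Hasse derivatives

In `K[t][τ]` (type `Polynomial (Polynomial K)`, `τ = X`, coefficients `C q`) one has for every
`q ∈ K[t]`: `q (t + τ) = ∑_j C (hasseDeriv j q) τ ^ j` (`Polynomial.taylor` applied to `q.map C` at
`t = X`, `Polynomial.taylor_coeff`, `hasseDeriv` commutes with `map`; evaluating
`hasseDeriv j (q.map C)` at `X` gives `hasseDeriv j q`). So
`p h (t + τ) = C (p h) + r h` with `τ ∣ r h`. By `taylor_hd` (algebra `K[t][τ]`, `a h = C (p h)`,
`b h = r h`): `F (p (t + τ)) = ∑_{k ≤ D} C (aeval p (hd k F)) * ∏ h, r h ^ k h`. The coefficient of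
`τ ^ j` is `∑_k aeval p (hd k F) * c_k`, `c_k = coeff_j (∏ h, r h ^ k h)`, and `c_k = 0` if
`j < k.degree` because `τ ^ (k.degree)` divides the product. The finitely many `k` with
`k.degree ≤ j` give `c` (for `k` not `≤ D` the term is `0` since `hd k F = 0`, `coeff_hd`).
-/

set_option autoImplicit false

noncomputable section

namespace Pool.Agent.Work.SUB

private theorem theta_coeff {K : Type} [Field K] (q : Polynomial K) (j : ℕ) :
    (Polynomial.aeval (Polynomial.C (Polynomial.X : Polynomial K) + Polynomial.X :
      Polynomial (Polynomial K)) q).coeff j = Polynomial.hasseDeriv j q := by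
  have h1 : Polynomial.aeval (Polynomial.C (Polynomial.X : Polynomial K) + Polynomial.X :
      Polynomial (Polynomial K)) q = Polynomial.taylor (Polynomial.X : Polynomial K)
        (q.map Polynomial.C) := by
    rw [Polynomial.taylor_apply, Polynomial.comp, Polynomial.eval₂_map, Polynomial.aeval_def,
      add_comm]
    rfl
  rw [h1, Polynomial.taylor_coeff]
  have h2 : Polynomial.hasseDeriv j (q.map (Polynomial.C : K →+* Polynomial K)) =
      (Polynomial.hasseDeriv j q).map Polynomial.C := by
    ext1 n
    rw [Polynomial.hasseDeriv_coeff, Polynomial.coeff_map, Polynomial.coeff_map,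
      Polynomial.hasseDeriv_coeff, map_mul, map_natCast]
  rw [h2, Polynomial.eval_map, Polynomial.eval₂_C_X]

theorem hasse_chain {K : Type} [Field K] {m : ℕ} (p : Fin m → Polynomial K) (j : ℕ) :
    ∃ c : (Fin m →₀ ℕ) →₀ Polynomial K, (∀ k ∈ c.support, k.degree ≤ j) ∧
      ∀ F : MvPolynomial (Fin m) K, Polynomial.hasseDeriv j (MvPolynomial.aeval p F) =
        c.sum fun k a => a * MvPolynomial.aeval p (hd k F) := by
  classical
  set θ : Polynomial K →ₐ[K] Polynomial (Polynomial K) :=
    Polynomial.aeval (Polynomial.C (Polynomial.X : Polynomial K) + Polynomial.X) with hθ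
  set r : Fin m → Polynomial (Polynomial K) := fun h => θ (p h) - Polynomial.C (p h) with hr
  have hXr : ∀ h, (Polynomial.X : Polynomial (Polynomial K)) ∣ r h := by
    intro h
    rw [Polynomial.X_dvd_iff, hr]
    simp only [Polynomial.coeff_sub, Polynomial.coeff_C_zero]
    rw [hθ, theta_coeff, Polynomial.hasseDeriv_zero', sub_self]
  set w : (Fin m →₀ ℕ) → Polynomial K := fun k => (∏ i, r i ^ k i).coeff j with hw
  have hw0 : ∀ k : Fin m →₀ ℕ, j < k.degree → w k = 0 := by
    intro k hk
    have h1 : (Polynomial.X : Polynomial (Polynomial K)) ^ k.degree ∣ ∏ i, r i ^ k i := by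
      rw [Finsupp.degree_eq_sum, ← Finset.prod_pow_eq_pow_sum]
      exact Finset.prod_dvd_prod_of_dvd _ _ fun i _ => pow_dvd_pow_of_dvd (hXr i) _
    exact Polynomial.X_pow_dvd_iff.1 h1 j hk
  set Dj : Fin m →₀ ℕ := Finsupp.equivFunOnFinite.symm (fun _ => j) with hDj
  have hDj' : ∀ k : Fin m →₀ ℕ, k.degree ≤ j → k ≤ Dj := by
    intro k hk i
    have h1 : k i ≤ k.degree := by
      rw [Finsupp.degree_eq_sum]
      exact Finset.single_le_sum (f := fun i => k i) (fun _ _ => Nat.zero_le _) (Finset.mem_univ i)
    exact h1.trans hk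
  refine ⟨Finsupp.onFinset (Finset.Iic Dj) w ?_, ?_, ?_⟩
  · intro k hk
    rw [Finset.mem_Iic]
    apply hDj'
    by_contra h
    exact hk (hw0 k (not_le.1 h))
  · intro k hk
    rw [Finsupp.mem_support_iff] at hk
    by_contra h
    exact hk (hw0 k (not_le.1 h))
  · intro F
    rw [Finsupp.onFinset_sum _ (fun k => by rw [zero_mul])]
    set D : Fin m →₀ ℕ := Dj ⊔ F.support.sup id with hD
    have hDF : ∀ s ∈ F.support, s ≤ D := by
      intro s hs
      exact (Finset.le_sup (f := id) hs).trans le_sup_right
    have h1 := taylor_hd (fun h => Polynomial.C (p h)) r F D hDF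
    have h2 : (fun i => Polynomial.C (p i) + r i) = fun i => θ (p i) := by
      funext i
      rw [hr]
      ring
    have h3 : ∀ G : MvPolynomial (Fin m) K,
        MvPolynomial.aeval (fun h => Polynomial.C (p h)) G = Polynomial.C (MvPolynomial.aeval p G) := by
      intro G
      have h4 : MvPolynomial.aeval (fun h => Polynomial.C (p h)) =
          (Polynomial.CAlgHom : Polynomial K →ₐ[K] Polynomial (Polynomial K)).comp
            (MvPolynomial.aeval p) := by
        refine MvPolynomial.algHom_ext fun i => ?_
        rw [MvPolynomial.aeval_X, AlgHom.comp_apply, MvPolynomial.aeval_X]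
        rfl
      rw [h4]
      rfl
    have h5 : MvPolynomial.aeval (fun i => θ (p i)) F = θ (MvPolynomial.aeval p F) := by
      have h4 : MvPolynomial.aeval (fun i => θ (p i)) = θ.comp (MvPolynomial.aeval p) := by
        refine MvPolynomial.algHom_ext fun i => ?_
        rw [MvPolynomial.aeval_X, AlgHom.comp_apply, MvPolynomial.aeval_X]
      rw [h4]
      rfl
    rw [h2, h5] at h1
    have h6 := congrArg (fun q : Polynomial (Polynomial K) => q.coeff j) h1
    simp only [h3, Polynomial.finsetSum_coeff, Polynomial.coeff_C_mul] at h6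
    rw [hθ, theta_coeff] at h6
    rw [h6]
    symm
    refine Finset.sum_subset_zero_on_sdiff (Finset.Iic_subset_Iic.2 le_sup_left) ?_ ?_
    · intro k hk
      rw [Finset.mem_sdiff, Finset.mem_Iic, Finset.mem_Iic] at hk
      have h7 : w k = 0 := by
        apply hw0
        by_contra h
        exact hk.2 (hDj' k (not_lt.1 h))
      change MvPolynomial.aeval p (hd k F) * w k = 0
      rw [h7, mul_zero]
    · intro k _
      exact mul_comm _ _

end Pool.Agent.Work.SUB
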