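import Pool.Agent.Work.SUB.RSplit

/-!
# RDecomp (M): shortest decomposition into products of polynomials in separate variables

Existence of some decomposition with `r ≤ degreeOf (Fin.last m) F + 1` terms:
`F = ∑_{b ≤ deg} inl F_b * inr (X 0 ^ b)`, where `F_b = ∑_{s ∈ F.support, s last = b}
monomial (s ∘ castSucc) (F.coeff s)` (compare coefficients with `coeff_inl_mul_inr`, `exists_eL`).
Take `r` minimal (`Nat.find`). If the `f j` were linearly dependent, some `f j₀` would be a
combination `∑_{j ≠ j₀} c_j f j`, and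
`F = ∑_{j ≠ j₀} inl (f j) * inr (g j + C (c_j) * g j₀)` would have `r - 1` terms; similarly
for `g`.
-/

set_option autoImplicit false

noncomputable section

namespace Pool.Agent.Work.SUB

open MvPolynomial

private theorem shorten {K V W U : Type} [Field K] [AddCommGroup V] [Module K V]
    [AddCommGroup W] [Module K W] [AddCommGroup U] [Module K U] (T : V →ₗ[K] W →ₗ[K] U) (r : ℕ)
    (f : Fin (r + 1) → V) (g : Fin (r + 1) → W) (h : ¬ LinearIndependent K f) :
    ∃ (f' : Fin r → V) (g' : Fin r → W), ∑ j, T (f j) (g j) = ∑ i, T (f' i) (g' i) := by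
  obtain ⟨c, hc, j0, hj0⟩ := Fintype.not_linearIndependent_iff.1 h
  refine ⟨fun i => f (j0.succAbove i),
    fun i => g (j0.succAbove i) - (c (j0.succAbove i) / c j0) • g j0, ?_⟩
  rw [Fin.sum_univ_succAbove _ j0]
  rw [Fin.sum_univ_succAbove _ j0] at hc
  have h1 : f j0 = - ∑ i, (c (j0.succAbove i) / c j0) • f (j0.succAbove i) := by
    have h2 : c j0 • f j0 = - ∑ i, c (j0.succAbove i) • f (j0.succAbove i) :=
      eq_neg_of_add_eq_zero_left hc
    have h3 : f j0 = (c j0)⁻¹ • (c j0 • f j0) := by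
      rw [smul_smul, inv_mul_cancel₀ hj0, one_smul]
    rw [h3, h2, smul_neg, Finset.smul_sum]
    congr 1
    refine Finset.sum_congr rfl fun i _ => ?_
    rw [smul_smul, div_eq_inv_mul]
  have h4 : T (f j0) (g j0) =
      - ∑ i, (c (j0.succAbove i) / c j0) • T (f (j0.succAbove i)) (g j0) := by
    conv_lhs => rw [h1]
    rw [map_neg, LinearMap.neg_apply, map_sum, LinearMap.sum_apply]
    congr 1
    refine Finset.sum_congr rfl fun i _ => ?_
    rw [map_smul, LinearMap.smul_apply]
  rw [h4]
  simp only [map_sub, map_smul, Finset.sum_sub_distrib]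
  abel

private theorem decomp_abs {K V W U : Type} [Field K] [AddCommGroup V] [Module K V]
    [AddCommGroup W] [Module K W] [AddCommGroup U] [Module K U] (T : V →ₗ[K] W →ₗ[K] U) (n : ℕ) :
    ∀ (f : Fin n → V) (g : Fin n → W),
    ∃ r, r ≤ n ∧ ∃ (f' : Fin r → V) (g' : Fin r → W), LinearIndependent K f' ∧
      LinearIndependent K g' ∧ ∑ j, T (f j) (g j) = ∑ i, T (f' i) (g' i) := by
  induction n with
  | zero =>
    intro f g
    exact ⟨0, le_rfl, f, g, linearIndependent_empty_type, linearIndependent_empty_type, rfl⟩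
  | succ n ih =>
    intro f g
    by_cases hf : LinearIndependent K f
    · by_cases hg : LinearIndependent K g
      · exact ⟨n + 1, le_rfl, f, g, hf, hg, rfl⟩
      · obtain ⟨g', f', h⟩ := shorten T.flip n g f hg
        obtain ⟨r, hr, f'', g'', h1, h2, h3⟩ := ih f' g'
        refine ⟨r, hr.trans (Nat.le_succ n), f'', g'', h1, h2, ?_⟩
        rw [← h3]
        exact h
    · obtain ⟨f', g', h⟩ := shorten T n f g hf
      obtain ⟨r, hr, f'', g'', h1, h2, h3⟩ := ih f' g'
      exact ⟨r, hr.trans (Nat.le_succ n), f'', g'', h1, h2, h.trans h3⟩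

theorem exists_decomp {K : Type} [Field K] {m : ℕ} (F : MvPolynomial (Fin (m + 1)) K) (d : ℕ)
    (hd : F.degreeOf (Fin.last m) ≤ d) :
    ∃ r : ℕ, r ≤ d + 1 ∧ ∃ (f : Fin r → MvPolynomial (Fin m) K)
      (g : Fin r → MvPolynomial (Fin 1) K), LinearIndependent K f ∧ LinearIndependent K g ∧
        F = ∑ j, inl (f j) * inr (g j) := by
  classical
  let T : MvPolynomial (Fin m) K →ₗ[K] MvPolynomial (Fin 1) K →ₗ[K]
      MvPolynomial (Fin (m + 1)) K :=
    (LinearMap.mul K (MvPolynomial (Fin (m + 1)) K)).compl₁₂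
      (rename (Fin.castSucc : Fin m → Fin (m + 1))).toLinearMap
      (rename (fun _ : Fin 1 => Fin.last m)).toLinearMap
  have hT : ∀ f g, T f g = inl f * inr g := fun _ _ => rfl
  choose κ β hκ using fun s : Fin (m + 1) →₀ ℕ => exists_eL s
  have hβ : ∀ s, β s = Finsupp.single 0 (s (Fin.last m)) := by
    intro s
    refine Finsupp.ext fun i => ?_
    rw [Subsingleton.elim i 0, Finsupp.single_eq_same]
    conv_rhs => rw [hκ s]
    rw [eL_last]
  have hmono : ∀ (s : Fin (m + 1) →₀ ℕ) (c : K), (monomial s c : MvPolynomial (Fin (m + 1)) K) =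
      T (monomial (κ s) c) (monomial (β s) 1) := by
    intro s c
    rw [hT, inl, inr, rename_monomial, rename_monomial, monomial_mul, mul_one]
    conv_lhs => rw [hκ s]
    rfl
  have hF : F = ∑ b : Fin (d + 1), T (∑ s ∈ F.support with s (Fin.last m) = (b : ℕ),
      monomial (κ s) (F.coeff s)) (monomial (Finsupp.single 0 (b : ℕ)) 1) := by
    conv_lhs => rw [← F.support_sum_monomial_coeff]
    have hmaps : ∀ s ∈ F.support, s (Fin.last m) ∈ Finset.range (d + 1) := by
      intro s hs
      rw [Finset.mem_range]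
      exact Nat.lt_succ_of_le ((monomial_le_degreeOf _ hs).trans hd)
    rw [← Finset.sum_fiberwise_of_maps_to hmaps, Finset.sum_range]
    refine Finset.sum_congr rfl fun b _ => ?_
    rw [map_sum, LinearMap.sum_apply]
    refine Finset.sum_congr rfl fun s hs => ?_
    rw [hmono, hβ, (Finset.mem_filter.1 hs).2]
  obtain ⟨r, hr, f, g, h1, h2, h3⟩ := decomp_abs T (d + 1)
    (fun b : Fin (d + 1) => ∑ s ∈ F.support with s (Fin.last m) = (b : ℕ),
      monomial (κ s) (F.coeff s)) (fun b => monomial (Finsupp.single 0 (b : ℕ)) 1)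
  exact ⟨r, hr, f, g, h1, h2, hF.trans h3⟩

end Pool.Agent.Work.SUB
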