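import Pool.Agent.Work.SUB.Defs

/-!
# Block R (Roth's lemma): definitions

`hd k F` is the Hasse derivative of `F` of multi-index `k`; `inl`, `inr` embed polynomials in the
first `m` variables, respectively in the last variable, into the polynomials in `m + 1` variables;
`eL k b` is the corresponding exponent vector; `nP v F` is the maximum of the absolute values of the
coefficients.
-/

set_option autoImplicit false

noncomputable section

namespace Pool.Agent.Work.SUB

open MvPolynomial

/-- Hasse derivative of multi-index `k`. -/
def hd {K : Type} [Field K] {m : ℕ} (k : Fin m →₀ ℕ) (F : MvPolynomial (Fin m) K) :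
    MvPolynomial (Fin m) K :=
  ∑ s ∈ F.support, monomial (s - k) (F.coeff s * ∏ i, ((s i).choose (k i) : K))

/-- A polynomial in the first `m` variables as a polynomial in `m + 1` variables. -/
def inl {K : Type} [Field K] {m : ℕ} (f : MvPolynomial (Fin m) K) :
    MvPolynomial (Fin (m + 1)) K :=
  rename Fin.castSucc f

/-- A polynomial in one variable as a polynomial in the last of `m + 1` variables. -/
def inr {K : Type} [Field K] {m : ℕ} (g : MvPolynomial (Fin 1) K) :
    MvPolynomial (Fin (m + 1)) K :=
  rename (fun _ => Fin.last m) g

/-- The exponent vector composed of exponents for the first `m` variables and one for the last. -/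
def eL {m : ℕ} (k : Fin m →₀ ℕ) (b : Fin 1 →₀ ℕ) : Fin (m + 1) →₀ ℕ :=
  k.mapDomain Fin.castSucc + b.mapDomain (fun _ => Fin.last m)

/-- The maximum of the absolute values of the coefficients. -/
def nP {K : Type} [Field K] (v : AbsoluteValue K ℝ) {σ : Type} (F : MvPolynomial σ K) : ℝ :=
  ⨆ s : F.support, v (F.coeff s)

end Pool.Agent.Work.SUB
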