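import Pool.Agent.Work.SUB.RHt

/-!
# RDet (M): height and degrees of a determinant of derivatives

Let `D = ∑ d j ≥ 1`, `r ≤ D + 1`, `V = det (hd (κ i k) F)`.
`nP v (hd κ F) ≤ 2 ^ D * nP v F` for every absolute value (`coeff_hd`, each binomial coefficient
`choose (t i + k i) (k i) ≤ 2 ^ (t i + k i)`, and `t + k` is in the support of `F`, so
`∑ (t i + k i) ≤ D`; the absolute value of a natural number is at most the number), and
`≤ nP v F` for a non-archimedean one (natural numbers have absolute value `≤ 1`).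
Number of exponents of a polynomial with `degreeOf j ≤ d j`: at most `∏ (d j + 1) ≤ 2 ^ D`.
`Matrix.det_apply`: `V` is a sum of `r!` terms, each a sign times a product of `r` entries; we use
the sum `n1` of the absolute values of the coefficients, which is subadditive and submultiplicative,
so `nP v V ≤ n1 v V ≤ r! * (2 ^ D * (2 ^ D * nP v F)) ^ r`, and
`r! ≤ r ^ r ≤ (D + 1) ^ r ≤ 2 ^ (D r)`; together `nP v V ≤ 8 ^ (D r) * nP v F ^ r`. For a
non-archimedean `v`: `nP v V ≤ nP v F ^ r`. Apply `hP_le_of_local` with `B = 8 ^ (D r)`.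
-/

set_option autoImplicit false

noncomputable section

namespace Pool.Agent.Work.SUB

open MvPolynomial Height AdmissibleAbsValues

/-! ### The sum of the absolute values of the coefficients -/

private def n1 {K : Type} [Field K] (v : AbsoluteValue K ℝ) {σ : Type}
    (F : MvPolynomial σ K) : ℝ := ∑ s ∈ F.support, v (F.coeff s)

private theorem n1_eq {K : Type} [Field K] (v : AbsoluteValue K ℝ) {σ : Type}
    (F : MvPolynomial σ K) (T : Finset (σ →₀ ℕ)) (hT : F.support ⊆ T) :
    n1 v F = ∑ s ∈ T, v (F.coeff s) := by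
  refine Finset.sum_subset hT fun s _ hs => ?_
  rw [notMem_support_iff.1 hs, map_zero]

private theorem n1_nonneg {K : Type} [Field K] (v : AbsoluteValue K ℝ) {σ : Type}
    (F : MvPolynomial σ K) : 0 ≤ n1 v F := Finset.sum_nonneg fun _ _ => v.nonneg _

private theorem n1_zero {K : Type} [Field K] (v : AbsoluteValue K ℝ) {σ : Type} :
    n1 v (0 : MvPolynomial σ K) = 0 := by
  simp [n1]

private theorem n1_add_le {K : Type} [Field K] (v : AbsoluteValue K ℝ) {σ : Type}
    (F G : MvPolynomial σ K) : n1 v (F + G) ≤ n1 v F + n1 v G := by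
  classical
  rw [n1_eq v (F + G) (F.support ∪ G.support) support_add,
    n1_eq v F (F.support ∪ G.support) Finset.subset_union_left,
    n1_eq v G (F.support ∪ G.support) Finset.subset_union_right, ← Finset.sum_add_distrib]
  exact Finset.sum_le_sum fun s _ => by rw [coeff_add]; exact v.add_le _ _

private theorem n1_sum_le {K : Type} [Field K] (v : AbsoluteValue K ℝ) {σ ι : Type}
    (s : Finset ι) (F : ι → MvPolynomial σ K) : n1 v (∑ i ∈ s, F i) ≤ ∑ i ∈ s, n1 v (F i) := by
  classical
  induction s using Finset.induction_on with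
  | empty => simp [n1_zero]
  | insert a s ha ih =>
    rw [Finset.sum_insert ha, Finset.sum_insert ha]
    exact (n1_add_le v _ _).trans (by linarith)

private theorem n1_monomial_mul_le {K : Type} [Field K] (v : AbsoluteValue K ℝ) {σ : Type}
    (s : σ →₀ ℕ) (c : K) (G : MvPolynomial σ K) :
    n1 v (monomial s c * G) ≤ v c * n1 v G := by
  classical
  have hsub : (monomial s c * G).support ⊆ G.support.map (addLeftEmbedding s) := by
    intro t ht
    rw [mem_support_iff, coeff_monomial_mul'] at ht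
    split_ifs at ht with h
    · refine Finset.mem_map.2 ⟨t - s, mem_support_iff.2 (right_ne_zero_of_mul ht), ?_⟩
      exact add_tsub_cancel_of_le h
    · exact absurd rfl ht
  rw [n1_eq v _ _ hsub, Finset.sum_map, n1, Finset.mul_sum]
  refine Finset.sum_le_sum fun t _ => ?_
  rw [addLeftEmbedding_apply, coeff_monomial_mul, map_mul]

private theorem n1_mul_le {K : Type} [Field K] (v : AbsoluteValue K ℝ) {σ : Type}
    (F G : MvPolynomial σ K) : n1 v (F * G) ≤ n1 v F * n1 v G := by
  have h : F * G = ∑ s ∈ F.support, monomial s (F.coeff s) * G := by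
    conv_lhs => rw [F.as_sum, Finset.sum_mul]
  rw [h]
  refine (n1_sum_le v _ _).trans ?_
  rw [show n1 v F * n1 v G = ∑ s ∈ F.support, v (F.coeff s) * n1 v G by
    rw [n1, Finset.sum_mul]]
  exact Finset.sum_le_sum fun s _ => n1_monomial_mul_le v s _ G

private theorem n1_one_le {K : Type} [Field K] (v : AbsoluteValue K ℝ) {σ : Type} :
    n1 v (1 : MvPolynomial σ K) ≤ 1 := by
  classical
  rw [n1_eq v 1 {0} (by rw [← C_1]; exact support_monomial_subset)]
  simp

private theorem n1_prod_le {K : Type} [Field K] (v : AbsoluteValue K ℝ) {σ ι : Type}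
    (s : Finset ι) (F : ι → MvPolynomial σ K) (M : ℝ) (hM : 0 ≤ M) (h : ∀ i, n1 v (F i) ≤ M) :
    n1 v (∏ i ∈ s, F i) ≤ M ^ s.card := by
  classical
  induction s using Finset.induction_on with
  | empty => simpa using n1_one_le v
  | insert a s ha ih =>
    rw [Finset.prod_insert ha, Finset.card_insert_of_notMem ha, pow_succ']
    exact (n1_mul_le v _ _).trans (mul_le_mul (h a) ih (n1_nonneg v _) hM)

private theorem n1_neg {K : Type} [Field K] (v : AbsoluteValue K ℝ) {σ : Type}
    (F : MvPolynomial σ K) : n1 v (-F) = n1 v F := by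
  rw [n1, n1, support_neg]
  exact Finset.sum_congr rfl fun s _ => by rw [coeff_neg, v.map_neg]

private theorem coeff_le_nP {K : Type} [Field K] (v : AbsoluteValue K ℝ) {σ : Type}
    (F : MvPolynomial σ K) (s : σ →₀ ℕ) : v (F.coeff s) ≤ nP v F := by
  by_cases hs : s ∈ F.support
  · exact Finite.le_ciSup_of_le (⟨s, hs⟩ : F.support) le_rfl
  · rw [notMem_support_iff.1 hs, map_zero]
    exact Real.iSup_nonneg fun _ => v.nonneg _

private theorem nP_le {K : Type} [Field K] (v : AbsoluteValue K ℝ) {σ : Type}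
    (F : MvPolynomial σ K) (M : ℝ) (hM : 0 ≤ M) (h : ∀ s, v (F.coeff s) ≤ M) : nP v F ≤ M :=
  Real.iSup_le (fun _ => h _) hM

private theorem nP_nonneg' {K : Type} [Field K] (v : AbsoluteValue K ℝ) {σ : Type}
    (F : MvPolynomial σ K) : 0 ≤ nP v F := Real.iSup_nonneg fun _ => v.nonneg _

private theorem nP_le_n1 {K : Type} [Field K] (v : AbsoluteValue K ℝ) {σ : Type}
    (F : MvPolynomial σ K) : nP v F ≤ n1 v F := by
  refine nP_le v F _ (n1_nonneg v F) fun s => ?_
  by_cases hs : s ∈ F.support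
  · exact Finset.single_le_sum (f := fun s => v (F.coeff s)) (fun _ _ => v.nonneg _) hs
  · rw [notMem_support_iff.1 hs, map_zero]
    exact n1_nonneg v F

/-! ### Degrees and coefficients of the derivatives -/

private theorem mem_supp_of_hd {K : Type} [Field K] {m : ℕ} (k t : Fin m →₀ ℕ)
    (F : MvPolynomial (Fin m) K) (ht : t ∈ (hd k F).support) : t + k ∈ F.support := by
  rw [mem_support_iff, coeff_hd] at ht
  exact mem_support_iff.2 (left_ne_zero_of_mul ht)

private theorem prod_choose_le {m : ℕ} (t k : Fin m →₀ ℕ) (d : Fin m → ℕ)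
    (h : ∀ i, t i + k i ≤ d i) :
    ∏ i, ((t i + k i).choose (k i)) ≤ 2 ^ (∑ i, d i) := by
  rw [← Finset.prod_pow_eq_pow_sum]
  exact Finset.prod_le_prod' fun i _ =>
    (Nat.choose_le_two_pow _ _).trans (Nat.pow_le_pow_right (by norm_num) (h i))

private theorem coeff_hd_le {K : Type} [Field K] (v : AbsoluteValue K ℝ) {m : ℕ} (k t : Fin m →₀ ℕ)
    (F : MvPolynomial (Fin m) K) (d : Fin m → ℕ) (hdeg : ∀ j, F.degreeOf j ≤ d j) :
    v ((hd k F).coeff t) ≤ 2 ^ (∑ i, d i) * nP v F := by
  by_cases ht : t + k ∈ F.support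
  · rw [coeff_hd, map_mul, mul_comm]
    refine mul_le_mul ?_ (coeff_le_nP v F _) (v.nonneg _) (by positivity)
    have h1 : (∏ i, ((t i + k i).choose (k i) : K)) = ((∏ i, (t i + k i).choose (k i) : ℕ) : K) := by
      push_cast
      rfl
    rw [h1]
    refine (v.apply_nat_le_self _).trans ?_
    have h2 := prod_choose_le t k d fun i => (monomial_le_degreeOf i ht).trans (hdeg i)
    exact_mod_cast h2
  · rw [coeff_hd, notMem_support_iff.1 ht, zero_mul, map_zero]
    have := nP_nonneg' v F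
    positivity

private theorem coeff_hd_le_na {K : Type} [Field K] (v : AbsoluteValue K ℝ)
    (hv : IsNonarchimedean v) {m : ℕ} (k t : Fin m →₀ ℕ) (F : MvPolynomial (Fin m) K) :
    v ((hd k F).coeff t) ≤ nP v F := by
  rw [coeff_hd, map_mul]
  have h1 : (∏ i, ((t i + k i).choose (k i) : K)) = ((∏ i, (t i + k i).choose (k i) : ℕ) : K) := by
    push_cast
    rfl
  rw [h1]
  have h2 : v ((∏ i, (t i + k i).choose (k i) : ℕ) : K) ≤ 1 :=
    IsNonarchimedean.apply_natCast_le_one hv
  calc _ ≤ nP v F * 1 := mul_le_mul (coeff_le_nP v F _) h2 (v.nonneg _) (nP_nonneg' v F)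
    _ = _ := mul_one _

private theorem card_box {m : ℕ} (d : Fin m → ℕ) (T : Finset (Fin m →₀ ℕ))
    (hT : ∀ t ∈ T, ∀ i, t i ≤ d i) : T.card ≤ 2 ^ (∑ i, d i) := by
  classical
  have h1 : T.card ≤ (Fintype.piFinset fun i => Finset.range (d i + 1)).card := by
    refine Finset.card_le_card_of_injOn (fun t => (t : Fin m → ℕ)) ?_ ?_
    · intro t ht
      simp only [Finset.mem_coe, Fintype.mem_piFinset, Finset.mem_range]
      intro i
      exact Nat.lt_succ_of_le (hT t ht i)
    · intro a _ b _ hab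
      exact DFunLike.coe_injective hab
  refine h1.trans ?_
  rw [Fintype.card_piFinset, ← Finset.prod_pow_eq_pow_sum]
  refine Finset.prod_le_prod' fun i _ => ?_
  rw [Finset.card_range]
  exact Nat.lt_two_pow_self

private theorem n1_hd_le {K : Type} [Field K] (v : AbsoluteValue K ℝ) {m : ℕ} (k : Fin m →₀ ℕ)
    (F : MvPolynomial (Fin m) K) (d : Fin m → ℕ) (hdeg : ∀ j, F.degreeOf j ≤ d j) :
    n1 v (hd k F) ≤ 2 ^ (∑ i, d i) * (2 ^ (∑ i, d i) * nP v F) := by
  have h0 := nP_nonneg' v F
  have h1 : ((hd k F).support.card : ℝ) ≤ 2 ^ (∑ i, d i) := by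
    exact_mod_cast card_box d (hd k F).support fun t ht i =>
      (monomial_le_degreeOf i ht).trans ((degreeOf_hd_le k F i).trans (hdeg i))
  calc n1 v (hd k F) ≤ ∑ _s ∈ (hd k F).support, 2 ^ (∑ i, d i) * nP v F :=
        Finset.sum_le_sum fun t _ => coeff_hd_le v k t F d hdeg
    _ = (hd k F).support.card * (2 ^ (∑ i, d i) * nP v F) := by
        rw [Finset.sum_const, nsmul_eq_mul]
    _ ≤ _ := mul_le_mul_of_nonneg_right h1 (by positivity)

/-! ### The determinant -/

private theorem arch_bound {K : Type} [Field K] (v : AbsoluteValue K ℝ) {m r : ℕ} (d : Fin m → ℕ)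
    (F : MvPolynomial (Fin m) K) (hdeg : ∀ j, F.degreeOf j ≤ d j) (hr : r ≤ 1 + ∑ j, d j)
    (κ : Fin r → Fin r → (Fin m →₀ ℕ)) :
    nP v (Matrix.of fun i k => hd (κ i k) F).det ≤ (8 : ℝ) ^ ((∑ j, d j) * r) * nP v F ^ r := by
  set D := ∑ j, d j with hD
  have h0 := nP_nonneg' v F
  refine (nP_le_n1 v _).trans ?_
  rw [Matrix.det_apply]
  refine (n1_sum_le v _ _).trans ?_
  have h1 : ∀ σ : Equiv.Perm (Fin r),
      n1 v (Equiv.Perm.sign σ • ∏ i, (Matrix.of fun i k => hd (κ i k) F) (σ i) i) ≤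
        ((2 : ℝ) ^ D * (2 ^ D * nP v F)) ^ r := by
    intro σ
    have h2 : n1 v (∏ i, (Matrix.of fun i k => hd (κ i k) F) (σ i) i) ≤
        ((2 : ℝ) ^ D * (2 ^ D * nP v F)) ^ r := by
      have := n1_prod_le v Finset.univ (fun i => (Matrix.of fun i k => hd (κ i k) F) (σ i) i)
        ((2 : ℝ) ^ D * (2 ^ D * nP v F)) (by positivity) (fun i => n1_hd_le v _ F d hdeg)
      rwa [Finset.card_univ, Fintype.card_fin] at this
    rcases Int.units_eq_one_or (Equiv.Perm.sign σ) with h | h
    · rw [h, one_smul]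
      exact h2
    · rw [h, Units.neg_smul, one_smul, n1_neg]
      exact h2
  calc _ ≤ ∑ _σ : Equiv.Perm (Fin r), ((2 : ℝ) ^ D * (2 ^ D * nP v F)) ^ r :=
        Finset.sum_le_sum fun σ _ => h1 σ
    _ = (Nat.factorial r : ℝ) * ((2 : ℝ) ^ D * (2 ^ D * nP v F)) ^ r := by
        rw [Finset.sum_const, Finset.card_univ, Fintype.card_perm, Fintype.card_fin, nsmul_eq_mul]
    _ ≤ ((2 : ℝ) ^ D) ^ r * ((2 : ℝ) ^ D * (2 ^ D * nP v F)) ^ r := by
        refine mul_le_mul_of_nonneg_right ?_ (by positivity)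
        have h3 : Nat.factorial r ≤ (2 ^ D) ^ r :=
          (Nat.factorial_le_pow r).trans (Nat.pow_le_pow_left
            (hr.trans (by rw [add_comm]; exact Nat.lt_two_pow_self)) r)
        exact_mod_cast h3
    _ = _ := by
        have h8 : (8 : ℝ) ^ (D * r) = ((2 : ℝ) ^ D) ^ r * ((2 : ℝ) ^ D) ^ r * ((2 : ℝ) ^ D) ^ r := by
          rw [show (8 : ℝ) = 2 * 2 * 2 by norm_num, mul_pow, mul_pow, pow_mul]
        rw [h8, mul_pow, mul_pow, mul_assoc, mul_assoc]

private theorem na_sum {K : Type} [Field K] (v : AbsoluteValue K ℝ) (hv : IsNonarchimedean v)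
    {ι : Type} (s : Finset ι) (f : ι → K) (M : ℝ) (hM : 0 ≤ M) (h : ∀ i ∈ s, v (f i) ≤ M) :
    v (∑ i ∈ s, f i) ≤ M := by
  rcases s.eq_empty_or_nonempty with rfl | hs
  · simpa using hM
  · obtain ⟨b, hb, h1⟩ := IsNonarchimedean.finset_image_add_of_nonempty hv f hs
    exact h1.trans (h b hb)

private theorem na_mul {K : Type} [Field K] (v : AbsoluteValue K ℝ) (hv : IsNonarchimedean v)
    {σ : Type} (F G : MvPolynomial σ K) : nP v (F * G) ≤ nP v F * nP v G := by
  classical
  have hF := nP_nonneg' v F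
  have hG := nP_nonneg' v G
  refine nP_le v _ _ (by positivity) fun s => ?_
  rw [coeff_mul]
  refine na_sum v hv _ _ _ (by positivity) fun x _ => ?_
  rw [map_mul]
  exact mul_le_mul (coeff_le_nP v F _) (coeff_le_nP v G _) (v.nonneg _) hF

private theorem na_prod {K : Type} [Field K] (v : AbsoluteValue K ℝ) (hv : IsNonarchimedean v)
    {σ ι : Type} (s : Finset ι) (F : ι → MvPolynomial σ K) (M : ℝ) (hM : 0 ≤ M)
    (h : ∀ i, nP v (F i) ≤ M) : nP v (∏ i ∈ s, F i) ≤ M ^ s.card := by
  classical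
  induction s using Finset.induction_on with
  | empty =>
    simp only [Finset.prod_empty, Finset.card_empty, pow_zero]
    exact (nP_le_n1 v _).trans (n1_one_le v)
  | insert a s ha ih =>
    rw [Finset.prod_insert ha, Finset.card_insert_of_notMem ha, pow_succ']
    exact (na_mul v hv _ _).trans (mul_le_mul (h a) ih (nP_nonneg' v _) hM)

private theorem nP_neg {K : Type} [Field K] (v : AbsoluteValue K ℝ) {σ : Type}
    (F : MvPolynomial σ K) : nP v (-F) ≤ nP v F := by
  refine nP_le v _ _ (nP_nonneg' v F) fun s => ?_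
  rw [coeff_neg, v.map_neg]
  exact coeff_le_nP v F s

private theorem na_bound {K : Type} [Field K] (v : AbsoluteValue K ℝ) (hv : IsNonarchimedean v)
    {m r : ℕ} (F : MvPolynomial (Fin m) K) (κ : Fin r → Fin r → (Fin m →₀ ℕ)) :
    nP v (Matrix.of fun i k => hd (κ i k) F).det ≤ nP v F ^ r := by
  have h0 := nP_nonneg' v F
  refine nP_le v _ _ (by positivity) fun s => ?_
  rw [Matrix.det_apply, coeff_sum]
  refine na_sum v hv _ _ _ (by positivity) fun σ _ => ?_
  have h2 : nP v (∏ i, (Matrix.of fun i k => hd (κ i k) F) (σ i) i) ≤ nP v F ^ r := by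
    have := na_prod v hv Finset.univ (fun i => (Matrix.of fun i k => hd (κ i k) F) (σ i) i)
      (nP v F) h0 (fun i => nP_le v _ _ h0 fun t => coeff_hd_le_na v hv _ t F)
    rwa [Finset.card_univ, Fintype.card_fin] at this
  rcases Int.units_eq_one_or (Equiv.Perm.sign σ) with h | h
  · rw [h, one_smul]
    exact (coeff_le_nP v _ s).trans h2
  · rw [h, Units.neg_smul, one_smul]
    exact (coeff_le_nP v _ s).trans ((nP_neg v _).trans h2)

theorem hP_det_le {K : Type} [Field K] [AdmissibleAbsValues K] {m r : ℕ} (d : Fin m → ℕ)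
    (F : MvPolynomial (Fin m) K) (hF : F ≠ 0) (hdeg : ∀ j, F.degreeOf j ≤ d j)
    (hd1 : 1 ≤ ∑ j, d j) (hr : r ≤ 1 + ∑ j, d j) (κ : Fin r → Fin r → (Fin m →₀ ℕ)) :
    hP (Matrix.of fun i k => hd (κ i k) F).det ≤
      r * (hP F + totalWeight K * Real.log 8 * ∑ j, (d j : ℝ)) := by
  have h1 := hP_le_of_local F (Matrix.of fun i k => hd (κ i k) F).det hF r
    ((8 : ℝ) ^ ((∑ j, d j) * r)) (one_le_pow₀ (by norm_num))
    (fun v _ => arch_bound v d F hdeg hr κ)
    (fun v hv => na_bound v (isNonarchimedean v hv) F κ)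
  refine h1.trans (le_of_eq ?_)
  rw [Real.log_pow]
  push_cast
  ring

theorem degreeOf_det_le {K : Type} [Field K] {m r : ℕ} (F : MvPolynomial (Fin m) K)
    (κ : Fin r → Fin r → (Fin m →₀ ℕ)) (j : Fin m) :
    (Matrix.of fun i k => hd (κ i k) F).det.degreeOf j ≤ r * F.degreeOf j := by
  rw [Matrix.det_apply]
  refine (degreeOf_sum_le j _ _).trans (Finset.sup_le fun σ _ => ?_)
  have h2 : (∏ i, (Matrix.of fun i k => hd (κ i k) F) (σ i) i).degreeOf j ≤ r * F.degreeOf j := by
    refine (degreeOf_prod_le j _ _).trans ?_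
    refine (Finset.sum_le_card_nsmul _ _ (F.degreeOf j) fun i _ => degreeOf_hd_le _ F j).trans ?_
    rw [Finset.card_univ, Fintype.card_fin, smul_eq_mul]
  rcases Int.units_eq_one_or (Equiv.Perm.sign σ) with h | h
  · rw [h, one_smul]
    exact h2
  · rw [h, Units.neg_smul, one_smul, degreeOf_neg]
    exact h2

end Pool.Agent.Work.SUB
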