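import Pool.Agent.Work.SUB.RDefs

/-!
# RHasse (S): coefficients and linearity of Hasse derivatives

`coeff_hd`: `coeff t (monomial (s - k) c) = if s - k = t then c else 0`. If some `s i < k i` then
the binomial coefficient `(s i).choose (k i)` is `0` and the term is `0`; otherwise `s - k = t` iff
`s = t + k`. So only `s = t + k` contributes (and if `t + k` is not in the support, both sides
are `0`). The other statements follow by comparing coefficients (`MvPolynomial.ext`).
-/

set_option autoImplicit false

noncomputable section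

namespace Pool.Agent.Work.SUB

open MvPolynomial

theorem coeff_hd {K : Type} [Field K] {m : ℕ} (k t : Fin m →₀ ℕ) (F : MvPolynomial (Fin m) K) :
    (hd k F).coeff t = F.coeff (t + k) * ∏ i, ((t i + k i).choose (k i) : K) := by
  classical
  unfold hd
  rw [coeff_sum]
  have h1 : ∀ s ∈ F.support,
      coeff t (monomial (s - k) (F.coeff s * ∏ i, ((s i).choose (k i) : K))) =
      if s = t + k then F.coeff (t + k) * ∏ i, ((t i + k i).choose (k i) : K) else 0 := by
    intro s _
    rw [coeff_monomial]
    by_cases h : s = t + k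
    · have h2 : s - k = t := by rw [h, add_tsub_cancel_right]
      rw [if_pos h2, if_pos h, h]
      rfl
    · rw [if_neg h]
      split_ifs with h2
      · have h3 : ∃ i, s i < k i := by
          by_contra hcon
          push Not at hcon
          apply h
          ext i
          have h4 : (s - k) i = t i := by rw [h2]
          rw [Finsupp.tsub_apply] at h4
          rw [Finsupp.add_apply]
          have := hcon i
          omega
        obtain ⟨i, hi⟩ := h3
        have h5 : ∏ i, ((s i).choose (k i) : K) = 0 :=
          Finset.prod_eq_zero (Finset.mem_univ i) (by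
            rw [Nat.choose_eq_zero_of_lt hi, Nat.cast_zero])
        rw [h5, mul_zero]
      · rfl
  rw [Finset.sum_congr rfl h1, Finset.sum_ite_eq' F.support (t + k)]
  split_ifs with h
  · rfl
  · rw [notMem_support_iff.1 h, zero_mul]

theorem hd_zero_index {K : Type} [Field K] {m : ℕ} (F : MvPolynomial (Fin m) K) :
    hd 0 F = F := by
  ext t
  rw [coeff_hd, add_zero]
  simp

theorem hd_add {K : Type} [Field K] {m : ℕ} (k : Fin m →₀ ℕ) (F G : MvPolynomial (Fin m) K) :
    hd k (F + G) = hd k F + hd k G := by
  ext t
  rw [coeff_add, coeff_hd, coeff_hd, coeff_hd, coeff_add]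
  ring

theorem hd_C_mul {K : Type} [Field K] {m : ℕ} (k : Fin m →₀ ℕ) (c : K)
    (F : MvPolynomial (Fin m) K) : hd k (C c * F) = C c * hd k F := by
  ext t
  rw [coeff_C_mul, coeff_hd, coeff_hd, coeff_C_mul]
  ring

theorem hd_sum {K : Type} [Field K] {m : ℕ} (k : Fin m →₀ ℕ) {ι : Type} (s : Finset ι)
    (F : ι → MvPolynomial (Fin m) K) : hd k (∑ i ∈ s, F i) = ∑ i ∈ s, hd k (F i) := by
  ext t
  rw [coeff_sum, coeff_hd, coeff_sum, Finset.sum_mul]
  refine Finset.sum_congr rfl fun i _ => ?_
  rw [coeff_hd]

theorem degreeOf_hd_le {K : Type} [Field K] {m : ℕ} (k : Fin m →₀ ℕ)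
    (F : MvPolynomial (Fin m) K) (j : Fin m) : (hd k F).degreeOf j ≤ F.degreeOf j := by
  rw [degreeOf_le_iff]
  intro t ht
  rw [mem_support_iff, coeff_hd] at ht
  have h1 : F.coeff (t + k) ≠ 0 := left_ne_zero_of_mul ht
  have h2 := monomial_le_degreeOf j (mem_support_iff.2 h1)
  rw [Finsupp.add_apply] at h2
  omega

end Pool.Agent.Work.SUB
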