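import Pool.Agent.Work.SUB.RSplit

/-!
# RHt (M): heights of polynomials

`hP_le_of_local`: by definition of the height (`Height.mulHeight_eq`): for `G ≠ 0` the product over
`archAbsVal` (a multiset with `totalWeight K` elements) of `nP v G ≤ B * nP v F ^ r` and the
`finprod` over the other absolute values of `nP v G ≤ nP v F ^ r` (finite multiplicative supports:
the families are `v ↦ ⨆ i, v (x i)` for a nonzero tuple; compare `mulHeight_comp_le` and
`mulHeight_pow` in Mathlib's `Height.Basic`, `finprod_le_finprod`, `finprod_pow`,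
`Multiset.prod_map_le_prod_map₀`), so `mulHeight ≤ B ^ totalWeight * mulHeight F ^ r`; take
logarithms. If `G = 0` then `hP G = 0` (empty tuple) and `hP F ≥ 0`, `B ≥ 1`.
`hP_inl_mul_inr`: the coefficients of `inl W * inr U` are the products of those of `W` and `U`
(`coeff_inl_mul_inr`), so this is `Height.logHeight_fun_mul_eq` (after `eL` identifies the supports,
`logHeight_comp_equiv`), and heights are nonnegative.
-/

set_option autoImplicit false

noncomputable section

namespace Pool.Agent.Work.SUB

open MvPolynomial Height AdmissibleAbsValues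

theorem hP_nonneg {K : Type} [Field K] [AdmissibleAbsValues K] {σ : Type}
    (F : MvPolynomial σ K) : 0 ≤ hP F := logHeight_nonneg _

private theorem fms {K : Type} [Field K] [AdmissibleAbsValues K] {ι : Type} [Finite ι]
    {x : ι → K} (hx : x ≠ 0) :
    (fun v : nonarchAbsVal (K := K) ↦ ⨆ i, v.val (x i)).HasFiniteMulSupport := by
  have : Nonempty {j // x j ≠ 0} := nonempty_subtype.mpr <| Function.ne_iff.mp hx
  suffices (fun v : nonarchAbsVal (K := K) ↦
      ⨆ i : {j // x j ≠ 0}, v.val (x i)).HasFiniteMulSupport by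
    convert! this with v
    obtain ⟨i, hi⟩ : ∃ j, x j ≠ 0 := Function.ne_iff.mp hx
    have : Nonempty ι := .intro i
    refine le_antisymm (ciSup_le fun j ↦ ?_) (ciSup_le fun ⟨j, hj⟩ ↦ Finite.le_ciSup_of_le j le_rfl)
    rcases eq_or_ne (x j) 0 with h | h
    · rw [h, v.val.map_zero]
      exact Real.iSup_nonneg' ⟨⟨i, hi⟩, v.val.nonneg ..⟩
    · exact Finite.le_ciSup_of_le ⟨j, h⟩ le_rfl
  fun_prop (disch := grind)

private theorem tuple_ne {K : Type} [Field K] {σ : Type} (F : MvPolynomial σ K) (hF : F ≠ 0) :
    (fun s : F.support => F.coeff s) ≠ 0 := by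
  obtain ⟨s, hs⟩ : F.support.Nonempty := support_nonempty.2 hF
  intro h
  exact (mem_support_iff.1 hs) (congrFun h ⟨s, hs⟩)

private theorem nP_nonneg {K : Type} [Field K] (v : AbsoluteValue K ℝ) {σ : Type}
    (F : MvPolynomial σ K) : 0 ≤ nP v F := Real.iSup_nonneg fun _ => v.nonneg _

theorem hP_le_of_local {K : Type} [Field K] [AdmissibleAbsValues K] {σ τ : Type}
    (F : MvPolynomial σ K) (G : MvPolynomial τ K) (hF : F ≠ 0) (r : ℕ) (B : ℝ) (hB : 1 ≤ B)
    (harch : ∀ v ∈ archAbsVal (K := K), nP v G ≤ B * nP v F ^ r)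
    (hna : ∀ v ∈ nonarchAbsVal (K := K), nP v G ≤ nP v F ^ r) :
    hP G ≤ r * hP F + totalWeight K * Real.log B := by
  by_cases hG : G = 0
  · have h0 : hP G = 0 := by
      subst hG
      have : Subsingleton (0 : MvPolynomial τ K).support := by
        rw [support_zero]
        infer_instance
      exact logHeight_eq_zero_of_subsingleton _
    rw [h0]
    have h1 := hP_nonneg F
    have h2 := Real.log_nonneg hB
    positivity
  · have hx := tuple_ne F hF
    have hy := tuple_ne G hG
    have hprod : mulHeight (fun s : G.support => G.coeff s) ≤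
        B ^ totalWeight K * mulHeight (fun s : F.support => F.coeff s) ^ r := by
      rw [mulHeight_eq hx, mulHeight_eq hy]
      have e1 : ((archAbsVal (K := K)).map fun v ↦ ⨆ i : G.support, v (G.coeff i)).prod ≤
          B ^ totalWeight K *
            ((archAbsVal (K := K)).map fun v ↦ ⨆ i : F.support, v (F.coeff i)).prod ^ r := by
        refine (Multiset.prod_map_le_prod_map₀ _ (fun v => B * nP v F ^ r)
          (fun v _ ↦ nP_nonneg v G) (fun v hv ↦ harch v hv)).trans ?_
        rw [Multiset.prod_map_mul, Multiset.map_const', Multiset.prod_replicate,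
          Multiset.prod_map_pow]
        rfl
      have e2 : ∏ᶠ v : nonarchAbsVal (K := K), (⨆ i : G.support, v.val (G.coeff i)) ≤
          (∏ᶠ v : nonarchAbsVal (K := K), (⨆ i : F.support, v.val (F.coeff i))) ^ r := by
        have e3 := finprod_pow (fms hx) r
        refine (finprod_le_finprod (fms hy) (fun v ↦ nP_nonneg v.val G) ((fms hx).pow r)
          (fun v => hna v.1 v.2)).trans (le_of_eq ?_)
        exact e3.symm
      calc _ ≤ (B ^ totalWeight K *
            ((archAbsVal (K := K)).map fun v ↦ ⨆ i : F.support, v (F.coeff i)).prod ^ r) *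
            (∏ᶠ v : nonarchAbsVal (K := K), (⨆ i : F.support, v.val (F.coeff i))) ^ r := by
              refine mul_le_mul e1 e2 (finprod_nonneg fun v => nP_nonneg v.val G) ?_
              have : 0 ≤ ((archAbsVal (K := K)).map
                  fun v ↦ ⨆ i : F.support, v (F.coeff i)).prod :=
                Multiset.prod_map_nonneg fun v _ => nP_nonneg v F
              positivity
        _ = _ := by rw [mul_pow, mul_assoc]
    have hB0 : (0 : ℝ) < B := zero_lt_one.trans_le hB
    have h3 := Real.log_le_log (mulHeight_pos _) hprod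
    rw [Real.log_mul (by positivity) (pow_ne_zero _ (mulHeight_ne_zero _)), Real.log_pow,
      Real.log_pow] at h3
    show Real.log _ ≤ r * Real.log _ + _
    linarith

theorem hP_inl_mul_inr {K : Type} [Field K] [AdmissibleAbsValues K] {m : ℕ}
    (W : MvPolynomial (Fin m) K) (U : MvPolynomial (Fin 1) K) (hW : W ≠ 0) (hU : U ≠ 0) :
    hP W ≤ hP (inl W * inr U : MvPolynomial (Fin (m + 1)) K) ∧
      hP U ≤ hP (inl W * inr U : MvPolynomial (Fin (m + 1)) K) := by
  let f : W.support × U.support → (inl W * inr U : MvPolynomial (Fin (m + 1)) K).support :=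
    fun a => ⟨eL a.1.1 a.2.1, by
      rw [mem_support_iff, coeff_inl_mul_inr]
      exact mul_ne_zero (mem_support_iff.1 a.1.2) (mem_support_iff.1 a.2.2)⟩
  have hf : Function.Bijective f := by
    constructor
    · rintro ⟨⟨k, hk⟩, ⟨b, hb⟩⟩ ⟨⟨k', hk'⟩, ⟨b', hb'⟩⟩ h
      have h1 : eL k b = eL k' b' := congrArg Subtype.val h
      have h2 : k = k' := by
        ext i
        rw [← eL_castSucc k b i, h1, eL_castSucc]
      have h3 : b = b' := by
        refine Finsupp.ext fun i => ?_
        rw [Subsingleton.elim i 0, ← eL_last k b, h1, eL_last]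
      subst h2 h3
      rfl
    · rintro ⟨s, hs⟩
      obtain ⟨k, b, rfl⟩ := exists_eL s
      rw [mem_support_iff, coeff_inl_mul_inr] at hs
      exact ⟨(⟨k, mem_support_iff.2 (left_ne_zero_of_mul hs)⟩,
        ⟨b, mem_support_iff.2 (right_ne_zero_of_mul hs)⟩), rfl⟩
  have h1 : hP (inl W * inr U : MvPolynomial (Fin (m + 1)) K) = hP W + hP U := by
    have h2 := logHeight_comp_equiv (Equiv.ofBijective f hf)
      (fun s : (inl W * inr U : MvPolynomial (Fin (m + 1)) K).support =>
        (inl W * inr U : MvPolynomial (Fin (m + 1)) K).coeff s)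
    have h3 := logHeight_fun_mul_eq (tuple_ne W hW) (tuple_ne U hU)
    show logHeight _ = logHeight _ + logHeight _
    rw [← h2, ← h3]
    congr 1
    funext a
    exact coeff_inl_mul_inr W U a.1.1 a.2.1
  rw [h1]
  exact ⟨le_add_of_nonneg_right (hP_nonneg U), le_add_of_nonneg_left (hP_nonneg W)⟩

end Pool.Agent.Work.SUB
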