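import Pool.Agent.Work.SUB.RHasse

/-!
# RSplit (M): products of polynomials in separate variables

Every exponent vector `s : Fin (m + 1) →₀ ℕ` is `eL k b` for unique `k`, `b`
(`k i = s i.castSucc`, `b 0 = s (Fin.last m)`).
`coeff_inl_mul_inr`: `inl f = ∑_k coeff k f • monomial (k.mapDomain castSucc) 1`, the same for
`inr g`, multiply and compare coefficients (or `MvPolynomial.coeff_mul` and `coeff_rename_mapDomain`,
`coeff_rename_eq_zero`). `hd_inl_mul_inr`: compare coefficients (`coeff_hd`), the product of the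
binomial coefficients over `Fin (m + 1)` splits (`Fin.prod_univ_castSucc`).
-/

set_option autoImplicit false

noncomputable section

namespace Pool.Agent.Work.SUB

open MvPolynomial

theorem eL_castSucc {m : ℕ} (k : Fin m →₀ ℕ) (b : Fin 1 →₀ ℕ) (i : Fin m) :
    eL k b i.castSucc = k i := by
  unfold eL
  rw [Finsupp.add_apply, Finsupp.mapDomain_apply (Fin.castSucc_injective m),
    Finsupp.mapDomain_of_notMem_range, add_zero]
  rintro ⟨j, hj⟩
  exact (Fin.castSucc_lt_last i).ne hj.symm

theorem eL_last {m : ℕ} (k : Fin m →₀ ℕ) (b : Fin 1 →₀ ℕ) : eL k b (Fin.last m) = b 0 := by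
  unfold eL
  have hinj : Function.Injective (fun _ : Fin 1 => Fin.last m) := fun a b _ =>
    Subsingleton.elim a b
  have h1 : (Finsupp.mapDomain (fun _ : Fin 1 => Fin.last m) b) (Fin.last m) = b 0 :=
    Finsupp.mapDomain_apply hinj b 0
  rw [Finsupp.add_apply, h1, Finsupp.mapDomain_of_notMem_range, zero_add]
  rintro ⟨j, hj⟩
  exact (Fin.castSucc_lt_last j).ne hj

theorem exists_eL {m : ℕ} (s : Fin (m + 1) →₀ ℕ) : ∃ k b, s = eL k b := by
  refine ⟨Finsupp.equivFunOnFinite.symm fun i => s i.castSucc,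
    Finsupp.equivFunOnFinite.symm fun _ => s (Fin.last m), ?_⟩
  ext i
  induction i using Fin.lastCases with
  | last => rw [eL_last]; rfl
  | cast i => rw [eL_castSucc]; rfl

private theorem eL_inj {m : ℕ} {k k' : Fin m →₀ ℕ} {b b' : Fin 1 →₀ ℕ}
    (h : eL k b = eL k' b') : k = k' ∧ b = b' := by
  constructor
  · ext i
    rw [← eL_castSucc k b, ← eL_castSucc k' b', h]
  · apply Finsupp.ext
    intro i
    rw [Subsingleton.elim i 0, ← eL_last k b, ← eL_last k' b', h]

private theorem eL_add {m : ℕ} (k k' : Fin m →₀ ℕ) (b b' : Fin 1 →₀ ℕ) :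
    eL k b + eL k' b' = eL (k + k') (b + b') := by
  unfold eL
  rw [Finsupp.mapDomain_add, Finsupp.mapDomain_add]
  abel

theorem coeff_inl_mul_inr {K : Type} [Field K] {m : ℕ} (f : MvPolynomial (Fin m) K)
    (g : MvPolynomial (Fin 1) K) (k : Fin m →₀ ℕ) (b : Fin 1 →₀ ℕ) :
    (inl f * inr g : MvPolynomial (Fin (m + 1)) K).coeff (eL k b) = f.coeff k * g.coeff b := by
  classical
  have hinj : Function.Injective (fun _ : Fin 1 => Fin.last m) := fun a b _ =>
    Subsingleton.elim a b
  rw [coeff_mul, Finset.sum_eq_single (k.mapDomain Fin.castSucc,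
    b.mapDomain (fun _ => Fin.last m))]
  · show (rename Fin.castSucc f).coeff _ * (rename (fun _ => Fin.last m) g).coeff _ = _
    rw [coeff_rename_mapDomain _ (Fin.castSucc_injective m), coeff_rename_mapDomain _ hinj]
  · rintro ⟨p, q⟩ hpq hne
    by_contra hcon
    have hp : (rename Fin.castSucc f).coeff p ≠ 0 := left_ne_zero_of_mul hcon
    have hq : (rename (fun _ => Fin.last m) g).coeff q ≠ 0 := right_ne_zero_of_mul hcon
    obtain ⟨u, rfl, -⟩ := coeff_rename_ne_zero _ _ _ hp
    obtain ⟨w, rfl, -⟩ := coeff_rename_ne_zero _ _ _ hq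
    rw [Finset.HasAntidiagonal.mem_antidiagonal] at hpq
    have h1 : eL u w = eL k b := hpq
    obtain ⟨rfl, rfl⟩ := eL_inj h1
    exact hne rfl
  · intro hne
    exfalso
    apply hne
    rw [Finset.HasAntidiagonal.mem_antidiagonal]
    rfl

theorem hd_inl_mul_inr {K : Type} [Field K] {m : ℕ} (f : MvPolynomial (Fin m) K)
    (g : MvPolynomial (Fin 1) K) (k : Fin m →₀ ℕ) (b : Fin 1 →₀ ℕ) :
    hd (eL k b) (inl f * inr g : MvPolynomial (Fin (m + 1)) K) = inl (hd k f) * inr (hd b g) := by
  ext s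
  obtain ⟨t, c, rfl⟩ := exists_eL s
  rw [coeff_hd, eL_add, coeff_inl_mul_inr, coeff_inl_mul_inr, coeff_hd, coeff_hd,
    Fin.prod_univ_castSucc]
  simp only [eL_castSucc, eL_last, Finset.univ_unique, Fin.default_eq_zero,
    Finset.prod_singleton]
  ring

/-- The degrees of the factors. -/
theorem degreeOf_inl_mul_inr {K : Type} [Field K] {m : ℕ} (f : MvPolynomial (Fin m) K)
    (g : MvPolynomial (Fin 1) K) (hf : f ≠ 0) (hg : g ≠ 0) :
    (∀ j, f.degreeOf j ≤ (inl f * inr g : MvPolynomial (Fin (m + 1)) K).degreeOf j.castSucc) ∧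
      g.degreeOf 0 ≤ (inl f * inr g : MvPolynomial (Fin (m + 1)) K).degreeOf (Fin.last m) := by
  have hmem : ∀ s ∈ f.support, ∀ t ∈ g.support,
      eL s t ∈ (inl f * inr g : MvPolynomial (Fin (m + 1)) K).support := by
    intro s hs t ht
    rw [mem_support_iff, coeff_inl_mul_inr]
    exact mul_ne_zero (mem_support_iff.1 hs) (mem_support_iff.1 ht)
  obtain ⟨s0, hs0⟩ := support_nonempty.2 hf
  obtain ⟨t0, ht0⟩ := support_nonempty.2 hg
  constructor
  · intro j
    rw [degreeOf_le_iff]
    intro s hs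
    have h1 := monomial_le_degreeOf j.castSucc (hmem s hs t0 ht0)
    rwa [eL_castSucc] at h1
  · rw [degreeOf_le_iff]
    intro t ht
    have h1 := monomial_le_degreeOf (Fin.last m) (hmem s0 hs0 t ht)
    rwa [eL_last] at h1

/-- The determinant of a matrix of products of polynomials in separate variables. -/
theorem det_inl_inr {K : Type} [Field K] {m r : ℕ} (f : Fin r → MvPolynomial (Fin m) K)
    (g : Fin r → MvPolynomial (Fin 1) K) (μ : Fin r → (Fin m →₀ ℕ)) (ν : Fin r → (Fin 1 →₀ ℕ)) :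
    (Matrix.of fun i k => hd (eL (μ i) (ν k)) (∑ j, inl (f j) * inr (g j) :
        MvPolynomial (Fin (m + 1)) K)).det =
      inl (Matrix.of fun i j => hd (μ i) (f j)).det *
        inr (Matrix.of fun k j => hd (ν k) (g j)).det := by
  have h1 : (Matrix.of fun i k => hd (eL (μ i) (ν k)) (∑ j, inl (f j) * inr (g j) :
      MvPolynomial (Fin (m + 1)) K)) =
      ((Matrix.of fun i j => hd (μ i) (f j)).map (rename Fin.castSucc)) *
      ((Matrix.of fun k j => hd (ν k) (g j)).map (rename fun _ => Fin.last m)).transpose := by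
    ext1 i k
    rw [Matrix.mul_apply, Matrix.of_apply, hd_sum]
    refine Finset.sum_congr rfl fun j _ => ?_
    rw [hd_inl_mul_inr]
    rfl
  rw [h1, Matrix.det_mul, Matrix.det_transpose]
  have h2 := (rename (R := K) (Fin.castSucc (n := m))).map_det
    (Matrix.of fun i j => hd (μ i) (f j))
  have h3 := (rename (R := K) (fun _ : Fin 1 => Fin.last m)).map_det
    (Matrix.of fun k j => hd (ν k) (g j))
  unfold inl inr
  rw [h2, h3]
  rfl

end Pool.Agent.Work.SUB
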