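import Pool.Agent.Work.SUB.RHasse

/-!
# RTay (M): Taylor's formula

`taylor_hd`: both sides are additive in `F` (take `F` as the sum of its monomials,
`F.as_sum`/`support_sum_monomial_coeff`; use `coeff_hd` or the definition of `hd`; `hd k` of a
monomial `monomial s c` is `monomial (s - k) (c * ∏ choose (s i) (k i))`), so let `F = monomial s c`
with `s ≤ D`. Left side: `c ∏ i (a i + b i) ^ (s i)`; expand each factor by the binomial theorem
(`add_pow`), interchange product and sum (`Finset.prod_univ_sum`, index set the functions with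
`k i ∈ range (s i + 1)`), which is the sum over `k ≤ s`; the terms with `k ≤ D`, not `k ≤ s` on the
right are `0` because a binomial coefficient vanishes.

`hd_shiftP`: let `A = MvPolynomial (Fin m) (MvPolynomial (Fin m) K)` (variables `Y_i = X i` over the
ring `K[X]`, `a i = C (X i)`), `G = shiftP ξ F`. Then `aeval (a + Y) G = aeval (a + C (C ξ) + Y) F`.
Apply `taylor_hd` to both sides (to `G` at `a`, and to `F` at `a + ξ`) with a common bound `D` and
compare the coefficients of `Y ^ k`: `aeval a (hd k G) = C (hd k G)` and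
`aeval (a + ξ) (hd k F) = C (shiftP ξ (hd k F))`. For `k` not `≤ D` both sides are `0`
(`coeff_hd`; enlarge `D` so that `k ≤ D`).
-/

set_option autoImplicit false

noncomputable section

namespace Pool.Agent.Work.SUB

open MvPolynomial

private theorem tay_binom {A : Type} [CommRing A] (x y : A) {n N : ℕ} (h : n ≤ N) :
    ∑ j ∈ Finset.range (N + 1), (n.choose j : A) * x ^ (n - j) * y ^ j = (x + y) ^ n := by
  rw [add_comm x y, add_pow]
  have h1 : ∑ j ∈ Finset.range (N + 1), (n.choose j : A) * x ^ (n - j) * y ^ j =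
      ∑ j ∈ Finset.range (n + 1), (n.choose j : A) * x ^ (n - j) * y ^ j := by
    symm
    refine Finset.sum_subset (Finset.range_mono (by omega)) fun j _ hj => ?_
    rw [Finset.mem_range] at hj
    rw [Nat.choose_eq_zero_of_lt (by omega), Nat.cast_zero, zero_mul, zero_mul]
  rw [h1]
  refine Finset.sum_congr rfl fun j _ => ?_
  ring

private theorem tay_iic {A : Type} [CommRing A] {m : ℕ} (D : Fin m →₀ ℕ)
    (g : Fin m → ℕ → A) : ∑ k ∈ Finset.Iic D, ∏ i, g i (k i) =
      ∏ i, ∑ j ∈ Finset.range (D i + 1), g i j := by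
  classical
  rw [Finset.prod_univ_sum]
  refine Finset.sum_nbij' (fun k i => k i) (fun p => Finsupp.equivFunOnFinite.symm p)
    ?_ ?_ ?_ ?_ ?_
  · intro k hk
    rw [Finset.mem_Iic] at hk
    rw [Fintype.mem_piFinset]
    intro i
    rw [Finset.mem_range]
    have := hk i
    omega
  · intro p hp
    rw [Fintype.mem_piFinset] at hp
    rw [Finset.mem_Iic]
    intro i
    have := Finset.mem_range.1 (hp i)
    show p i ≤ D i
    omega
  · intro k _
    ext i
    rfl
  · intro p _
    rfl
  · intro k _
    rfl

theorem taylor_hd {K : Type} [Field K] {m : ℕ} {A : Type} [CommRing A] [Algebra K A]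
    (a b : Fin m → A) (F : MvPolynomial (Fin m) K) (D : Fin m →₀ ℕ)
    (hD : ∀ s ∈ F.support, s ≤ D) :
    aeval (fun i => a i + b i) F = ∑ k ∈ Finset.Iic D, aeval a (hd k F) * ∏ i, b i ^ k i := by
  classical
  have hmon : ∀ (f : Fin m → A) (s : Fin m →₀ ℕ) (c : K),
      aeval f (monomial s c) = algebraMap K A c * ∏ i, f i ^ s i := by
    intro f s c
    rw [aeval_monomial, Finsupp.prod_fintype _ _ (fun i => pow_zero _)]
  have hR : ∀ k, aeval a (hd k F) * ∏ i, b i ^ k i = ∑ s ∈ F.support,
      algebraMap K A (F.coeff s) * ∏ i, (((s i).choose (k i) : A) * a i ^ (s i - k i) *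
        b i ^ k i) := by
    intro k
    unfold hd
    rw [map_sum, Finset.sum_mul]
    refine Finset.sum_congr rfl fun s _ => ?_
    rw [hmon, Finset.prod_mul_distrib, Finset.prod_mul_distrib, map_mul, map_prod]
    have h1 : ∀ i, algebraMap K A ((s i).choose (k i) : K) = ((s i).choose (k i) : A) :=
      fun i => map_natCast _ _
    simp only [h1, Finsupp.tsub_apply]
    ring
  rw [Finset.sum_congr rfl fun k _ => hR k, Finset.sum_comm]
  conv_lhs => rw [F.as_sum]
  rw [map_sum]
  refine Finset.sum_congr rfl fun s hs => ?_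
  rw [hmon, ← Finset.mul_sum,
    tay_iic D (fun i j => ((s i).choose j : A) * a i ^ (s i - j) * b i ^ j)]
  congr 1
  refine Finset.prod_congr rfl fun i _ => ?_
  exact (tay_binom (a i) (b i) (hD s hs i)).symm

private theorem tay_coeff {R : Type} [CommRing R] {m : ℕ} (D k : Fin m →₀ ℕ) (hk : k ≤ D)
    (P : (Fin m →₀ ℕ) → R) :
    (∑ k ∈ Finset.Iic D, C (P k) * ∏ i, (X i : MvPolynomial (Fin m) R) ^ k i).coeff k = P k := by
  classical
  rw [coeff_sum]
  have h1 : ∀ j ∈ Finset.Iic D, coeff k (C (P j) * ∏ i, (X i : MvPolynomial (Fin m) R) ^ j i) =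
      if j = k then P j else 0 := by
    intro j _
    have h2 : C (P j) * ∏ i, (X i : MvPolynomial (Fin m) R) ^ j i = monomial j (P j) := by
      rw [monomial_eq, Finsupp.prod_fintype _ _ (fun i => pow_zero _)]
    rw [h2, coeff_monomial]
  rw [Finset.sum_congr rfl h1, Finset.sum_ite_eq' (Finset.Iic D) k, if_pos (Finset.mem_Iic.2 hk)]

theorem hd_shiftP {K : Type} [Field K] {m : ℕ} (k : Fin m →₀ ℕ) (ξ : Fin m → K)
    (F : MvPolynomial (Fin m) K) : hd k (shiftP ξ F) = shiftP ξ (hd k F) := by
  classical
  set G := shiftP ξ F with hG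
  set D : Fin m →₀ ℕ := (F.support ∪ G.support ∪ {k}).sup id with hDdef
  have hDF : ∀ s ∈ F.support, s ≤ D := fun s hs =>
    Finset.le_sup (f := id) (Finset.mem_union_left _ (Finset.mem_union_left _ hs))
  have hDG : ∀ s ∈ G.support, s ≤ D := fun s hs =>
    Finset.le_sup (f := id) (Finset.mem_union_left _ (Finset.mem_union_right _ hs))
  have hDk : k ≤ D :=
    Finset.le_sup (f := id) (Finset.mem_union_right _ (Finset.mem_singleton_self k))
  have h1 := taylor_hd (A := MvPolynomial (Fin m) (MvPolynomial (Fin m) K))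
    (fun i => C (X i)) (fun i => X i) G D hDG
  have h2 := taylor_hd (A := MvPolynomial (Fin m) (MvPolynomial (Fin m) K))
    (fun i => C (X i + C (ξ i))) (fun i => X i) F D hDF
  have h3 : aeval (fun i => (C (X i) + X i : MvPolynomial (Fin m) (MvPolynomial (Fin m) K))) G =
      aeval (fun i => (C (X i + C (ξ i)) + X i :
        MvPolynomial (Fin m) (MvPolynomial (Fin m) K))) F := by
    have h4 : (aeval (fun i => (C (X i) + X i :
        MvPolynomial (Fin m) (MvPolynomial (Fin m) K))) : MvPolynomial (Fin m) K →ₐ[K] _).comp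
        (aeval (fun i => X i + C (ξ i))) =
        (aeval (fun i => (C (X i + C (ξ i)) + X i :
          MvPolynomial (Fin m) (MvPolynomial (Fin m) K))) : MvPolynomial (Fin m) K →ₐ[K] _) := by
      apply algHom_ext
      intro i
      rw [AlgHom.comp_apply, aeval_X, map_add, aeval_X, aeval_X, aeval_C, C_add]
      have h5 : algebraMap K (MvPolynomial (Fin m) (MvPolynomial (Fin m) K)) (ξ i) =
        C (C (ξ i)) := rfl
      rw [h5]
      ring
    exact DFunLike.congr_fun h4 F
  have h6 : ∀ P : MvPolynomial (Fin m) K,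
      aeval (fun i => (C (X i) : MvPolynomial (Fin m) (MvPolynomial (Fin m) K))) P = C P := by
    intro P
    have h7 : (aeval (fun i => (C (X i) : MvPolynomial (Fin m) (MvPolynomial (Fin m) K))) :
        MvPolynomial (Fin m) K →ₐ[K] _) =
        (IsScalarTower.toAlgHom K (MvPolynomial (Fin m) K)
          (MvPolynomial (Fin m) (MvPolynomial (Fin m) K))) := by
      apply algHom_ext
      intro i
      rw [aeval_X]
      rfl
    rw [h7]
    rfl
  have h8 : ∀ P : MvPolynomial (Fin m) K,
      aeval (fun i => (C (X i + C (ξ i)) : MvPolynomial (Fin m) (MvPolynomial (Fin m) K))) P =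
        C (shiftP ξ P) := by
    intro P
    have h7 : (aeval (fun i => (C (X i + C (ξ i)) :
        MvPolynomial (Fin m) (MvPolynomial (Fin m) K))) : MvPolynomial (Fin m) K →ₐ[K] _) =
        (IsScalarTower.toAlgHom K (MvPolynomial (Fin m) K)
          (MvPolynomial (Fin m) (MvPolynomial (Fin m) K))).comp
          (aeval (fun i => X i + C (ξ i))) := by
      apply algHom_ext
      intro i
      rw [aeval_X, AlgHom.comp_apply, aeval_X]
      rfl
    rw [h7]
    rfl
  simp only [h6] at h1
  simp only [h8] at h2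
  rw [← h3, h1] at h2
  have h9 := congrArg (fun q => coeff k q) h2
  rw [tay_coeff D k hDk (fun k => hd k G), tay_coeff D k hDk (fun k => shiftP ξ (hd k F))] at h9
  exact h9

end Pool.Agent.Work.SUB
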