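import Pool.Agent.Work.SUB.RShift
import Pool.Agent.Work.SUB.RTay
import Pool.Agent.Work.SUB.RSplit

/-!
# RIdx (M): the index

`idx_hd`: `shiftP ξ (hd k F) = hd k (shiftP ξ F)` (`hd_shiftP`), and a `t` in the support of
`hd k G` has `t + k` in the support of `G` (`coeff_hd`).
`idx_mul`, `idx_add`, `idx_sum`: `shiftP` is a ring homomorphism; an exponent in the support of a
product is a sum of exponents in the supports (`MvPolynomial.support_mul`).
`idx_det`: `Matrix.det_apply`; each term is a sign times `∏ i, M (σ i) i`, whose index is at least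
`∑ i, θ i`. `idx_scale`: immediate from the definition.
`idx_sep`: if both fail there are `k ∈ supp (shiftP W)` with `∑ k_j / d_j < θ / 2` and
`b ∈ supp (shiftP U)` with `b_0 / d_last < θ / 2`; then `eL k b` is in the support of
`shiftP (inl W * inr U) = inl (shiftP W) * inr (shiftP U)` (`coeff_inl_mul_inr`, `shiftP_inl`,
`shiftP_inr`) and `∑ (eL k b)_j / d_j < θ`.
-/

set_option autoImplicit false

noncomputable section

namespace Pool.Agent.Work.SUB

open MvPolynomial

theorem idx_nonneg {K : Type} [Field K] {m : ℕ} (d : Fin m → ℕ) (ξ : Fin m → K)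
    (F : MvPolynomial (Fin m) K) : IdxGe d ξ F 0 := by
  intro k _
  exact Finset.sum_nonneg fun j _ => by positivity

theorem idx_hd {K : Type} [Field K] {m : ℕ} {d : Fin m → ℕ} {ξ : Fin m → K}
    {F : MvPolynomial (Fin m) K} {θ : ℝ} (h : IdxGe d ξ F θ) (k : Fin m →₀ ℕ) :
    IdxGe d ξ (hd k F) (θ - ∑ j, (k j : ℝ) / d j) := by
  intro t ht
  rw [← hd_shiftP, mem_support_iff, coeff_hd] at ht
  have h1 := h (t + k) (mem_support_iff.2 (left_ne_zero_of_mul ht))
  have h2 : ∑ j, (((t + k) j : ℕ) : ℝ) / d j = ∑ j, (t j : ℝ) / d j + ∑ j, (k j : ℝ) / d j := by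
    rw [← Finset.sum_add_distrib]
    refine Finset.sum_congr rfl fun j _ => ?_
    rw [Finsupp.add_apply, Nat.cast_add, add_div]
  rw [h2] at h1
  linarith

theorem idx_add {K : Type} [Field K] {m : ℕ} {d : Fin m → ℕ} {ξ : Fin m → K}
    {F G : MvPolynomial (Fin m) K} {θ : ℝ} (h : IdxGe d ξ F θ) (h' : IdxGe d ξ G θ) :
    IdxGe d ξ (F + G) θ := by
  classical
  intro k hk
  rw [shiftP_add] at hk
  rcases Finset.mem_union.1 (support_add hk) with h1 | h1
  · exact h k h1
  · exact h' k h1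

theorem idx_mul {K : Type} [Field K] {m : ℕ} {d : Fin m → ℕ} {ξ : Fin m → K}
    {F G : MvPolynomial (Fin m) K} {θ θ' : ℝ} (h : IdxGe d ξ F θ) (h' : IdxGe d ξ G θ') :
    IdxGe d ξ (F * G) (θ + θ') := by
  classical
  intro k hk
  rw [shiftP_mul] at hk
  obtain ⟨a, ha, b, hb, rfl⟩ := Finset.mem_add.1 (support_mul _ _ hk)
  have h2 : ∑ j, (((a + b) j : ℕ) : ℝ) / d j = ∑ j, (a j : ℝ) / d j + ∑ j, (b j : ℝ) / d j := by
    rw [← Finset.sum_add_distrib]
    refine Finset.sum_congr rfl fun j _ => ?_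
    rw [Finsupp.add_apply, Nat.cast_add, add_div]
  rw [h2]
  exact add_le_add (h a ha) (h' b hb)

private theorem idx_zero {K : Type} [Field K] {m : ℕ} (d : Fin m → ℕ) (ξ : Fin m → K)
    (θ : ℝ) : IdxGe d ξ 0 θ := by
  intro k hk
  rw [shiftP_zero, support_zero] at hk
  exact absurd hk (Finset.notMem_empty k)

private theorem idx_neg {K : Type} [Field K] {m : ℕ} {d : Fin m → ℕ} {ξ : Fin m → K}
    {F : MvPolynomial (Fin m) K} {θ : ℝ} (h : IdxGe d ξ F θ) : IdxGe d ξ (-F) θ := by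
  intro k hk
  have h1 : shiftP ξ (-F) = - shiftP ξ F := map_neg (aeval fun j => X j + C (ξ j)) F
  rw [h1, support_neg] at hk
  exact h k hk

private theorem idx_sum {K : Type} [Field K] {m : ℕ} {d : Fin m → ℕ} {ξ : Fin m → K} {ι : Type}
    (s : Finset ι) (F : ι → MvPolynomial (Fin m) K) {θ : ℝ} (h : ∀ i ∈ s, IdxGe d ξ (F i) θ) :
    IdxGe d ξ (∑ i ∈ s, F i) θ := by
  classical
  induction s using Finset.induction_on with
  | empty =>
    rw [Finset.sum_empty]
    exact idx_zero d ξ θ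
  | insert a s ha ih =>
    rw [Finset.sum_insert ha]
    exact idx_add (h a (Finset.mem_insert_self _ _))
      (ih fun i hi => h i (Finset.mem_insert_of_mem hi))

private theorem idx_prod {K : Type} [Field K] {m : ℕ} {d : Fin m → ℕ} {ξ : Fin m → K} {ι : Type}
    (s : Finset ι) (F : ι → MvPolynomial (Fin m) K) (θ : ι → ℝ)
    (h : ∀ i ∈ s, IdxGe d ξ (F i) (θ i)) :
    IdxGe d ξ (∏ i ∈ s, F i) (∑ i ∈ s, θ i) := by
  classical
  induction s using Finset.induction_on with
  | empty =>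
    rw [Finset.prod_empty, Finset.sum_empty]
    exact idx_nonneg d ξ 1
  | insert a s ha ih =>
    rw [Finset.prod_insert ha, Finset.sum_insert ha]
    exact idx_mul (h a (Finset.mem_insert_self _ _))
      (ih fun i hi => h i (Finset.mem_insert_of_mem hi))

theorem idx_det {K : Type} [Field K] {m r : ℕ} {d : Fin m → ℕ} {ξ : Fin m → K}
    (M : Matrix (Fin r) (Fin r) (MvPolynomial (Fin m) K)) (θ : Fin r → ℝ)
    (h : ∀ i k, IdxGe d ξ (M i k) (θ k)) : IdxGe d ξ M.det (∑ k, θ k) := by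
  classical
  rw [Matrix.det_apply]
  refine idx_sum _ _ fun σ _ => ?_
  have h1 : IdxGe d ξ (∏ i, M (σ i) i) (∑ k, θ k) := idx_prod _ _ _ fun i _ => h (σ i) i
  rcases Int.units_eq_one_or (Equiv.Perm.sign σ) with h2 | h2
  · rw [h2, one_smul]
    exact h1
  · rw [h2, Units.neg_smul, one_smul]
    exact idx_neg h1

theorem idx_scale {K : Type} [Field K] {m : ℕ} {d : Fin m → ℕ} {ξ : Fin m → K}
    {F : MvPolynomial (Fin m) K} {θ : ℝ} {r : ℕ} (hr : 0 < r) (h : IdxGe d ξ F (r * θ)) :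
    IdxGe (fun j => r * d j) ξ F θ := by
  intro k hk
  have h1 := h k hk
  have hr' : (0 : ℝ) < r := by exact_mod_cast hr
  have h2 : ∑ j, (k j : ℝ) / ((r * d j : ℕ) : ℝ) = (∑ j, (k j : ℝ) / d j) / r := by
    rw [Finset.sum_div]
    refine Finset.sum_congr rfl fun j _ => ?_
    rw [Nat.cast_mul, div_div, mul_comm (r : ℝ)]
  rw [h2, le_div_iff₀ hr', mul_comm]
  exact h1

theorem idx_sep {K : Type} [Field K] {m : ℕ} {d : Fin (m + 1) → ℕ} {ξ : Fin (m + 1) → K}
    {W : MvPolynomial (Fin m) K} {U : MvPolynomial (Fin 1) K} {θ : ℝ}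
    (h : IdxGe d ξ (inl W * inr U) θ) :
    IdxGe (fun j => d j.castSucc) (fun j => ξ j.castSucc) W (θ / 2) ∨
      IdxGe (fun _ => d (Fin.last m)) (fun _ => ξ (Fin.last m)) U (θ / 2) := by
  by_contra hcon
  rw [not_or] at hcon
  obtain ⟨h1, h2⟩ := hcon
  unfold IdxGe at h1 h2
  simp only [not_forall, not_le] at h1 h2
  obtain ⟨k, hk, hk'⟩ := h1
  obtain ⟨b, hb, hb'⟩ := h2
  have h3 : eL k b ∈ (shiftP ξ (inl W * inr U)).support := by
    rw [mem_support_iff, shiftP_mul, shiftP_inl, shiftP_inr, coeff_inl_mul_inr]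
    exact mul_ne_zero (mem_support_iff.1 hk) (mem_support_iff.1 hb)
  have h4 := h _ h3
  rw [Fin.sum_univ_castSucc] at h4
  simp only [eL_castSucc, eL_last] at h4
  rw [Fin.sum_univ_one] at hb'
  linarith

end Pool.Agent.Work.SUB
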