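import Pool.Agent.Work.SUB.RDefs

/-!
# RKron (S): Kronecker substitution

Let `B` be larger than all exponents occurring in the `f j`. Take `p h = X ^ (B ^ h)`. Then
`aeval p F = ∑_s C (coeff s F) X ^ (∑ h, s h * B ^ h)`, and `s ↦ ∑ h, s h * B ^ h` is injective on
the `s` with all `s h < B` (digits in base `B`), so `F` with exponents `< B` is determined by
`aeval p F`. If `∑ j, c j • aeval p (f j) = 0` then `aeval p (∑ j, c j • f j) = 0`, hence
`∑ j, c j • f j = 0` (`linearIndependent_iff'`, or `LinearIndependent.map'` on a submodule).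
-/

set_option autoImplicit false

noncomputable section

namespace Pool.Agent.Work.SUB

private theorem digits_inj (B : ℕ) : ∀ (m : ℕ) (s t : Fin m → ℕ), (∀ h, s h < B) → (∀ h, t h < B) →
    ∑ h : Fin m, s h * B ^ (h : ℕ) = ∑ h : Fin m, t h * B ^ (h : ℕ) → s = t := by
  intro m
  induction m with
  | zero => intro s t _ _ _; exact Subsingleton.elim _ _
  | succ m ih =>
    intro s t hs ht h
    have hB : 0 < B := lt_of_le_of_lt (Nat.zero_le _) (hs 0)
    have e : ∀ u : Fin (m + 1) → ℕ, ∑ h : Fin (m + 1), u h * B ^ (h : ℕ) =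
        u 0 + B * ∑ h : Fin m, u h.succ * B ^ (h : ℕ) := by
      intro u
      rw [Fin.sum_univ_succ, Finset.mul_sum]
      congr 1
      · simp
      · refine Finset.sum_congr rfl fun i _ => ?_
        rw [Fin.val_succ, pow_succ]
        ring
    rw [e, e] at h
    have h0 : s 0 = t 0 := by
      have h1 := congrArg (· % B) h
      simp only [Nat.add_mul_mod_self_left, Nat.mod_eq_of_lt (hs 0), Nat.mod_eq_of_lt (ht 0)] at h1
      exact h1
    have h1 : ∑ h : Fin m, s h.succ * B ^ (h : ℕ) = ∑ h : Fin m, t h.succ * B ^ (h : ℕ) := by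
      rw [h0] at h
      exact Nat.eq_of_mul_eq_mul_left hB (Nat.add_left_cancel h)
    have h2 := ih (fun i => s i.succ) (fun i => t i.succ) (fun i => hs _) (fun i => ht _) h1
    funext i
    refine Fin.cases h0 (fun i => ?_) i
    exact congrFun h2 i

private theorem kron_inj {K : Type} [Field K] {m : ℕ} (B : ℕ) (F : MvPolynomial (Fin m) K)
    (hF : ∀ s ∈ F.support, ∀ h, s h < B)
    (h0 : MvPolynomial.aeval (fun h : Fin m => (Polynomial.X : Polynomial K) ^ (B ^ (h : ℕ))) F = 0) :
    F = 0 := by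
  classical
  have key : MvPolynomial.aeval (fun h : Fin m => (Polynomial.X : Polynomial K) ^ (B ^ (h : ℕ))) F =
      ∑ s ∈ F.support, Polynomial.C (F.coeff s) *
        Polynomial.X ^ (∑ h : Fin m, s h * B ^ (h : ℕ)) := by
    rw [MvPolynomial.aeval_def, MvPolynomial.eval₂_eq']
    refine Finset.sum_congr rfl fun s _ => ?_
    rw [Polynomial.algebraMap_eq, ← Finset.prod_pow_eq_pow_sum]
    congr 1
    refine Finset.prod_congr rfl fun h _ => ?_
    rw [← pow_mul, mul_comm]
  by_contra hne
  obtain ⟨s0, hs0⟩ := MvPolynomial.support_nonempty.2 hne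
  have h1 := congrArg (fun q : Polynomial K => q.coeff (∑ h : Fin m, s0 h * B ^ (h : ℕ)))
    (key.symm.trans h0)
  simp only [Polynomial.finsetSum_coeff, Polynomial.coeff_C_mul_X_pow, Polynomial.coeff_zero] at h1
  rw [Finset.sum_eq_single s0] at h1
  · rw [if_pos rfl] at h1
    exact (MvPolynomial.mem_support_iff.1 hs0) h1
  · intro s hs hne
    rw [if_neg]
    intro h
    apply hne
    have h2 := digits_inj B m (fun i => s i) (fun i => s0 i) (hF s hs) (hF s0 hs0) h.symm
    exact Finsupp.ext (congrFun h2)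
  · intro h
    exact absurd hs0 h

theorem exists_kron {K : Type} [Field K] {m s : ℕ} (f : Fin s → MvPolynomial (Fin m) K)
    (hf : LinearIndependent K f) :
    ∃ p : Fin m → Polynomial K, LinearIndependent K fun j => MvPolynomial.aeval p (f j) := by
  classical
  set B := 1 + ∑ j : Fin s, ∑ t ∈ (f j).support, ∑ h : Fin m, t h with hB
  have hlt : ∀ j, ∀ t ∈ (f j).support, ∀ h, t h < B := by
    intro j t ht h
    have h1 : t h ≤ ∑ h : Fin m, t h :=
      Finset.single_le_sum (f := fun h => t h) (fun _ _ => Nat.zero_le _) (Finset.mem_univ h)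
    have h2 : ∑ h : Fin m, t h ≤ ∑ t ∈ (f j).support, ∑ h : Fin m, t h :=
      Finset.single_le_sum (f := fun t : Fin m →₀ ℕ => ∑ h : Fin m, t h)
        (fun _ _ => Nat.zero_le _) ht
    have h3 : ∑ t ∈ (f j).support, ∑ h : Fin m, t h ≤
        ∑ j : Fin s, ∑ t ∈ (f j).support, ∑ h : Fin m, t h :=
      Finset.single_le_sum (f := fun j => ∑ t ∈ (f j).support, ∑ h : Fin m, t h)
        (fun _ _ => Nat.zero_le _) (Finset.mem_univ j)
    omega
  refine ⟨fun h => Polynomial.X ^ (B ^ (h : ℕ)), ?_⟩
  rw [Fintype.linearIndependent_iff]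
  intro c hc
  have h1 : MvPolynomial.aeval (fun h : Fin m => (Polynomial.X : Polynomial K) ^ (B ^ (h : ℕ)))
      (∑ j, c j • f j) = 0 := by
    rw [map_sum]
    simpa only [map_smul] using hc
  have h2 := kron_inj B (∑ j, c j • f j) ?_ h1
  · exact Fintype.linearIndependent_iff.1 hf c h2
  · intro t ht h
    rw [MvPolynomial.mem_support_iff] at ht
    by_contra hcon
    apply ht
    rw [MvPolynomial.coeff_sum]
    refine Finset.sum_eq_zero fun j _ => ?_
    rw [MvPolynomial.coeff_smul]
    have h3 : (f j).coeff t = 0 := by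
      by_contra h4
      exact hcon (hlt j t (MvPolynomial.mem_support_iff.2 h4) h)
    rw [h3, smul_zero]

end Pool.Agent.Work.SUB
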