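import Pool.Agent.Work.SUB.RDefs

/-!
# RNum (S): a numerical estimate

If `r ≤ κ d / 2 + 1` every term has `k ≤ r - 1 ≤ κ d / 2`, so is at least `κ / 2 ≥ κ ^ 2 / 8`
(`κ ≤ 1`). Otherwise the terms with `k ≤ κ d / 2` are at least `κ / 2` each, there are at least
`κ d / 2` of them (`⌊κ d / 2⌋ + 1`), all `< r`, so the sum is at least `κ ^ 2 d / 4 ≥ κ ^ 2 r / 8`,
because `r ≤ d + 1 ≤ 2 d`.
-/

set_option autoImplicit false

noncomputable section

namespace Pool.Agent.Work.SUB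

theorem roth_num (κ : ℝ) (hκ : 0 < κ) (hκ1 : κ ≤ 1) (d r : ℕ) (hd : 1 ≤ d) (hr : r ≤ d + 1) :
    (r : ℝ) * (κ ^ 2 / 8) ≤ ∑ k : Fin r, max 0 (κ - (k : ℝ) / d) := by
  have hdR : (1 : ℝ) ≤ d := by exact_mod_cast hd
  have hrR : (r : ℝ) ≤ d + 1 := by exact_mod_cast hr
  rw [Fin.sum_univ_eq_sum_range (fun k : ℕ => max 0 (κ - (k : ℝ) / d)) r]
  set q : ℕ := ⌊κ * d / 2⌋₊ + 1 with hq
  have hq1 : κ * d / 2 ≤ q := by
    rw [hq]; push_cast
    exact (Nat.lt_floor_add_one _).le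
  have hqle : ((q : ℕ) : ℝ) ≤ κ * d / 2 + 1 := by
    rw [hq]; push_cast
    have := Nat.floor_le (show 0 ≤ κ * d / 2 by positivity)
    linarith
  -- every term with index below `q` is at least `κ / 2`
  have hterm : ∀ k : ℕ, k < q → κ / 2 ≤ max 0 (κ - (k : ℝ) / d) := by
    intro k hk
    refine le_max_of_le_right ?_
    have h1 : (k : ℝ) ≤ κ * d / 2 := by
      have h2 : ((k + 1 : ℕ) : ℝ) ≤ q := by exact_mod_cast hk
      push_cast at h2
      linarith
    have h3 : (k : ℝ) / d ≤ κ / 2 := by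
      rw [div_le_iff₀ (by linarith)]
      linarith
    linarith
  have hsum : ((min r q : ℕ) : ℝ) * (κ / 2) ≤ ∑ k ∈ Finset.range r, max 0 (κ - (k : ℝ) / d) := by
    calc ((min r q : ℕ) : ℝ) * (κ / 2) = ∑ _k ∈ Finset.range (min r q), κ / 2 := by simp
      _ ≤ ∑ k ∈ Finset.range (min r q), max 0 (κ - (k : ℝ) / d) := by
          refine Finset.sum_le_sum fun k hk => hterm k ?_
          exact lt_of_lt_of_le (Finset.mem_range.1 hk) (min_le_right _ _)
      _ ≤ ∑ k ∈ Finset.range r, max 0 (κ - (k : ℝ) / d) := by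
          refine Finset.sum_le_sum_of_subset_of_nonneg
            (Finset.range_subset_range.2 (min_le_left _ _)) fun k _ _ => le_max_left _ _
  refine le_trans ?_ hsum
  rcases le_total r q with h | h
  · rw [min_eq_left h]
    have hr0 : (0 : ℝ) ≤ r := Nat.cast_nonneg r
    have : κ ^ 2 / 8 ≤ κ / 2 := by nlinarith
    exact mul_le_mul_of_nonneg_left this hr0
  · rw [min_eq_right h]
    have h1 : (κ * d / 2) * (κ / 2) ≤ (q : ℝ) * (κ / 2) :=
      mul_le_mul_of_nonneg_right hq1 (by linarith)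
    have h2 : (r : ℝ) * (κ ^ 2 / 8) ≤ (2 * d) * (κ ^ 2 / 8) :=
      mul_le_mul_of_nonneg_right (by linarith) (by positivity)
    nlinarith

end Pool.Agent.Work.SUB
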