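import Pool.Agent.Work.SUB.RDefs

/-!
# RShift (S): elementary properties of `shiftP`

`shiftP ξ` is the `K`-algebra homomorphism `aeval (X + C ξ)`, with inverse `shiftP (-ξ)`.
`shiftP_inl`, `shiftP_inr`: both sides are algebra homomorphisms in `f` (`g`) which agree on the
variables (`MvPolynomial.algHom_ext`).
-/

set_option autoImplicit false

noncomputable section

namespace Pool.Agent.Work.SUB

open MvPolynomial

theorem shiftP_zero {K : Type} [Field K] {m : ℕ} (ξ : Fin m → K) :
    shiftP ξ (0 : MvPolynomial (Fin m) K) = 0 := by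
  exact map_zero _

theorem shiftP_add {K : Type} [Field K] {m : ℕ} (ξ : Fin m → K) (F G : MvPolynomial (Fin m) K) :
    shiftP ξ (F + G) = shiftP ξ F + shiftP ξ G := by
  exact map_add _ F G

theorem shiftP_mul {K : Type} [Field K] {m : ℕ} (ξ : Fin m → K) (F G : MvPolynomial (Fin m) K) :
    shiftP ξ (F * G) = shiftP ξ F * shiftP ξ G := by
  exact map_mul _ F G

theorem shiftP_sum {K : Type} [Field K] {m : ℕ} (ξ : Fin m → K) {ι : Type} (s : Finset ι)
    (F : ι → MvPolynomial (Fin m) K) :
    shiftP ξ (∑ i ∈ s, F i) = ∑ i ∈ s, shiftP ξ (F i) := by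
  exact map_sum _ F s

theorem shiftP_neg_shiftP {K : Type} [Field K] {m : ℕ} (ξ : Fin m → K)
    (F : MvPolynomial (Fin m) K) : shiftP (-ξ) (shiftP ξ F) = F := by
  have h : (aeval (fun i => X i + C ((-ξ) i)) : MvPolynomial (Fin m) K →ₐ[K] _).comp
      (aeval (fun i => X i + C (ξ i))) = AlgHom.id K (MvPolynomial (Fin m) K) := by
    apply algHom_ext
    intro i
    rw [AlgHom.comp_apply, aeval_X, map_add, aeval_X, AlgHom.id_apply]
    have h1 : aeval (fun i => X i + C ((-ξ) i)) (C (ξ i) : MvPolynomial (Fin m) K) =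
        (C (ξ i) : MvPolynomial (Fin m) K) := by
      rw [aeval_C]
      rfl
    rw [h1, Pi.neg_apply, C_neg]
    ring
  exact DFunLike.congr_fun h F

theorem shiftP_eq_zero {K : Type} [Field K] {m : ℕ} (ξ : Fin m → K)
    (F : MvPolynomial (Fin m) K) : shiftP ξ F = 0 ↔ F = 0 := by
  constructor
  · intro h
    rw [← shiftP_neg_shiftP ξ F, h, shiftP_zero]
  · rintro rfl
    exact shiftP_zero ξ

theorem shiftP_inl {K : Type} [Field K] {m : ℕ} (ξ : Fin (m + 1) → K)
    (f : MvPolynomial (Fin m) K) :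
    shiftP ξ (inl f) = inl (shiftP (fun i => ξ i.castSucc) f) := by
  have h : (aeval (fun i => X i + C (ξ i)) : MvPolynomial (Fin (m + 1)) K →ₐ[K] _).comp
      (rename Fin.castSucc) = (rename Fin.castSucc).comp
      (aeval (fun i : Fin m => X i + C (ξ i.castSucc)) : MvPolynomial (Fin m) K →ₐ[K] _) := by
    apply algHom_ext
    intro i
    rw [AlgHom.comp_apply, AlgHom.comp_apply, rename_X, aeval_X, aeval_X, map_add, rename_X,
      rename_C]
  exact DFunLike.congr_fun h f

theorem shiftP_inr {K : Type} [Field K] {m : ℕ} (ξ : Fin (m + 1) → K)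
    (g : MvPolynomial (Fin 1) K) :
    shiftP ξ (inr g : MvPolynomial (Fin (m + 1)) K) = inr (shiftP (fun _ => ξ (Fin.last m)) g) := by
  have h : (aeval (fun i => X i + C (ξ i)) : MvPolynomial (Fin (m + 1)) K →ₐ[K] _).comp
      (rename (fun _ : Fin 1 => Fin.last m)) = (rename (fun _ : Fin 1 => Fin.last m)).comp
      (aeval (fun i : Fin 1 => X i + C (ξ (Fin.last m))) : MvPolynomial (Fin 1) K →ₐ[K] _) := by
    apply algHom_ext
    intro i
    rw [AlgHom.comp_apply, AlgHom.comp_apply, rename_X, aeval_X, aeval_X, map_add, rename_X,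
      rename_C]
  exact DFunLike.congr_fun h g

end Pool.Agent.Work.SUB
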