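import Pool.Agent.Work.SUB.RHt
import Pool.Agent.Work.SUB.RShift

/-!
# ROne (M): Roth's lemma in one variable

Let `F ∈ K[x]`, `F ≠ 0`, `deg F ≤ D = d 0`, `IdxGe d ξ F κ`: all exponents `k` of `F (x + ξ)` have
`k / D ≥ κ`; let `e = ⌈κ D⌉`; then `(x - ξ) ^ e ∣ F`. Write `F = (x - ξ) ^ e G` with
`e + deg G ≤ D`, `G ≠ 0`.
Local estimate: for every absolute value `v`, `max 1 (v ξ) ^ e * v (lead F) ≤ B_v * nP v F`, with
`B_v = 2 ^ D`, and `B_v = 1` for non-archimedean `v`. If `v ξ ≤ 1` this is clear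
(`lead F` is a coefficient of `F`). If `v ξ > 1`: as formal power series
`G = (-ξ) ^ (-e) * F * (1 - x / ξ) ^ (-e)`, `(1 - y) ^ (-e) = ∑_i choose (e - 1 + i) i * y ^ i`
(for `e = 0` nothing to prove; `PowerSeries.invOneSubPow`), so the coefficient of `x ^ j` in `G`
(`j ≤ D - e`) is `(-ξ) ^ (-e) ∑_{i ≤ j} F_{j - i} choose (e - 1 + i) i ξ ^ (-i)`, of absolute value
`≤ v ξ ^ (-e) * nP v F * ∑_{i ≤ j} choose (e - 1 + i) i ≤ v ξ ^ (-e) * nP v F * 2 ^ D`
(`∑_{i ≤ j} choose (e-1+i) i = choose (e + j) j ≤ 2 ^ (e + j)`), and without the last factor in the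
non-archimedean case (integers have absolute value `≤ 1`). Take `j` = degree of `G`:
`lead G = lead F`.
We apply `hP_le_of_local` to the polynomial `lead F * (1 + ξ ^ e x)`, whose height is
`e * h(ξ)`: `κ D h(ξ) ≤ e h(ξ) ≤ hP F + totalWeight * log 2 * D`. With
`C = (2 + totalWeight * log 2) / κ + 1` (at least `1`) the hypothesis
`C (hP F + D) ≤ D h(ξ)` gives `κ C (hP F + D) ≤ hP F + totalWeight * log 2 * D`, impossible since
`D ≥ 1`, `κ C > 1` and `κ C > totalWeight * log 2`, `hP F ≥ 0`. (`σ` is arbitrary, e.g. `1`.)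
-/

set_option autoImplicit false

noncomputable section

namespace Pool.Agent.Work.SUB

open MvPolynomial Height AdmissibleAbsValues

/-! ### Univariate polynomials -/

private def toU {K : Type} [Field K] : MvPolynomial (Fin 1) K →ₐ[K] Polynomial K :=
  aeval (fun _ => Polynomial.X)

private theorem single_eq (s : Fin 1 →₀ ℕ) : s = Finsupp.single 0 (s 0) := by
  refine Finsupp.ext fun i => ?_
  rw [Subsingleton.elim i 0, Finsupp.single_eq_same]

private theorem coeff_toU {K : Type} [Field K] (F : MvPolynomial (Fin 1) K) (n : ℕ) :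
    (toU F).coeff n = F.coeff (Finsupp.single 0 n) := by
  classical
  induction F using MvPolynomial.induction_on' with
  | monomial s c =>
    have h1 : toU (monomial s c) = Polynomial.C c * Polynomial.X ^ (s 0) := by
      rw [toU, aeval_monomial]
      congr 1
      rw [Finsupp.prod_fintype _ _ (fun _ => pow_zero _)]
      simp
    rw [h1, Polynomial.coeff_C_mul_X_pow, coeff_monomial]
    by_cases h : n = s 0
    · rw [if_pos h, if_pos (by rw [h]; exact single_eq s)]
    · rw [if_neg h, if_neg]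
      intro h2
      apply h
      rw [h2, Finsupp.single_eq_same]
  | add p q hp hq => rw [map_add, Polynomial.coeff_add, hp, hq, coeff_add]

private theorem toU_ne_zero {K : Type} [Field K] (F : MvPolynomial (Fin 1) K) (hF : F ≠ 0) :
    toU F ≠ 0 := by
  intro h
  apply hF
  ext s
  rw [single_eq s, ← coeff_toU, h, Polynomial.coeff_zero, coeff_zero]

private theorem natDegree_toU_le {K : Type} [Field K] (F : MvPolynomial (Fin 1) K) (D : ℕ)
    (hD : F.degreeOf 0 ≤ D) : (toU F).natDegree ≤ D := by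
  rw [Polynomial.natDegree_le_iff_coeff_eq_zero]
  intro n hn
  rw [coeff_toU]
  by_contra h
  have h1 := monomial_le_degreeOf 0 (mem_support_iff.2 h)
  rw [Finsupp.single_eq_same] at h1
  omega

private theorem toU_shiftP {K : Type} [Field K] (ξ : Fin 1 → K) (F : MvPolynomial (Fin 1) K) :
    toU (shiftP ξ F) = (toU F).comp (Polynomial.X + Polynomial.C (ξ 0)) := by
  have h : (toU (K := K)).comp (aeval (fun j => X j + C (ξ j)) :
      MvPolynomial (Fin 1) K →ₐ[K] MvPolynomial (Fin 1) K) =
      (Polynomial.aeval (Polynomial.X + Polynomial.C (ξ 0) : Polynomial K)).comp toU := by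
    apply algHom_ext
    intro i
    rw [Subsingleton.elim i 0]
    simp [toU]
  have h2 := DFunLike.congr_fun h F
  exact h2

private theorem dvd_of_idx {K : Type} [Field K] (ξ : Fin 1 → K) (F : MvPolynomial (Fin 1) K)
    (e : ℕ) (h : ∀ k ∈ (shiftP ξ F).support, e ≤ k 0) :
    (Polynomial.X - Polynomial.C (ξ 0)) ^ e ∣ toU F := by
  have h1 : Polynomial.X ^ e ∣ toU (shiftP ξ F) := by
    rw [Polynomial.X_pow_dvd_iff]
    intro n hn
    rw [coeff_toU]
    by_contra h2
    have h3 := h _ (mem_support_iff.2 h2)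
    rw [Finsupp.single_eq_same] at h3
    omega
  obtain ⟨G, hG⟩ := h1
  refine ⟨G.comp (Polynomial.X - Polynomial.C (ξ 0)), ?_⟩
  have h4 : (toU (shiftP ξ F)).comp (Polynomial.X - Polynomial.C (ξ 0)) = toU F := by
    rw [toU_shiftP, Polynomial.comp_assoc]
    simp
  rw [← h4, hG, Polynomial.mul_comp, Polynomial.pow_comp, Polynomial.X_comp]

/-! ### The identity for the leading coefficient -/

private theorem identity {K : Type} [Field K] (ξ : K) (d : ℕ) (P G : Polynomial K)
    (h : P = (Polynomial.X - Polynomial.C ξ) ^ (d + 1) * G) (n : ℕ) :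
    (-ξ) ^ (d + 1) * (ξ ^ n * G.coeff n) =
      ∑ x ∈ Finset.HasAntidiagonal.antidiagonal n, ((d + x.1).choose d : K) * (ξ ^ x.2 * P.coeff x.2) := by
  have h1 : PowerSeries.rescale ξ (P : PowerSeries K) =
      (PowerSeries.C (-ξ) * (1 - PowerSeries.X)) ^ (d + 1) *
        PowerSeries.rescale ξ (G : PowerSeries K) := by
    rw [h, Polynomial.coe_mul, Polynomial.coe_pow, map_mul, map_pow]
    congr 2
    rw [Polynomial.coe_sub, Polynomial.coe_X, Polynomial.coe_C, map_sub, PowerSeries.rescale_X,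
      map_neg]
    have h2 : PowerSeries.rescale ξ (PowerSeries.C ξ) = PowerSeries.C ξ := by
      ext k
      rw [PowerSeries.coeff_rescale, PowerSeries.coeff_C]
      split_ifs with hk
      · rw [hk, pow_zero, one_mul]
      · rw [mul_zero]
    rw [h2]
    ring
  have h3 := PowerSeries.mk_add_choose_mul_one_sub_pow_eq_one K d
  have h4 : (PowerSeries.mk fun n ↦ ((d + n).choose d : K)) *
      PowerSeries.rescale ξ (P : PowerSeries K) =
      PowerSeries.C ((-ξ) ^ (d + 1)) * PowerSeries.rescale ξ (G : PowerSeries K) := by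
    rw [h1, mul_pow, ← map_pow]
    calc _ = (PowerSeries.C ((-ξ) ^ (d + 1)) * PowerSeries.rescale ξ (G : PowerSeries K)) *
          ((PowerSeries.mk fun n ↦ ((d + n).choose d : K)) * (1 - PowerSeries.X) ^ (d + 1)) := by
            ring
      _ = _ := by rw [h3, mul_one]
  have h5 := congrArg (PowerSeries.coeff n) h4
  rw [PowerSeries.coeff_mul, PowerSeries.coeff_C_mul, PowerSeries.coeff_rescale,
    Polynomial.coeff_coe] at h5
  rw [← h5]
  refine Finset.sum_congr rfl fun x _ => ?_
  rw [PowerSeries.coeff_mk, PowerSeries.coeff_rescale, Polynomial.coeff_coe]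

private theorem local_arch {K : Type} [Field K] (v : AbsoluteValue K ℝ) (ξ : K) (d : ℕ)
    (P G : Polynomial K) (h : P = (Polynomial.X - Polynomial.C ξ) ^ (d + 1) * G) (n : ℕ)
    (M : ℝ) (hM : ∀ i, v (P.coeff i) ≤ M) (hξ : 1 ≤ v ξ) :
    v (G.coeff n) * v ξ ^ (d + 1) ≤ 2 ^ (d + 1 + n) * M := by
  have hM0 : 0 ≤ M := (v.nonneg _).trans (hM 0)
  have h1 := congrArg v (identity ξ d P G h n)
  rw [map_mul, map_mul, map_pow, map_pow, v.map_neg] at h1
  have h2 : v (∑ x ∈ Finset.HasAntidiagonal.antidiagonal n, ((d + x.1).choose d : K) * (ξ ^ x.2 * P.coeff x.2)) ≤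
      v ξ ^ n * (2 ^ (d + 1 + n) * M) := by
    calc _ ≤ ∑ x ∈ Finset.HasAntidiagonal.antidiagonal n, v (((d + x.1).choose d : K) * (ξ ^ x.2 * P.coeff x.2)) :=
          v.sum_le _ _
      _ ≤ ∑ x ∈ Finset.HasAntidiagonal.antidiagonal n, ((d + x.1).choose d : ℝ) * (v ξ ^ n * M) := by
          refine Finset.sum_le_sum fun x hx => ?_
          rw [map_mul, map_mul, map_pow]
          refine mul_le_mul (v.apply_nat_le_self _) ?_ ?_ (by positivity)
          · refine mul_le_mul (pow_le_pow_right₀ hξ ?_) (hM _) (v.nonneg _) (by positivity)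
            have := Finset.HasAntidiagonal.mem_antidiagonal.1 hx
            omega
          · exact mul_nonneg (pow_nonneg (v.nonneg _) _) (v.nonneg _)
      _ = (∑ x ∈ Finset.HasAntidiagonal.antidiagonal n, ((d + x.1).choose d : ℝ)) * (v ξ ^ n * M) := by
          rw [Finset.sum_mul]
      _ ≤ 2 ^ (d + 1 + n) * (v ξ ^ n * M) := by
          refine mul_le_mul_of_nonneg_right ?_ (by positivity)
          have h3 : ∑ x ∈ Finset.HasAntidiagonal.antidiagonal n, (d + x.1).choose d ≤ 2 ^ (d + 1 + n) := by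
            rw [Finset.Nat.sum_antidiagonal_eq_sum_range_succ (fun i _ => (d + i).choose d)]
            have h4 := Nat.sum_range_add_choose n d
            simp only [Nat.succ_eq_add_one, add_comm d]
            rw [h4]
            refine (Nat.choose_le_two_pow _ _).trans (Nat.pow_le_pow_right (by norm_num) ?_)
            omega
          exact_mod_cast h3
      _ = _ := by ring
  rw [← h1] at h2
  have h5 : 0 < v ξ ^ n := by
    have : 0 < v ξ := zero_lt_one.trans_le hξ
    positivity
  refine le_of_mul_le_mul_left ?_ h5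
  calc _ = v ξ ^ (d + 1) * (v ξ ^ n * v (G.coeff n)) := by ring
    _ ≤ _ := h2

private theorem na_sum {K : Type} [Field K] (v : AbsoluteValue K ℝ) (hv : IsNonarchimedean v)
    {ι : Type} (s : Finset ι) (f : ι → K) (M : ℝ) (hM : 0 ≤ M) (h : ∀ i ∈ s, v (f i) ≤ M) :
    v (∑ i ∈ s, f i) ≤ M := by
  rcases s.eq_empty_or_nonempty with rfl | hs
  · simpa using hM
  · obtain ⟨b, hb, h1⟩ := IsNonarchimedean.finset_image_add_of_nonempty hv f hs
    exact h1.trans (h b hb)

private theorem local_na {K : Type} [Field K] (v : AbsoluteValue K ℝ) (hv : IsNonarchimedean v)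
    (ξ : K) (d : ℕ) (P G : Polynomial K)
    (h : P = (Polynomial.X - Polynomial.C ξ) ^ (d + 1) * G) (n : ℕ)
    (M : ℝ) (hM : ∀ i, v (P.coeff i) ≤ M) (hξ : 1 ≤ v ξ) :
    v (G.coeff n) * v ξ ^ (d + 1) ≤ M := by
  have hM0 : 0 ≤ M := (v.nonneg _).trans (hM 0)
  have h1 := congrArg v (identity ξ d P G h n)
  rw [map_mul, map_mul, map_pow, map_pow, v.map_neg] at h1
  have h2 : v (∑ x ∈ Finset.HasAntidiagonal.antidiagonal n, ((d + x.1).choose d : K) * (ξ ^ x.2 * P.coeff x.2)) ≤
      v ξ ^ n * M := by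
    refine na_sum v hv _ _ _ (by positivity) fun x hx => ?_
    rw [map_mul, map_mul, map_pow]
    have h3 : v ((d + x.1).choose d : K) ≤ 1 := IsNonarchimedean.apply_natCast_le_one hv
    have h4 : v ξ ^ x.2 * v (P.coeff x.2) ≤ v ξ ^ n * M := by
      refine mul_le_mul (pow_le_pow_right₀ hξ ?_) (hM _) (v.nonneg _) (by positivity)
      have := Finset.HasAntidiagonal.mem_antidiagonal.1 hx
      omega
    have h5 : 0 ≤ v ξ ^ x.2 * v (P.coeff x.2) := mul_nonneg (pow_nonneg (v.nonneg _) _) (v.nonneg _)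
    calc _ ≤ 1 * (v ξ ^ x.2 * v (P.coeff x.2)) := mul_le_mul_of_nonneg_right h3 h5
      _ ≤ _ := by rw [one_mul]; exact h4
  rw [← h1] at h2
  have h5 : 0 < v ξ ^ n := by
    have : 0 < v ξ := zero_lt_one.trans_le hξ
    positivity
  refine le_of_mul_le_mul_left ?_ h5
  calc _ = v ξ ^ (d + 1) * (v ξ ^ n * v (G.coeff n)) := by ring
    _ ≤ _ := h2

private theorem coeff_le_nP {K : Type} [Field K] (v : AbsoluteValue K ℝ) {σ : Type}
    (F : MvPolynomial σ K) (s : σ →₀ ℕ) : v (F.coeff s) ≤ nP v F := by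
  by_cases hs : s ∈ F.support
  · exact Finite.le_ciSup_of_le (⟨s, hs⟩ : F.support) le_rfl
  · rw [notMem_support_iff.1 hs, map_zero]
    exact Real.iSup_nonneg fun _ => v.nonneg _

private theorem nP_le {K : Type} [Field K] (v : AbsoluteValue K ℝ) {σ : Type}
    (F : MvPolynomial σ K) (M : ℝ) (hM : 0 ≤ M) (h : ∀ s, v (F.coeff s) ≤ M) : nP v F ≤ M :=
  Real.iSup_le (fun _ => h _) hM

/-! ### The auxiliary linear polynomial -/

private theorem coeff_lin {K : Type} [Field K] (a b : K) (s : Fin 1 →₀ ℕ) :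
    (C a + C b * X 0 : MvPolynomial (Fin 1) K).coeff s =
      if s = 0 then a else if s = Finsupp.single 0 1 then b else 0 := by
  classical
  rw [coeff_add, coeff_C, coeff_C_mul, coeff_X]
  by_cases h : s = 0
  · subst h
    have h1 : ¬ (Finsupp.single (0 : Fin 1) 1 = 0) := by
      rw [Finsupp.single_eq_zero]
      norm_num
    rw [if_pos rfl, if_neg h1, if_pos rfl, mul_zero, add_zero]
  · rw [if_neg (fun h' => h h'.symm), if_neg h, zero_add]
    by_cases h2 : s = Finsupp.single 0 1
    · rw [if_pos h2.symm, if_pos h2, mul_one]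
    · rw [if_neg (fun h' => h2 h'.symm), if_neg h2, mul_zero]

private theorem height_lin {K : Type} [Field K] [AdmissibleAbsValues K] (a x : K) (ha : a ≠ 0)
    (hx : x ≠ 0) :
    logHeight₁ x ≤ hP (C a + C (a * x) * X 0 : MvPolynomial (Fin 1) K) := by
  have h01 : ¬ (Finsupp.single (0 : Fin 1) 1 = 0) := by
    rw [Finsupp.single_eq_zero]
    norm_num
  have m0 : (0 : Fin 1 →₀ ℕ) ∈ (C a + C (a * x) * X 0 : MvPolynomial (Fin 1) K).support := by
    rw [mem_support_iff, coeff_lin, if_pos rfl]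
    exact ha
  have m1 : Finsupp.single (0 : Fin 1) 1 ∈
      (C a + C (a * x) * X 0 : MvPolynomial (Fin 1) K).support := by
    rw [mem_support_iff, coeff_lin, if_neg h01, if_pos rfl]
    exact mul_ne_zero ha hx
  have h1 := logHeight_comp_le
    (![⟨_, m1⟩, ⟨_, m0⟩] : Fin 2 → (C a + C (a * x) * X 0 : MvPolynomial (Fin 1) K).support)
    (fun s => (C a + C (a * x) * X 0 : MvPolynomial (Fin 1) K).coeff s)
  refine le_trans (le_of_eq ?_) h1
  rw [logHeight₁_eq_logHeight, ← logHeight_smul_eq_logHeight _ ha]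
  congr 1
  funext i
  fin_cases i
  · simp only [Fin.zero_eta, Fin.isValue, Pi.smul_apply, Matrix.cons_val_zero, smul_eq_mul,
      Function.comp_apply]
    rw [coeff_lin, if_neg h01, if_pos rfl]
  · simp only [Fin.mk_one, Fin.isValue, Pi.smul_apply, Matrix.cons_val_one, smul_eq_mul,
      Function.comp_apply, Matrix.cons_val_zero]
    rw [coeff_lin, if_pos rfl, mul_one]

theorem roth_one (K : Type) [Field K] [AdmissibleAbsValues K] : RothLemma K 1 := by
  intro κ hκ
  have hW : 0 ≤ (totalWeight K : ℝ) * Real.log 2 :=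
    mul_nonneg (Nat.cast_nonneg _) (Real.log_nonneg (by norm_num))
  refine ⟨1, one_pos, (2 + totalWeight K * Real.log 2) / κ + 1, ?_, ?_⟩
  · have : 0 ≤ (2 + totalWeight K * Real.log 2) / κ := by positivity
    linarith
  intro d ξ F hF hd hdeg _ hht hidx
  have hD1 : (1 : ℝ) ≤ d 0 := by exact_mod_cast hd 0
  have hh0 := hht 0
  rw [Fin.sum_univ_one] at hh0
  have hP0 := hP_nonneg F
  have hheight : ξ 0 ≠ 0 := by
    intro h0
    rw [h0, logHeight₁_zero, mul_zero] at hh0
    have h1 : 0 ≤ (2 + totalWeight K * Real.log 2) / κ := by positivity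
    nlinarith
  -- the exponent
  set e := ⌈κ * d 0⌉₊ with he
  have he1 : κ * d 0 ≤ e := Nat.le_ceil _
  have hepos : 0 < e := Nat.ceil_pos.2 (by positivity)
  obtain ⟨G, hG⟩ : (Polynomial.X - Polynomial.C (ξ 0)) ^ e ∣ toU F := by
    refine dvd_of_idx ξ F e fun k hk => ?_
    have h1 := hidx k hk
    rw [Fin.sum_univ_one, le_div_iff₀ (by linarith)] at h1
    exact Nat.ceil_le.2 h1
  obtain ⟨c, hc⟩ : ∃ c, e = c + 1 := ⟨e - 1, by omega⟩
  rw [hc] at hG
  have hU : toU F ≠ 0 := toU_ne_zero F hF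
  have hG0 : G ≠ 0 := by
    rintro rfl
    rw [mul_zero] at hG
    exact hU hG
  have hdegP : (toU F).natDegree = c + 1 + G.natDegree := by
    rw [hG, Polynomial.natDegree_mul (pow_ne_zero _ (Polynomial.X_sub_C_ne_zero _)) hG0,
      Polynomial.natDegree_pow, Polynomial.natDegree_X_sub_C, mul_one]
  have hdegD : c + 1 + G.natDegree ≤ d 0 := by
    rw [← hdegP]
    exact natDegree_toU_le F _ (hdeg 0)
  have hlead : (toU F).coeff (c + 1 + G.natDegree) = G.coeff G.natDegree := by
    have h1 : (toU F).leadingCoeff = G.leadingCoeff := by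
      rw [hG, Polynomial.leadingCoeff_mul, Polynomial.leadingCoeff_pow,
        Polynomial.leadingCoeff_X_sub_C, one_pow, one_mul]
    rw [Polynomial.leadingCoeff, Polynomial.leadingCoeff, hdegP] at h1
    exact h1
  set a := G.coeff G.natDegree with ha
  have ha0 : a ≠ 0 := Polynomial.leadingCoeff_ne_zero.2 hG0
  have hcoef : ∀ (v : AbsoluteValue K ℝ) (i : ℕ), v ((toU F).coeff i) ≤ nP v F := by
    intro v i
    rw [coeff_toU]
    exact coeff_le_nP v F _
  have hnn : ∀ v : AbsoluteValue K ℝ, 0 ≤ nP v F := fun v => Real.iSup_nonneg fun _ => v.nonneg _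
  have hva : ∀ v : AbsoluteValue K ℝ, v a ≤ nP v F := by
    intro v
    rw [← hlead]
    exact hcoef v _
  -- the auxiliary polynomial
  have key := hP_le_of_local F (C a + C (a * ξ 0 ^ (c + 1)) * X 0 : MvPolynomial (Fin 1) K) hF 1
    ((2 : ℝ) ^ (d 0)) (one_le_pow₀ (by norm_num)) (fun v _ => by
      have hone : (1 : ℝ) ≤ 2 ^ (d 0) := one_le_pow₀ (by norm_num)
      have hn := hnn v
      have hle : nP v F ≤ 2 ^ (d 0) * nP v F := le_mul_of_one_le_left hn hone
      rw [pow_one]
      refine nP_le v _ _ (by positivity) fun s => ?_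
      rw [coeff_lin]
      split_ifs with h1 h2
      · exact (hva v).trans hle
      · rw [map_mul, map_pow]
        rcases le_or_gt 1 (v (ξ 0)) with h3 | h3
        · refine (local_arch v (ξ 0) c (toU F) G hG G.natDegree (nP v F) (hcoef v) h3).trans ?_
          refine mul_le_mul_of_nonneg_right ?_ hn
          exact pow_le_pow_right₀ (by norm_num) hdegD
        · refine le_trans (mul_le_of_le_one_right (v.nonneg _)
            (pow_le_one₀ (v.nonneg _) h3.le)) ((hva v).trans hle)
      · rw [map_zero]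
        positivity)
    (fun v hv => by
      have hn := hnn v
      rw [pow_one]
      refine nP_le v _ _ (by positivity) fun s => ?_
      rw [coeff_lin]
      split_ifs with h1 h2
      · exact hva v
      · rw [map_mul, map_pow]
        rcases le_or_gt 1 (v (ξ 0)) with h3 | h3
        · exact local_na v (isNonarchimedean v hv) (ξ 0) c (toU F) G hG G.natDegree (nP v F)
            (hcoef v) h3
        · exact le_trans (mul_le_of_le_one_right (v.nonneg _)
            (pow_le_one₀ (v.nonneg _) h3.le)) (hva v)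
      · rw [map_zero]
        positivity)
  have h2 := (height_lin a (ξ 0 ^ (c + 1)) ha0 (pow_ne_zero _ hheight)).trans key
  rw [logHeight₁_pow, ← hc, Real.log_pow, Nat.cast_one, one_mul] at h2
  -- conclusion
  have hh1 : 0 ≤ logHeight₁ (ξ 0) := zero_le_logHeight₁ _
  have h3 : κ * (d 0 * logHeight₁ (ξ 0)) ≤ hP F + totalWeight K * (d 0 * Real.log 2) := by
    refine le_trans ?_ h2
    rw [← mul_assoc]
    exact mul_le_mul_of_nonneg_right he1 hh1
  have h4 : κ * (((2 + totalWeight K * Real.log 2) / κ + 1) * (hP F + d 0)) ≤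
      κ * (d 0 * logHeight₁ (ξ 0)) := mul_le_mul_of_nonneg_left hh0 hκ.le
  have h5 : κ * (((2 + totalWeight K * Real.log 2) / κ + 1) * (hP F + d 0)) =
      (2 + totalWeight K * Real.log 2 + κ) * (hP F + d 0) := by
    field_simp
  rw [h5] at h4
  have h6 := h4.trans h3
  nlinarith [mul_nonneg hW hP0, mul_nonneg hκ.le hP0]

end Pool.Agent.Work.SUB
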