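import Pool.Agent.Work.SUB.RDefs

/-!
# RWr1 (M): the Wronskian of independent polynomials in one variable is not zero

Characteristic zero. Step 1: there is an invertible matrix `P` over `K` such that the polynomials
`g' j = ∑ i, C (P i j) * g i` are nonzero with pairwise different degrees `e 0, e 1, ...`
(induction on `s`: e.g. choose by strong induction on the sum of the degrees of an independent
family with the same span: if two members have the same degree subtract a multiple of one from the
other, which lowers the sum of the degrees and is an invertible change). The Wronskian matrix of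
`g'` is the Wronskian matrix of `g` times `P.map C`, because `hasseDeriv` is `K`-linear; so it is
enough to treat `g'`.
Step 2: entry `(i, j)` of the Wronskian matrix of `g'` has coefficients `0` in degree `> e j - i`
(also if `i > e j`: then it is `0`), and coefficient `choose (e j) i * lc_j` in degree `e j - i`
(if `i ≤ e j`). Hence the coefficient of the determinant in degree `∑ e j - ∑ i` (as
an integer; if it is negative the determinant below is `0`, see step 3) is
`(∏ lc_j) * det (choose (e j) i)`. It is convenient to multiply row `i` by `X ^ i`: entry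
`X ^ i * hasseDeriv i (g' j)` has degree `≤ e j` and coefficient `choose (e j) i * lc_j` at
`X ^ (e j)` (also if `i > e j`), so `X ^ (∑ i) * det` has coefficient
`(∏ lc_j) * det (choose (e j) i)` at `X ^ (∑ e j)`
(`Matrix.det_apply`, `Polynomial.coeff_prod_of_natDegree_le`).
Step 3: `det (choose (e j) i)_{i, j < s} ≠ 0` in characteristic zero for distinct `e j`: the
polynomial `i! * choose x i = descPochhammer` is monic of degree `i`, so
`(∏ i!) * det = det (vandermonde (e j))` (`Matrix.det_eval_matrixOfPolynomials_eq_det_vandermonde`,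
`Matrix.det_vandermonde_ne_zero_iff`; compare `Pool.Agent.Work.MP_a793bb_nt.Rad.DetLead`).
-/

set_option autoImplicit false

noncomputable section

namespace Pool.Agent.Work.SUB

open Polynomial

private theorem det_choose_ne_zero {K : Type} [Field K] [CharZero K] {s : ℕ} (e : Fin s → ℕ)
    (he : Function.Injective e) :
    (Matrix.of fun i j : Fin s => ((e j).choose (i : ℕ) : K)).det ≠ 0 := by
  have h1 := Matrix.det_eval_matrixOfPolynomials_eq_det_vandermonde (fun j : Fin s => (e j : K))
    (fun i : Fin s => descPochhammer K (i : ℕ)) (fun i => descPochhammer_natDegree K _)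
    (fun i => monic_descPochhammer K _)
  have h2 : (Matrix.of fun j i : Fin s => (descPochhammer K (i : ℕ)).eval (e j : K)) =
      (Matrix.of fun i j : Fin s => (((i : ℕ).factorial : ℕ) : K) *
        (Matrix.of fun i j : Fin s => ((e j).choose (i : ℕ) : K)) i j).transpose := by
    ext j i
    simp only [Matrix.of_apply, Matrix.transpose_apply]
    rw [descPochhammer_eval_eq_descFactorial, Nat.descFactorial_eq_factorial_mul_choose]
    push_cast
    ring
  rw [h2, Matrix.det_transpose, Matrix.det_mul_column] at h1
  intro h0
  rw [h0, mul_zero] at h1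
  have h3 := (Matrix.det_vandermonde_ne_zero_iff (v := fun j : Fin s => (e j : K))).2
    (fun a b hab => he (by simpa using hab))
  exact h3 h1

private theorem coeff_prod {K : Type} [Field K] {ι : Type} (t : Finset ι) (f : ι → K[X]) (n : ι → ℕ)
    (h : ∀ i ∈ t, (f i).natDegree ≤ n i) :
    (∏ i ∈ t, f i).natDegree ≤ ∑ i ∈ t, n i ∧
      (∏ i ∈ t, f i).coeff (∑ i ∈ t, n i) = ∏ i ∈ t, (f i).coeff (n i) := by
  classical
  induction t using Finset.induction_on with
  | empty => simp
  | insert a t ha ih =>
    obtain ⟨h1, h2⟩ := ih fun i hi => h i (Finset.mem_insert_of_mem hi)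
    have h3 := h a (Finset.mem_insert_self a t)
    rw [Finset.prod_insert ha, Finset.sum_insert ha, Finset.prod_insert ha]
    constructor
    · exact natDegree_mul_le.trans (Nat.add_le_add h3 h1)
    · rw [coeff_mul_add_eq_of_natDegree_le h3 h1, h2]

private theorem wr_distinct {K : Type} [Field K] [CharZero K] {s : ℕ} (g : Fin s → K[X])
    (h0 : ∀ j, g j ≠ 0) (hinj : Function.Injective fun j => (g j).natDegree) :
    (Matrix.of fun i j : Fin s => hasseDeriv (i : ℕ) (g j)).det ≠ 0 := by
  set e : Fin s → ℕ := fun j => (g j).natDegree with he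
  have hdeg : ∀ i j : Fin s, (X ^ (i : ℕ) * hasseDeriv (i : ℕ) (g j)).natDegree ≤ e j := by
    intro i j
    by_cases h : (g j).natDegree < (i : ℕ)
    · rw [hasseDeriv_eq_zero_of_lt_natDegree _ _ h, mul_zero]
      simp
    · have h1 := natDegree_hasseDeriv_le (g j) (i : ℕ)
      have h2 : (X ^ (i : ℕ) * hasseDeriv (i : ℕ) (g j)).natDegree ≤
          (i : ℕ) + (hasseDeriv (i : ℕ) (g j)).natDegree := by
        refine natDegree_mul_le.trans ?_
        rw [natDegree_X_pow]
      have h3 : e j = (g j).natDegree := rfl
      omega
  have hcoef : ∀ i j : Fin s, (X ^ (i : ℕ) * hasseDeriv (i : ℕ) (g j)).coeff (e j) =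
      (g j).leadingCoeff * ((e j).choose (i : ℕ) : K) := by
    intro i j
    rw [coeff_X_pow_mul']
    split_ifs with h
    · rw [hasseDeriv_coeff, Nat.sub_add_cancel h, mul_comm]
      rfl
    · rw [Nat.choose_eq_zero_of_lt (not_le.1 h)]
      simp
  intro hdet
  have h1 : (Matrix.of fun i j : Fin s => X ^ (i : ℕ) *
      (Matrix.of fun i j : Fin s => hasseDeriv (i : ℕ) (g j)) i j).det = 0 := by
    rw [Matrix.det_mul_column (fun i : Fin s => (X : K[X]) ^ (i : ℕ)), hdet, mul_zero]
  have h2 := congrArg (fun q : K[X] => q.coeff (∑ j, e j)) h1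
  simp only [Matrix.det_apply, Matrix.of_apply, finsetSum_coeff, coeff_zero] at h2
  have h3 : ∀ σ : Equiv.Perm (Fin s),
      (Equiv.Perm.sign σ • ∏ j, (X ^ ((σ j : Fin s) : ℕ) * hasseDeriv ((σ j : Fin s) : ℕ) (g j))).coeff
        (∑ j, e j) = Equiv.Perm.sign σ • ∏ j, ((g j).leadingCoeff * ((e j).choose ((σ j : Fin s) : ℕ) : K)) := by
    intro σ
    have h4 := (coeff_prod Finset.univ
      (fun j : Fin s => X ^ ((σ j : Fin s) : ℕ) * hasseDeriv ((σ j : Fin s) : ℕ) (g j)) e
      (fun j _ => hdeg (σ j) j)).2
    rw [Units.smul_def, Units.smul_def, coeff_smul, h4]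
    congr 1
    exact Finset.prod_congr rfl fun j _ => hcoef (σ j) j
  simp only [h3] at h2
  have h5 : (Matrix.of fun i j : Fin s => (g j).leadingCoeff *
      (Matrix.of fun i j : Fin s => ((e j).choose (i : ℕ) : K)) i j).det = 0 := by
    rw [Matrix.det_apply]
    exact h2
  rw [Matrix.det_mul_row (fun j : Fin s => (g j).leadingCoeff)] at h5
  rcases mul_eq_zero.1 h5 with h6 | h6
  · rw [Finset.prod_eq_zero_iff] at h6
    obtain ⟨j, _, hj⟩ := h6
    exact h0 j (leadingCoeff_eq_zero.1 hj)
  · exact det_choose_ne_zero e hinj h6

private theorem indep_update {K : Type} [Field K] {s : ℕ} (g : Fin s → K[X])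
    (hg : LinearIndependent K g) (j1 j2 : Fin s) (hne : j1 ≠ j2) (a : K) :
    LinearIndependent K (Function.update g j1 (g j1 + a • g j2)) := by
  rw [Fintype.linearIndependent_iff] at hg ⊢
  intro c hc
  have e1 : ∀ j, c j • Function.update g j1 (g j1 + a • g j2) j =
      c j • g j + (if j = j1 then (c j1 * a) • g j2 else 0) := by
    intro j
    by_cases h : j = j1
    · subst h
      rw [Function.update_self, if_pos rfl, smul_add, smul_smul]
    · rw [Function.update_of_ne h, if_neg h, add_zero]
  have e2 : ∑ j, (c j + if j = j2 then c j1 * a else 0) • g j = 0 := by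
    rw [← hc]
    simp only [e1, Finset.sum_add_distrib, add_smul, ite_smul, zero_smul, Finset.sum_ite_eq',
      Finset.mem_univ, if_true]
  have h1 := hg _ e2
  have h2 : c j1 = 0 := by
    have := h1 j1
    rwa [if_neg hne, add_zero] at this
  intro j
  have := h1 j
  rw [h2, zero_mul] at this
  simpa using this

private theorem det_update {K : Type} [Field K] {s : ℕ} (g : Fin s → K[X])
    (j1 j2 : Fin s) (hne : j1 ≠ j2) (a : K) :
    (Matrix.of fun i j : Fin s => hasseDeriv (i : ℕ)
      (Function.update g j1 (g j1 + a • g j2) j)).det =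
      (Matrix.of fun i j : Fin s => hasseDeriv (i : ℕ) (g j)).det := by
  rw [← Matrix.det_updateCol_add_smul_self
    (Matrix.of fun i j : Fin s => hasseDeriv (i : ℕ) (g j)) hne (C a)]
  congr 1
  ext1 i j
  by_cases h : j = j1
  · subst h
    rw [Matrix.updateCol_self, Matrix.of_apply, Function.update_self, Matrix.of_apply,
      Matrix.of_apply, map_add, map_smul, smul_eq_C_mul, smul_eq_mul]
  · rw [Matrix.updateCol_ne h, Matrix.of_apply, Function.update_of_ne h, Matrix.of_apply]

private theorem wr_aux {K : Type} [Field K] [CharZero K] {s : ℕ} : ∀ (N : ℕ) (g : Fin s → K[X]),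
    ∑ j, (g j).natDegree = N → LinearIndependent K g →
    (Matrix.of fun i j : Fin s => hasseDeriv (i : ℕ) (g j)).det ≠ 0 := by
  intro N
  induction N using Nat.strong_induction_on with
  | _ N ih =>
    intro g hN hg
    have hg0 : ∀ j, g j ≠ 0 := hg.ne_zero
    by_cases hinj : Function.Injective fun j => (g j).natDegree
    · exact wr_distinct g hg0 hinj
    · rw [Function.Injective] at hinj
      push Not at hinj
      obtain ⟨j1, j2, hd, hne⟩ := hinj
      have hl2 : (g j2).leadingCoeff ≠ 0 := leadingCoeff_ne_zero.2 (hg0 j2)
      have hl1 : (g j1).leadingCoeff ≠ 0 := leadingCoeff_ne_zero.2 (hg0 j1)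
      set a : K := -((g j1).leadingCoeff / (g j2).leadingCoeff) with ha
      have ha0 : a ≠ 0 := neg_ne_zero.2 (div_ne_zero hl1 hl2)
      have hind := indep_update g hg j1 j2 hne a
      rw [← det_update g j1 j2 hne a]
      refine ih _ ?_ _ rfl hind
      rw [← hN]
      have hlt : (g j1 + a • g j2).natDegree < (g j1).natDegree := by
        have hne0 : g j1 + a • g j2 ≠ 0 := by
          have := hind.ne_zero j1
          rwa [Function.update_self] at this
        have hb : a • g j2 = -(((g j1).leadingCoeff / (g j2).leadingCoeff) • g j2) := by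
          rw [ha, neg_smul]
        rw [hb, ← sub_eq_add_neg] at hne0 ⊢
        set q := ((g j1).leadingCoeff / (g j2).leadingCoeff) • g j2 with hq
        have hc0 : (g j1).leadingCoeff / (g j2).leadingCoeff ≠ 0 := div_ne_zero hl1 hl2
        have hqd : q.natDegree = (g j2).natDegree := by
          rw [hq, natDegree_smul _ hc0]
        have hq0 : q ≠ 0 := smul_ne_zero hc0 (hg0 j2)
        have hql : q.leadingCoeff = (g j1).leadingCoeff := by
          rw [hq, smul_eq_C_mul, leadingCoeff_mul, leadingCoeff_C]
          field_simp
        have hdd : (g j1).degree = q.degree := by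
          rw [degree_eq_natDegree (hg0 j1), degree_eq_natDegree hq0, hqd, hd]
        have h1 := degree_sub_lt_left hdd (hg0 j1) hql.symm
        exact natDegree_lt_natDegree hne0 h1
      refine Finset.sum_lt_sum ?_ ⟨j1, Finset.mem_univ _, ?_⟩
      · intro j _
        by_cases h : j = j1
        · subst h
          rw [Function.update_self]
          exact hlt.le
        · rw [Function.update_of_ne h]
      · rw [Function.update_self]
        exact hlt

theorem wronskian_ne_zero {K : Type} [Field K] [CharZero K] {s : ℕ} (g : Fin s → K[X])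
    (hg : LinearIndependent K g) :
    (Matrix.of fun i j : Fin s => hasseDeriv (i : ℕ) (g j)).det ≠ 0 :=
  wr_aux _ g rfl hg

end Pool.Agent.Work.SUB
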