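import Pool.Agent.Work.SUB.RChain
import Pool.Agent.Work.SUB.RKron
import Pool.Agent.Work.SUB.RWr1

/-!
# RWrN (M): generalized Wronskians

`exists_kron` gives `p` with `g j = aeval p (f j)` independent; `wronskian_ne_zero` gives
`det (hasseDeriv i (g j)) ≠ 0`. By `hasse_chain` row `i` of this matrix is
`∑_{k ∈ supp c_i} c_i k • (aeval p (hd k (f j)))_j`, with `k.degree ≤ i`. By multilinearity of the
determinant in the rows (`MultilinearMap.map_sum_finset`, `Matrix.detRowAlternating`, or
`Matrix.det_apply`/induction on rows) some choice `μ i ∈ supp c_i` has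
`det (aeval p (hd (μ i) (f j))) ≠ 0`; this determinant is `aeval p (det (hd (μ i) (f j)))`
(`AlgHom.map_det`), so `det (hd (μ i) (f j)) ≠ 0`.
-/

set_option autoImplicit false

noncomputable section

namespace Pool.Agent.Work.SUB

open MvPolynomial

theorem exists_wronskian {K : Type} [Field K] [CharZero K] {m s : ℕ}
    (f : Fin s → MvPolynomial (Fin m) K) (hf : LinearIndependent K f) :
    ∃ μ : Fin s → (Fin m →₀ ℕ), (∀ i, (μ i).degree ≤ (i : ℕ)) ∧
      (Matrix.of fun i j => hd (μ i) (f j)).det ≠ 0 := by
  classical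
  by_contra hcon
  push Not at hcon
  obtain ⟨p, hp⟩ := exists_kron f hf
  have hW := wronskian_ne_zero _ hp
  choose c hc1 hc2 using fun i : Fin s => hasse_chain p (i : ℕ)
  apply hW
  have h1 : (Matrix.of fun i j : Fin s => Polynomial.hasseDeriv (i : ℕ) (aeval p (f j))) =
      Matrix.of fun i => ∑ k ∈ (c i).support, c i k • fun j => aeval p (hd k (f j)) := by
    ext1 i j
    rw [Matrix.of_apply, Matrix.of_apply, hc2 i (f j), Finsupp.sum, Finset.sum_apply]
    rfl
  rw [h1]
  have h2 : (Matrix.of fun i => ∑ k ∈ (c i).support, c i k • fun j => aeval p (hd k (f j))).det =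
      (Matrix.detRowAlternating (n := Fin s) (R := Polynomial K)).toMultilinearMap
        (fun i => ∑ k ∈ (c i).support, c i k • fun j => aeval p (hd k (f j))) := rfl
  rw [h2, MultilinearMap.map_sum_finset]
  refine Finset.sum_eq_zero fun r hr => ?_
  rw [MultilinearMap.map_smul_univ]
  have h3 : (Matrix.detRowAlternating (n := Fin s) (R := Polynomial K)).toMultilinearMap
      (fun i j => aeval p (hd (r i) (f j))) = aeval p (Matrix.of fun i j => hd (r i) (f j)).det := by
    rw [AlgHom.map_det]
    rfl
  rw [h3, hcon r, map_zero, smul_zero]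
  intro i
  exact hc1 i _ (Fintype.mem_piFinset.1 hr i)

end Pool.Agent.Work.SUB
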