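import Pool.Agent.Work.SUB.RDecomp
import Pool.Agent.Work.SUB.RWrN
import Pool.Agent.Work.SUB.RIdx
import Pool.Agent.Work.SUB.RDet
import Pool.Agent.Work.SUB.ROne
import Pool.Agent.Work.SUB.RNum

/-!
# RStep (M-L): the induction step of Roth's lemma

Let `κ > 0`; we may assume `κ ≤ 1` (replace `κ` by `min κ 1`: index `≥ κ` implies index
`≥ min κ 1`). Put `κ' = κ / 2`, `κ'' = κ' ^ 2 / 16`. Let `σ₁, C₁` be the constants of
`RothLemma K m` for `κ''`, `C₂` the one of `RothLemma K 1` for `κ''` (we may take `σ₂` arbitrary: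
for one variable the condition is empty). Put `c = totalWeight K * log 8`,
`σ = min σ₁ (κ / 2)` , `C = max 1 ((C₁ + C₂) * (c + 2))`.
Given `d, ξ, F` as in the definition with index `≥ κ`: by `exists_decomp` (with `d_last`)
`F = ∑_{j < r} inl (f j) * inr (g j)`, `r ≤ d_last + 1`, and `1 ≤ r` because `F ≠ 0`.
`exists_wronskian` for `f` gives `μ i` (degree `≤ i`), for `g` gives `ν k` (degree `≤ k`). Let
`W = det (hd (μ i) (f j)) ≠ 0`, `U = det (hd (ν k) (g j)) ≠ 0`,
`V = det (hd (eL (μ i) (ν k)) F) = inl W * inr U` (`det_inl_inr`).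
Index of the entry `(i, k)` (`idx_hd`, `idx_nonneg`): `∑_{h} μ i h / d_h ≤ deg (μ i) * σ / d_last ≤
σ` since `1 / d_h ≤ σ / d_last` and `deg (μ i) ≤ i ≤ r - 1 ≤ d_last`; and
`ν k 0 / d_last ≤ k / d_last`.
So it is at least `max 0 (κ' - k / d_last)`. By `idx_det`, `roth_num`: index of `V` is at least
`r * κ' ^ 2 / 8`. `idx_sep`, `idx_scale`: `W` has index `≥ κ''` at `(ξ_h)_{h ≤ m}` with respect to
`r d_h`, or `U` has index `≥ κ''` at `ξ_last` with respect to `r d_last`.
`hP W, hP U ≤ hP V ≤ r (hP F + c ∑ d)` (`hP_inl_mul_inr`, `hP_det_le`; `r ≤ 1 + ∑ d`),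
`deg W ≤ r d_h`, `deg U ≤ r d_last` (`degreeOf_inl_mul_inr`, `degreeOf_det_le`).
First case: contradiction to `RothLemma K m`: `(r d_j) ≤ σ₁ (r d_i)`;
`C₁ (hP W + ∑ r d_i) ≤ C₁ r (hP F + (c + 1) ∑ d) ≤ r C (hP F + ∑ d) ≤ r d_j h(ξ_j)`. The second
case is the same with `RothLemma K 1`.
-/

set_option autoImplicit false

noncomputable section

namespace Pool.Agent.Work.SUB

open MvPolynomial Height AdmissibleAbsValues

/-- A smaller lower bound for the index. -/
private theorem rstep_mono {K : Type} [Field K] {m : ℕ} {d : Fin m → ℕ} {ξ : Fin m → K}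
    {F : MvPolynomial (Fin m) K} {θ θ' : ℝ} (h : IdxGe d ξ F θ) (hle : θ' ≤ θ) :
    IdxGe d ξ F θ' := fun k hk => hle.trans (h k hk)

/-- The larger of two lower bounds for the index. -/
private theorem rstep_max {K : Type} [Field K] {m : ℕ} {d : Fin m → ℕ} {ξ : Fin m → K}
    {F : MvPolynomial (Fin m) K} {θ θ' : ℝ} (h : IdxGe d ξ F θ) (h' : IdxGe d ξ F θ') :
    IdxGe d ξ F (max θ θ') := fun k hk => max_le (h k hk) (h' k hk)

/-- The index of the entries of the matrix of derivatives. -/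
private theorem rstep_entry {K : Type} [Field K] {m : ℕ} {d : Fin (m + 1) → ℕ}
    {ξ : Fin (m + 1) → K} {F : MvPolynomial (Fin (m + 1)) K} {κ σ : ℝ} (hσ0 : 0 < σ)
    (hσ : σ ≤ κ / 2) (hd1 : ∀ j, 1 ≤ d j)
    (hds : ∀ i j : Fin (m + 1), i < j → (d j : ℝ) ≤ σ * d i) (h : IdxGe d ξ F κ)
    (μ : Fin m →₀ ℕ) (ν : Fin 1 →₀ ℕ) (i k : ℕ) (hμ : μ.degree ≤ i) (hν : ν.degree ≤ k)
    (hi : i ≤ d (Fin.last m)) :
    IdxGe d ξ (hd (eL μ ν) F) (max 0 (κ / 2 - (k : ℝ) / d (Fin.last m))) := by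
  refine rstep_max (idx_nonneg _ _ _) (rstep_mono (idx_hd h (eL μ ν)) ?_)
  rw [Fin.sum_univ_castSucc, eL_last]
  have hL : (0 : ℝ) < d (Fin.last m) := by
    exact_mod_cast lt_of_lt_of_le Nat.zero_lt_one (hd1 _)
  have h1 : ∑ j : Fin m, ((eL μ ν j.castSucc : ℕ) : ℝ) / d j.castSucc ≤ σ := by
    have h2 : ∀ j : Fin m, ((eL μ ν j.castSucc : ℕ) : ℝ) / d j.castSucc ≤
        (μ j : ℝ) * (σ / d (Fin.last m)) := by
      intro j
      rw [eL_castSucc, div_eq_mul_inv]
      refine mul_le_mul_of_nonneg_left ?_ (Nat.cast_nonneg _)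
      have h3 : (0 : ℝ) < d j.castSucc := by
        exact_mod_cast lt_of_lt_of_le Nat.zero_lt_one (hd1 _)
      rw [inv_eq_one_div, div_le_div_iff₀ h3 hL, one_mul]
      exact hds _ _ (Fin.castSucc_lt_last j)
    calc ∑ j : Fin m, ((eL μ ν j.castSucc : ℕ) : ℝ) / d j.castSucc
        ≤ ∑ j : Fin m, (μ j : ℝ) * (σ / d (Fin.last m)) := Finset.sum_le_sum fun j _ => h2 j
      _ = (μ.degree : ℝ) * (σ / d (Fin.last m)) := by
          rw [← Finset.sum_mul, Finsupp.degree_eq_sum]
          push_cast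
          rfl
      _ ≤ (d (Fin.last m) : ℝ) * (σ / d (Fin.last m)) := by
          refine mul_le_mul_of_nonneg_right ?_ (by positivity)
          exact_mod_cast hμ.trans hi
      _ = σ := by field_simp
  have h4 : ((ν 0 : ℕ) : ℝ) / d (Fin.last m) ≤ (k : ℝ) / d (Fin.last m) := by
    refine div_le_div_of_nonneg_right ?_ hL.le
    have : ν 0 ≤ ν.degree := by
      rw [Finsupp.degree_eq_sum]
      simp
    exact_mod_cast this.trans hν
  linarith

theorem roth_step (K : Type) [Field K] [CharZero K] [AdmissibleAbsValues K] (m : ℕ)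
    (h1 : RothLemma K 1) (hm : RothLemma K m) : RothLemma K (m + 1) := by
  intro κ₀ hκ₀
  set κ : ℝ := min κ₀ 1 with hκdef
  have hκ : 0 < κ := lt_min hκ₀ one_pos
  have hκ1 : κ ≤ 1 := min_le_right _ _
  obtain ⟨σ₁, hσ₁, C₁, hC₁, H₁⟩ := hm ((κ / 2) ^ 2 / 16) (by positivity)
  obtain ⟨σ₂, hσ₂, C₂, hC₂, H₂⟩ := h1 ((κ / 2) ^ 2 / 16) (by positivity)
  set c : ℝ := totalWeight K * Real.log 8 with hcdef
  have hc : 0 ≤ c := mul_nonneg (Nat.cast_nonneg _) (Real.log_nonneg (by norm_num))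
  refine ⟨min σ₁ (κ / 2), lt_min hσ₁ (by positivity), max 1 ((C₁ + C₂) * (c + 2)),
    le_max_left _ _, ?_⟩
  intro d ξ F hF hd1 hdeg hds hht hidx
  have hidx' : IdxGe d ξ F κ := rstep_mono hidx (min_le_left _ _)
  obtain ⟨r, hr, f, g, hf, hg, hFd⟩ := exists_decomp F (d (Fin.last m)) (hdeg _)
  have hr0 : 0 < r := by
    rcases Nat.eq_zero_or_pos r with h | h
    · subst h
      exact absurd (by simpa using hFd) hF
    · exact h
  obtain ⟨μ, hμ, hW⟩ := exists_wronskian f hf
  obtain ⟨ν, hν, hU⟩ := exists_wronskian g hg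
  set W := (Matrix.of fun i j => hd (μ i) (f j)).det with hWdef
  set U := (Matrix.of fun i j => hd (ν i) (g j)).det with hUdef
  set V := (Matrix.of fun i k => hd (eL (μ i) (ν k)) F).det with hVdef
  have hV : V = inl W * inr U := by
    rw [hVdef, hWdef, hUdef, ← det_inl_inr, ← hFd]
  -- the index of `V`
  have hL1 : 1 ≤ d (Fin.last m) := hd1 _
  have hVidx : IdxGe d ξ V ((r : ℝ) * ((κ / 2) ^ 2 / 8)) := by
    refine rstep_mono (idx_det (Matrix.of fun i k => hd (eL (μ i) (ν k)) F)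
      (fun k : Fin r => max 0 (κ / 2 - ((k : ℕ) : ℝ) / d (Fin.last m))) ?_)
      (roth_num (κ / 2) (by positivity) (by linarith) (d (Fin.last m)) r hL1 hr)
    intro i k
    have hi : (i : ℕ) ≤ d (Fin.last m) := by
      have := i.2
      omega
    exact rstep_entry (lt_min hσ₁ (by positivity)) (min_le_right _ _) hd1 hds hidx' (μ i) (ν k)
      i k (hμ i) (hν k) hi
  have hVidx2 : IdxGe (fun j => r * d j) ξ (inl W * inr U) ((κ / 2) ^ 2 / 8) := by
    rw [← hV]
    exact idx_scale hr0 hVidx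
  -- heights and degrees
  have hsum1 : (1 : ℕ) ≤ ∑ j, d j :=
    le_trans hL1 (Finset.single_le_sum (f := d) (fun j _ => Nat.zero_le _)
      (Finset.mem_univ (Fin.last m)))
  have hLle : d (Fin.last m) ≤ ∑ j, d j :=
    Finset.single_le_sum (f := d) (fun j _ => Nat.zero_le _) (Finset.mem_univ (Fin.last m))
  have hVht : hP V ≤ r * (hP F + c * ∑ j, (d j : ℝ)) :=
    hP_det_le d F hF hdeg hsum1 (by omega) fun i k => eL (μ i) (ν k)
  have hWU := hP_inl_mul_inr W U hW hU
  rw [← hV] at hWU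
  have hdg := degreeOf_inl_mul_inr W U hW hU
  rw [← hV] at hdg
  have hVdeg : ∀ j, V.degreeOf j ≤ r * d j := fun j =>
    (degreeOf_det_le F (fun i k => eL (μ i) (ν k)) j).trans (Nat.mul_le_mul_left _ (hdeg j))
  have hS0 : (0 : ℝ) ≤ ∑ j, (d j : ℝ) := Finset.sum_nonneg fun j _ => Nat.cast_nonneg _
  have hr0' : (0 : ℝ) < r := by exact_mod_cast hr0
  have hPF : 0 ≤ hP F := hP_nonneg F
  -- the common estimate
  have key : ∀ (C' h' t : ℝ) (j : Fin (m + 1)), 1 ≤ C' → C' * (c + 2) ≤ (C₁ + C₂) * (c + 2) →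
      h' ≤ hP V → t ≤ r * ∑ j, (d j : ℝ) →
      C' * (h' + t) ≤ ((r * d j : ℕ) : ℝ) * logHeight₁ (ξ j) := by
    intro C' h' t j hC' hC'2 hh' ht
    have e1 : h' + t ≤ r * ((c + 2) * (hP F + ∑ j, (d j : ℝ))) := by
      have : h' + t ≤ r * (hP F + c * ∑ j, (d j : ℝ)) + r * ∑ j, (d j : ℝ) := by linarith
      refine this.trans ?_
      have e2 : hP F + c * ∑ j, (d j : ℝ) + ∑ j, (d j : ℝ) ≤
          (c + 2) * (hP F + ∑ j, (d j : ℝ)) := by nlinarith [mul_nonneg hc hPF]
      calc (r : ℝ) * (hP F + c * ∑ j, (d j : ℝ)) + r * ∑ j, (d j : ℝ)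
          = r * (hP F + c * ∑ j, (d j : ℝ) + ∑ j, (d j : ℝ)) := by ring
        _ ≤ _ := mul_le_mul_of_nonneg_left e2 hr0'.le
    have e3 : C' * (h' + t) ≤ r * (max 1 ((C₁ + C₂) * (c + 2)) * (hP F + ∑ j, (d j : ℝ))) := by
      calc C' * (h' + t) ≤ C' * (r * ((c + 2) * (hP F + ∑ j, (d j : ℝ)))) :=
            mul_le_mul_of_nonneg_left e1 (by linarith)
        _ = r * ((C' * (c + 2)) * (hP F + ∑ j, (d j : ℝ))) := by ring
        _ ≤ r * (max 1 ((C₁ + C₂) * (c + 2)) * (hP F + ∑ j, (d j : ℝ))) := by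
            refine mul_le_mul_of_nonneg_left (mul_le_mul_of_nonneg_right
              (hC'2.trans (le_max_right _ _)) (by linarith)) hr0'.le
    refine e3.trans ?_
    push_cast
    rw [mul_assoc]
    exact mul_le_mul_of_nonneg_left (hht j) hr0'.le
  rcases idx_sep hVidx2 with hcase | hcase
  · refine H₁ (fun j => r * d j.castSucc) (fun j => ξ j.castSucc) W hW
      (fun j => Nat.mul_pos hr0 (hd1 _)) (fun j => (hdg.1 j).trans (hVdeg _)) ?_ ?_
      (rstep_mono hcase (by linarith))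
    · intro i j hij
      have := hds i.castSucc j.castSucc (by simpa using hij)
      push_cast
      have h3 : (d j.castSucc : ℝ) ≤ σ₁ * d i.castSucc :=
        this.trans (mul_le_mul_of_nonneg_right (min_le_left _ _) (Nat.cast_nonneg _))
      nlinarith
    · intro j
      refine key C₁ (hP W) _ j.castSucc hC₁ ?_ hWU.1 ?_
      · exact mul_le_mul_of_nonneg_right (by linarith) (by linarith)
      · rw [Fin.sum_univ_castSucc (fun j => (d j : ℝ)), mul_add, Finset.mul_sum]
        push_cast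
        have : (0 : ℝ) ≤ r * d (Fin.last m) := by positivity
        linarith
  · refine H₂ (fun _ => r * d (Fin.last m)) (fun _ => ξ (Fin.last m)) U hU
      (fun _ => Nat.mul_pos hr0 (hd1 _)) (fun j => ?_) ?_ ?_
      (rstep_mono hcase (by linarith))
    · have : j = 0 := Subsingleton.elim _ _
      subst this
      exact hdg.2.trans (hVdeg _)
    · intro i j hij
      exact absurd (Subsingleton.elim i j) (ne_of_lt hij)
    · intro j
      refine key C₂ (hP U) _ (Fin.last m) hC₂ ?_ hWU.2 ?_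
      · exact mul_le_mul_of_nonneg_right (by linarith) (by linarith)
      · simp only [Finset.univ_unique, Finset.sum_singleton]
        push_cast
        refine mul_le_mul_of_nonneg_left ?_ hr0'.le
        exact_mod_cast hLle

/-- Roth's lemma for all fields of characteristic zero with a product formula. -/
theorem roth_all (K : Type) [Field K] [CharZero K] [AdmissibleAbsValues K] (m : ℕ) :
    RothLemma K m := by
  induction m with
  | zero =>
    intro κ hκ
    refine ⟨1, one_pos, 1, le_rfl, ?_⟩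
    intro d ξ F hF _ _ _ _ hidx
    have hs : shiftP ξ F ≠ 0 := by
      intro h0
      apply hF
      have h1 : shiftP ξ F = F := by
        unfold shiftP
        conv_rhs => rw [← MvPolynomial.aeval_X_left_apply F]
        congr 1
        congr 1
        funext j
        exact j.elim0
      rw [← h1, h0]
    obtain ⟨k, hk⟩ := MvPolynomial.support_nonempty.2 hs
    have := hidx k hk
    simp at this
    linarith
  | succ m ih => exact roth_step K m (roth_one K) ih

end Pool.Agent.Work.SUB
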