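import Pool.Agent.Work.SUB.QMin
import Pool.Agent.Work.SUB.Modt
import Pool.Agent.Work.SUB.Bal

/-!
# Upper: the analogue of Minkowski's second theorem (block M, module M11)

PROOF. Let `w₀ : ι` (`hS.ne`), `C₇` the constant of `small`, `F = (n!)^(m w₀)`. Put
`μ j = 2 ^ (j : ℕ) * NN (x j)`; by `QMin.mono` (`NN (x j) ≤ 2 NN (x (j+1))`) `μ` is monotone. Let
`g = (∏ j, μ j) ^ (1/n)` and `ρ j = g / μ j`: positive, antitone, `∏ ρ = 1`. With `π` of `exists_modt`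
and `t' = modt m w₀ π ρ t` one has `wt m t' = wt m t` (`wt_modt`). By `small` there is `y`, `Rv R y`, with
`NN' y ≤ C₇ (wt m t)^(1/n)`. Let `j` be from `exists_first`: `y ∈ span (x_i, i ≤ j)`, not in the span of
the `x_i`, `i < j`; so `NN (x j) ≤ 2 NN y` and `ρ j NN y ≤ F NN' y`, whence
`g = ρ j μ j = ρ j 2^j NN (x j) ≤ 2^(n+1) ρ j NN y ≤ 2^(n+1) F C₇ (wt m t)^(1/n)`. Then
`∏ NN (x j) ≤ ∏ μ j = g^n ≤ (2^(n+1) F C₇)^n wt m t`.
-/

set_option autoImplicit false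

noncomputable section

namespace Pool.Agent.Work.SUB

variable {K : Type} [Field K] [Height.AdmissibleAbsValues K] {ι : Type} [Fintype ι]
  {v : ι → AbsoluteValue K ℝ} {m : ι → ℕ} {R : Subring K}

theorem upper (hS : IsSD v m R) {n : ℕ} (hn : 0 < n) (A : ι → Matrix (Fin n) (Fin n) K)
    (hA : ∀ w, (A w).det ≠ 0) : ∃ C : ℝ, 1 ≤ C ∧ ∀ t : ι → Fin n → ℝ, (∀ w i, 0 < t w i) →
      ∀ x : Fin n → Fin n → K, QMin v m R A t x → ∏ j, NN v m A t (x j) ≤ C * wt m t := by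
  obtain ⟨w₀⟩ := hS.ne
  obtain ⟨C₇, hC₇, hsmall⟩ := small hS hn A hA
  set F : ℝ := (n.factorial : ℝ) ^ m w₀ with hF
  have hFpos : 0 < F := pow_pos (by exact_mod_cast n.factorial_pos) _
  refine ⟨max 1 ((2 ^ n * F * C₇) ^ n), le_max_left _ _, fun t ht x hx => ?_⟩
  have hn0 : (n : ℝ) ≠ 0 := by exact_mod_cast hn.ne'
  have hNN : ∀ j, 0 < NN v m A t (x j) := fun j => NN_pos hA ht (hx.mem j).1
  set μ : Fin n → ℝ := fun j => 2 ^ (j : ℕ) * NN v m A t (x j) with hμ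
  have hμpos : ∀ j, 0 < μ j := fun j => mul_pos (by positivity) (hNN j)
  have hμmono : ∀ i j : Fin n, i ≤ j → μ i ≤ μ j := by
    intro i j hij
    rcases eq_or_lt_of_le hij with rfl | hlt
    · exact le_rfl
    · have h1 := hx.mono hij
      have h2 : (2 : ℝ) ^ (i : ℕ) * 2 ≤ 2 ^ (j : ℕ) := by
        rw [← pow_succ]
        exact pow_le_pow_right₀ (by norm_num) hlt
      calc μ i = 2 ^ (i : ℕ) * NN v m A t (x i) := rfl
        _ ≤ 2 ^ (i : ℕ) * (2 * NN v m A t (x j)) := mul_le_mul_of_nonneg_left h1 (by positivity)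
        _ = 2 ^ (i : ℕ) * 2 * NN v m A t (x j) := by ring
        _ ≤ μ j := mul_le_mul_of_nonneg_right h2 (hNN j).le
  have hprodpos : 0 < ∏ j, μ j := Finset.prod_pos fun j _ => hμpos j
  set g : ℝ := (∏ j, μ j) ^ (1 / (n : ℝ)) with hg
  have hgpos : 0 < g := Real.rpow_pos_of_pos hprodpos _
  have hgn : g ^ n = ∏ j, μ j := by
    rw [hg, ← Real.rpow_natCast, ← Real.rpow_mul hprodpos.le, one_div, inv_mul_cancel₀ hn0,
      Real.rpow_one]
  set ρ : Fin n → ℝ := fun j => g / μ j with hρ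
  have hρpos : ∀ j, 0 < ρ j := fun j => div_pos hgpos (hμpos j)
  have hρanti : Antitone ρ := fun i j hij =>
    div_le_div_of_nonneg_left hgpos.le (hμpos i) (hμmono i j hij)
  have hρprod : ∏ j, ρ j = 1 := by
    rw [hρ, Finset.prod_div_distrib, Finset.prod_const, Finset.card_univ, Fintype.card_fin, hgn,
      div_self hprodpos.ne']
  obtain ⟨π, hπ⟩ := exists_modt (v := v) (hS.m_pos w₀) A t ht x
  have ht' := modt_pos (m := m) w₀ π hρpos ht
  have hwt : wt m (modt m w₀ π ρ t) = wt m t := by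
    rw [wt_modt (hS.m_pos w₀) π hρpos, hρprod, one_mul]
  obtain ⟨y, hy, hyNN⟩ := hsmall _ ht'
  rw [hwt] at hyNN
  obtain ⟨j, hj1, hj2⟩ := exists_first hx.indep hy.1
  have h1 := hx.min j y hy hj2
  have h2 := hπ ρ hρpos hρanti j y hj1
  have hwtpos : 0 < wt m t := wt_pos ht
  have hwr : 0 < wt m t ^ (1 / (n : ℝ)) := Real.rpow_pos_of_pos hwtpos _
  have h3 : g ≤ 2 ^ n * F * C₇ * wt m t ^ (1 / (n : ℝ)) := by
    have e1 : g = 2 ^ (j : ℕ) * (ρ j * NN v m A t (x j)) := by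
      have hne := (hNN j).ne'
      have h2p : (2 : ℝ) ^ (j : ℕ) ≠ 0 := by positivity
      show g = 2 ^ (j : ℕ) * (g / (2 ^ (j : ℕ) * NN v m A t (x j)) * NN v m A t (x j))
      field_simp
    have h4 : (2 : ℝ) ^ (j : ℕ) * 2 ≤ 2 ^ n := by
      rw [← pow_succ]
      exact pow_le_pow_right₀ (by norm_num) j.2
    have hNNy : 0 ≤ NN v m A t y := NN_nonneg (fun w i => (ht w i).le) y
    have hNNy' : 0 ≤ F * NN v m A (modt m w₀ π ρ t) y :=
      mul_nonneg hFpos.le (NN_nonneg (fun w i => (ht' w i).le) y)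
    calc g = 2 ^ (j : ℕ) * (ρ j * NN v m A t (x j)) := e1
      _ ≤ 2 ^ (j : ℕ) * (ρ j * (2 * NN v m A t y)) :=
          mul_le_mul_of_nonneg_left (mul_le_mul_of_nonneg_left h1 (hρpos j).le) (by positivity)
      _ = 2 ^ (j : ℕ) * 2 * (ρ j * NN v m A t y) := by ring
      _ ≤ 2 ^ (j : ℕ) * 2 * (F * NN v m A (modt m w₀ π ρ t) y) :=
          mul_le_mul_of_nonneg_left h2 (by positivity)
      _ ≤ 2 ^ n * (F * NN v m A (modt m w₀ π ρ t) y) := mul_le_mul_of_nonneg_right h4 hNNy'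
      _ ≤ 2 ^ n * (F * (C₇ * wt m t ^ (1 / (n : ℝ)))) :=
          mul_le_mul_of_nonneg_left (mul_le_mul_of_nonneg_left hyNN hFpos.le) (by positivity)
      _ = 2 ^ n * F * C₇ * wt m t ^ (1 / (n : ℝ)) := by ring
  calc ∏ j, NN v m A t (x j) ≤ ∏ j, μ j := by
        refine Finset.prod_le_prod (fun j _ => (hNN j).le) fun j _ => ?_
        exact le_mul_of_one_le_left (hNN j).le (one_le_pow₀ (by norm_num))
    _ = g ^ n := hgn.symm
    _ ≤ (2 ^ n * F * C₇ * wt m t ^ (1 / (n : ℝ))) ^ n := pow_le_pow_left₀ hgpos.le h3 n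
    _ = (2 ^ n * F * C₇) ^ n * wt m t := by
        rw [mul_pow, ← Real.rpow_natCast (wt m t ^ (1 / (n : ℝ))), ← Real.rpow_mul hwtpos.le,
          one_div, inv_mul_cancel₀ hn0, Real.rpow_one]
    _ ≤ max 1 ((2 ^ n * F * C₇) ^ n) * wt m t :=
        mul_le_mul_of_nonneg_right (le_max_right _ _) hwtpos.le

end Pool.Agent.Work.SUB
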